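import Pool.Agent.H30Z.LA.Small

/-! Amalgamation holds when some real is not constructible from `A`. -/

namespace Pool.Agent.H30Z.LA

open CohenE ZFSet Ordinal Forc AP

abbrev Sy : Z := ZFSet.prod ZFSet.omega (ZFSet.prod ZFSet.omega ZFSet.omega)

theorem sym_mem (a b c : ℕ) : sym a b c ∈ Sy := by
  simp [sym, pair_mem_prod, nat_mem_omega]

theorem Emb.iff {f : Z} {S T : St} (h : Emb f S T) (s : Z) {x y : Z} (hx : x ∈ S.A)
    (hy : y ∈ S.A) : pair s (pair x y) ∈ S.R ↔ pair s (pair (app f x) (app f y)) ∈ T.R :=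
  h.2 s x y _ _ ((inj_app h.1 _ _).2 ⟨hx, rfl⟩) ((inj_app h.1 _ _).2 ⟨hy, rfl⟩)

theorem emb_side {S₀ S S' N : St} {f f' z : Z} {G G' : Z → Z} (hf : Emb f S₀ S)
    (hf' : Emb f' S₀ S') (wf : S.R ⊆ ZFSet.prod Sy (ZFSet.prod S.A S.A))
    (maps : ∀ x ∈ S.A, G x ∈ N.A) (inj : ∀ x ∈ S.A, ∀ x' ∈ S.A, G x = G x' → x = x')
    (hz : ∀ x ∈ S.A, G x ≠ z)
    (cross : ∀ x ∈ S.A, ∀ x' ∈ S'.A, G x = G' x' → ∃ x₀ ∈ S₀.A, app f x₀ = x ∧ app f' x₀ = x')
    {P : Z → Prop} (hR : ∀ s u t, u ∈ N.A → t ∈ N.A → (pair s (pair u t) ∈ N.R ↔ s ∈ Sy ∧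
      (((∃ a, a ∈ S.A ∧ ∃ b, b ∈ S.A ∧ pair u t = pair (G a) (G b) ∧ pair s (pair a b) ∈ S.R) ∨
      (∃ a, a ∈ S'.A ∧ ∃ b, b ∈ S'.A ∧ pair u t = pair (G' a) (G' b) ∧
        pair s (pair a b) ∈ S'.R)) ∨ (pair u t = pair z z ∧ P s)))) : Emb (grf G S.A) S N := by
  refine ⟨grf_inj maps inj, fun s x y x' y' h1 h2 => ?_⟩
  obtain ⟨hx, rfl⟩ := pair_mem_grf.1 h1
  obtain ⟨hy, rfl⟩ := pair_mem_grf.1 h2
  rw [hR s _ _ (maps x hx) (maps y hy)]
  refine ⟨fun h => ⟨(pair_mem_prod.1 (wf h)).1, Or.inl (Or.inl ⟨x, hx, y, hy, rfl, h⟩)⟩, ?_⟩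
  simp only [pair_inj]
  rintro ⟨-, (⟨a, ha, b, hb, ⟨e1, e2⟩, h⟩ | ⟨a, ha, b, hb, ⟨e1, e2⟩, h⟩) | ⟨⟨e, -⟩, -⟩⟩
  · rw [inj x hx a ha e1, inj y hy b hb e2]; exact h
  · obtain ⟨x₀, c1, rfl, rfl⟩ := cross x hx a ha e1
    obtain ⟨y₀, c2, rfl, rfl⟩ := cross y hy b hb e2
    exact (hf.iff s c1 c2).1 ((hf'.iff s c1 c2).2 h)
  · exact absurd e (hz x hx)

variable {M : Set Z} [hM : Fact (ZFM M)] {A : Z}

theorem amalg_of (hA : A ⊆ ZFSet.omega) (hA' : A ∈ M) {c : Z} (hc : c ∈ M)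
    (hc1 : c ⊆ ZFSet.omega) (hc2 : c ∉ LL M A) {k : O} (hk : OCard M k) (hω : ω ≤ k) :
    Amalg M (phi A) k.toZFSet := by
  classical
  rintro S₀ S₁ S₂ ⟨hA0, -, -, -, -⟩ ⟨hA1, hR1, w1, s1, b1, hb1, b1b, -⟩
    ⟨hA2, hR2, w2, s2, b2, hb2, b2b, -⟩ f1 hf1 f2 hf2 e1 e2
  obtain ⟨T1, hT1, t1⟩ := small_of_sat hA hA' hc hc1 hc2 hA1 hR1 s1
  obtain ⟨T2, hT2, t2⟩ := small_of_sat hA hA' hc hc1 hc2 hA2 hR2 s2
  have hkM := hk.1
  have hn : ∀ n : ℕ, (n : O) < k := fun n => (natCast_lt_omega0 n).trans_le hω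
  have β : ∀ {b a : Z}, IsInj b a k.toZFSet → (∀ x ∈ a, ro (app b x) < k) ∧
      ∀ x ∈ a, ∀ y ∈ a, ro (app b x) = ro (app b y) → x = y := by
    intro b a h
    have h1 : ∀ x ∈ a, ∃ d < k, d.toZFSet = app b x :=
      fun x hx => mem_toZFSet_iff.1 (inj_maps h x hx)
    refine ⟨fun x hx => ?_, fun x hx y hy e => inj_inj h x hx y hy ?_⟩
    · obtain ⟨d, hd, e⟩ := h1 x hx
      rwa [← e, ro_toZ]
    · obtain ⟨d, -, e1⟩ := h1 x hx
      obtain ⟨d', -, e2⟩ := h1 y hy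
      rw [← e1, ← e2] at e ⊢
      simpa [toZ_inj] using e
  obtain ⟨G1, hG1⟩ : ∃ G1 : Z → Z, G1 = fun x => (Gam 0 (ro (app b1 x))).toZFSet := ⟨_, rfl⟩
  obtain ⟨pre, hpre⟩ : ∃ pre : Z → Z, pre = fun y => the fun x => x ∈ S₀.A ∧ app f2 x = y :=
    ⟨_, rfl⟩
  obtain ⟨G2, hG2⟩ : ∃ G2 : Z → Z, G2 = fun y => if ∃ x, x ∈ S₀.A ∧ app f2 x = y then
    G1 (app f1 (pre y)) else (Gam 1 (ro (app b2 y))).toZFSet := ⟨_, rfl⟩
  have d1 : Fn M fun w => G1 (w 0) := by rw [hG1]; (repeat' (beta_reduce; (first | with_reducible (first | refine On.idx ‹_› ?_ | refine Fn.GF ‹_› ?_ | refine Fn.GS ‹_› ?_ | apply Df.isInj | apply Df.isCard | apply On.K1 | apply On.K2 | apply On.Gam | apply Fn.ran | apply Fn.zfst | apply Fn.zsnd | exact Fn.var _ | exact Fn.const ‹_› | exact On.const ‹_› | exact Df.prop _ | apply Df.and | apply Df.or | apply Df.not | apply Df.iff | apply Df.ex | apply Df.bex | apply Df.oex | apply Df.obex | apply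 Df.all | apply Df.ball | apply Df.oall | apply Df.oball | apply Df.imp | apply Df.mem | apply Df.eq | apply Df.oeq | apply Df.olt | apply Df.ole | apply Df.subset | apply Df.isOrdinal | apply Fn.pair | apply Fn.app | apply Fn.upair | apply Fn.single | apply Fn.insert | apply Fn.union | apply Fn.sUnion | apply Fn.prod | apply Fn.sep | apply Fn.img | apply Fn.ite | exact Fn.omega | exact Fn.empty | exact Fn.nat _ | apply On.fn | apply On.ro | apply On.succ | apply On.max | apply On.ite | apply On.mu | exact On.zero | exact On.one | exact On.omega | exact On.nat _) | exact On.ofNat _ | with_reducible (first | refine Fn.osub1 ‹_› ?_ | refine On.sub1 ‹_› ?_ | refine Df.osub1 ‹_› ?_ | refine On.zsub1 ‹_› ?_ | refine Fn.sub1 ‹_› ?_ | refine Df.sub1 ‹_› ?_ | refine Fn.sub2 ‹_› ?_ ?_ | refine Df.sub2 ‹_› ?_ ?_))))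
  have dp : Fn M fun w => pre (w 0) := by
    rw [hpre]
    exact Fn.the (R := fun v x => x ∈ S₀.A ∧ app f2 x = v 0) (by (repeat' (beta_reduce; (first | with_reducible (first | refine On.idx ‹_› ?_ | refine Fn.GF ‹_› ?_ | refine Fn.GS ‹_› ?_ | apply Df.isInj | apply Df.isCard | apply On.K1 | apply On.K2 | apply On.Gam | apply Fn.ran | apply Fn.zfst | apply Fn.zsnd | exact Fn.var _ | exact Fn.const ‹_› | exact On.const ‹_› | exact Df.prop _ | apply Df.and | apply Df.or | apply Df.not | apply Df.iff | apply Df.ex | apply Df.bex | apply Df.oex | apply Df.obex | apply Df.all | apply Df.ball | apply Df.oall | apply Df.oball | apply Df.imp | apply Df.mem | apply Df.eq | apply Df.oeq | apply Df.olt | apply Df.ole | apply Df.subset | apply Df.isOrdinal | apply Fn.pair | apply Fn.app | apply Fn.upair | apply Fn.single | apply Fn.insert | apply Fn.union | apply Fn.sUnion | apply Fn.prod | apply Fn.sep | apply Fn.img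 | apply Fn.ite | exact Fn.omega | exact Fn.empty | exact Fn.nat _ | apply On.fn | apply On.ro | apply On.succ | apply On.max | apply On.ite | apply On.mu | exact On.zero | exact On.one | exact On.omega | exact On.nat _) | exact On.ofNat _ | with_reducible (first | refine Fn.osub1 ‹_› ?_ | refine On.sub1 ‹_› ?_ | refine Df.osub1 ‹_› ?_ | refine On.zsub1 ‹_› ?_ | refine Fn.sub1 ‹_› ?_ | refine Df.sub1 ‹_› ?_ | refine Fn.sub2 ‹_› ?_ ?_ | refine Df.sub2 ‹_› ?_ ?_))))) (fun _ _ _ h => tr hA0 h.1)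
      fun _ _ x y hx hy => inj_inj e2.1 x hx.1 y hy.1 (hx.2.trans hy.2.symm)
  have d2 : Fn M fun w => G2 (w 0) := by
    rw [hG2]
    exact Fn.ite (by (repeat' (beta_reduce; (first | with_reducible (first | refine On.idx ‹_› ?_ | refine Fn.GF ‹_› ?_ | refine Fn.GS ‹_› ?_ | apply Df.isInj | apply Df.isCard | apply On.K1 | apply On.K2 | apply On.Gam | apply Fn.ran | apply Fn.zfst | apply Fn.zsnd | exact Fn.var _ | exact Fn.const ‹_› | exact On.const ‹_› | exact Df.prop _ | apply Df.and | apply Df.or | apply Df.not | apply Df.iff | apply Df.ex | apply Df.bex | apply Df.oex | apply Df.obex | apply Df.all | apply Df.ball | apply Df.oall | apply Df.oball | apply Df.imp | apply Df.mem | apply Df.eq | apply Df.oeq | apply Df.olt | apply Df.ole | apply Df.subset | apply Df.isOrdinal | apply Fn.pair | apply Fn.app | apply Fn.upair | apply Fn.single | apply Fn.insert | apply Fn.union | apply Fn.sUnion | apply Fn.prod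 | apply Fn.sep | apply Fn.img | apply Fn.ite | exact Fn.omega | exact Fn.empty | exact Fn.nat _ | apply On.fn | apply On.ro | apply On.succ | apply On.max | apply On.ite | apply On.mu | exact On.zero | exact On.one | exact On.omega | exact On.nat _) | exact On.ofNat _ | with_reducible (first | refine Fn.osub1 ‹_› ?_ | refine On.sub1 ‹_› ?_ | refine Df.osub1 ‹_› ?_ | refine On.zsub1 ‹_› ?_ | refine Fn.sub1 ‹_› ?_ | refine Df.sub1 ‹_› ?_ | refine Fn.sub2 ‹_› ?_ ?_ | refine Df.sub2 ‹_› ?_ ?_))))) (d1.sub1 ((Fn.const hf1).app dp)) (by (repeat' (beta_reduce; (first | with_reducible (first | refine On.idx ‹_› ?_ | refine Fn.GF ‹_› ?_ | refine Fn.GS ‹_› ?_ | apply Df.isInj | apply Df.isCard | apply On.K1 | apply On.K2 | apply On.Gam | apply Fn.ran | apply Fn.zfst | apply Fn.zsnd | exact Fn.var _ | exact Fn.const ‹_› | exact On.const ‹_› | exact Df.prop _ | apply Df.and | apply Df.or | apply Df.not | apply Df.iff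 | apply Df.ex | apply Df.bex | apply Df.oex | apply Df.obex | apply Df.all | apply Df.ball | apply Df.oall | apply Df.oball | apply Df.imp | apply Df.mem | apply Df.eq | apply Df.oeq | apply Df.olt | apply Df.ole | apply Df.subset | apply Df.isOrdinal | apply Fn.pair | apply Fn.app | apply Fn.upair | apply Fn.single | apply Fn.insert | apply Fn.union | apply Fn.sUnion | apply Fn.prod | apply Fn.sep | apply Fn.img | apply Fn.ite | exact Fn.omega | exact Fn.empty | exact Fn.nat _ | apply On.fn | apply On.ro | apply On.succ | apply On.max | apply On.ite | apply On.mu | exact On.zero | exact On.one | exact On.omega | exact On.nat _) | exact On.ofNat _ | with_reducible (first | refine Fn.osub1 ‹_› ?_ | refine On.sub1 ‹_› ?_ | refine Df.osub1 ‹_› ?_ | refine On.zsub1 ‹_› ?_ | refine Fn.sub1 ‹_› ?_ | refine Df.sub1 ‹_› ?_ | refine Fn.sub2 ‹_› ?_ ?_ | refine Df.sub2 ‹_› ?_ ?_)))))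
  have g2 : ∀ x ∈ S₀.A, G2 (app f2 x) = G1 (app f1 x) := by
    intro x hx
    have h1 : ∃ x', x' ∈ S₀.A ∧ app f2 x' = app f2 x := ⟨x, hx, rfl⟩
    have h2 := the_spec h1
    simp only [hG2, if_pos h1, hpre]
    rw [inj_inj e2.1 _ h2.1 _ hx h2.2]
  have g2' : ∀ y, (∃ x ∈ S₀.A, app f2 x = y) ∨ G2 y = (Gam 1 (ro (app b2 y))).toZFSet := by
    intro y
    by_cases h : ∃ x, x ∈ S₀.A ∧ app f2 x = y
    · exact Or.inl h
    · exact Or.inr (by simp only [hG2, if_neg h])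
  have m1 : ∀ x ∈ S₁.A, G1 x ∈ k.toZFSet := fun x hx => by
    rw [hG1]; exact toZFSet_mem_toZFSet_iff.2 (hk.Gam_lt hω (hn 0) ((β b1b).1 x hx))
  have m2 : ∀ x ∈ S₂.A, G2 x ∈ k.toZFSet := fun y hy => by
    rcases g2' y with ⟨x, hx, rfl⟩ | h
    · rw [g2 x hx]; exact m1 _ (inj_maps e1.1 x hx)
    · rw [h]
      exact toZFSet_mem_toZFSet_iff.2 (hk.Gam_lt hω (by simpa using hn 1) ((β b2b).1 y hy))
  have i1 : ∀ x ∈ S₁.A, ∀ x' ∈ S₁.A, G1 x = G1 x' → x = x' := fun x hx x' hx' e =>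
    (β b1b).2 x hx x' hx' (by simpa [hG1, toZ_inj, Gam_inj] using e)
  have cross : ∀ x ∈ S₁.A, ∀ x' ∈ S₂.A, G1 x = G2 x' →
      ∃ x₀ ∈ S₀.A, app f1 x₀ = x ∧ app f2 x₀ = x' := by
    intro x hx y hy e
    rcases g2' y with ⟨x₀, h, rfl⟩ | h
    · exact ⟨x₀, h, (i1 _ hx _ (inj_maps e1.1 _ h) (e.trans (g2 _ h))).symm, rfl⟩
    · rw [h, hG1] at e
      simp [toZ_inj, Gam_inj] at e
  have i2 : ∀ x ∈ S₂.A, ∀ x' ∈ S₂.A, G2 x = G2 x' → x = x' := by
    have aux : ∀ x ∈ S₀.A, ∀ y ∈ S₂.A, G2 (app f2 x) = G2 y → app f2 x = y := by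
      intro x hx y hy e
      obtain ⟨x₀, h1, h2, rfl⟩ := cross _ (inj_maps e1.1 x hx) y hy ((g2 x hx).symm.trans e)
      rw [inj_inj e1.1 _ h1 _ hx h2]
    intro y hy y' hy' e
    rcases g2' y with ⟨x, hx, rfl⟩ | h
    · exact aux x hx y' hy' e
    · rcases g2' y' with ⟨x, hx, rfl⟩ | h'
      · exact (aux x hx y hy e.symm).symm
      · rw [h, h'] at e
        exact (β b2b).2 y hy y' hy' (by simpa [toZ_inj, Gam_inj] using e)
  have z1 : ∀ x, G1 x ≠ (Gam 2 0).toZFSet := fun x e => by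
    simp [hG1, toZ_inj, Gam_inj] at e
  have z2 : ∀ y, G2 y ≠ (Gam 2 0).toZFSet := fun y e => by
    rcases g2' y with ⟨x, hx, rfl⟩ | h
    · exact z1 _ ((g2 x hx).symm.trans e)
    · rw [h] at e
      simp [toZ_inj, Gam_inj] at e
  have zk : (Gam 2 0).toZFSet ∈ k.toZFSet :=
    toZFSet_mem_toZFSet_iff.2 (hk.Gam_lt hω (by simpa using hn 2) (hn 0))
  obtain ⟨T, hT⟩ : ∃ T : Z, T = ZFSet.sep (fun p => pair (K2 (ro (zfst p))).toZFSet (zsnd p) ∈
    (if K1 (ro (zfst p)) = 0 then T1 else T2)) (ZFSet.prod ZFSet.omega ZFSet.omega) := ⟨_, rfl⟩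
  have hTM : T ∈ M := Fn.val (by rw [hT]; (repeat' (beta_reduce; (first | with_reducible (first | refine On.idx ‹_› ?_ | refine Fn.GF ‹_› ?_ | refine Fn.GS ‹_› ?_ | apply Df.isInj | apply Df.isCard | apply On.K1 | apply On.K2 | apply On.Gam | apply Fn.ran | apply Fn.zfst | apply Fn.zsnd | exact Fn.var _ | exact Fn.const ‹_› | exact On.const ‹_› | exact Df.prop _ | apply Df.and | apply Df.or | apply Df.not | apply Df.iff | apply Df.ex | apply Df.bex | apply Df.oex | apply Df.obex | apply Df.all | apply Df.ball | apply Df.oall | apply Df.oball | apply Df.imp | apply Df.mem | apply Df.eq | apply Df.oeq | apply Df.olt | apply Df.ole | apply Df.subset | apply Df.isOrdinal | apply Fn.pair | apply Fn.app | apply Fn.upair | apply Fn.single | apply Fn.insert | apply Fn.union | apply Fn.sUnion | apply Fn.prod | apply Fn.sep | apply Fn.img | apply Fn.ite | exact Fn.omega | exact Fn.empty | exact Fn.nat _ | apply On.fn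 | apply On.ro | apply On.succ | apply On.max | apply On.ite | apply On.mu | exact On.zero | exact On.one | exact On.omega | exact On.nat _) | exact On.ofNat _ | with_reducible (first | refine Fn.osub1 ‹_› ?_ | refine On.sub1 ‹_› ?_ | refine Df.osub1 ‹_› ?_ | refine On.zsub1 ‹_› ?_ | refine Fn.sub1 ‹_› ?_ | refine Df.sub1 ‹_› ?_ | refine Fn.sub2 ‹_› ?_ ?_ | refine Df.sub2 ‹_› ?_ ?_)))))
  obtain ⟨R, hR⟩ : ∃ R : Z, R = ZFSet.sep (fun q =>
    ((∃ a, a ∈ S₁.A ∧ ∃ b, b ∈ S₁.A ∧ zsnd q = pair (G1 a) (G1 b) ∧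
      pair (zfst q) (pair a b) ∈ S₁.R) ∨
    (∃ a, a ∈ S₂.A ∧ ∃ b, b ∈ S₂.A ∧ zsnd q = pair (G2 a) (G2 b) ∧
      pair (zfst q) (pair a b) ∈ S₂.R)) ∨
    (zsnd q = pair (Gam 2 0).toZFSet (Gam 2 0).toZFSet ∧ ∃ p, p ∈ T ∧ zfst q = pair (nat 0) p))
    (ZFSet.prod Sy (ZFSet.prod k.toZFSet k.toZFSet)) := ⟨_, rfl⟩
  have hRM : R ∈ M := by
    have d1' : ∀ {s : (ℕ → Z) → Z}, Fn M s → Fn M fun v => G1 (s v) := fun h => d1.sub1 h
    have d2' : ∀ {s : (ℕ → Z) → Z}, Fn M s → Fn M fun v => G2 (s v) := fun h => d2.sub1 h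
    refine Fn.val ?_
    rw [hR]
    repeat' (beta_reduce; first | with_reducible apply d1' | with_reducible apply d2' | (first | with_reducible (first | refine On.idx ‹_› ?_ | refine Fn.GF ‹_› ?_ | refine Fn.GS ‹_› ?_ | apply Df.isInj | apply Df.isCard | apply On.K1 | apply On.K2 | apply On.Gam | apply Fn.ran | apply Fn.zfst | apply Fn.zsnd | exact Fn.var _ | exact Fn.const ‹_› | exact On.const ‹_› | exact Df.prop _ | apply Df.and | apply Df.or | apply Df.not | apply Df.iff | apply Df.ex | apply Df.bex | apply Df.oex | apply Df.obex | apply Df.all | apply Df.ball | apply Df.oall | apply Df.oball | apply Df.imp | apply Df.mem | apply Df.eq | apply Df.oeq | apply Df.olt | apply Df.ole | apply Df.subset | apply Df.isOrdinal | apply Fn.pair | apply Fn.app | apply Fn.upair | apply Fn.single | apply Fn.insert | apply Fn.union | apply Fn.sUnion | apply Fn.prod | apply Fn.sep | apply Fn.img | apply Fn.ite | exact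 Fn.omega | exact Fn.empty | exact Fn.nat _ | apply On.fn | apply On.ro | apply On.succ | apply On.max | apply On.ite | apply On.mu | exact On.zero | exact On.one | exact On.omega | exact On.nat _) | exact On.ofNat _ | with_reducible (first | refine Fn.osub1 ‹_› ?_ | refine On.sub1 ‹_› ?_ | refine Df.osub1 ‹_› ?_ | refine On.zsub1 ‹_› ?_ | refine Fn.sub1 ‹_› ?_ | refine Df.sub1 ‹_› ?_ | refine Fn.sub2 ‹_› ?_ ?_ | refine Df.sub2 ‹_› ?_ ?_)))
  have E1 : Emb (grf G1 S₁.A) S₁ ⟨k.toZFSet, R⟩ :=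
    emb_side (G' := G2) (P := fun s => ∃ p, p ∈ T ∧ s = pair (nat 0) p) e1 e2 w1 m1 i1
      (fun x _ => z1 x) cross fun s u t hu ht => by
        simp only [hR, mem_sep, pair_mem_prod, zfst_pair, zsnd_pair, hu, ht, and_true]
  have E2 : Emb (grf G2 S₂.A) S₂ ⟨k.toZFSet, R⟩ :=
    emb_side (G' := G1) (P := fun s => ∃ p, p ∈ T ∧ s = pair (nat 0) p) e2 e1 w2 m2 i2
      (fun x _ => z2 x) (fun x hx x' hx' e => (cross x' hx' x hx e.symm).imp
        fun _ h => ⟨h.1, h.2.2, h.2.1⟩) fun s u t hu ht => by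
        simp only [hR, mem_sep, pair_mem_prod, zfst_pair, zsnd_pair, hu, ht, and_true]
        rw [or_comm (a := ∃ a, a ∈ S₁.A ∧ _)]
  have hz : ∀ i t, St.r ⟨k.toZFSet, R⟩ 0 i t (Gam 2 0).toZFSet (Gam 2 0).toZFSet ↔
      pair (nat i) (nat t) ∈ T := by
    intro i t
    simp only [St.r, hR, mem_sep, pair_mem_prod, zfst_pair, zsnd_pair, zk, sym_mem, pair_inj,
      (z1 _).symm, (z2 _).symm, false_and, and_false, exists_false, false_or, true_and, sym]
    exact ⟨fun ⟨_, p, h, e⟩ => e ▸ h, fun h => ⟨by simp [nat_mem_omega], _, h, rfl⟩⟩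
  have hT' : ∀ (ε : O) (i : ℕ), ε < ω → ∃ m : ℕ, ∀ t, pair (nat m) (nat t) ∈ T ↔
      pair (nat i) (nat t) ∈ if ε = 0 then T1 else T2 := by
    intro ε i hε
    obtain ⟨m, hm⟩ := lt_omega0.1 (Gam_omega hε (natCast_lt_omega0 i))
    refine ⟨m, fun t => ?_⟩
    rw [hT, mem_sep, pair_mem_prod, zfst_pair, zsnd_pair, ← toZ_nat m, ← hm, ro_toZ, K1_Gam,
      K2_Gam, toZ_nat, hm, toZ_nat]
    simp [nat_mem_omega]
  have hRs : R ⊆ ZFSet.prod Sy (ZFSet.prod k.toZFSet k.toZFSet) := by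
    rw [hR]; exact fun q hq => (mem_sep.1 hq).1
  refine ⟨⟨k.toZFSet, R⟩, ⟨hkM, hRM, hRs, sat_phi.2 (Or.inl
    ⟨_, zk, fun x hx h => ?_⟩), (Eqv.refl _).set hkM⟩, _, grf_M d1 hA1, _, grf_M d2 hA2, E1, E2,
    fun x y1 y2 z h1 h2 => ?_⟩
  · have h1 := hx.2
    simp only [St.r, hR, mem_sep, zfst_pair, zsnd_pair, pair_inj] at h1
    rcases h1.2 with (⟨a, ha, b, hb, ⟨rfl, h2⟩, h3⟩ | ⟨a, ha, b, hb, ⟨rfl, h2⟩, h3⟩) | ⟨-, p, -, h2⟩
    · obtain rfl := i1 a ha b hb h2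
      obtain ⟨i, hi⟩ := t1 a ⟨ha, h3⟩
      obtain ⟨m, hm⟩ := hT' 0 i omega0_pos
      obtain ⟨j, hj⟩ := h m
      refine hi j fun t => ?_
      rw [if_pos rfl] at hm
      exact (hm t).symm.trans ((hz m t).symm.trans ((hj t).trans (E1.2 _ _ _ _ _
        (pair_mem_grf.2 ⟨ha, rfl⟩) (pair_mem_grf.2 ⟨ha, rfl⟩)).symm))
    · obtain rfl := i2 a ha b hb h2
      obtain ⟨i, hi⟩ := t2 a ⟨ha, h3⟩
      obtain ⟨m, hm⟩ := hT' 1 i one_lt_omega0
      obtain ⟨j, hj⟩ := h m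
      refine hi j fun t => ?_
      rw [if_neg one_ne_zero] at hm
      exact (hm t).symm.trans ((hz m t).symm.trans ((hj t).trans (E2.2 _ _ _ _ _
        (pair_mem_grf.2 ⟨ha, rfl⟩) (pair_mem_grf.2 ⟨ha, rfl⟩)).symm))
    · exact absurd (nat_inj (pair_inj.1 h2).1) (by norm_num)
  · obtain ⟨hx, rfl⟩ := (inj_app e1.1 _ _).1 h1
    obtain ⟨-, rfl⟩ := (inj_app e2.1 _ _).1 h2
    simp only [pair_mem_grf, inj_maps e1.1 x hx, inj_maps e2.1 x hx, g2 x hx]

end Pool.Agent.H30Z.LA
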