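import Pool.Agent.H30Z.AP.Defs

/-!
Cardinals, GCH and the `ℵ`-function of a transitive set `M`; `L_{ω₁,ω}`-sentences in a countable
vocabulary of binary relation symbols; the amalgamation property evaluated inside `M`.
`IsInj`, `IsBij` (set functions that are injective, bijective) are from `AP.Defs`.
-/

namespace Pool.Agent.H30Z.LA

open CohenE ZFSet AP

/-- `κ` is a cardinal of `M`: an ordinal of `M` with no bijection in `M` from a smaller ordinal. -/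
def IsCard (M : Set ZFSet.{0}) (κ : ZFSet.{0}) : Prop :=
  κ ∈ M ∧ κ.IsOrdinal ∧ ∀ β ∈ κ, ¬ ∃ f ∈ M, IsBij f β κ

/-- `κ` is an infinite cardinal of `M`. -/
def InfCard (M : Set ZFSet.{0}) (κ : ZFSet.{0}) : Prop := IsCard M κ ∧ omega ⊆ κ

/-- `M ⊨ GCH`: for every infinite cardinal `κ` of `M`, the power set of `κ` in `M` is in bijection
in `M` with the least cardinal of `M` above `κ`. -/
def GCH (M : Set ZFSet.{0}) : Prop :=
  ∀ κ, InfCard M κ → ∀ p ∈ M, (∀ y ∈ M, y ∈ p ↔ y ⊆ κ) →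
    ∃ l, IsCard M l ∧ κ ∈ l ∧ (∀ μ, IsCard M μ → κ ∈ μ → l ⊆ μ) ∧ ∃ f ∈ M, IsBij f p l

/-- `κ = ℵ_α` in `M`: `κ` is an infinite cardinal of `M` and the infinite cardinals of `M` below
`κ` are enumerated in increasing order by `α`. -/
def IsAleph (M : Set ZFSet.{0}) (α κ : ZFSet.{0}) : Prop :=
  InfCard M κ ∧ ∃ g : ZFSet.{0} → ZFSet.{0}, (∀ β ∈ α, InfCard M (g β) ∧ g β ∈ κ) ∧
    (∀ β ∈ α, ∀ γ ∈ β, g γ ∈ g β) ∧ ∀ l ∈ κ, InfCard M l → ∃ β ∈ α, g β = l

/-- Formulas of `L_{ω₁,ω}` (de Bruijn variables) in the vocabulary of binary relation symbols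
`R a b c` (`a b c : ℕ`): equality, `R a b c`, negation, binary and countable conjunction,
existential quantifier. -/
inductive LF : Type
  | eq (i j : ℕ) : LF
  | rel (a b c i j : ℕ) : LF
  | neg (φ : LF) : LF
  | and (φ ψ : LF) : LF
  | conj (f : ℕ → LF) : LF
  | ex (φ : LF) : LF

/-- All free variables have index `< k`. `Clo 0 φ` says that `φ` is a sentence. -/
def Clo : ℕ → LF → Prop
  | k, .eq i j => i < k ∧ j < k
  | k, .rel _ _ _ i j => i < k ∧ j < k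
  | k, .neg φ => Clo k φ
  | k, .and φ ψ => Clo k φ ∧ Clo k ψ
  | k, .conj f => ∀ n, Clo k (f n)
  | k, .ex φ => Clo (k + 1) φ

/-- The symbol `R a b c` as a set. -/
noncomputable def sym (a b c : ℕ) : ZFSet.{0} := pair (nat a) (pair (nat b) (nat c))

/-- The formula as a hereditarily countable set. -/
noncomputable def cod : LF → ZFSet.{0}
  | .eq i j => pair (nat 0) (pair (nat i) (nat j))
  | .rel a b c i j => pair (nat 1) (pair (sym a b c) (pair (nat i) (nat j)))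
  | .neg φ => pair (nat 2) (cod φ)
  | .and φ ψ => pair (nat 3) (pair (cod φ) (cod ψ))
  | .conj f => pair (nat 4) (range fun n : ℕ => pair (nat n) (cod (f n)))
  | .ex φ => pair (nat 5) (cod φ)

/-- A structure: the universe `A` and the set `R` of the triples `(s, x, y)` such that the symbol
`s` holds of `(x, y)`. -/
structure St where
  A : ZFSet.{0}
  R : ZFSet.{0}

/-- Satisfaction in the structure `S` under the assignment `v`. -/
def LSat (S : St) : (ℕ → ZFSet.{0}) → LF → Prop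
  | v, .eq i j => v i = v j
  | v, .rel a b c i j => pair (sym a b c) (pair (v i) (v j)) ∈ S.R
  | v, .neg φ => ¬ LSat S v φ
  | v, .and φ ψ => LSat S v φ ∧ LSat S v ψ
  | v, .conj f => ∀ n, LSat S v (f n)
  | v, .ex φ => ∃ a, a ∈ S.A ∧ LSat S (scons a v) φ

/-- `S` is, in `M`, a model of the sentence `φ` of size `κ`. -/
def Mod (M : Set ZFSet.{0}) (φ : LF) (κ : ZFSet.{0}) (S : St) : Prop :=
  S.A ∈ M ∧ S.R ∈ M ∧ S.R ⊆ prod (prod omega (prod omega omega)) (prod S.A S.A) ∧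
    LSat S (fun _ => ∅) φ ∧ ∃ f ∈ M, IsBij f S.A κ

/-- `f` is an embedding of `S` into `T`. -/
def Emb (f : ZFSet.{0}) (S T : St) : Prop :=
  IsInj f S.A T.A ∧ ∀ s x y x' y', pair x x' ∈ f → pair y y' ∈ f →
    (pair s (pair x y) ∈ S.R ↔ pair s (pair x' y') ∈ T.R)

/-- In `M`, the models of `φ` of size `κ` satisfy amalgamation. -/
def Amalg (M : Set ZFSet.{0}) (φ : LF) (κ : ZFSet.{0}) : Prop :=
  ∀ S₀ S₁ S₂, Mod M φ κ S₀ → Mod M φ κ S₁ → Mod M φ κ S₂ →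
    ∀ f₁ ∈ M, ∀ f₂ ∈ M, Emb f₁ S₀ S₁ → Emb f₂ S₀ S₂ →
      ∃ N, Mod M φ κ N ∧ ∃ g₁ ∈ M, ∃ g₂ ∈ M, Emb g₁ S₁ N ∧ Emb g₂ S₂ N ∧
        ∀ x y₁ y₂ z, pair x y₁ ∈ f₁ → pair x y₂ ∈ f₂ → (pair y₁ z ∈ g₁ ↔ pair y₂ z ∈ g₂)

end Pool.Agent.H30Z.LA
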