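import Pool.Agent.H30Z.LA.Enum
import Pool.Agent.H30Z.LA.Defs
import Pool.Agent.H30Z.AP.Omega1

/-! Cardinals of a transitive model. -/

namespace Pool.Agent.H30Z.LA

open CohenE ZFSet Ordinal AP

def Le (M : Set Z) (a b : Z) : Prop := ∃ g : Z → Z, (Fn M fun w => g (w 0)) ∧
  (∀ x ∈ a, g x ∈ b) ∧ ∀ x ∈ a, ∀ y ∈ a, g x = g y → x = y

def Eqv (M : Set Z) (a b : Z) : Prop := ∃ g : Z → Z, (Fn M fun w => g (w 0)) ∧
  (∀ x ∈ a, g x ∈ b) ∧ (∀ x ∈ a, ∀ y ∈ a, g x = g y → x = y) ∧ ∀ y ∈ b, ∃ x ∈ a, g x = y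

/-- graph of a function -/
noncomputable def grf (g : Z → Z) (a : Z) : Z := img (fun x => pair x (g x)) a

theorem pair_mem_grf {g : Z → Z} {a x y : Z} : pair x y ∈ grf g a ↔ x ∈ a ∧ y = g x := by
  rw [grf, mem_img]
  constructor
  · rintro ⟨u, h, e⟩
    rw [pair_inj] at e
    exact ⟨e.1 ▸ h, e.1 ▸ e.2⟩
  · rintro ⟨h, rfl⟩
    exact ⟨x, h, rfl⟩

theorem grf_inj {g : Z → Z} {a b : Z} (h1 : ∀ x ∈ a, g x ∈ b)
    (h2 : ∀ x ∈ a, ∀ y ∈ a, g x = g y → x = y) : IsInj (grf g a) a b := by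
  refine isInj_of_fun (fun z hz => ?_) (fun _ _ => pair_mem_grf) h2
  obtain ⟨x, hx, rfl⟩ := mem_img.1 hz
  exact pair_mem_prod.2 ⟨hx, h1 x hx⟩

theorem inj_app {f a b : Z} (h : IsInj f a b) : ∀ x y, pair x y ∈ f ↔ x ∈ a ∧ y = app f x := by
  obtain ⟨g, h1, -, -⟩ := h.exists_fun
  intro x y
  rw [h1]
  exact and_congr_right fun hx => by
    rw [app_eq ((h1 x _).2 ⟨hx, rfl⟩) fun y hy => ((h1 x y).1 hy).2]

theorem inj_maps {f a b : Z} (h : IsInj f a b) : ∀ x ∈ a, app f x ∈ b := fun x hx =>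
  (pair_mem_prod.1 (h.1.1 ((inj_app h x _).2 ⟨hx, rfl⟩))).2

theorem inj_inj {f a b : Z} (h : IsInj f a b) : ∀ x ∈ a, ∀ y ∈ a, app f x = app f y → x = y :=
  fun x hx y hy e => h.2 x y _ ((inj_app h x _).2 ⟨hx, rfl⟩) ((inj_app h y _).2 ⟨hy, e⟩)

variable {M : Set Z} [hM : Fact (ZFM M)]

theorem grf_M {g : Z → Z} (h : Fn M fun w => g (w 0)) {a : Z} (ha : a ∈ M) : grf g a ∈ M :=
  img_mem (by (repeat' (beta_reduce; (first | with_reducible (first | apply On.K1 | apply On.K2 | apply On.Gam | apply Fn.ran | apply Fn.zfst | apply Fn.zsnd | exact Fn.var _ | exact Fn.const ‹_› | exact On.const ‹_› | exact Df.prop _ | apply Df.and | apply Df.or | apply Df.not | apply Df.iff | apply Df.ex | apply Df.bex | apply Df.oex | apply Df.obex | apply Df.all | apply Df.ball | apply Df.oall | apply Df.oball | apply Df.imp | apply Df.mem | apply Df.eq | apply Df.oeq | apply Df.olt | apply Df.ole | apply Df.subset | apply Df.isOrdinal | apply Fn.pair | apply Fn.app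 | apply Fn.upair | apply Fn.single | apply Fn.insert | apply Fn.union | apply Fn.sUnion | apply Fn.prod | apply Fn.sep | apply Fn.img | apply Fn.ite | exact Fn.omega | exact Fn.empty | exact Fn.nat _ | apply On.fn | apply On.ro | apply On.succ | apply On.max | apply On.ite | apply On.mu | exact On.zero | exact On.one | exact On.omega | exact On.nat _) | exact On.ofNat _ | with_reducible (first | refine Fn.osub1 ‹_› ?_ | refine On.sub1 ‹_› ?_ | refine Df.osub1 ‹_› ?_ | refine On.zsub1 ‹_› ?_ | refine Fn.sub1 ‹_› ?_ | refine Df.sub1 ‹_› ?_ | refine Fn.sub2 ‹_› ?_ ?_ | refine Df.sub2 ‹_› ?_ ?_))))) ha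

theorem Le.set {a b : Z} (h : Le M a b) (ha : a ∈ M) : ∃ f ∈ M, IsInj f a b := by
  obtain ⟨g, h0, h1, h2⟩ := h
  exact ⟨_, grf_M h0 ha, grf_inj h1 h2⟩

theorem Eqv.set {a b : Z} (h : Eqv M a b) (ha : a ∈ M) : ∃ f ∈ M, IsBij f a b := by
  obtain ⟨g, h0, h1, h2, h3⟩ := h
  refine ⟨_, grf_M h0 ha, grf_inj h1 h2, fun y hy => ?_⟩
  obtain ⟨x, hx, e⟩ := h3 y hy
  exact ⟨x, pair_mem_grf.2 ⟨hx, e.symm⟩⟩

theorem Le.of_set {a b f : Z} (hf : f ∈ M) (h : IsInj f a b) : Le M a b :=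
  ⟨app f, by (repeat' (beta_reduce; (first | with_reducible (first | apply On.K1 | apply On.K2 | apply On.Gam | apply Fn.ran | apply Fn.zfst | apply Fn.zsnd | exact Fn.var _ | exact Fn.const ‹_› | exact On.const ‹_› | exact Df.prop _ | apply Df.and | apply Df.or | apply Df.not | apply Df.iff | apply Df.ex | apply Df.bex | apply Df.oex | apply Df.obex | apply Df.all | apply Df.ball | apply Df.oall | apply Df.oball | apply Df.imp | apply Df.mem | apply Df.eq | apply Df.oeq | apply Df.olt | apply Df.ole | apply Df.subset | apply Df.isOrdinal | apply Fn.pair | apply Fn.app | apply Fn.upair | apply Fn.single | apply Fn.insert | apply Fn.union | apply Fn.sUnion | apply Fn.prod | apply Fn.sep | apply Fn.img | apply Fn.ite | exact Fn.omega | exact Fn.empty | exact Fn.nat _ | apply On.fn | apply On.ro | apply On.succ | apply On.max | apply On.ite | apply On.mu | exact On.zero | exact On.one | exact On.omega | exact On.nat _) | exact On.ofNat _ | with_reducible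 (first | refine Fn.osub1 ‹_› ?_ | refine On.sub1 ‹_› ?_ | refine Df.osub1 ‹_› ?_ | refine On.zsub1 ‹_› ?_ | refine Fn.sub1 ‹_› ?_ | refine Df.sub1 ‹_› ?_ | refine Fn.sub2 ‹_› ?_ ?_ | refine Df.sub2 ‹_› ?_ ?_)))), inj_maps h, inj_inj h⟩

theorem Eqv.of_set {a b f : Z} (hf : f ∈ M) (h : IsBij f a b) : Eqv M a b := by
  refine ⟨app f, by (repeat' (beta_reduce; (first | with_reducible (first | apply On.K1 | apply On.K2 | apply On.Gam | apply Fn.ran | apply Fn.zfst | apply Fn.zsnd | exact Fn.var _ | exact Fn.const ‹_› | exact On.const ‹_› | exact Df.prop _ | apply Df.and | apply Df.or | apply Df.not | apply Df.iff | apply Df.ex | apply Df.bex | apply Df.oex | apply Df.obex | apply Df.all | apply Df.ball | apply Df.oall | apply Df.oball | apply Df.imp | apply Df.mem | apply Df.eq | apply Df.oeq | apply Df.olt | apply Df.ole | apply Df.subset | apply Df.isOrdinal | apply Fn.pair | apply Fn.app | apply Fn.upair | apply Fn.single | apply Fn.insert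 | apply Fn.union | apply Fn.sUnion | apply Fn.prod | apply Fn.sep | apply Fn.img | apply Fn.ite | exact Fn.omega | exact Fn.empty | exact Fn.nat _ | apply On.fn | apply On.ro | apply On.succ | apply On.max | apply On.ite | apply On.mu | exact On.zero | exact On.one | exact On.omega | exact On.nat _) | exact On.ofNat _ | with_reducible (first | refine Fn.osub1 ‹_› ?_ | refine On.sub1 ‹_› ?_ | refine Df.osub1 ‹_› ?_ | refine On.zsub1 ‹_› ?_ | refine Fn.sub1 ‹_› ?_ | refine Df.sub1 ‹_› ?_ | refine Fn.sub2 ‹_› ?_ ?_ | refine Df.sub2 ‹_› ?_ ?_)))), inj_maps h.1, inj_inj h.1, fun y hy => ?_⟩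
  obtain ⟨x, hx⟩ := h.2 y hy
  exact ⟨x, ((inj_app h.1 _ _).1 hx).1, ((inj_app h.1 _ _).1 hx).2.symm⟩

omit hM in
theorem Eqv.le {a b : Z} (h : Eqv M a b) : Le M a b := h.imp fun _ h => ⟨h.1, h.2.1, h.2.2.1⟩

omit hM in
theorem Le.of_subset {a b : Z} (h : a ⊆ b) : Le M a b :=
  ⟨id, Fn.var 0, fun _ hx => h hx, fun _ _ _ _ e => e⟩

omit hM in
theorem Eqv.refl (a : Z) : Eqv M a a :=
  ⟨id, Fn.var 0, fun _ hx => hx, fun _ _ _ _ e => e, fun y hy => ⟨y, hy, rfl⟩⟩

omit hM in
theorem Le.trans {a b c : Z} (h : Le M a b) (h' : Le M b c) : Le M a c := by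
  obtain ⟨g, h0, h1, h2⟩ := h
  obtain ⟨g', h0', h1', h2'⟩ := h'
  exact ⟨fun x => g' (g x), h0'.sub1 h0, fun x hx => h1' _ (h1 x hx),
    fun x hx y hy e => h2 x hx y hy (h2' _ (h1 x hx) _ (h1 y hy) e)⟩

omit hM in
theorem Eqv.trans {a b c : Z} (h : Eqv M a b) (h' : Eqv M b c) : Eqv M a c := by
  obtain ⟨g, h0, h1, h2, h3⟩ := h
  obtain ⟨g', h0', h1', h2', h3'⟩ := h'
  refine ⟨fun x => g' (g x), h0'.sub1 h0, fun x hx => h1' _ (h1 x hx),
    fun x hx y hy e => h2 x hx y hy (h2' _ (h1 x hx) _ (h1 y hy) e), fun z hz => ?_⟩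
  obtain ⟨y, hy, rfl⟩ := h3' z hz
  obtain ⟨x, hx, rfl⟩ := h3 y hy
  exact ⟨x, hx, rfl⟩

theorem Eqv.symm {a b : Z} (h : Eqv M a b) (ha : a ∈ M) : Eqv M b a := by
  obtain ⟨g, h0, h1, h2, h3⟩ := h
  have sp : ∀ y ∈ b, the (fun x => x ∈ a ∧ g x = y) ∈ a ∧ g (the fun x => x ∈ a ∧ g x = y) = y :=
    fun y hy => the_spec (R := fun x => x ∈ a ∧ g x = y) (h3 y hy)
  refine ⟨fun y => the fun x => x ∈ a ∧ g x = y,
    Fn.the (R := fun v x => x ∈ a ∧ g x = v 0) (by (repeat' (beta_reduce; (first | with_reducible (first | apply On.K1 | apply On.K2 | apply On.Gam | apply Fn.ran | apply Fn.zfst | apply Fn.zsnd | exact Fn.var _ | exact Fn.const ‹_› | exact On.const ‹_› | exact Df.prop _ | apply Df.and | apply Df.or | apply Df.not | apply Df.iff | apply Df.ex | apply Df.bex | apply Df.oex | apply Df.obex | apply Df.all | apply Df.ball | apply Df.oall | apply Df.oball | apply Df.imp | apply Df.mem | apply Df.eq | apply Df.oeq | apply Df.olt | apply Df.ole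 | apply Df.subset | apply Df.isOrdinal | apply Fn.pair | apply Fn.app | apply Fn.upair | apply Fn.single | apply Fn.insert | apply Fn.union | apply Fn.sUnion | apply Fn.prod | apply Fn.sep | apply Fn.img | apply Fn.ite | exact Fn.omega | exact Fn.empty | exact Fn.nat _ | apply On.fn | apply On.ro | apply On.succ | apply On.max | apply On.ite | apply On.mu | exact On.zero | exact On.one | exact On.omega | exact On.nat _) | exact On.ofNat _ | with_reducible (first | refine Fn.osub1 ‹_› ?_ | refine On.sub1 ‹_› ?_ | refine Df.osub1 ‹_› ?_ | refine On.zsub1 ‹_› ?_ | refine Fn.sub1 ‹_› ?_ | refine Df.sub1 ‹_› ?_ | refine Fn.sub2 ‹_› ?_ ?_ | refine Df.sub2 ‹_› ?_ ?_))))) (fun _ _ _ h => tr ha h.1)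
      fun _ _ x y hx hy => h2 x hx.1 y hy.1 (hx.2.trans hy.2.symm),
    fun y hy => (sp y hy).1, fun y hy y' hy' e => ?_, fun x hx => ⟨g x, h1 x hx, ?_⟩⟩
  · rw [← (sp y hy).2, ← (sp y' hy').2]
    exact congrArg g e
  · exact h2 _ (sp _ (h1 x hx)).1 _ hx (sp _ (h1 x hx)).2

theorem Le.of_surj {H : O → Z} (h : Fn M fun w => H (ro (w 0))) {b : Z} {k : O}
    (hk : k.toZFSet ∈ M) (hs : ∀ y ∈ b, ∃ c < k, H c = y) : Le M b k.toZFSet := by
  have sp : ∀ y ∈ b, mu M (fun c => H c = y) < k ∧ H (mu M fun c => H c = y) = y := by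
    intro y hy
    obtain ⟨c, hc, e⟩ := hs y hy
    exact ⟨(mu_le (le_M hc.le hk) e).trans_lt hc, (mu_spec (R := fun c => H c = y) ⟨c, le_M hc.le hk, e⟩).2⟩
  refine ⟨fun y => (mu M fun c => H c = y).toZFSet, by (repeat' (beta_reduce; (first | with_reducible (first | apply On.K1 | apply On.K2 | apply On.Gam | apply Fn.ran | apply Fn.zfst | apply Fn.zsnd | exact Fn.var _ | exact Fn.const ‹_› | exact On.const ‹_› | exact Df.prop _ | apply Df.and | apply Df.or | apply Df.not | apply Df.iff | apply Df.ex | apply Df.bex | apply Df.oex | apply Df.obex | apply Df.all | apply Df.ball | apply Df.oall | apply Df.oball | apply Df.imp | apply Df.mem | apply Df.eq | apply Df.oeq | apply Df.olt | apply Df.ole | apply Df.subset | apply Df.isOrdinal | apply Fn.pair | apply Fn.app | apply Fn.upair | apply Fn.single | apply Fn.insert | apply Fn.union | apply Fn.sUnion | apply Fn.prod | apply Fn.sep | apply Fn.img | apply Fn.ite | exact Fn.omega | exact Fn.empty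 | exact Fn.nat _ | apply On.fn | apply On.ro | apply On.succ | apply On.max | apply On.ite | apply On.mu | exact On.zero | exact On.one | exact On.omega | exact On.nat _) | exact On.ofNat _ | with_reducible (first | refine Fn.osub1 ‹_› ?_ | refine On.sub1 ‹_› ?_ | refine Df.osub1 ‹_› ?_ | refine On.zsub1 ‹_› ?_ | refine Fn.sub1 ‹_› ?_ | refine Df.sub1 ‹_› ?_ | refine Fn.sub2 ‹_› ?_ ?_ | refine Df.sub2 ‹_› ?_ ?_)))),
    fun y hy => toZFSet_mem_toZFSet_iff.2 (sp y hy).1, fun y hy y' hy' e => ?_⟩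
  rw [← (sp y hy).2, ← (sp y' hy').2, toZ_inj.1 e]

/-- collapse of a set of ordinals -/
theorem collapse {X : Z} (hX : X ∈ M) (ho : ∀ x ∈ X, x.IsOrdinal) :
    ∃ (δ : O) (h : O → O), δ.toZFSet ∈ M ∧ (On M fun w => h (ro (w 0))) ∧
      (∀ a < δ, (h a).toZFSet ∈ X) ∧ (∀ x : O, x.toZFSet ∈ X → ∃ a < δ, h a = x) ∧
      (∀ a < δ, ∀ b < δ, (h a < h b ↔ a < b)) ∧ ∀ a < δ, a ≤ h a := by
  obtain ⟨δ, H, h1, h2, h3, h4, h5⟩ := enum hX (lt := fun x y => x ∈ y) (by (repeat' (beta_reduce; (first | with_reducible (first | apply On.K1 | apply On.K2 | apply On.Gam | apply Fn.ran | apply Fn.zfst | apply Fn.zsnd | exact Fn.var _ | exact Fn.const ‹_› | exact On.const ‹_› | exact Df.prop _ | apply Df.and | apply Df.or | apply Df.not | apply Df.iff | apply Df.ex | apply Df.bex | apply Df.oex | apply Df.obex | apply Df.all | apply Df.ball | apply Df.oall | apply Df.oball | apply Df.imp | apply Df.mem | apply Df.eq | apply Df.oeq | apply Df.olt | apply Df.ole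 | apply Df.subset | apply Df.isOrdinal | apply Fn.pair | apply Fn.app | apply Fn.upair | apply Fn.single | apply Fn.insert | apply Fn.union | apply Fn.sUnion | apply Fn.prod | apply Fn.sep | apply Fn.img | apply Fn.ite | exact Fn.omega | exact Fn.empty | exact Fn.nat _ | apply On.fn | apply On.ro | apply On.succ | apply On.max | apply On.ite | apply On.mu | exact On.zero | exact On.one | exact On.omega | exact On.nat _) | exact On.ofNat _ | with_reducible (first | refine Fn.osub1 ‹_› ?_ | refine On.sub1 ‹_› ?_ | refine Df.osub1 ‹_› ?_ | refine On.zsub1 ‹_› ?_ | refine Fn.sub1 ‹_› ?_ | refine Df.sub1 ‹_› ?_ | refine Fn.sub2 ‹_› ?_ ?_ | refine Df.sub2 ‹_› ?_ ?_)))))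
    (fun x y hx hy => (ho x hx).mem_trichotomous (ho y hy)) (fun x y _ _ h => mem_asymm h)
    (fun Y _ _ ⟨y, hy⟩ => by
      obtain ⟨x, hx, h⟩ := mem_wf.has_min {x | x ∈ Y} ⟨y, hy⟩
      exact ⟨x, hx, h⟩)
  have e : ∀ a < δ, (ro (H a)).toZFSet = H a := fun a ha => toZ_ro (ho _ (h3 a ha))
  have h6 : ∀ a < δ, ∀ b < δ, (ro (H a) < ro (H b) ↔ a < b) := fun a ha b hb => by
    rw [← toZFSet_mem_toZFSet_iff, e a ha, e b hb, h5 a ha b hb]
  refine ⟨δ, fun a => ro (H a), h1, On.ro h2, fun a ha => (e a ha).symm ▸ h3 a ha,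
    fun x hx => ?_, h6, fun a => ?_⟩
  · obtain ⟨a, ha, e'⟩ := h4 _ hx
    exact ⟨a, ha, by simp [e']⟩
  · induction a using WellFoundedLT.induction with
    | _ a ih =>
    intro ha
    by_contra hh
    have h7 := not_le.1 hh
    exact absurd ((h6 _ (h7.trans ha) _ ha).2 h7) (not_lt.2 (ih _ h7 (h7.trans ha)))

theorem Le.exists_eqv {a : Z} (ha : a ∈ M) {k : O} (h : Le M a k.toZFSet) :
    ∃ δ ≤ k, δ.toZFSet ∈ M ∧ Eqv M δ.toZFSet a := by
  obtain ⟨g, h0, h1, h2⟩ := h
  have ho : ∀ x ∈ img g a, ∃ c < k, c.toZFSet = x := by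
    intro x hx
    obtain ⟨y, hy, rfl⟩ := mem_img.1 hx
    exact mem_toZFSet_iff.1 (h1 y hy)
  obtain ⟨δ, h, h3, h4, h5, h6, h7, h8⟩ := collapse (img_mem h0 ha) fun x hx => by
    obtain ⟨c, -, rfl⟩ := ho x hx
    exact isOrdinal_toZFSet c
  refine ⟨δ, le_of_forall_lt fun b hb => ?_, h3, Eqv.trans (b := img g a) ?_ (Eqv.symm ?_ ha)⟩
  · obtain ⟨c, hc, e⟩ := ho _ (h5 b hb)
    exact (h8 b hb).trans_lt (toZ_inj.1 e ▸ hc)
  · refine ⟨fun x => (h (ro x)).toZFSet, h4, fun x hx => ?_, fun x hx y hy e => ?_, fun y hy => ?_⟩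
    · obtain ⟨c, hc, rfl⟩ := mem_toZFSet_iff.1 hx
      simpa using h5 c hc
    · obtain ⟨c, hc, rfl⟩ := mem_toZFSet_iff.1 hx
      obtain ⟨d, hd, rfl⟩ := mem_toZFSet_iff.1 hy
      simp only [ro_toZ, toZ_inj] at e ⊢
      rcases lt_trichotomy c d with h9 | h9 | h9
      · exact absurd e ((h7 c hc d hd).2 h9).ne
      · exact h9
      · exact absurd e ((h7 d hd c hc).2 h9).ne'
    · obtain ⟨c, -, rfl⟩ := ho y hy
      obtain ⟨b, hb, e⟩ := h6 c hy
      exact ⟨_, toZFSet_mem_toZFSet_iff.2 hb, by simp [e]⟩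
  · refine ⟨g, h0, fun x hx => mem_img.2 ⟨x, hx, rfl⟩, h2, fun y hy => ?_⟩
    obtain ⟨x, hx, rfl⟩ := mem_img.1 hy
    exact ⟨x, hx, rfl⟩

def OCard (M : Set Z) (k : O) : Prop := k.toZFSet ∈ M ∧ ∀ b < k, ¬ Eqv M b.toZFSet k.toZFSet

theorem isCard_iff {k : O} : IsCard M k.toZFSet ↔ OCard M k := by
  constructor
  · rintro ⟨h1, -, h2⟩
    exact ⟨h1, fun b hb h => h2 _ (toZFSet_mem_toZFSet_iff.2 hb) (h.set (le_M hb.le h1))⟩
  · rintro ⟨h1, h2⟩
    refine ⟨h1, isOrdinal_toZFSet k, fun x hx ⟨f, hf, h⟩ => ?_⟩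
    obtain ⟨b, hb, rfl⟩ := mem_toZFSet_iff.1 hx
    exact h2 b hb (Eqv.of_set hf h)

omit hM in
theorem IsCard.exists {x : Z} (h : IsCard M x) : ∃ k : O, x = k.toZFSet :=
  ⟨_, (toZ_ro h.2.1).symm⟩

theorem infCard_iff {k : O} : InfCard M k.toZFSet ↔ OCard M k ∧ ω ≤ k := by
  rw [InfCard, isCard_iff, ← toZ_omega, toZFSet_subset_toZFSet_iff]

theorem OCard.le {k m : O} (hk : OCard M k) (h : Le M k.toZFSet m.toZFSet) : k ≤ m := by
  obtain ⟨δ, h1, -, h2⟩ := h.exists_eqv hk.1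
  exact (not_lt.1 fun h3 => hk.2 δ h3 h2).trans h1

theorem exists_card {m : O} (hm : m.toZFSet ∈ M) :
    ∃ k ≤ m, OCard M k ∧ Eqv M k.toZFSet m.toZFSet := by
  have h1 := mu_spec (M := M) (R := fun c => Eqv M c.toZFSet m.toZFSet) ⟨m, hm, Eqv.refl _⟩
  exact ⟨_, mu_le hm (Eqv.refl _), ⟨h1.1, fun b hb h =>
    absurd (mu_le (le_M hb.le h1.1) (h.trans h1.2)) (not_le.2 hb)⟩, h1.2⟩

/-- Schröder–Bernstein against a cardinal -/
theorem OCard.eqv {k : O} (hk : OCard M k) {a : Z} (ha : a ∈ M) (h : Le M a k.toZFSet)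
    (h' : Le M k.toZFSet a) : Eqv M a k.toZFSet := by
  obtain ⟨δ, h1, h2, h3⟩ := h.exists_eqv ha
  have := le_antisymm h1 (hk.le (h'.trans (h3.symm h2).le))
  exact this ▸ h3.symm h2

omit hM in
theorem nat_finite (n : ℕ) : {z | z ∈ nat n}.Finite :=
  ((Set.finite_lt_nat n).image nat).subset fun z hz => by
    obtain ⟨m, hm, rfl⟩ := (mem_nat n z).1 hz
    exact ⟨m, hm, rfl⟩

omit hM in
theorem not_le_finite {a : Z} (ha : {z | z ∈ a}.Finite) : ¬ Le M ZFSet.omega a := by
  rintro ⟨g, -, h1, h2⟩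
  exact Set.infinite_of_injective_forall_mem (f := fun n => g (nat n))
    (fun m n e => nat_inj (h2 _ (nat_mem_omega m) _ (nat_mem_omega n) e))
    (fun n => h1 _ (nat_mem_omega n)) ha

theorem ocard_omega : OCard M ω := by
  refine ⟨oomega_M, fun b hb h => ?_⟩
  obtain ⟨n, rfl⟩ := lt_omega0.1 hb
  have := (h.symm (onat_M n)).le
  rw [toZ_nat, toZ_omega] at this
  exact not_le_finite (nat_finite n) this

theorem OCard.succ_lt {k m : O} (hk : OCard M k) (hω : ω ≤ k) (h : m < k) : m + 1 < k := by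
  classical
  refine lt_of_le_of_ne (Order.add_one_le_iff.2 h) fun e => ?_
  have hm : ω ≤ m := by
    by_contra hh
    exact absurd (isSuccLimit_omega0.succ_lt (not_le.1 hh)) (by
      rw [Order.succ_eq_add_one, e]; exact not_lt.2 hω)
  have hmM := le_M h.le hk.1
  refine absurd (hk.le (m := m) ⟨fun x => (if ro x = m then 0 else if ro x < ω then ro x + 1
    else ro x).toZFSet, by (repeat' (beta_reduce; (first | with_reducible (first | apply On.K1 | apply On.K2 | apply On.Gam | apply Fn.ran | apply Fn.zfst | apply Fn.zsnd | exact Fn.var _ | exact Fn.const ‹_› | exact On.const ‹_› | exact Df.prop _ | apply Df.and | apply Df.or | apply Df.not | apply Df.iff | apply Df.ex | apply Df.bex | apply Df.oex | apply Df.obex | apply Df.all | apply Df.ball | apply Df.oall | apply Df.oball | apply Df.imp | apply Df.mem | apply Df.eq | apply Df.oeq | apply Df.olt | apply Df.ole | apply Df.subset | apply Df.isOrdinal | apply Fn.pair | apply Fn.app | apply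 Fn.upair | apply Fn.single | apply Fn.insert | apply Fn.union | apply Fn.sUnion | apply Fn.prod | apply Fn.sep | apply Fn.img | apply Fn.ite | exact Fn.omega | exact Fn.empty | exact Fn.nat _ | apply On.fn | apply On.ro | apply On.succ | apply On.max | apply On.ite | apply On.mu | exact On.zero | exact On.one | exact On.omega | exact On.nat _) | exact On.ofNat _ | with_reducible (first | refine Fn.osub1 ‹_› ?_ | refine On.sub1 ‹_› ?_ | refine Df.osub1 ‹_› ?_ | refine On.zsub1 ‹_› ?_ | refine Fn.sub1 ‹_› ?_ | refine Df.sub1 ‹_› ?_ | refine Fn.sub2 ‹_› ?_ ?_ | refine Df.sub2 ‹_› ?_ ?_)))), fun x hx => ?_, fun x hx y hy e' => ?_⟩) (not_le.2 h)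
  · obtain ⟨c, hc, rfl⟩ := mem_toZFSet_iff.1 hx
    simp only [ro_toZ, toZFSet_mem_toZFSet_iff]
    split_ifs with h1 h2
    · exact omega0_pos.trans_le hm
    · exact (isSuccLimit_omega0.succ_lt h2).trans_le hm
    · exact lt_of_le_of_ne (Order.lt_add_one_iff.1 (e ▸ hc)) h1
  · obtain ⟨c, -, rfl⟩ := mem_toZFSet_iff.1 hx
    obtain ⟨d, -, rfl⟩ := mem_toZFSet_iff.1 hy
    simp only [ro_toZ, toZ_inj] at e' ⊢
    have z1 : ∀ x : O, (0 : O) ≠ x + 1 := fun x => (Order.lt_add_one_iff.2 (zero_le (a := x))).ne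
    have z2 : ∀ x : O, x < ω → x + 1 < ω := fun x hx => isSuccLimit_omega0.succ_lt hx
    by_cases h1 : c = m <;> by_cases h2 : d = m <;> by_cases h3 : c < ω <;> by_cases h4 : d < ω <;>
      simp only [h1, h2, h3, h4, if_true, if_false] at e' <;>
      first
      | exact h1.trans h2.symm
      | exact absurd e' (z1 _)
      | exact absurd e'.symm (z1 _)
      | exact absurd (by rw [← e']; exact omega0_pos) h4
      | exact absurd (by rw [e']; exact omega0_pos) h3
      | exact absurd (by rw [← e']; exact z2 _ h3) h4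
      | exact absurd (by rw [e']; exact z2 _ h4) h3
      | exact e'
      | simpa using e'

theorem le_prod (b c : O) : Le M (Gam b c).toZFSet
    (ZFSet.prod (max b c + 1).toZFSet (max b c + 1).toZFSet) := by
  refine ⟨fun x => dec (ro x), Fn.dec0, fun x hx => ?_, fun x hx y hy e => ?_⟩
  · obtain ⟨a, ha, rfl⟩ := mem_toZFSet_iff.1 hx
    have := (K_mono ha).max_le
    simp only [K1_Gam, K2_Gam] at this
    simp only [ro_toZ, dec_eq, pair_mem_prod, toZFSet_mem_toZFSet_iff, Order.lt_add_one_iff]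
    exact max_le_iff.1 this
  · obtain ⟨a, -, rfl⟩ := mem_toZFSet_iff.1 hx
    obtain ⟨a', -, rfl⟩ := mem_toZFSet_iff.1 hy
    simp only [ro_toZ, dec_eq, pair_inj, toZ_inj] at e ⊢
    exact K_inj e.1 e.2

omit hM in
theorem Gam_omega {b c : O} (hb : b < ω) (hc : c < ω) : Gam b c < ω := by
  by_contra h
  obtain ⟨n, hn⟩ := lt_omega0.1 (isSuccLimit_omega0.succ_lt (max_lt hb hc))
  have h1 := (Le.of_subset (toZFSet_subset_toZFSet_iff.2 (not_lt.1 h))).trans
    (le_prod (M := Set.univ) b c)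
  rw [← Order.succ_eq_add_one, hn, toZ_nat, toZ_omega] at h1
  refine not_le_finite ((((nat_finite n).prod (nat_finite n)).image
    fun p => pair p.1 p.2).subset fun z hz => ?_) h1
  obtain ⟨x, hx, y, hy, rfl⟩ := mem_prod.1 hz
  exact ⟨(x, y), ⟨hx, hy⟩, rfl⟩

theorem OCard.Gam_lt {k : O} : OCard M k → ω ≤ k → ∀ {b c : O}, b < k → c < k → Gam b c < k := by
  induction k using WellFoundedLT.induction with
  | _ k ih =>
  intro hk hω b c hb hc
  have h1 := hk.succ_lt hω (max_lt hb hc)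
  by_cases h2 : max b c + 1 < ω
  · have h3 := (Order.lt_add_one_iff.2 le_rfl).trans h2
    exact (Gam_omega ((le_max_left _ _).trans_lt h3) ((le_max_right _ _).trans_lt h3)).trans_le hω
  obtain ⟨l, h3, h4, h5⟩ := exists_card (le_M h1.le hk.1)
  have h6 := h5.symm h4.1
  have h7 : ω ≤ l := ocard_omega.le
    ((Le.of_subset (toZFSet_subset_toZFSet_iff.2 (not_lt.1 h2))).trans h6.le)
  obtain ⟨g, g0, g1, g2, -⟩ := h6
  have g3 : ∀ x ∈ (max b c + 1).toZFSet, ro (g x) < l ∧ (ro (g x)).toZFSet = g x := by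
    intro x hx
    obtain ⟨d, hd, e⟩ := mem_toZFSet_iff.1 (g1 x hx)
    rw [← e, ro_toZ]
    exact ⟨hd, rfl⟩
  have h8 : Le M (ZFSet.prod (max b c + 1).toZFSet (max b c + 1).toZFSet) l.toZFSet := by
    refine ⟨fun p => (Gam (ro (g (zfst p))) (ro (g (zsnd p)))).toZFSet, by (repeat' (beta_reduce; (first | with_reducible (first | apply On.K1 | apply On.K2 | apply On.Gam | apply Fn.ran | apply Fn.zfst | apply Fn.zsnd | exact Fn.var _ | exact Fn.const ‹_› | exact On.const ‹_› | exact Df.prop _ | apply Df.and | apply Df.or | apply Df.not | apply Df.iff | apply Df.ex | apply Df.bex | apply Df.oex | apply Df.obex | apply Df.all | apply Df.ball | apply Df.oall | apply Df.oball | apply Df.imp | apply Df.mem | apply Df.eq | apply Df.oeq | apply Df.olt | apply Df.ole | apply Df.subset | apply Df.isOrdinal | apply Fn.pair | apply Fn.app | apply Fn.upair | apply Fn.single | apply Fn.insert | apply Fn.union | apply Fn.sUnion | apply Fn.prod | apply Fn.sep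 | apply Fn.img | apply Fn.ite | exact Fn.omega | exact Fn.empty | exact Fn.nat _ | apply On.fn | apply On.ro | apply On.succ | apply On.max | apply On.ite | apply On.mu | exact On.zero | exact On.one | exact On.omega | exact On.nat _) | exact On.ofNat _ | with_reducible (first | refine Fn.osub1 ‹_› ?_ | refine On.sub1 ‹_› ?_ | refine Df.osub1 ‹_› ?_ | refine On.zsub1 ‹_› ?_ | refine Fn.sub1 ‹_› ?_ | refine Df.sub1 ‹_› ?_ | refine Fn.sub2 ‹_› ?_ ?_ | refine Df.sub2 ‹_› ?_ ?_)))), fun p hp => ?_,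
      fun p hp q hq e => ?_⟩
    · obtain ⟨x, hx, y, hy, rfl⟩ := mem_prod.1 hp
      simp only [zfst_pair, zsnd_pair, toZFSet_mem_toZFSet_iff]
      exact ih l (h3.trans_lt h1) h4 h7 (g3 x hx).1 (g3 y hy).1
    · obtain ⟨x, hx, y, hy, rfl⟩ := mem_prod.1 hp
      obtain ⟨x', hx', y', hy', rfl⟩ := mem_prod.1 hq
      simp only [zfst_pair, zsnd_pair, toZ_inj, Gam_inj] at e
      rw [g2 x hx x' hx' (by rw [← (g3 x hx).2, e.1, (g3 x' hx').2]),
        g2 y hy y' hy' (by rw [← (g3 y hy).2, e.2, (g3 y' hy').2])]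
  by_contra h9
  exact absurd (hk.le (((Le.of_subset (toZFSet_subset_toZFSet_iff.2 (not_lt.1 h9))).trans
    (le_prod b c)).trans h8)) (not_le.2 (h3.trans_lt h1))

theorem cantor {k p : Z} (hk : k ∈ M) (hp : p ∈ M) (h : ∀ y ∈ M, y ∈ p ↔ y ⊆ k) : ¬ Le M p k := by
  rintro ⟨g, g0, g1, g2⟩
  have h1 : ZFSet.sep (fun x => ∃ y, y ∈ p ∧ g y = x ∧ x ∉ y) k ∈ M := Fn.val (by (repeat' (beta_reduce; (first | with_reducible (first | apply On.K1 | apply On.K2 | apply On.Gam | apply Fn.ran | apply Fn.zfst | apply Fn.zsnd | exact Fn.var _ | exact Fn.const ‹_› | exact On.const ‹_› | exact Df.prop _ | apply Df.and | apply Df.or | apply Df.not | apply Df.iff | apply Df.ex | apply Df.bex | apply Df.oex | apply Df.obex | apply Df.all | apply Df.ball | apply Df.oall | apply Df.oball | apply Df.imp | apply Df.mem | apply Df.eq | apply Df.oeq | apply Df.olt | apply Df.ole | apply Df.subset | apply Df.isOrdinal | apply Fn.pair | apply Fn.app | apply Fn.upair |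 apply Fn.single | apply Fn.insert | apply Fn.union | apply Fn.sUnion | apply Fn.prod | apply Fn.sep | apply Fn.img | apply Fn.ite | exact Fn.omega | exact Fn.empty | exact Fn.nat _ | apply On.fn | apply On.ro | apply On.succ | apply On.max | apply On.ite | apply On.mu | exact On.zero | exact On.one | exact On.omega | exact On.nat _) | exact On.ofNat _ | with_reducible (first | refine Fn.osub1 ‹_› ?_ | refine On.sub1 ‹_› ?_ | refine Df.osub1 ‹_› ?_ | refine On.zsub1 ‹_› ?_ | refine Fn.sub1 ‹_› ?_ | refine Df.sub1 ‹_› ?_ | refine Fn.sub2 ‹_› ?_ ?_ | refine Df.sub2 ‹_› ?_ ?_)))))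
  have h2 := (h _ h1).2 fun x hx => (mem_sep.1 hx).1
  have h3 : ¬ g _ ∈ ZFSet.sep (fun x => ∃ y, y ∈ p ∧ g y = x ∧ x ∉ y) k := fun h4 => by
    obtain ⟨y, h5, h6, h7⟩ := (mem_sep.1 h4).2
    rw [g2 _ h5 _ h2 h6] at h7
    exact h7 h4
  exact h3 (mem_sep.2 ⟨g1 _ h2, _, h2, rfl, h3⟩)

/-- every set is well-orderable -/
def WO (M : Set Z) : Prop := ∀ a ∈ M, ∃ m : O, Le M a m.toZFSet

theorem WO.card (h : WO M) {a : Z} (ha : a ∈ M) : ∃ l, OCard M l ∧ Eqv M a l.toZFSet := by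
  obtain ⟨m, h1⟩ := h a ha
  obtain ⟨δ, -, h2, h3⟩ := h1.exists_eqv ha
  obtain ⟨l, -, h4, h5⟩ := exists_card h2
  exact ⟨l, h4, (h5.trans h3).symm h4.1⟩

theorem WO.bigger (h : WO M) {k : O} (hk : k.toZFSet ∈ M) : ∃ l, OCard M l ∧ k < l := by
  obtain ⟨p, hp, h1⟩ := hM.out.power _ hk
  obtain ⟨l, h2, h3⟩ := h.card hp
  exact ⟨l, h2, not_le.1 fun h4 => cantor hk hp h1
    (h3.le.trans (Le.of_subset (toZFSet_subset_toZFSet_iff.2 h4)))⟩

theorem Df.isInj {r s t : (ℕ → Z) → Z} (hr : Fn M r) (hs : Fn M s) (ht : Fn M t) :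
    Df M fun v => IsInj (r v) (s v) (t v) :=
  (Df.rd rd_inj).subst (scons r (scons s fun _ => t)) (fn_scons hr (fn_scons hs fun _ => ht))

theorem Df.isCard {s : (ℕ → Z) → Z} (hs : Fn M s) : Df M fun v => IsCard M (s v) := by
  refine Df.sub1 (R := IsCard M) (Df.congr (P := fun w => (w 0).IsOrdinal ∧ ∀ β, β ∈ w 0 →
    ¬ ∃ f, f ∈ M ∧ IsInj f β (w 0) ∧ ∀ y, y ∈ w 0 → ∃ x, x ∈ M ∧ ZFSet.pair x y ∈ f) ?_
    fun w hw => ?_) hs
  · repeat' (beta_reduce; first | (first | with_reducible (first | apply On.K1 | apply On.K2 | apply On.Gam | apply Fn.ran | apply Fn.zfst | apply Fn.zsnd | exact Fn.var _ | exact Fn.const ‹_› | exact On.const ‹_› | exact Df.prop _ | apply Df.and | apply Df.or | apply Df.not | apply Df.iff | apply Df.ex | apply Df.bex | apply Df.oex | apply Df.obex | apply Df.all | apply Df.ball | apply Df.oall | apply Df.oball | apply Df.imp | apply Df.mem | apply Df.eq | apply Df.oeq | apply Df.olt | apply Df.ole | apply Df.subset |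 apply Df.isOrdinal | apply Fn.pair | apply Fn.app | apply Fn.upair | apply Fn.single | apply Fn.insert | apply Fn.union | apply Fn.sUnion | apply Fn.prod | apply Fn.sep | apply Fn.img | apply Fn.ite | exact Fn.omega | exact Fn.empty | exact Fn.nat _ | apply On.fn | apply On.ro | apply On.succ | apply On.max | apply On.ite | apply On.mu | exact On.zero | exact On.one | exact On.omega | exact On.nat _) | exact On.ofNat _ | with_reducible (first | refine Fn.osub1 ‹_› ?_ | refine On.sub1 ‹_› ?_ | refine Df.osub1 ‹_› ?_ | refine On.zsub1 ‹_› ?_ | refine Fn.sub1 ‹_› ?_ | refine Df.sub1 ‹_› ?_ | refine Fn.sub2 ‹_› ?_ ?_ | refine Df.sub2 ‹_› ?_ ?_)) | with_reducible apply Df.isInj)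
  · refine ⟨fun h => ⟨hw 0, h.1, fun β hβ ⟨f, h1, h2, h3⟩ => h.2 β hβ ⟨f, h1, h2, fun y hy => ?_⟩⟩,
      fun h => ⟨h.2.1, fun β hβ ⟨f, h1, h2, h3⟩ => h.2.2 β hβ ⟨f, h1, h2, fun y hy =>
        (h3 y hy).imp fun _ h => h.2⟩⟩⟩
    obtain ⟨x, hx⟩ := h3 y hy
    exact ⟨x, fst_M (tr h1 hx), hx⟩


theorem WO.aleph (h : WO M) {α : O} (hα : α.toZFSet ∈ M) :
    ∃ k : O, IsAleph M α.toZFSet k.toZFSet ∧ (0 < α → ω < k) := by
  have tri : ∀ x y, InfCard M x → InfCard M y → x ∈ y ∨ x = y ∨ y ∈ x :=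
    fun x y hx hy => hx.1.2.1.mem_trichotomous hy.1.2.1
  have hH : Fn M fun w => en (InfCard M) (· ∈ ·) (ro (w 0)) := by
    refine Fn.en tri (Df.congr (P := fun w => InfCard M (w 0) ∧ w 0 ∉ ran (w (1 + 1)) ∧
      ∀ y, y ∈ w 0 → InfCard M y → y ∈ ran (w (1 + 1))) (by unfold InfCard; (repeat' (beta_reduce; (first | with_reducible (first | apply Df.isInj | apply Df.isCard | apply On.K1 | apply On.K2 | apply On.Gam | apply Fn.ran | apply Fn.zfst | apply Fn.zsnd | exact Fn.var _ | exact Fn.const ‹_› | exact On.const ‹_› | exact Df.prop _ | apply Df.and | apply Df.or | apply Df.not | apply Df.iff | apply Df.ex | apply Df.bex | apply Df.oex | apply Df.obex | apply Df.all | apply Df.ball | apply Df.oall | apply Df.oball | apply Df.imp | apply Df.mem | apply Df.eq | apply Df.oeq | apply Df.olt | apply Df.ole | apply Df.subset | apply Df.isOrdinal | apply Fn.pair | apply Fn.app | apply Fn.upair | apply Fn.single | apply Fn.insert | apply Fn.union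 | apply Fn.sUnion | apply Fn.prod | apply Fn.sep | apply Fn.img | apply Fn.ite | exact Fn.omega | exact Fn.empty | exact Fn.nat _ | apply On.fn | apply On.ro | apply On.succ | apply On.max | apply On.ite | apply On.mu | exact On.zero | exact On.one | exact On.omega | exact On.nat _) | exact On.ofNat _ | with_reducible (first | refine Fn.osub1 ‹_› ?_ | refine On.sub1 ‹_› ?_ | refine Df.osub1 ‹_› ?_ | refine On.zsub1 ‹_› ?_ | refine Fn.sub1 ‹_› ?_ | refine Df.sub1 ‹_› ?_ | refine Fn.sub2 ‹_› ?_ ?_ | refine Df.sub2 ‹_› ?_ ?_))))) fun w _ =>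
        ⟨fun h => ⟨h.1, h.2.1, fun y h1 h2 => h.2.2 y h2 h1⟩,
          fun h => ⟨h.1, h.2.1, fun y h1 h2 => h.2.2 y h2 h1⟩⟩) fun f _ x hx => hx.1.1.1
  have ex : ∀ a : O, a.toZFSet ∈ M →
      ∃ x, MinF (InfCard M) (· ∈ ·) (gr (en (InfCard M) (· ∈ ·)) a) x := by
    intro a ha
    have h0 : gr (en (InfCard M) (· ∈ ·)) a ∈ M := (hH.gr (On.const ha)).val
    obtain ⟨b, hb, h1⟩ := exists_bound (M := M) (X := ran (gr (en (InfCard M) (· ∈ ·)) a))
      (Fn.val (by (repeat' (beta_reduce; (first | with_reducible (first | apply Df.isInj | apply Df.isCard | apply On.K1 | apply On.K2 | apply On.Gam | apply Fn.ran | apply Fn.zfst | apply Fn.zsnd | exact Fn.var _ | exact Fn.const ‹_› | exact On.const ‹_› | exact Df.prop _ | apply Df.and | apply Df.or | apply Df.not | apply Df.iff | apply Df.ex | apply Df.bex | apply Df.oex | apply Df.obex | apply Df.all | apply Df.ball | apply Df.oall | apply Df.oball | apply Df.imp | apply Df.mem | apply Df.eq | apply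 Df.oeq | apply Df.olt | apply Df.ole | apply Df.subset | apply Df.isOrdinal | apply Fn.pair | apply Fn.app | apply Fn.upair | apply Fn.single | apply Fn.insert | apply Fn.union | apply Fn.sUnion | apply Fn.prod | apply Fn.sep | apply Fn.img | apply Fn.ite | exact Fn.omega | exact Fn.empty | exact Fn.nat _ | apply On.fn | apply On.ro | apply On.succ | apply On.max | apply On.ite | apply On.mu | exact On.zero | exact On.one | exact On.omega | exact On.nat _) | exact On.ofNat _ | with_reducible (first | refine Fn.osub1 ‹_› ?_ | refine On.sub1 ‹_› ?_ | refine Df.osub1 ‹_› ?_ | refine On.zsub1 ‹_› ?_ | refine Fn.sub1 ‹_› ?_ | refine Df.sub1 ‹_› ?_ | refine Fn.sub2 ‹_› ?_ ?_ | refine Df.sub2 ‹_› ?_ ?_))))))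
    obtain ⟨l, h2, h3⟩ := h.bigger (k := max b ω) (Fn.val (by (repeat' (beta_reduce; (first | with_reducible (first | apply Df.isInj | apply Df.isCard | apply On.K1 | apply On.K2 | apply On.Gam | apply Fn.ran | apply Fn.zfst | apply Fn.zsnd | exact Fn.var _ | exact Fn.const ‹_› | exact On.const ‹_› | exact Df.prop _ | apply Df.and | apply Df.or | apply Df.not | apply Df.iff | apply Df.ex | apply Df.bex | apply Df.oex | apply Df.obex | apply Df.all | apply Df.ball | apply Df.oall | apply Df.oball | apply Df.imp | apply Df.mem | apply Df.eq | apply Df.oeq | apply Df.olt | apply Df.ole | apply Df.subset | apply Df.isOrdinal | apply Fn.pair | apply Fn.app | apply Fn.upair | apply Fn.single | apply Fn.insert | apply Fn.union | apply Fn.sUnion | apply Fn.prod | apply Fn.sep | apply Fn.img | apply Fn.ite | exact Fn.omega | exact Fn.empty | exact Fn.nat _ | apply On.fn | apply On.ro | apply On.succ | apply On.max | apply On.ite | apply On.mu | exact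 On.zero | exact On.one | exact On.omega | exact On.nat _) | exact On.ofNat _ | with_reducible (first | refine Fn.osub1 ‹_› ?_ | refine On.sub1 ‹_› ?_ | refine Df.osub1 ‹_› ?_ | refine On.zsub1 ‹_› ?_ | refine Fn.sub1 ‹_› ?_ | refine Df.sub1 ‹_› ?_ | refine Fn.sub2 ‹_› ?_ ?_ | refine Df.sub2 ‹_› ?_ ?_))))))
    obtain ⟨x, hx, h4⟩ := mem_wf.has_min
      {x | InfCard M x ∧ x ∉ ran (gr (en (InfCard M) (· ∈ ·)) a)}
      ⟨l.toZFSet, infCard_iff.2 ⟨h2, (le_max_right _ _).trans h3.le⟩,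
        fun h5 => absurd (h1 l h5) (not_lt.2 ((le_max_left _ _).trans h3.le))⟩
    exact ⟨x, hx.1, hx.2, fun y hy hl => by_contra fun h5 => h4 y ⟨hy, h5⟩ hl⟩
  obtain ⟨h1, -, h3⟩ := en_spec (ex α hα)
  obtain ⟨k, hk⟩ := h1.1.exists
  refine ⟨k, ⟨hk ▸ h1, fun x => en (InfCard M) (· ∈ ·) (ro x), fun x hx => ?_, fun x hx y hy => ?_,
    fun l hl h4 => ?_⟩, fun h0 => ?_⟩
  · obtain ⟨b, hb, rfl⟩ := mem_toZFSet_iff.1 hx
    simp only [ro_toZ]
    exact ⟨(en_spec (ex b (tr hα hx))).1, hk ▸ en_mono tri (ex α hα) (ex b (tr hα hx)) hb⟩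
  · obtain ⟨b, -, rfl⟩ := mem_toZFSet_iff.1 hx
    obtain ⟨c, hc, rfl⟩ := mem_toZFSet_iff.1 hy
    simp only [ro_toZ]
    exact en_mono tri (ex b (tr hα hx)) (ex c (tr (tr hα hx) hy)) hc
  · obtain ⟨b, hb, e⟩ := h3 l h4 (hk ▸ hl)
    exact ⟨_, toZFSet_mem_toZFSet_iff.2 hb, by simpa using e⟩
  · have h4 := en_mono tri (ex α hα) (ex 0 zero_M) h0
    have h5 := (en_spec (ex 0 zero_M)).1
    obtain ⟨l, hl⟩ := h5.1.exists
    rw [hl] at h5
    rw [hl, hk, toZFSet_mem_toZFSet_iff] at h4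
    exact (infCard_iff.1 h5).2.trans_lt h4

end Pool.Agent.H30Z.LA
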