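import Pool.Agent.H30Z.LA.ZF

/-! Condensation and GCH in `L[A]`. -/

namespace Pool.Agent.H30Z.LA

open CohenE ZFSet Ordinal Forc AP

def env4 {X : Type*} (c x y w : X) : ℕ → X := scons c (scons x (scons y fun _ => w))

theorem map_env4 {X Y : Type*} (π : X → Y) (c x y w : X) :
    (fun i => π (env4 c x y w i)) = env4 (π c) (π x) (π y) (π w) := by
  funext i
  rcases i with _ | _ | _ | i <;> rfl

theorem env4_in {X : Type*} {T : Set X} {c x y w : X} (hc : c ∈ T) (hx : x ∈ T) (hy : y ∈ T)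
    (hw : w ∈ T) : ∀ i, env4 c x y w i ∈ T :=
  scons_in hc (scons_in hx (scons_in hy fun _ => hw))

/-- first-order description of an initial segment of Gödel's enumeration -/
structure Code (δ : O) (E Q : O → O → Prop) (P1 P2 : O → O) (Ap : O → Prop) : Prop where
  lt : ∀ a < δ, P1 a < δ ∧ P2 a < δ
  mono : ∀ a < δ, ∀ b < δ, a < b → GLt (P1 a) (P2 a) (P1 b) (P2 b)
  down : ∀ a < δ, ∀ b < δ, ∀ c < δ, GLt b c (P1 a) (P2 a) → ∃ a' < δ, P1 a' = b ∧ P2 a' = c
  q : ∀ a < δ, ∀ b < δ, (Q a b ↔ ∀ c < δ, (E c a ↔ E c b))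
  e1 : ∀ a < δ, ∀ c < δ, E c a → ∃ c' < a, Q c c' ∧ E c' a
  e2 : ∀ a < δ, ∀ c < δ, ∀ c' < δ, Q c c' → E c' a → E c a
  e3 : ∀ a < δ, ∀ c < a, (E c a ↔ P1 (P1 a) < a ∧ P2 (P1 a) < a ∧ P1 (P2 a) < a ∧
    (SatX E Q (Set.Iio a) (env4 c (P1 (P1 a)) (P2 (P1 a)) (P1 (P2 a))) th0 ∨
      (SatX E Q (Set.Iio a) (env4 c (P1 (P1 a)) (P2 (P1 a)) (P1 (P2 a))) th1 ∧ Ap c)))

/-- the collapse -/
noncomputable def cpi (E : O → O → Prop) : O → Z :=
  orec fun a f => img (app f) (ZFSet.sep (fun x => E (ro x) a) a.toZFSet)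

theorem mem_cpi {E : O → O → Prop} {a : O} {z : Z} :
    z ∈ cpi E a ↔ ∃ c, c < a ∧ E c a ∧ z = cpi E c := by
  conv_lhs => rw [cpi, orec_eq, mem_img]
  constructor
  · rintro ⟨x, hx, rfl⟩
    obtain ⟨c, hc, rfl⟩ := mem_toZFSet_iff.1 (mem_sep.1 hx).1
    exact ⟨c, hc, by simpa using (mem_sep.1 hx).2, app_gr hc⟩
  · rintro ⟨c, hc, h, rfl⟩
    exact ⟨_, mem_sep.2 ⟨toZFSet_mem_toZFSet_iff.2 hc, by simpa using h⟩, (app_gr hc).symm⟩

section
variable {δ : O} {E Q : O → O → Prop} {P1 P2 : O → O} {Ap : O → Prop}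

theorem Code.symm (h : Code δ E Q P1 P2 Ap) {a b : O} (ha : a < δ) (hb : b < δ) (h1 : Q a b) :
    Q b a := (h.q b hb a ha).2 fun c hc => ((h.q a ha b hb).1 h1 c hc).symm

theorem Code.pi_eq (h : Code δ E Q P1 P2 Ap) (a : O) :
    a < δ → ∀ b < δ, (Q a b ↔ cpi E a = cpi E b) := by
  induction a using WellFoundedLT.induction with
  | _ a ih =>
  intro ha b hb
  constructor
  · intro h1
    ext z
    simp only [mem_cpi]
    constructor
    · rintro ⟨c, hc, h2, rfl⟩
      obtain ⟨c', h3, h4, h5⟩ := h.e1 b hb c (hc.trans ha) (((h.q a ha b hb).1 h1 c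
        (hc.trans ha)).1 h2)
      exact ⟨c', h3, h5, (ih c hc (hc.trans ha) c' (h3.trans hb)).1 h4⟩
    · rintro ⟨c, hc, h2, rfl⟩
      obtain ⟨c', h3, h4, h5⟩ := h.e1 a ha c (hc.trans hb) (((h.q a ha b hb).1 h1 c
        (hc.trans hb)).2 h2)
      exact ⟨c', h3, h5, ((ih c' h3 (h3.trans ha) c (hc.trans hb)).1
        (h.symm (hc.trans hb) (h3.trans ha) h4)).symm⟩
  · intro h1
    refine (h.q a ha b hb).2 fun d hd => ⟨fun h2 => ?_, fun h2 => ?_⟩
    · obtain ⟨c, h3, h4, h5⟩ := h.e1 a ha d hd h2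
      obtain ⟨c', h6, h7, h8⟩ := mem_cpi.1 (h1 ▸ mem_cpi.2 ⟨c, h3, h5, rfl⟩)
      exact h.e2 b hb d hd c (h3.trans ha) h4 (h.e2 b hb c (h3.trans ha) c' (h6.trans hb)
        ((ih c h3 (h3.trans ha) c' (h6.trans hb)).2 h8) h7)
    · obtain ⟨c', h3, h4, h5⟩ := h.e1 b hb d hd h2
      obtain ⟨c, h6, h7, h8⟩ := mem_cpi.1 (h1 ▸ mem_cpi.2 ⟨c', h3, h5, rfl⟩ : cpi E c' ∈ cpi E a)
      exact h.e2 a ha d hd c' (h3.trans hb) h4 (h.e2 a ha c' (h3.trans hb) c (h6.trans ha)
        (h.symm (h6.trans ha) (h3.trans hb)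
          ((ih c h6 (h6.trans ha) c' (h3.trans hb)).2 h8.symm)) h7)

theorem Code.pi_mem (h : Code δ E Q P1 P2 Ap) {a b : O} (ha : a < δ) (hb : b < δ) :
    E a b ↔ cpi E a ∈ cpi E b := by
  rw [mem_cpi]
  constructor
  · intro h1
    obtain ⟨c, h2, h3, h4⟩ := h.e1 b hb a ha h1
    exact ⟨c, h2, h4, (h.pi_eq a ha c (h2.trans hb)).1 h3⟩
  · rintro ⟨c, h2, h3, h4⟩
    exact h.e2 b hb a ha c (h2.trans hb) ((h.pi_eq a ha c (h2.trans hb)).2 h4) h3

theorem Op_iff {A : Z} {a : O} {z x y w : Z} (hz : z ∈ GS A a) (hx : x ∈ GS A a) (hy : y ∈ GS A a)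
    (hw : w ∈ GS A a) : Op A z x y w ↔ SatS {u | u ∈ GS A a} (env4 z x y w) th0 ∨
      (SatS {u | u ∈ GS A a} (env4 z x y w) th1 ∧ z ∈ A) := by
  rw [th0_spec (GS_tr a) (env4_in hz hx hy hw), th1_spec (GS_tr a) (env4_in hz hx hy hw)]
  rfl

theorem Code.main (h : Code δ E Q P1 P2 Ap) {A : Z} (hA : ∀ c < δ, Ap c ↔ cpi E c ∈ A) (a : O) :
    a < δ → cpi E a = GF A a := by
  have hK := K_char h.lt h.mono h.down
  induction a using WellFoundedLT.induction with
  | _ a ih =>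
  intro ha
  have e1 : P1 (P1 a) = p1 a := by rw [(hK _ (h.lt a ha).1).1, (hK a ha).1, p1]
  have e2 : P2 (P1 a) = p2 a := by rw [(hK _ (h.lt a ha).1).2, (hK a ha).1, p2]
  have e3 : P1 (P2 a) = p3 a := by rw [(hK _ (h.lt a ha).2).1, (hK a ha).2, p3]
  have key : ∀ c < a, E c a ↔ GF A c ∈ GF A a := by
    intro c hc
    rw [h.e3 a ha c hc, mem_GF, e1, e2, e3]
    simp only [GF_mem_GS hc, true_and]
    refine and_congr_right fun h1 => and_congr_right fun h2 => and_congr_right fun h3 => ?_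
    have h4 := fun φ => satX_map (E := E) (Q := Q) (E' := fun a b : Z => a ∈ b) (Q' := (· = ·))
      (GF A) (T := Set.Iio a) (D := Set.Iio a) (D' := {u | u ∈ GS A a}) subset_rfl
      (fun _ => mem_GS) (fun b hb c hc => by
        rw [h.pi_mem (hb.trans ha) (hc.trans ha), ih b hb (hb.trans ha), ih c hc (hc.trans ha)])
      (fun b hb c hc => by
        rw [h.pi_eq b (hb.trans ha) c (hc.trans ha), ih b hb (hb.trans ha), ih c hc (hc.trans ha)])
      φ _ (env4_in hc h1 h2 h3)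
    rw [h4, h4, map_env4, Op_iff (GF_mem_GS hc) (GF_mem_GS h1) (GF_mem_GS h2) (GF_mem_GS h3),
      hA c (hc.trans ha), ih c hc (hc.trans ha)]
  ext z
  rw [mem_cpi]
  constructor
  · rintro ⟨c, hc, h1, rfl⟩
    rw [ih c hc (hc.trans ha)]
    exact (key c hc).1 h1
  · intro hz
    obtain ⟨c, hc, rfl⟩ := mem_GS.1 (mem_GF.1 hz).1
    exact ⟨c, hc, (key c hc).2 hz, (ih c hc (hc.trans ha)).symm⟩

end

theorem glt_map {δ : O} {h : O → O} (hh : ∀ a < δ, ∀ b < δ, (h a < h b ↔ a < b)) {a b c d : O}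
    (ha : a < δ) (hb : b < δ) (hc : c < δ) (hd : d < δ) :
    GLt (h a) (h b) (h c) (h d) ↔ GLt a b c d := by
  have h1 : ∀ a < δ, ∀ b < δ, (h a = h b ↔ a = b) := fun a ha b hb => by
    rw [le_antisymm_iff, le_antisymm_iff, ← not_lt, ← not_lt, hh b hb a ha, hh a ha b hb, not_lt,
      not_lt]
  have h2 : ∀ a < δ, ∀ b < δ, max (h a) (h b) = h (max a b) := fun a ha b hb => by
    rcases le_total a b with h3 | h3
    · rw [max_eq_right h3, max_eq_right (not_lt.1 fun h4 => not_lt.2 h3 ((hh b hb a ha).1 h4))]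
    · rw [max_eq_left h3, max_eq_left (not_lt.1 fun h4 => not_lt.2 h3 ((hh a ha b hb).1 h4))]
  unfold GLt
  rw [h2 a ha b hb, h2 c hc d hd, hh _ (max_lt ha hb) _ (max_lt hc hd),
    h1 _ (max_lt ha hb) _ (max_lt hc hd), hh a ha c hc, h1 a ha c hc, hh b hb d hd]

/-- bodies of existential subformulas -/
def exs : Fml → List Fml
  | .mem _ _ => []
  | .eq _ _ => []
  | .neg φ => exs φ
  | .and φ ψ => exs φ ++ exs ψ
  | .ex φ => φ :: exs φ

theorem tarski_vaught {X : Type*} {E Q : X → X → Prop} {T D D' : Set X} (h1 : D' ⊆ D)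
    (h2 : D' ⊆ T) (φ : Fml) : (∀ ψ ∈ exs φ, ∀ v : ℕ → X, (∀ i, v i ∈ T) →
      (∃ a ∈ D, SatX E Q D (scons a v) ψ) → ∃ a ∈ D', SatX E Q D (scons a v) ψ) →
    ∀ v : ℕ → X, (∀ i, v i ∈ T) → (SatX E Q D' v φ ↔ SatX E Q D v φ) := by
  induction φ with
  | mem i j => exact fun _ _ _ => Iff.rfl
  | eq i j => exact fun _ _ _ => Iff.rfl
  | neg φ ih => exact fun h v hv => not_congr (ih h v hv)
  | and φ ψ ih ih' =>
    exact fun h v hv => and_congr (ih (fun χ hχ => h χ (List.mem_append_left _ hχ)) v hv)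
      (ih' (fun χ hχ => h χ (List.mem_append_right _ hχ)) v hv)
  | ex φ ih =>
    intro h v hv
    have h3 := ih fun χ hχ => h χ (List.mem_cons_of_mem _ hχ)
    constructor
    · rintro ⟨a, ha, h4⟩
      exact ⟨a, h1 ha, (h3 _ (scons_in (h2 ha) hv)).1 h4⟩
    · intro h4
      obtain ⟨a, ha, h5⟩ := h φ List.mem_cons_self v hv h4
      exact ⟨a, ha, (h3 _ (scons_in (h2 ha) hv)).2 h5⟩

variable {M : Set Z} [hM : Fact (ZFM M)] {A : Z}

theorem exists_ev {k α : O} (hk : OCard M k) (hω : ω ≤ k) (hα : α.toZFSet ∈ M) {G : O → O}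
    (hG : On M fun w => G (ro (w 0))) : ∃ ev : O → O, (On M fun w => ev (ro (w 0))) ∧
      ∀ m : Set O, m = {x | ∃ η < k, ev η = x} → Set.Iio k ⊆ m ∧ α ∈ m ∧ (∀ x ∈ m, G x ∈ m) ∧
        ∀ x ∈ m, ∀ y ∈ m, Gam x y ∈ m := by
  classical
  let Φ : O → Z → Z := fun ξ f => (if K1 (K1 ξ) = 0 then K2 (K1 ξ) else if K1 (K1 ξ) = 1 then α
    else if K1 (K1 ξ) = 2 then G (ro (app f (K2 (K1 ξ)).toZFSet)) else
      Gam (ro (app f (K1 (K2 (K1 ξ))).toZFSet)) (ro (app f (K2 (K2 (K1 ξ))).toZFSet))).toZFSet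
  have h1 : Fn M fun w => orec Φ (ro (w 0)) := Fn.orec0 (by simp only [Φ]; (repeat' (beta_reduce; (first | with_reducible (first | refine On.idx ‹_› ?_ | refine Fn.GF ‹_› ?_ | refine Fn.GS ‹_› ?_ | apply Df.isInj | apply Df.isCard | apply On.K1 | apply On.K2 | apply On.Gam | apply Fn.ran | apply Fn.zfst | apply Fn.zsnd | exact Fn.var _ | exact Fn.const ‹_› | exact On.const ‹_› | exact Df.prop _ | apply Df.and | apply Df.or | apply Df.not | apply Df.iff | apply Df.ex | apply Df.bex | apply Df.oex | apply Df.obex | apply Df.all | apply Df.ball | apply Df.oall | apply Df.oball | apply Df.imp | apply Df.mem | apply Df.eq | apply Df.oeq | apply Df.olt | apply Df.ole | apply Df.subset | apply Df.isOrdinal | apply Fn.pair | apply Fn.app | apply Fn.upair | apply Fn.single | apply Fn.insert | apply Fn.union | apply Fn.sUnion | apply Fn.prod | apply Fn.sep | apply Fn.img | apply Fn.ite | exact Fn.omega | exact Fn.empty | exact Fn.nat _ | apply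 On.fn | apply On.ro | apply On.succ | apply On.max | apply On.ite | apply On.mu | exact On.zero | exact On.one | exact On.omega | exact On.nat _) | exact On.ofNat _ | with_reducible (first | refine Fn.osub1 ‹_› ?_ | refine On.sub1 ‹_› ?_ | refine Df.osub1 ‹_› ?_ | refine On.zsub1 ‹_› ?_ | refine Fn.sub1 ‹_› ?_ | refine Df.sub1 ‹_› ?_ | refine Fn.sub2 ‹_› ?_ ?_ | refine Df.sub2 ‹_› ?_ ?_)))))
  have hn : ∀ n : ℕ, (n : O) < k := fun n => (natCast_lt_omega0 n).trans_le hω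
  have h2 : ∀ (n : ℕ) η, η < k → Gam (Gam n η) (η + 1) < k := fun n η hη =>
    hk.Gam_lt hω (hk.Gam_lt hω (hn n) hη) (hk.succ_lt hω hη)
  have h3 : ∀ (n : O) η, η < Gam (Gam n η) (η + 1) := fun n η =>
    (Order.lt_add_one_iff.2 le_rfl).trans_le (le_Gam_right _ _)
  refine ⟨fun ξ => ro (orec Φ ξ), On.ro h1, ?_⟩
  rintro _ rfl
  refine ⟨fun ξ hξ => ⟨_, h2 0 ξ hξ, ?_⟩, ⟨_, h2 1 0 (hn 0), ?_⟩, ?_, ?_⟩
  · simp only [orec_eq Φ (Gam _ _)]
    simp [Φ]
  · simp only [orec_eq Φ (Gam _ _)]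
    simp [Φ]
  · rintro _ ⟨η, hη, rfl⟩
    refine ⟨_, h2 2 η hη, ?_⟩
    simp only [orec_eq Φ (Gam _ _)]
    simp [Φ, app_gr (h3 2 η)]
  · rintro _ ⟨η, hη, rfl⟩ _ ⟨η', hη', rfl⟩
    refine ⟨_, h2 3 _ (hk.Gam_lt hω hη hη'), ?_⟩
    have h4 : (3 : O) ≠ 2 := by norm_num
    simp only [orec_eq Φ (Gam (Gam _ _) _)]
    simp [Φ, h4, app_gr ((le_Gam_left η η').trans_lt (h3 3 _)),
      app_gr ((le_Gam_right η η').trans_lt (h3 3 _))]

theorem exists_comb (gs : List (O → O)) (h : ∀ g ∈ gs, On M fun w => g (ro (w 0))) :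
    ∃ G : O → O, (On M fun w => G (ro (w 0))) ∧ ∀ m : Set O, 0 ∈ m → 1 ∈ m →
      (∀ x ∈ m, ∀ y ∈ m, Gam x y ∈ m) → (∀ x ∈ m, G x ∈ m) → ∀ g ∈ gs, ∀ x ∈ m, g x ∈ m := by
  classical
  induction gs with
  | nil => exact ⟨fun _ => 0, On.zero, fun _ _ _ _ _ _ h => by simp at h⟩
  | cons g gs ih =>
    obtain ⟨G, h1, h2⟩ := ih fun g hg => h g (List.mem_cons_of_mem _ hg)
    have h3 := h g List.mem_cons_self
    refine ⟨fun x => if K1 x = 0 then g (K2 x) else G (K2 x),
      On.ite (by (repeat' (beta_reduce; (first | with_reducible (first | refine On.idx ‹_› ?_ | refine Fn.GF ‹_› ?_ | refine Fn.GS ‹_› ?_ | apply Df.isInj | apply Df.isCard | apply On.K1 | apply On.K2 | apply On.Gam | apply Fn.ran | apply Fn.zfst | apply Fn.zsnd | exact Fn.var _ | exact Fn.const ‹_› | exact On.const ‹_› | exact Df.prop _ | apply Df.and | apply Df.or | apply Df.not | apply Df.iff | apply Df.ex | apply Df.bex | apply Df.oex | apply Df.obex | apply Df.all |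 apply Df.ball | apply Df.oall | apply Df.oball | apply Df.imp | apply Df.mem | apply Df.eq | apply Df.oeq | apply Df.olt | apply Df.ole | apply Df.subset | apply Df.isOrdinal | apply Fn.pair | apply Fn.app | apply Fn.upair | apply Fn.single | apply Fn.insert | apply Fn.union | apply Fn.sUnion | apply Fn.prod | apply Fn.sep | apply Fn.img | apply Fn.ite | exact Fn.omega | exact Fn.empty | exact Fn.nat _ | apply On.fn | apply On.ro | apply On.succ | apply On.max | apply On.ite | apply On.mu | exact On.zero | exact On.one | exact On.omega | exact On.nat _) | exact On.ofNat _ | with_reducible (first | refine Fn.osub1 ‹_› ?_ | refine On.sub1 ‹_› ?_ | refine Df.osub1 ‹_› ?_ | refine On.zsub1 ‹_› ?_ | refine Fn.sub1 ‹_› ?_ | refine Df.sub1 ‹_› ?_ | refine Fn.sub2 ‹_› ?_ ?_ | refine Df.sub2 ‹_› ?_ ?_))))) (On.sub1 h3 (by (repeat' (beta_reduce; (first | with_reducible (first | refine On.idx ‹_› ?_ | refine Fn.GF ‹_› ?_ | refine Fn.GS ‹_› ?_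 | apply Df.isInj | apply Df.isCard | apply On.K1 | apply On.K2 | apply On.Gam | apply Fn.ran | apply Fn.zfst | apply Fn.zsnd | exact Fn.var _ | exact Fn.const ‹_› | exact On.const ‹_› | exact Df.prop _ | apply Df.and | apply Df.or | apply Df.not | apply Df.iff | apply Df.ex | apply Df.bex | apply Df.oex | apply Df.obex | apply Df.all | apply Df.ball | apply Df.oall | apply Df.oball | apply Df.imp | apply Df.mem | apply Df.eq | apply Df.oeq | apply Df.olt | apply Df.ole | apply Df.subset | apply Df.isOrdinal | apply Fn.pair | apply Fn.app | apply Fn.upair | apply Fn.single | apply Fn.insert | apply Fn.union | apply Fn.sUnion | apply Fn.prod | apply Fn.sep | apply Fn.img | apply Fn.ite | exact Fn.omega | exact Fn.empty | exact Fn.nat _ | apply On.fn | apply On.ro | apply On.succ | apply On.max | apply On.ite | apply On.mu | exact On.zero | exact On.one | exact On.omega | exact On.nat _) | exact On.ofNat _ | with_reducible (first | refine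 Fn.osub1 ‹_› ?_ | refine On.sub1 ‹_› ?_ | refine Df.osub1 ‹_› ?_ | refine On.zsub1 ‹_› ?_ | refine Fn.sub1 ‹_› ?_ | refine Df.sub1 ‹_› ?_ | refine Fn.sub2 ‹_› ?_ ?_ | refine Df.sub2 ‹_› ?_ ?_)))))) (On.sub1 h1 (by (repeat' (beta_reduce; (first | with_reducible (first | refine On.idx ‹_› ?_ | refine Fn.GF ‹_› ?_ | refine Fn.GS ‹_› ?_ | apply Df.isInj | apply Df.isCard | apply On.K1 | apply On.K2 | apply On.Gam | apply Fn.ran | apply Fn.zfst | apply Fn.zsnd | exact Fn.var _ | exact Fn.const ‹_› | exact On.const ‹_› | exact Df.prop _ | apply Df.and | apply Df.or | apply Df.not | apply Df.iff | apply Df.ex | apply Df.bex | apply Df.oex | apply Df.obex | apply Df.all | apply Df.ball | apply Df.oall | apply Df.oball | apply Df.imp | apply Df.mem | apply Df.eq | apply Df.oeq | apply Df.olt | apply Df.ole | apply Df.subset | apply Df.isOrdinal | apply Fn.pair | apply Fn.app | apply Fn.upair | apply Fn.single | apply Fn.insert | apply Fn.union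 | apply Fn.sUnion | apply Fn.prod | apply Fn.sep | apply Fn.img | apply Fn.ite | exact Fn.omega | exact Fn.empty | exact Fn.nat _ | apply On.fn | apply On.ro | apply On.succ | apply On.max | apply On.ite | apply On.mu | exact On.zero | exact On.one | exact On.omega | exact On.nat _) | exact On.ofNat _ | with_reducible (first | refine Fn.osub1 ‹_› ?_ | refine On.sub1 ‹_› ?_ | refine Df.osub1 ‹_› ?_ | refine On.zsub1 ‹_› ?_ | refine Fn.sub1 ‹_› ?_ | refine Df.sub1 ‹_› ?_ | refine Fn.sub2 ‹_› ?_ ?_ | refine Df.sub2 ‹_› ?_ ?_)))))), fun m m0 m1 m2 m3 g' hg' => ?_⟩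
    rcases List.mem_cons.1 hg' with rfl | hg'
    · intro x hx
      simpa using m3 _ (m2 _ m0 _ hx)
    · exact h2 m m0 m1 m2 (fun x hx => by simpa using m3 _ (m2 _ m1 _ hx)) g' hg'

theorem exists_hull {k α : O} (hk : OCard M k) (hω : ω ≤ k) (hα : α.toZFSet ∈ M)
    (gs : List (O → O)) (h : ∀ g ∈ gs, On M fun w => g (ro (w 0))) :
    ∃ (δ : O) (h : O → O) (m : Set O), Le M δ.toZFSet k.toZFSet ∧
      (∀ a < δ, ∀ b < δ, (h a < h b ↔ a < b)) ∧ (∀ x, x ∈ m ↔ ∃ a < δ, h a = x) ∧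
      (∀ x ∈ m, x.toZFSet ∈ M) ∧ Set.Iio k ⊆ m ∧ α ∈ m ∧ (∀ x ∈ m, ∀ y ∈ m, Gam x y ∈ m) ∧
      ∀ g ∈ gs, ∀ x ∈ m, g x ∈ m := by
  obtain ⟨G, h1, h2⟩ := exists_comb gs h
  obtain ⟨ev, h3, h4⟩ := exists_ev hk hω hα h1
  obtain ⟨h5, h6, h7, h8⟩ := h4 _ rfl
  have hX : img (fun x => (ev (ro x)).toZFSet) k.toZFSet ∈ M :=
    img_mem (g := fun x => (ev (ro x)).toZFSet) h3 hk.1
  have hX' : ∀ x : O, x.toZFSet ∈ img (fun x => (ev (ro x)).toZFSet) k.toZFSet ↔
      ∃ η < k, ev η = x := by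
    intro x
    rw [mem_img]
    constructor
    · rintro ⟨y, hy, e⟩
      obtain ⟨η, hη, rfl⟩ := mem_toZFSet_iff.1 hy
      exact ⟨η, hη, by simpa [toZ_inj] using e.symm⟩
    · rintro ⟨η, hη, rfl⟩
      exact ⟨_, toZFSet_mem_toZFSet_iff.2 hη, by simp⟩
  obtain ⟨δ, h, a1, a2, a3, a4, a5, -⟩ := collapse hX fun x hx => by
    obtain ⟨y, -, rfl⟩ := mem_img.1 hx
    exact isOrdinal_toZFSet _
  refine ⟨δ, h, _, Le.trans (b := img (fun x => (ev (ro x)).toZFSet) k.toZFSet)
    ⟨fun x => (h (ro x)).toZFSet, a2, fun x hx => ?_, fun x hx y hy e => ?_⟩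
    (Le.of_surj (H := fun η => (ev η).toZFSet) h3 hk.1 fun y hy => ?_), a5,
    fun x => ⟨fun hx => a4 x ((hX' x).2 hx), ?_⟩, fun x hx => tr hX ((hX' x).2 hx), h5, h6, h8,
    h2 _ (h5 (omega0_pos.trans_le hω)) (h5 (one_lt_omega0.trans_le hω)) h8 h7⟩
  · obtain ⟨c, hc, rfl⟩ := mem_toZFSet_iff.1 hx
    simpa using a3 c hc
  · obtain ⟨c, hc, rfl⟩ := mem_toZFSet_iff.1 hx
    obtain ⟨d, hd, rfl⟩ := mem_toZFSet_iff.1 hy
    simp only [ro_toZ, toZ_inj] at e ⊢
    rcases lt_trichotomy c d with h9 | h9 | h9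
    · exact absurd e ((a5 c hc d hd).2 h9).ne
    · exact h9
    · exact absurd e ((a5 d hd c hc).2 h9).ne'
  · obtain ⟨x, hx, rfl⟩ := mem_img.1 hy
    obtain ⟨η, hη, rfl⟩ := mem_toZFSet_iff.1 hx
    exact ⟨η, hη, by simp⟩
  · rintro ⟨a, ha, rfl⟩
    exact (hX' _).1 (a3 a ha)

/-- decoding of finite sequences -/
noncomputable def envO (e : O) (i : ℕ) : O := K1 (K2^[i] e)

theorem On.envO {s : (ℕ → Z) → O} (hs : On M s) (i : ℕ) : On M fun v => envO (s v) i := by
  refine On.K1 ?_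
  induction i with
  | zero => exact hs
  | succ i ih => exact ih.K2.congr fun _ _ => (Function.iterate_succ_apply' _ _ _).symm

omit hM in
theorem exists_envO {m : Set O} (h : ∀ x ∈ m, ∀ y ∈ m, Gam x y ∈ m) (n : ℕ) :
    ∀ v : ℕ → O, (∀ i, v i ∈ m) → ∃ e ∈ m, ∀ i < n, envO e i = v i := by
  induction n with
  | zero => exact fun v hv => ⟨v 0, hv 0, fun _ hi => absurd hi (Nat.not_lt_zero _)⟩
  | succ n ih =>
    intro v hv
    obtain ⟨e, he, h1⟩ := ih (fun i => v (i + 1)) fun i => hv _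
    refine ⟨Gam (v 0) e, h _ (hv 0) _ he, fun i hi => ?_⟩
    cases i with
    | zero => simp [envO]
    | succ i => simpa [envO] using h1 i (by omega)

/-- Skolem function -/
noncomputable def sk (M : Set Z) (A : Z) (ψ : Fml) (e : O) : O :=
  mu M fun c => c < K1 e ∧
    SatS {u | u ∈ GS A (K1 e)} (scons (GF A c) fun i => GF A (envO (K2 e) i)) ψ

theorem On.sk (hA : A ∈ M) (ψ : Fml) : On M fun w => sk M A ψ (LA.ro (w 0)) := by
  refine On.mu (Df.and (by (repeat' (beta_reduce; (first | with_reducible (first | refine On.idx ‹_› ?_ | refine Fn.GF ‹_› ?_ | refine Fn.GS ‹_› ?_ | apply Df.isInj | apply Df.isCard | apply On.K1 | apply On.K2 | apply On.Gam | apply Fn.ran | apply Fn.zfst | apply Fn.zsnd | exact Fn.var _ | exact Fn.const ‹_› | exact On.const ‹_› | exact Df.prop _ | apply Df.and | apply Df.or | apply Df.not | apply Df.iff | apply Df.ex | apply Df.bex | apply Df.oex | apply Df.obex | apply Df.all | apply Df.ball | apply Df.oall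 | apply Df.oball | apply Df.imp | apply Df.mem | apply Df.eq | apply Df.oeq | apply Df.olt | apply Df.ole | apply Df.subset | apply Df.isOrdinal | apply Fn.pair | apply Fn.app | apply Fn.upair | apply Fn.single | apply Fn.insert | apply Fn.union | apply Fn.sUnion | apply Fn.prod | apply Fn.sep | apply Fn.img | apply Fn.ite | exact Fn.omega | exact Fn.empty | exact Fn.nat _ | apply On.fn | apply On.ro | apply On.succ | apply On.max | apply On.ite | apply On.mu | exact On.zero | exact On.one | exact On.omega | exact On.nat _) | exact On.ofNat _ | with_reducible (first | refine Fn.osub1 ‹_› ?_ | refine On.sub1 ‹_› ?_ | refine Df.osub1 ‹_› ?_ | refine On.zsub1 ‹_› ?_ | refine Fn.sub1 ‹_› ?_ | refine Df.sub1 ‹_› ?_ | refine Fn.sub2 ‹_› ?_ ?_ | refine Df.sub2 ‹_› ?_ ?_))))) ((Df.satS ψ (U := fun w => {u | u ∈ GS A (LA.K1 (LA.ro (w 1)))})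
    (e := scons (fun w => GF A (LA.ro (w 0))) fun i w => GF A (LA.envO (LA.K2 (LA.ro (w 1))) i))
    (Df.mem (Fn.var 0) (by (repeat' (beta_reduce; (first | with_reducible (first | refine On.idx ‹_› ?_ | refine Fn.GF ‹_› ?_ | refine Fn.GS ‹_› ?_ | apply Df.isInj | apply Df.isCard | apply On.K1 | apply On.K2 | apply On.Gam | apply Fn.ran | apply Fn.zfst | apply Fn.zsnd | exact Fn.var _ | exact Fn.const ‹_› | exact On.const ‹_› | exact Df.prop _ | apply Df.and | apply Df.or | apply Df.not | apply Df.iff | apply Df.ex | apply Df.bex | apply Df.oex | apply Df.obex | apply Df.all | apply Df.ball | apply Df.oall | apply Df.oball | apply Df.imp | apply Df.mem | apply Df.eq | apply Df.oeq | apply Df.olt | apply Df.ole | apply Df.subset | apply Df.isOrdinal | apply Fn.pair | apply Fn.app | apply Fn.upair | apply Fn.single | apply Fn.insert | apply Fn.union | apply Fn.sUnion | apply Fn.prod | apply Fn.sep | apply Fn.img | apply Fn.ite | exact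 Fn.omega | exact Fn.empty | exact Fn.nat _ | apply On.fn | apply On.ro | apply On.succ | apply On.max | apply On.ite | apply On.mu | exact On.zero | exact On.one | exact On.omega | exact On.nat _) | exact On.ofNat _ | with_reducible (first | refine Fn.osub1 ‹_› ?_ | refine On.sub1 ‹_› ?_ | refine Df.osub1 ‹_› ?_ | refine On.zsub1 ‹_› ?_ | refine Fn.sub1 ‹_› ?_ | refine Df.sub1 ‹_› ?_ | refine Fn.sub2 ‹_› ?_ ?_ | refine Df.sub2 ‹_› ?_ ?_)))))) (fun v hv u hu => tr ((Fn.GS hA (On.ro (Fn.var 1)).K1).1 v hv) hu)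
    (fn_scons (by (repeat' (beta_reduce; (first | with_reducible (first | refine On.idx ‹_› ?_ | refine Fn.GF ‹_› ?_ | refine Fn.GS ‹_› ?_ | apply Df.isInj | apply Df.isCard | apply On.K1 | apply On.K2 | apply On.Gam | apply Fn.ran | apply Fn.zfst | apply Fn.zsnd | exact Fn.var _ | exact Fn.const ‹_› | exact On.const ‹_› | exact Df.prop _ | apply Df.and | apply Df.or | apply Df.not | apply Df.iff | apply Df.ex | apply Df.bex | apply Df.oex | apply Df.obex | apply Df.all | apply Df.ball | apply Df.oall | apply Df.oball | apply Df.imp | apply Df.mem | apply Df.eq | apply Df.oeq | apply Df.olt | apply Df.ole | apply Df.subset | apply Df.isOrdinal | apply Fn.pair | apply Fn.app | apply Fn.upair | apply Fn.single | apply Fn.insert | apply Fn.union | apply Fn.sUnion | apply Fn.prod | apply Fn.sep | apply Fn.img | apply Fn.ite | exact Fn.omega | exact Fn.empty | exact Fn.nat _ | apply On.fn | apply On.ro | apply On.succ | apply On.max | apply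 On.ite | apply On.mu | exact On.zero | exact On.one | exact On.omega | exact On.nat _) | exact On.ofNat _ | with_reducible (first | refine Fn.osub1 ‹_› ?_ | refine On.sub1 ‹_› ?_ | refine Df.osub1 ‹_› ?_ | refine On.zsub1 ‹_› ?_ | refine Fn.sub1 ‹_› ?_ | refine Df.sub1 ‹_› ?_ | refine Fn.sub2 ‹_› ?_ ?_ | refine Df.sub2 ‹_› ?_ ?_))))) fun i => Fn.GF hA ((On.ro (Fn.var 1)).K2.envO i))).congr
      fun w _ => iff_of_eq ?_))
  congr 1
  funext i
  cases i <;> rfl

/-- **Condensation.** -/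
theorem IsL.cond (hL : IsL M A) {k : O} (hk : OCard M k) (hω : ω ≤ k) {x : Z} (hx : x ∈ M)
    (hxk : x ⊆ k.toZFSet) {l : O} (hl : OCard M l) (hkl : k < l) : ∃ c < l, GF A c = x := by
  have hA := hL.mem
  obtain ⟨α, hα, rfl⟩ := hL.all x hx
  obtain ⟨δ, h, m, a1, a2, a3, a4, a5, a6, a7, a8⟩ := exists_hull hk hω hα
    (K1 :: K2 :: (fun e => mu M fun c => ¬ (GF A c ∈ GF A (K1 e) ↔ GF A c ∈ GF A (K2 e))) ::
      (fun e => mu M fun c => GF A c = GF A e) :: (fun e => LA.idx M A e.toZFSet) ::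
      ((exs th0 ++ exs th1).map (sk M A))) (by
    simp only [List.forall_mem_cons]
    refine ⟨by (repeat' (beta_reduce; (first | with_reducible (first | refine On.idx ‹_› ?_ | refine Fn.GF ‹_› ?_ | refine Fn.GS ‹_› ?_ | apply Df.isInj | apply Df.isCard | apply On.K1 | apply On.K2 | apply On.Gam | apply Fn.ran | apply Fn.zfst | apply Fn.zsnd | exact Fn.var _ | exact Fn.const ‹_› | exact On.const ‹_› | exact Df.prop _ | apply Df.and | apply Df.or | apply Df.not | apply Df.iff | apply Df.ex | apply Df.bex | apply Df.oex | apply Df.obex | apply Df.all | apply Df.ball | apply Df.oall | apply Df.oball | apply Df.imp | apply Df.mem | apply Df.eq | apply Df.oeq | apply Df.olt | apply Df.ole | apply Df.subset | apply Df.isOrdinal | apply Fn.pair | apply Fn.app | apply Fn.upair | apply Fn.single | apply Fn.insert | apply Fn.union | apply Fn.sUnion | apply Fn.prod | apply Fn.sep | apply Fn.img | apply Fn.ite | exact Fn.omega | exact Fn.empty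 | exact Fn.nat _ | apply On.fn | apply On.ro | apply On.succ | apply On.max | apply On.ite | apply On.mu | exact On.zero | exact On.one | exact On.omega | exact On.nat _) | exact On.ofNat _ | with_reducible (first | refine Fn.osub1 ‹_› ?_ | refine On.sub1 ‹_› ?_ | refine Df.osub1 ‹_› ?_ | refine On.zsub1 ‹_› ?_ | refine Fn.sub1 ‹_› ?_ | refine Df.sub1 ‹_› ?_ | refine Fn.sub2 ‹_› ?_ ?_ | refine Df.sub2 ‹_› ?_ ?_)))), by (repeat' (beta_reduce; (first | with_reducible (first | refine On.idx ‹_› ?_ | refine Fn.GF ‹_› ?_ | refine Fn.GS ‹_› ?_ | apply Df.isInj | apply Df.isCard | apply On.K1 | apply On.K2 | apply On.Gam | apply Fn.ran | apply Fn.zfst | apply Fn.zsnd | exact Fn.var _ | exact Fn.const ‹_› | exact On.const ‹_› | exact Df.prop _ | apply Df.and | apply Df.or | apply Df.not | apply Df.iff | apply Df.ex | apply Df.bex | apply Df.oex | apply Df.obex | apply Df.all | apply Df.ball | apply Df.oall | apply Df.oball | apply Df.imp |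 apply Df.mem | apply Df.eq | apply Df.oeq | apply Df.olt | apply Df.ole | apply Df.subset | apply Df.isOrdinal | apply Fn.pair | apply Fn.app | apply Fn.upair | apply Fn.single | apply Fn.insert | apply Fn.union | apply Fn.sUnion | apply Fn.prod | apply Fn.sep | apply Fn.img | apply Fn.ite | exact Fn.omega | exact Fn.empty | exact Fn.nat _ | apply On.fn | apply On.ro | apply On.succ | apply On.max | apply On.ite | apply On.mu | exact On.zero | exact On.one | exact On.omega | exact On.nat _) | exact On.ofNat _ | with_reducible (first | refine Fn.osub1 ‹_› ?_ | refine On.sub1 ‹_› ?_ | refine Df.osub1 ‹_› ?_ | refine On.zsub1 ‹_› ?_ | refine Fn.sub1 ‹_› ?_ | refine Df.sub1 ‹_› ?_ | refine Fn.sub2 ‹_› ?_ ?_ | refine Df.sub2 ‹_› ?_ ?_)))), by (repeat' (beta_reduce; (first | with_reducible (first | refine On.idx ‹_› ?_ | refine Fn.GF ‹_› ?_ | refine Fn.GS ‹_› ?_ | apply Df.isInj | apply Df.isCard | apply On.K1 | apply On.K2 | apply On.Gam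 | apply Fn.ran | apply Fn.zfst | apply Fn.zsnd | exact Fn.var _ | exact Fn.const ‹_› | exact On.const ‹_› | exact Df.prop _ | apply Df.and | apply Df.or | apply Df.not | apply Df.iff | apply Df.ex | apply Df.bex | apply Df.oex | apply Df.obex | apply Df.all | apply Df.ball | apply Df.oall | apply Df.oball | apply Df.imp | apply Df.mem | apply Df.eq | apply Df.oeq | apply Df.olt | apply Df.ole | apply Df.subset | apply Df.isOrdinal | apply Fn.pair | apply Fn.app | apply Fn.upair | apply Fn.single | apply Fn.insert | apply Fn.union | apply Fn.sUnion | apply Fn.prod | apply Fn.sep | apply Fn.img | apply Fn.ite | exact Fn.omega | exact Fn.empty | exact Fn.nat _ | apply On.fn | apply On.ro | apply On.succ | apply On.max | apply On.ite | apply On.mu | exact On.zero | exact On.one | exact On.omega | exact On.nat _) | exact On.ofNat _ | with_reducible (first | refine Fn.osub1 ‹_› ?_ | refine On.sub1 ‹_› ?_ | refine Df.osub1 ‹_› ?_ | refine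 On.zsub1 ‹_› ?_ | refine Fn.sub1 ‹_› ?_ | refine Df.sub1 ‹_› ?_ | refine Fn.sub2 ‹_› ?_ ?_ | refine Df.sub2 ‹_› ?_ ?_)))), by (repeat' (beta_reduce; (first | with_reducible (first | refine On.idx ‹_› ?_ | refine Fn.GF ‹_› ?_ | refine Fn.GS ‹_› ?_ | apply Df.isInj | apply Df.isCard | apply On.K1 | apply On.K2 | apply On.Gam | apply Fn.ran | apply Fn.zfst | apply Fn.zsnd | exact Fn.var _ | exact Fn.const ‹_› | exact On.const ‹_› | exact Df.prop _ | apply Df.and | apply Df.or | apply Df.not | apply Df.iff | apply Df.ex | apply Df.bex | apply Df.oex | apply Df.obex | apply Df.all | apply Df.ball | apply Df.oall | apply Df.oball | apply Df.imp | apply Df.mem | apply Df.eq | apply Df.oeq | apply Df.olt | apply Df.ole | apply Df.subset | apply Df.isOrdinal | apply Fn.pair | apply Fn.app | apply Fn.upair | apply Fn.single | apply Fn.insert | apply Fn.union | apply Fn.sUnion | apply Fn.prod | apply Fn.sep | apply Fn.img | apply Fn.ite | exact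 Fn.omega | exact Fn.empty | exact Fn.nat _ | apply On.fn | apply On.ro | apply On.succ | apply On.max | apply On.ite | apply On.mu | exact On.zero | exact On.one | exact On.omega | exact On.nat _) | exact On.ofNat _ | with_reducible (first | refine Fn.osub1 ‹_› ?_ | refine On.sub1 ‹_› ?_ | refine Df.osub1 ‹_› ?_ | refine On.zsub1 ‹_› ?_ | refine Fn.sub1 ‹_› ?_ | refine Df.sub1 ‹_› ?_ | refine Fn.sub2 ‹_› ?_ ?_ | refine Df.sub2 ‹_› ?_ ?_)))), by (repeat' (beta_reduce; (first | with_reducible (first | refine On.idx ‹_› ?_ | refine Fn.GF ‹_› ?_ | refine Fn.GS ‹_› ?_ | apply Df.isInj | apply Df.isCard | apply On.K1 | apply On.K2 | apply On.Gam | apply Fn.ran | apply Fn.zfst | apply Fn.zsnd | exact Fn.var _ | exact Fn.const ‹_› | exact On.const ‹_› | exact Df.prop _ | apply Df.and | apply Df.or | apply Df.not | apply Df.iff | apply Df.ex | apply Df.bex | apply Df.oex | apply Df.obex | apply Df.all | apply Df.ball | apply Df.oall | apply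 Df.oball | apply Df.imp | apply Df.mem | apply Df.eq | apply Df.oeq | apply Df.olt | apply Df.ole | apply Df.subset | apply Df.isOrdinal | apply Fn.pair | apply Fn.app | apply Fn.upair | apply Fn.single | apply Fn.insert | apply Fn.union | apply Fn.sUnion | apply Fn.prod | apply Fn.sep | apply Fn.img | apply Fn.ite | exact Fn.omega | exact Fn.empty | exact Fn.nat _ | apply On.fn | apply On.ro | apply On.succ | apply On.max | apply On.ite | apply On.mu | exact On.zero | exact On.one | exact On.omega | exact On.nat _) | exact On.ofNat _ | with_reducible (first | refine Fn.osub1 ‹_› ?_ | refine On.sub1 ‹_› ?_ | refine Df.osub1 ‹_› ?_ | refine On.zsub1 ‹_› ?_ | refine Fn.sub1 ‹_› ?_ | refine Df.sub1 ‹_› ?_ | refine Fn.sub2 ‹_› ?_ ?_ | refine Df.sub2 ‹_› ?_ ?_)))), fun g hg => ?_⟩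
    obtain ⟨ψ, -, rfl⟩ := List.mem_map.1 hg
    exact On.sk hA ψ)
  simp only [List.forall_mem_cons] at a8
  obtain ⟨b1, b2, b3, b4, b5, b6⟩ := a8
  have hm : ∀ a < δ, h a ∈ m := fun a ha => (a3 _).2 ⟨a, ha, rfl⟩
  choose! r r1 r2 using fun x (hx : x ∈ m) => (a3 x).1 hx
  have r3 : ∀ a < δ, r (h a) = a := fun a ha => by
    rcases lt_trichotomy (r (h a)) a with h1 | h1 | h1
    · exact absurd (r2 _ (hm a ha)) ((a2 _ (r1 _ (hm a ha)) a ha).2 h1).ne
    · exact h1
    · exact absurd (r2 _ (hm a ha)) ((a2 a ha _ (r1 _ (hm a ha))).2 h1).ne'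
  have k1 : ∀ a < δ, h (r (K1 (h a))) = K1 (h a) := fun a ha => r2 _ (b1 _ (hm a ha))
  have k2 : ∀ a < δ, h (r (K2 (h a))) = K2 (h a) := fun a ha => r2 _ (b2 _ (hm a ha))
  have l1 : ∀ a < δ, r (K1 (h a)) < δ := fun a ha => r1 _ (b1 _ (hm a ha))
  have l2 : ∀ a < δ, r (K2 (h a)) < δ := fun a ha => r1 _ (b2 _ (hm a ha))
  have tv : ∀ a < δ, ∀ θ, (∀ ψ ∈ exs θ, ψ ∈ exs th0 ++ exs th1) → ∀ v : ℕ → O, (∀ i, v i < a) →
      (SatX (fun a b => GF A (h a) ∈ GF A (h b)) (fun a b => GF A (h a) = GF A (h b))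
        (Set.Iio a) v θ ↔ SatS {u | u ∈ GS A (h a)} (fun i => GF A (h (v i))) θ) := by
    intro a ha θ hθ v hv
    have c1 := fun θ (v : ℕ → O) => satX_map (E := fun a b => GF A a ∈ GF A b)
      (Q := fun a b => GF A a = GF A b) (E' := fun a b : Z => a ∈ b) (Q' := (· = ·)) (GF A)
      (T := Set.univ) (D := Set.Iio (h a)) (D' := {u | u ∈ GS A (h a)}) (Set.subset_univ _)
      (fun _ => mem_GS) (fun _ _ _ _ => Iff.rfl) (fun _ _ _ _ => Iff.rfl) θ v fun _ => trivial
    refine (satX_map (E' := fun a b => GF A a ∈ GF A b) (Q' := fun a b => GF A a = GF A b) h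
      (T := Set.univ) (D' := m ∩ Set.Iio (h a)) (Set.subset_univ _) (fun y => ?_)
      (fun _ _ _ _ => Iff.rfl) (fun _ _ _ _ => Iff.rfl) θ v fun _ => trivial).trans
      ((tarski_vaught (T := m) Set.inter_subset_right Set.inter_subset_left θ ?_ _
        fun i => hm _ ((hv i).trans ha)).trans (c1 θ _))
    · constructor
      · rintro ⟨h1, h2⟩
        exact ⟨r y, (a2 _ (r1 y h1) a ha).1 (by rw [r2 y h1]; exact h2), r2 y h1⟩
      · rintro ⟨c, hc, rfl⟩
        exact ⟨hm c (hc.trans ha), (a2 c (hc.trans ha) a ha).2 hc⟩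
    · rintro ψ hψ u hu ⟨c, hc, h1⟩
      obtain ⟨e, he, h2⟩ := exists_envO a7 (bd ψ) u hu
      have h3 : ∀ c, SatX (fun a b => GF A a ∈ GF A b) (fun a b => GF A a = GF A b)
          (Set.Iio (h a)) (scons c u) ψ ↔
          SatS {u | u ∈ GS A (h a)} (scons (GF A c) fun i => GF A (envO e i)) ψ := fun c => by
        rw [c1, map_scons]
        exact satX_congr ψ (scons_agree (fun i hi => by rw [h2 i hi]) _)
      have h4 := b6 _ (List.mem_map.2 ⟨ψ, hθ ψ hψ, rfl⟩) _ (a7 _ (hm a ha) _ he)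
      have h5 := (mu_spec (M := M) (R := fun c => c < h a ∧ SatS {u | u ∈ GS A (h a)}
        (scons (GF A c) fun i => GF A (envO e i)) ψ)
        ⟨c, le_M (le_of_lt hc) (a4 _ (hm a ha)), hc, (h3 c).1 h1⟩).2
      simp only [sk, K1_Gam, K2_Gam] at h4
      exact ⟨_, ⟨h4, h5.1⟩, (h3 _).2 h5.2⟩
  have hC : Code δ (fun a b => GF A (h a) ∈ GF A (h b)) (fun a b => GF A (h a) = GF A (h b))
      (fun a => r (K1 (h a))) (fun a => r (K2 (h a))) (fun c => GF A (h c) ∈ A) := by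
    refine ⟨fun a ha => ⟨l1 a ha, l2 a ha⟩, fun a ha b hb hab => ?_, fun a _ b hb c hc _ => ?_,
      fun a ha b hb => ⟨fun e c _ => by rw [e], fun h1 => ?_⟩, fun a ha c hc h1 => ?_,
      fun a _ c _ c' _ e h1 => e ▸ h1, fun a ha c hc => ?_⟩
    · rw [← glt_map a2 (l1 a ha) (l2 a ha) (l1 b hb) (l2 b hb), k1 a ha, k2 a ha, k1 b hb, k2 b hb]
      exact K_mono ((a2 a ha b hb).2 hab)
    · have h1 := a7 _ (hm b hb) _ (hm c hc)
      exact ⟨_, r1 _ h1, by rw [r2 _ h1, K1_Gam, r3 b hb], by rw [r2 _ h1, K2_Gam, r3 c hc]⟩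
    · by_contra hne
      have h2 : ∃ c : O, c.toZFSet ∈ M ∧ ¬ (GF A c ∈ GF A (h a) ↔ GF A c ∈ GF A (h b)) := by
        by_contra h3
        refine hne (ZFSet.ext fun z => ⟨fun hz => ?_, fun hz => ?_⟩)
        · obtain ⟨c, hc, rfl⟩ := mem_GS.1 (mem_GF.1 hz).1
          exact (not_not.1 fun h4 => h3 ⟨c, le_M hc.le (a4 _ (hm a ha)), h4⟩).1 hz
        · obtain ⟨c, hc, rfl⟩ := mem_GS.1 (mem_GF.1 hz).1
          exact (not_not.1 fun h4 => h3 ⟨c, le_M hc.le (a4 _ (hm b hb)), h4⟩).2 hz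
      have h3 := b3 _ (a7 _ (hm a ha) _ (hm b hb))
      simp only [K1_Gam, K2_Gam] at h3
      have h4 := h1 _ (r1 _ h3)
      rw [r2 _ h3] at h4
      exact (mu_spec h2).2 h4
    · obtain ⟨d, hd, e⟩ := mem_GS.1 (mem_GF.1 h1).1
      have h2 := b4 _ (hm c hc)
      have h3 := (mu_spec (M := M) (R := fun x => GF A x = GF A (h c))
        ⟨_, a4 _ (hm c hc), rfl⟩).2
      have h4 := (mu_le (M := M) (R := fun x => GF A x = GF A (h c))
        (le_M hd.le (a4 _ (hm a ha))) e).trans_lt hd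
      refine ⟨_, (a2 _ (r1 _ h2) a ha).1 (by rw [r2 _ h2]; exact h4), ?_, ?_⟩
      · rw [r2 _ h2, h3]
      · rw [r2 _ h2, h3]; exact h1
    · have e1 : h (r (K1 (h (r (K1 (h a)))))) = p1 (h a) := by rw [k1 _ (l1 a ha), k1 a ha, p1]
      have e2 : h (r (K2 (h (r (K1 (h a)))))) = p2 (h a) := by rw [k2 _ (l1 a ha), k1 a ha, p2]
      have e3 : h (r (K1 (h (r (K2 (h a)))))) = p3 (h a) := by rw [k1 _ (l2 a ha), k2 a ha, p3]
      have hc' := (a2 c (hc.trans ha) a ha).2 hc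
      rw [mem_GF, ← e1, ← e2, ← e3, a2 _ (l1 _ (l1 a ha)) a ha, a2 _ (l2 _ (l1 a ha)) a ha,
        a2 _ (l1 _ (l2 a ha)) a ha]
      simp only [GF_mem_GS hc', true_and]
      refine and_congr_right fun h1 => and_congr_right fun h2 => and_congr_right fun h3 => ?_
      rw [tv a ha th0 (fun _ h => List.mem_append_left _ h) _ (env4_in (T := Set.Iio a) hc h1 h2 h3),
        tv a ha th1 (fun _ h => List.mem_append_right _ h) _ (env4_in (T := Set.Iio a) hc h1 h2 h3),
        map_env4 fun x => GF A (h x)]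
      exact Op_iff (GF_mem_GS hc') (GF_mem_GS ((a2 _ (h1.trans ha) a ha).2 h1))
        (GF_mem_GS ((a2 _ (h2.trans ha) a ha).2 h2)) (GF_mem_GS ((a2 _ (h3.trans ha) a ha).2 h3))
  have good : ∀ y : Z, (∀ z ∈ y, (∃ d < δ, GF A (h d) = z) ∧ ∀ d < δ, GF A (h d) = z →
      cpi (fun a b => GF A (h a) ∈ GF A (h b)) d = z) → ∀ c < δ, GF A (h c) = y →
      cpi (fun a b => GF A (h a) ∈ GF A (h b)) c = y := by
    rintro _ hy c hc rfl
    ext z
    constructor
    · intro hz
      obtain ⟨d, hd, h1, rfl⟩ := mem_cpi.1 hz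
      rw [(hy _ h1).2 d (hd.trans hc) rfl]; exact h1
    · intro hz
      obtain ⟨⟨d, hd, rfl⟩, h1⟩ := hy z hz
      rw [← h1 d hd rfl]
      exact (hC.pi_mem hd hc).1 hz
  have good' : ∀ ξ < k, (∃ d < δ, GF A (h d) = ξ.toZFSet) ∧ ∀ d < δ, GF A (h d) = ξ.toZFSet →
      cpi (fun a b => GF A (h a) ∈ GF A (h b)) d = ξ.toZFSet := by
    intro ξ
    induction ξ using WellFoundedLT.induction with
    | _ ξ ih =>
    intro hξ
    have h1 := b5 _ (a5 hξ)
    refine ⟨⟨_, r1 _ h1, by rw [r2 _ h1, hL.idx (le_M hξ.le hk.1)]⟩, good _ fun z hz => ?_⟩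
    obtain ⟨c, hc, rfl⟩ := mem_toZFSet_iff.1 hz
    exact ih c hc (hc.trans hξ)
  have hω' : ∀ z ∈ A, ∃ ξ < k, ξ.toZFSet = z := fun z hz => by
    obtain ⟨c, hc, e⟩ := mem_toZFSet_iff.1 (toZ_omega ▸ hL.sub hz)
    exact ⟨c, hc.trans_le hω, e⟩
  have h1 := hC.main (A := A) (fun c hc => ⟨fun h1 => ?_, fun h1 => ?_⟩) _ (r1 _ a6)
  · refine ⟨r α, not_le.1 fun h2 => ?_, h1 ▸ good _ (fun z hz => ?_) _ (r1 _ a6) (by rw [r2 _ a6])⟩
    · exact absurd (hl.le ((Le.of_subset (toZFSet_subset_toZFSet_iff.2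
        (h2.trans (r1 _ a6).le))).trans a1)) (not_le.2 hkl)
    · obtain ⟨c, hc, rfl⟩ := mem_toZFSet_iff.1 (hxk hz)
      exact good' c hc
  · obtain ⟨ξ, h2, e⟩ := hω' _ h1
    rw [(good' ξ h2).2 c hc e.symm, e]; exact h1
  · obtain ⟨ξ, h2, e⟩ := hω' _ h1
    obtain ⟨⟨d, hd, h3⟩, h4⟩ := good' ξ h2
    have h5 : GF A (h c) = GF A (h d) := (hC.pi_eq c hc d hd).2 (by rw [h4 d hd h3, e])
    rw [h5, h3, e]; exact h1

theorem IsL.gch (hL : IsL M A) : GCH M := by
  intro κ hκ p hp h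
  obtain ⟨k, rfl⟩ := hκ.1.exists
  obtain ⟨hk, hω⟩ := infCard_iff.1 hκ
  obtain ⟨l, h1, h2⟩ := hL.wo.card hp
  refine ⟨l.toZFSet, isCard_iff.2 h1, toZFSet_mem_toZFSet_iff.2 (not_le.1 fun h3 =>
    cantor hk.1 hp h (h2.le.trans (Le.of_subset (toZFSet_subset_toZFSet_iff.2 h3)))),
    fun μ hμ h3 => ?_, h2.set hp⟩
  obtain ⟨m, rfl⟩ := hμ.exists
  have h4 := isCard_iff.1 hμ
  exact toZFSet_subset_toZFSet_iff.2 (h1.le ((h2.symm hp).le.trans
    (Le.of_surj (Fn.GF0 hL.mem) h4.1 fun y hy => hL.cond hk hω (tr hp hy)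
      ((h y (tr hp hy)).1 hy) h4 (toZFSet_mem_toZFSet_iff.1 h3))))

end Pool.Agent.H30Z.LA
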