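import Pool.Agent.H30Z.AP.Inside

/-! Definable relations and functions over a transitive model of ZF, with automation. -/

namespace Pool.Agent.H30Z.LA

open CohenE ZFSet

abbrev Z := ZFSet.{0}

/-- transitive models of ZF -/
structure ZFM (M : Set Z) : Prop where
  trans : ∀ x ∈ M, ∀ y ∈ x, y ∈ M
  pairing : ∀ x ∈ M, ∀ y ∈ M, ({x, y} : Z) ∈ M
  union : ∀ x ∈ M, ZFSet.sUnion x ∈ M
  power : ∀ x ∈ M, ∃ p ∈ M, ∀ y ∈ M, y ∈ p ↔ y ⊆ x
  omega : ZFSet.omega ∈ M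
  separation : ∀ (φ : Fml) (v : ℕ → M) (a : M), ∃ b : M, ∀ z : M,
    (z : Z) ∈ (b : Z) ↔ (z : Z) ∈ (a : Z) ∧ Sat M (scons z v) φ
  replacement : ∀ (φ : Fml) (v : ℕ → M) (a : M),
    (∀ z : M, (z : Z) ∈ (a : Z) → ∃! w : M, Sat M (scons z (scons w v)) φ) →
    ∃ b : M, ∀ w : M, (w : Z) ∈ (b : Z) ↔
      ∃ z : M, (z : Z) ∈ (a : Z) ∧ Sat M (scons z (scons w v)) φ

theorem ZFM.of_ctm {M : Set Z} (h : CTM M) : ZFM M :=
  ⟨h.trans, h.pairing, h.union, h.power, AP.omega_mem h, h.separation, h.replacement⟩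

instance (M : Set Z) : Ctx M (ℕ → M) := ⟨id⟩

abbrev In (M : Set Z) (v : ℕ → Z) : Prop := ∀ i, v i ∈ M

/-- definable with parameters -/
def Df (M : Set Z) (P : (ℕ → Z) → Prop) : Prop :=
  D M (Γ := ℕ → M) (fun v => P (fun i => v i))

/-- definable functions -/
def Fn (M : Set Z) (t : (ℕ → Z) → Z) : Prop :=
  (∀ v, In M v → t v ∈ M) ∧ Df M (fun w => w 0 = t (fun i => w (i + 1)))

variable {M : Set Z} {P Q : (ℕ → Z) → Prop} {s t : (ℕ → Z) → Z}

theorem Df.congr (h : Df M P) (h' : ∀ v, In M v → (P v ↔ Q v)) : Df M Q :=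
  D.congr h fun v => (h' _ fun i => (v i).2).symm

theorem Df.not (h : Df M P) : Df M fun v => ¬ P v := D.not h
theorem Df.and (h : Df M P) (h' : Df M Q) : Df M fun v => P v ∧ Q v := D.and h h'
theorem Df.or (h : Df M P) (h' : Df M Q) : Df M fun v => P v ∨ Q v := D.or h h'
theorem Df.imp (h : Df M P) (h' : Df M Q) : Df M fun v => P v → Q v := D.imp h h'
theorem Df.iff (h : Df M P) (h' : Df M Q) : Df M fun v => P v ↔ Q v := D.iff h h'
theorem Df.prop (p : Prop) : Df M fun _ => p := D.prop p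

theorem Df.ex {R : (ℕ → Z) → Z → Prop} (h : Df M fun w => R (fun i => w (i + 1)) (w 0)) :
    Df M fun v => ∃ y, y ∈ M ∧ R v y := by
  have h1 : D M (fun p : (ℕ → M) × M => R (fun i => p.1 i) p.2) :=
    D.reindex (Γ := (ℕ → M) × M) (Δ := ℕ → M) h (fun p => scons p.2 p.1) (fun i => .inl i)
      (fun _ _ => rfl)
  exact (D.ex (P := fun (γ : ℕ → M) (a : M) => R (fun i => γ i) a) h1).congr fun v =>
    ⟨fun ⟨y, h1, h2⟩ => ⟨⟨y, h1⟩, h2⟩, fun ⟨y, h⟩ => ⟨y, y.2, h⟩⟩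

theorem Df.all {R : (ℕ → Z) → Z → Prop} (h : Df M fun w => R (fun i => w (i + 1)) (w 0)) :
    Df M fun v => ∀ y, y ∈ M → R v y :=
  (Df.ex (R := fun v y => ¬ R v y) h.not).not.congr fun _ _ => by simp

theorem Df.subst (h : Df M P) (σ : ℕ → (ℕ → Z) → Z) (hσ : ∀ i, Fn M (σ i)) :
    Df M fun v => P fun i => σ i v := by
  refine D.comp (Γ := ℕ → M) (Δ := ℕ → M) h
    (m := fun v i => ⟨σ i (fun j => v j), (hσ i).1 _ fun j => (v j).2⟩) fun i => ?_
  have h1 := D.reindex (Γ := (ℕ → M) × M) (Δ := ℕ → M) (hσ i).2 (fun p => scons p.2 p.1)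
    (fun i => .inl i) (fun _ _ => rfl)
  exact h1.congr fun p => Subtype.ext_iff

theorem Fn.var (i : ℕ) : Fn M fun v => v i :=
  ⟨fun _ h => h i, (D.atom_eq (Γ := ℕ → M) (.inl 0) (.inl (i + 1))).congr
    fun _ => Subtype.ext_iff.symm⟩

theorem Fn.const {c : Z} (hc : c ∈ M) : Fn M fun _ => c :=
  ⟨fun _ _ => hc, (D.atom_eq (Γ := ℕ → M) (.inl 0) (.inr ⟨c, hc⟩)).congr
    fun v => (Subtype.ext_iff (a1 := v 0) (a2 := ⟨c, hc⟩)).symm⟩

theorem fn_scons {σ : ℕ → (ℕ → Z) → Z} (hs : Fn M s) (hσ : ∀ i, Fn M (σ i)) :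
    ∀ i, Fn M (scons s σ i)
  | 0 => hs
  | i + 1 => hσ i

theorem Df.sub1 {R : Z → Prop} (h : Df M fun w => R (w 0)) (hs : Fn M s) :
    Df M fun v => R (s v) := h.subst (fun _ => s) fun _ => hs

theorem Df.sub2 {R : Z → Z → Prop} (h : Df M fun w => R (w 0) (w 1)) (hs : Fn M s) (ht : Fn M t) :
    Df M fun v => R (s v) (t v) := h.subst (scons s fun _ => t) (fn_scons hs fun _ => ht)

theorem Df.mem (hs : Fn M s) (ht : Fn M t) : Df M fun v => s v ∈ t v :=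
  Df.sub2 (R := fun a b => a ∈ b) (D.atom_mem (Γ := ℕ → M) (.inl 0) (.inl 1)) hs ht

theorem Df.eq (hs : Fn M s) (ht : Fn M t) : Df M fun v => s v = t v :=
  Df.sub2 (R := fun a b => a = b) ((D.atom_eq (Γ := ℕ → M) (.inl 0) (.inl 1)).congr
    fun _ => Subtype.ext_iff.symm) hs ht

theorem Fn.subst (h : Fn M t) (σ : ℕ → (ℕ → Z) → Z) (hσ : ∀ i, Fn M (σ i)) :
    Fn M fun v => t fun i => σ i v := by
  refine ⟨fun v hv => h.1 _ fun i => (hσ i).1 v hv, ?_⟩
  refine h.2.subst (scons (fun w => w 0) fun i w => σ i fun j => w (j + 1))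
    (fn_scons (Fn.var 0) fun i => ⟨fun v hv => (hσ i).1 _ fun j => hv _, ?_⟩)
  exact (hσ i).2.subst (fun j w => w (if j = 0 then 0 else j + 1)) fun _ => Fn.var _

theorem Fn.w (h : Fn M t) : Fn M fun w => t fun i => w (i + 1) :=
  h.subst (fun i w => w (i + 1)) fun _ => Fn.var _

theorem Df.w (h : Df M P) : Df M fun w => P fun i => w (i + 1) :=
  h.subst (fun i w => w (i + 1)) fun _ => Fn.var _

theorem Fn.sub1 {g : Z → Z} (h : Fn M fun w => g (w 0)) (hs : Fn M s) :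
    Fn M fun v => g (s v) := h.subst (fun _ => s) fun _ => hs

theorem Fn.sub2 {g : Z → Z → Z} (h : Fn M fun w => g (w 0) (w 1)) (hs : Fn M s) (ht : Fn M t) :
    Fn M fun v => g (s v) (t v) := h.subst (scons s fun _ => t) (fn_scons hs fun _ => ht)

theorem Fn.ap1 {g : Z → Z} (h : Fn M fun w => g (w 0)) {x : Z} (hx : x ∈ M) : g x ∈ M :=
  h.1 (fun _ => x) fun _ => hx

theorem Fn.congr (h : Fn M s) (h' : ∀ v, In M v → s v = t v) : Fn M t :=
  ⟨fun v hv => h' v hv ▸ h.1 v hv, h.2.congr fun v hv => by rw [h' _ fun i => hv _]⟩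

/-- fix the parameters -/
theorem Df.fix {R : (ℕ → Z) → Z → Prop} (h : Df M fun w => R (fun i => w (i + 1)) (w 0))
    {v : ℕ → Z} (hv : In M v) : Df M fun w => R v (w 0) :=
  h.subst (scons (fun w => w 0) fun i _ => v i) (fn_scons (Fn.var 0) fun i => Fn.const (hv i))

theorem Fn.fix {g : (ℕ → Z) → Z → Z} (h : Fn M fun w => g (fun i => w (i + 1)) (w 0))
    {v : ℕ → Z} (hv : In M v) : Fn M fun w => g v (w 0) :=
  h.subst (scons (fun w => w 0) fun i _ => v i) (fn_scons (Fn.var 0) fun i => Fn.const (hv i))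

/-- skip the variable number one -/
theorem Df.skip {R : (ℕ → Z) → Z → Prop} (h : Df M fun w => R (fun i => w (i + 1)) (w 0)) :
    Df M fun w => R (fun i => w (i + 1 + 1)) (w 0) :=
  h.subst (fun j w => w (if j = 0 then 0 else j + 1)) fun _ => Fn.var _

theorem Fn.skip {g : (ℕ → Z) → Z → Z} (h : Fn M fun w => g (fun i => w (i + 1)) (w 0)) :
    Fn M fun w => g (fun i => w (i + 1 + 1)) (w 0) :=
  h.subst (fun j w => w (if j = 0 then 0 else j + 1)) fun _ => Fn.var _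

variable [hM : Fact (ZFM M)]

theorem tr {x y : Z} (hx : x ∈ M) (hy : y ∈ x) : y ∈ M := hM.out.trans x hx y hy

theorem Df.bex {R : (ℕ → Z) → Z → Prop} (ht : Fn M t)
    (h : Df M fun w => R (fun i => w (i + 1)) (w 0)) : Df M fun v => ∃ y, y ∈ t v ∧ R v y :=
  (Df.ex (R := fun v y => y ∈ t v ∧ R v y) ((Df.mem (Fn.var 0) ht.w).and h)).congr fun v hv =>
    ⟨fun ⟨y, _, h⟩ => ⟨y, h⟩, fun ⟨y, h⟩ => ⟨y, tr (ht.1 v hv) h.1, h⟩⟩

theorem Df.ball {R : (ℕ → Z) → Z → Prop} (ht : Fn M t)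
    (h : Df M fun w => R (fun i => w (i + 1)) (w 0)) : Df M fun v => ∀ y, y ∈ t v → R v y :=
  (Df.bex (R := fun v y => ¬ R v y) ht h.not).not.congr fun _ _ => by simp

theorem Df.subset (hs : Fn M s) (ht : Fn M t) : Df M fun v => s v ⊆ t v :=
  (Df.ball (R := fun v y => y ∈ t v) hs (Df.mem (Fn.var 0) ht.w)).congr fun _ _ => Iff.rfl

theorem Df.rd {R : Forc.Pred} (h : Forc.RD R) : Df M fun v => R M v := by
  obtain ⟨φ, hφ⟩ := h
  exact ⟨φ, fun i => .inl i, fun v => (hφ M hM.out.trans v).symm⟩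

theorem Df.isOrdinal (hs : Fn M s) : Df M fun v => (s v).IsOrdinal :=
  Df.sub1 (Df.rd Forc.RD.isOrdinal) hs

theorem eq_of_M {a b : Z} (ha : a ∈ M) (hb : ∀ y ∈ b, y ∈ M)
    (h : ∀ z, z ∈ M → (z ∈ a ↔ z ∈ b)) : a = b := by
  ext z
  exact ⟨fun hz => (h z (tr ha hz)).1 hz, fun hz => (h z (hb z hz)).2 hz⟩

theorem sep_mem {R : Z → Prop} (h : Df M fun w => R (w 0)) {a : Z} (ha : a ∈ M) :
    ZFSet.sep R a ∈ M := by
  obtain ⟨φ, e, he⟩ := h
  obtain ⟨b, hb⟩ := hM.out.separation (ren (fun i => match e i with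
    | .inl _ => 0
    | .inr _ => i + 1) φ) (fun i => match e i with
    | .inl _ => ⟨a, ha⟩
    | .inr c => c) ⟨a, ha⟩
  have : (b : Z) = ZFSet.sep R a := by
    refine eq_of_M b.2 (fun y hy => tr ha (mem_sep.1 hy).1) fun z hz => ?_
    rw [hb ⟨z, hz⟩, mem_sep, sat_ren]
    refine and_congr_right fun _ => ?_
    refine Iff.trans ?_ (he fun _ => ⟨z, hz⟩).symm
    refine iff_of_eq (congrArg (fun u => Sat M u φ) ?_)
    funext i
    rcases hi : e i with k | c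
    · rfl
    · simp only [scons, hi]; rfl
  rw [← this]; exact b.2

/-- image of a set -/
noncomputable def img (g : Z → Z) (a : Z) : Z := ZFSet.range fun x : a => g x

theorem mem_img {g : Z → Z} {a y : Z} : y ∈ img g a ↔ ∃ x, x ∈ a ∧ y = g x := by
  rw [img, mem_range]
  exact ⟨fun ⟨x, h⟩ => ⟨x, x.2, h.symm⟩, fun ⟨x, h1, h2⟩ => ⟨⟨x, h1⟩, h2.symm⟩⟩

theorem img_mem' {R : Z → Z → Prop} (h : Df M fun w => R (w 0) (w 1)) {a : Z} (ha : a ∈ M)
    {g : Z → Z} (hg : ∀ x ∈ a, g x ∈ M ∧ ∀ y ∈ M, (R x y ↔ y = g x)) : img g a ∈ M := by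
  obtain ⟨φ, e, he⟩ := h
  let ψ := ren (fun i => match e i with
    | .inl 0 => 0
    | .inl (_ + 1) => 1
    | .inr _ => i + 2) φ
  let c : ℕ → M := fun i => match e i with
    | .inl _ => ⟨a, ha⟩
    | .inr c => c
  have key : ∀ z w : M, Sat M (scons z (scons w c)) ψ ↔ R z w := by
    intro z w
    rw [sat_ren]
    refine Iff.trans ?_ (he (scons z fun _ => w)).symm
    refine iff_of_eq (congrArg (fun u => Sat M u φ) ?_)
    funext i
    rcases hi : e i with k | c'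
    · cases k <;> rfl
    · simp only [scons, hi, c]; rfl
  obtain ⟨b, hb⟩ := hM.out.replacement ψ c ⟨a, ha⟩ fun z hz =>
    ⟨⟨g z, (hg z hz).1⟩, (key _ _).2 (((hg z hz).2 _ (hg z hz).1).2 rfl),
      fun w hw => Subtype.ext (((hg z hz).2 _ w.2).1 ((key _ _).1 hw))⟩
  have : (b : Z) = img g a := by
    refine eq_of_M b.2 (fun y hy => ?_) fun z hz => ?_
    · obtain ⟨x, hx, rfl⟩ := mem_img.1 hy
      exact (hg x hx).1
    · rw [hb ⟨z, hz⟩, mem_img]
      constructor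
      · rintro ⟨x, h1, h2⟩
        exact ⟨x, h1, ((hg x h1).2 z hz).1 ((key _ _).1 h2)⟩
      · rintro ⟨x, h1, h2⟩
        exact ⟨⟨x, tr ha h1⟩, h1, (key _ _).2 (((hg x h1).2 z hz).2 h2)⟩
  rw [← this]; exact b.2

theorem img_mem {g : Z → Z} (h : Fn M fun w => g (w 0)) {a : Z} (ha : a ∈ M) : img g a ∈ M :=
  img_mem' (R := fun x y => y = g x) (Df.eq (Fn.var 1) (h.sub1 (Fn.var 0))) ha
    fun _ hx => ⟨h.ap1 (tr ha hx), fun _ _ => Iff.rfl⟩

/-- a function is definable when membership in its values is -/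
theorem Fn.of_mem (h1 : ∀ v, In M v → t v ∈ M) {R : (ℕ → Z) → Z → Prop}
    (h2 : Df M fun w => R (fun i => w (i + 1)) (w 0))
    (h3 : ∀ v, In M v → ∀ z, z ∈ t v ↔ R v z) : Fn M t := by
  refine ⟨h1, ?_⟩
  refine (Df.all (R := fun w z => z ∈ w 0 ↔ R (fun i => w (i + 1)) z)
    ((Df.mem (Fn.var 0) (Fn.var 1)).iff h2.skip)).congr fun w hw => ?_
  have hv : In M fun i => w (i + 1) := fun i => hw _
  constructor
  · intro h
    exact eq_of_M (hw 0) (fun y hy => tr (h1 _ hv) hy) fun z hz => (h z hz).trans (h3 _ hv z).symm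
  · intro h z _
    rw [h, h3 _ hv]

theorem Fn.sep {R : (ℕ → Z) → Z → Prop} (h : Df M fun w => R (fun i => w (i + 1)) (w 0))
    (ht : Fn M t) : Fn M fun v => ZFSet.sep (R v) (t v) :=
  Fn.of_mem (R := fun v z => z ∈ t v ∧ R v z) (fun v hv => sep_mem (h.fix hv) (ht.1 v hv))
    ((Df.mem (Fn.var 0) ht.w).and h) fun _ _ _ => mem_sep

theorem Fn.img {g : (ℕ → Z) → Z → Z} (h : Fn M fun w => g (fun i => w (i + 1)) (w 0))
    (ht : Fn M t) : Fn M fun v => img (g v) (t v) :=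
  Fn.of_mem (R := fun v z => ∃ x, x ∈ t v ∧ z = g v x) (fun v hv => img_mem (h.fix hv) (ht.1 v hv))
    (Df.bex (R := fun w x => w 0 = g (fun i => w (i + 1)) x) ht.w (Df.eq (Fn.var 1) h.skip))
    fun _ _ _ => mem_img

theorem Fn.upair (hs : Fn M s) (ht : Fn M t) : Fn M fun v => ({s v, t v} : Z) :=
  Fn.of_mem (R := fun v z => z = s v ∨ z = t v)
    (fun v hv => hM.out.pairing _ (hs.1 v hv) _ (ht.1 v hv))
    ((Df.eq (Fn.var 0) hs.w).or (Df.eq (Fn.var 0) ht.w)) fun _ _ _ => mem_pair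

theorem Fn.single (hs : Fn M s) : Fn M fun v => ({s v} : Z) :=
  (hs.upair hs).congr fun _ _ => pair_eq_singleton _

theorem Fn.pair (hs : Fn M s) (ht : Fn M t) : Fn M fun v => ZFSet.pair (s v) (t v) :=
  hs.single.upair (hs.upair ht)

theorem Fn.sUnion (hs : Fn M s) : Fn M fun v => ZFSet.sUnion (s v) :=
  Fn.of_mem (R := fun v z => ∃ y, y ∈ s v ∧ z ∈ y) (fun v hv => hM.out.union _ (hs.1 v hv))
    (Df.bex (R := fun w y => w 0 ∈ y) hs.w (Df.mem (Fn.var 1) (Fn.var 0))) fun _ _ _ => mem_sUnion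

theorem Fn.union (hs : Fn M s) (ht : Fn M t) : Fn M fun v => s v ∪ t v := (hs.upair ht).sUnion

theorem Fn.insert (hs : Fn M s) (ht : Fn M t) : Fn M fun v => insert (s v) (t v) :=
  (hs.single.union ht).congr fun _ _ => by ext; simp

theorem omega_M : ZFSet.omega ∈ M := hM.out.omega

theorem nat_M (n : ℕ) : nat n ∈ M := tr omega_M (AP.nat_mem_omega n)

theorem empty_M : (∅ : Z) ∈ M := nat_M 0

theorem Fn.omega : Fn M fun _ => ZFSet.omega := Fn.const omega_M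
theorem Fn.nat (n : ℕ) : Fn M fun _ => nat n := Fn.const (nat_M n)
theorem Fn.empty : Fn M fun _ => (∅ : Z) := Fn.const empty_M

theorem Fn.prod (hs : Fn M s) (ht : Fn M t) : Fn M fun v => ZFSet.prod (s v) (t v) :=
  (Fn.img (g := fun v x => LA.img (fun y => ZFSet.pair x y) (t v))
    (Fn.img (g := fun w y => ZFSet.pair (w 0) y) ((Fn.var 1).pair (Fn.var 0)) ht.w)
    hs).sUnion.congr fun v _ => by
    ext z
    simp only [mem_sUnion, mem_img, mem_prod]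
    constructor
    · rintro ⟨_, ⟨x, h1, rfl⟩, h2⟩
      obtain ⟨y, h3, h4⟩ := mem_img.1 h2
      exact ⟨x, h1, y, h3, h4⟩
    · rintro ⟨x, h1, y, h2, h3⟩
      exact ⟨_, ⟨x, h1, rfl⟩, mem_img.2 ⟨y, h2, h3⟩⟩

omit hM in
theorem Fn.ite {_i : ∀ v, Decidable (P v)} (h : Df M P) (hs : Fn M s) (ht : Fn M t) :
    Fn M fun v => if P v then s v else t v := by
  refine ⟨fun v hv => ?_, (((h.w.and (Df.eq (Fn.var 0) hs.w))).or
    (h.w.not.and (Df.eq (Fn.var 0) ht.w))).congr fun w _ => ?_⟩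
  · beta_reduce
    split_ifs
    · exact hs.1 v hv
    · exact ht.1 v hv
  · beta_reduce
    split_ifs with h1 <;> simp [h1]

open Classical in
/-- definite description -/
noncomputable def the (R : Z → Prop) : Z := if h : ∃ y, R y then h.choose else ∅

theorem the_spec {R : Z → Prop} (h : ∃ y, R y) : R (the R) := by
  rw [the, dif_pos h]; exact h.choose_spec

theorem the_neg {R : Z → Prop} (h : ¬ ∃ y, R y) : the R = ∅ := by rw [the, dif_neg h]

theorem Fn.the {R : (ℕ → Z) → Z → Prop} (h : Df M fun w => R (fun i => w (i + 1)) (w 0))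
    (h1 : ∀ v, In M v → ∀ y, R v y → y ∈ M)
    (h2 : ∀ v, In M v → ∀ y y', R v y → R v y' → y = y') : Fn M fun v => the (R v) := by
  refine ⟨fun v hv => ?_, (h.or ((Df.eq (Fn.var 0) Fn.empty).and
    (Df.ex (R := fun w y => R (fun i => w (i + 1)) y) h.skip).not)).congr fun w hw => ?_⟩
  · by_cases hh : ∃ y, R v y
    · exact h1 v hv _ (the_spec hh)
    · beta_reduce
      rw [the_neg hh]; exact empty_M
  · have hv : In M fun i => w (i + 1) := fun i => hw _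
    by_cases hh : ∃ y, R (fun i => w (i + 1)) y
    · have h3 := the_spec hh
      refine ⟨fun h4 => h4.elim (fun h5 => h2 _ hv _ _ h5 h3)
        fun h5 => absurd ⟨_, h1 _ hv _ h3, h3⟩ h5.2, fun h4 => Or.inl (h4 ▸ h3)⟩
    · beta_reduce
      rw [the_neg hh]
      exact ⟨fun h4 => h4.elim (fun h5 => absurd ⟨_, h5⟩ hh) fun h5 => h5.1,
        fun h4 => Or.inr ⟨h4, fun ⟨y, _, h5⟩ => hh ⟨y, h5⟩⟩⟩

theorem pair_M {a b : Z} (ha : a ∈ M) (hb : b ∈ M) : pair a b ∈ M :=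
  ((Fn.const ha).pair (Fn.const hb)).1 (fun _ => ∅) fun _ => empty_M

omit hM in
theorem fst_tr (h : Forc.Tr M) {a b : Z} (hab : pair a b ∈ M) : a ∈ M :=
  h {a} (h _ hab _ (by simp [pair])) a (by simp)

omit hM in
theorem snd_tr (h : Forc.Tr M) {a b : Z} (hab : pair a b ∈ M) : b ∈ M :=
  h {a, b} (h _ hab _ (by simp [pair])) b (by simp)

theorem fst_M {a b : Z} (hab : pair a b ∈ M) : a ∈ M := fst_tr hM.out.trans hab
theorem snd_M {a b : Z} (hab : pair a b ∈ M) : b ∈ M := snd_tr hM.out.trans hab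

/-- application of a set function -/
noncomputable def app (f x : Z) : Z :=
  ZFSet.sUnion (ZFSet.sep (fun y => pair x y ∈ f) (ZFSet.sUnion (ZFSet.sUnion f)))

omit hM in
theorem app_eq {f x y : Z} (h : pair x y ∈ f) (hu : ∀ y', pair x y' ∈ f → y' = y) :
    app f x = y := by
  ext z
  simp only [app, mem_sUnion, mem_sep]
  constructor
  · rintro ⟨y', ⟨-, h1⟩, h2⟩
    exact hu y' h1 ▸ h2
  · intro hz
    exact ⟨y, ⟨⟨{x, y}, ⟨_, h, by simp [pair]⟩, by simp⟩, h⟩, hz⟩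

theorem Fn.app (hs : Fn M s) (ht : Fn M t) : Fn M fun v => app (s v) (t v) :=
  (Fn.sep (R := fun v y => ZFSet.pair (t v) y ∈ s v)
    (Df.mem (ht.w.pair (Fn.var 0)) hs.w) hs.sUnion.sUnion).sUnion

theorem Fn.val {a : Z} (h : Fn M fun _ => (a : Z)) : a ∈ M := h.1 (fun _ => ∅) fun _ => empty_M

end Pool.Agent.H30Z.LA
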