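import Pool.Agent.H30Z.LA.Ord

/-! Enumeration of well-orderings and the Gödel pairing function. -/

namespace Pool.Agent.H30Z.LA

open CohenE ZFSet Ordinal

instance : Fact (ZFM Set.univ) := ⟨{
  trans := fun _ _ _ _ => trivial
  pairing := fun _ _ _ _ => trivial
  union := fun _ _ => trivial
  power := fun x _ => ⟨powerset x, trivial, fun _ _ => mem_powerset⟩
  omega := trivial
  separation := fun φ v a => ⟨⟨ZFSet.sep (fun z => Sat Set.univ (scons ⟨z, trivial⟩ v) φ) a,
    trivial⟩, fun z => by dsimp only; exact mem_sep⟩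
  replacement := fun φ v a h => by
    classical
    choose g hg hu using h
    refine ⟨⟨img (fun z => if hz : z ∈ (a : Z) then g ⟨z, trivial⟩ hz else ∅) a, trivial⟩,
      fun w => ?_⟩
    dsimp only
    refine mem_img.trans ⟨?_, ?_⟩
    · rintro ⟨x, hx, e⟩
      rw [dif_pos hx] at e
      exact ⟨⟨x, trivial⟩, hx, (Subtype.ext e : w = _) ▸ hg _ hx⟩
    · rintro ⟨x, hx, e⟩
      exact ⟨x, hx, by rw [dif_pos hx]; exact congrArg Subtype.val (hu x hx w e)⟩ }⟩

/-- range of a relation -/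
noncomputable def ran (f : Z) : Z :=
  ZFSet.sep (fun y => ∃ u, u ∈ ZFSet.sUnion (ZFSet.sUnion f) ∧ pair u y ∈ f)
    (ZFSet.sUnion (ZFSet.sUnion f))

theorem mem_uu_left {f u y : Z} (h : pair u y ∈ f) : u ∈ ZFSet.sUnion (ZFSet.sUnion f) :=
  mem_sUnion.2 ⟨{u, y}, mem_sUnion.2 ⟨_, h, by simp [pair]⟩, by simp⟩

theorem mem_uu_right {f u y : Z} (h : pair u y ∈ f) : y ∈ ZFSet.sUnion (ZFSet.sUnion f) :=
  mem_sUnion.2 ⟨{u, y}, mem_sUnion.2 ⟨_, h, by simp [pair]⟩, by simp⟩

theorem mem_ran {f y : Z} : y ∈ ran f ↔ ∃ u, pair u y ∈ f := by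
  rw [ran, mem_sep]
  exact ⟨fun ⟨_, u, _, h⟩ => ⟨u, h⟩, fun ⟨u, h⟩ => ⟨mem_uu_right h, u, mem_uu_left h, h⟩⟩

theorem mem_ran_gr {H : O → Z} {a : O} {y : Z} : y ∈ ran (gr H a) ↔ ∃ b, b < a ∧ H b = y := by
  simp only [mem_ran, mem_gr]
  constructor
  · rintro ⟨u, b, hb, e⟩
    exact ⟨b, hb, (pair_inj.1 e).2.symm⟩
  · rintro ⟨b, hb, rfl⟩
    exact ⟨_, b, hb, rfl⟩

noncomputable def zfst (x : Z) : Z := the fun b => ∃ c, x = pair b c
noncomputable def zsnd (x : Z) : Z := the fun c => ∃ b, x = pair b c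

@[simp] theorem zfst_pair (a b : Z) : zfst (pair a b) = a := by
  obtain ⟨c, h⟩ := the_spec (R := fun x => ∃ c, pair a b = pair x c) ⟨a, b, rfl⟩
  exact (pair_inj.1 h).1.symm

@[simp] theorem zsnd_pair (a b : Z) : zsnd (pair a b) = b := by
  obtain ⟨c, h⟩ := the_spec (R := fun x => ∃ c, pair a b = pair c x) ⟨b, a, rfl⟩
  exact (pair_inj.1 h).2.symm

variable {M : Set Z} [hM : Fact (ZFM M)]

theorem Fn.ran {s : (ℕ → Z) → Z} (hs : Fn M s) : Fn M fun v => ran (s v) :=
  Fn.sub1 (g := LA.ran) (by unfold LA.ran; (repeat' (beta_reduce; (first | with_reducible (first | exact Fn.var _ | exact Fn.const ‹_› | exact On.const ‹_› | exact Df.prop _ | apply Df.and | apply Df.or | apply Df.not | apply Df.iff | apply Df.ex | apply Df.bex | apply Df.oex | apply Df.obex | apply Df.all | apply Df.ball | apply Df.oall | apply Df.oball | apply Df.imp | apply Df.mem | apply Df.eq | apply Df.oeq | apply Df.olt | apply Df.ole | apply Df.subset | apply Df.isOrdinal |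 apply Fn.pair | apply Fn.app | apply Fn.upair | apply Fn.single | apply Fn.insert | apply Fn.union | apply Fn.sUnion | apply Fn.prod | apply Fn.sep | apply Fn.img | apply Fn.ite | exact Fn.omega | exact Fn.empty | exact Fn.nat _ | apply On.fn | apply On.ro | apply On.succ | apply On.max | apply On.ite | apply On.mu | exact On.zero | exact On.one | exact On.omega | exact On.nat _) | exact On.ofNat _ | with_reducible (first | refine Fn.osub1 ‹_› ?_ | refine On.sub1 ‹_› ?_ | refine Df.osub1 ‹_› ?_ | refine On.zsub1 ‹_› ?_ | refine Fn.sub1 ‹_› ?_ | refine Df.sub1 ‹_› ?_ | refine Fn.sub2 ‹_› ?_ ?_ | refine Df.sub2 ‹_› ?_ ?_))))) hs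

theorem Fn.zfst {s : (ℕ → Z) → Z} (hs : Fn M s) : Fn M fun v => zfst (s v) := by
  refine Fn.sub1 (g := LA.zfst) (Fn.the (R := fun v b => ∃ c, v 0 = ZFSet.pair b c)
    (Df.congr (P := fun w => ∃ c, c ∈ M ∧ w 1 = ZFSet.pair (w 0) c) (by (repeat' (beta_reduce; (first | with_reducible (first | exact Fn.var _ | exact Fn.const ‹_› | exact On.const ‹_› | exact Df.prop _ | apply Df.and | apply Df.or | apply Df.not | apply Df.iff | apply Df.ex | apply Df.bex | apply Df.oex | apply Df.obex | apply Df.all | apply Df.ball | apply Df.oall | apply Df.oball | apply Df.imp | apply Df.mem | apply Df.eq | apply Df.oeq | apply Df.olt | apply Df.ole | apply Df.subset | apply Df.isOrdinal | apply Fn.pair | apply Fn.app | apply Fn.upair | apply Fn.single | apply Fn.insert | apply Fn.union | apply Fn.sUnion | apply Fn.prod | apply Fn.sep | apply Fn.img | apply Fn.ite | exact Fn.omega | exact Fn.empty | exact Fn.nat _ | apply On.fn | apply On.ro | apply On.succ | apply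 On.max | apply On.ite | apply On.mu | exact On.zero | exact On.one | exact On.omega | exact On.nat _) | exact On.ofNat _ | with_reducible (first | refine Fn.osub1 ‹_› ?_ | refine On.sub1 ‹_› ?_ | refine Df.osub1 ‹_› ?_ | refine On.zsub1 ‹_› ?_ | refine Fn.sub1 ‹_› ?_ | refine Df.sub1 ‹_› ?_ | refine Fn.sub2 ‹_› ?_ ?_ | refine Df.sub2 ‹_› ?_ ?_))))) fun w hw =>
      ⟨fun ⟨c, _, h⟩ => ⟨c, h⟩, fun ⟨c, h⟩ => ⟨c, snd_M ((show w 1 = _ from h) ▸ hw 1), h⟩⟩) ?_ ?_) hs
  · rintro v hv y ⟨c, h⟩; exact fst_M (h ▸ hv 0)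
  · rintro v _ y y' ⟨c, h⟩ ⟨c', h'⟩; exact (pair_inj.1 (h.symm.trans h')).1

theorem Fn.zsnd {s : (ℕ → Z) → Z} (hs : Fn M s) : Fn M fun v => zsnd (s v) := by
  refine Fn.sub1 (g := LA.zsnd) (Fn.the (R := fun v b => ∃ c, v 0 = ZFSet.pair c b)
    (Df.congr (P := fun w => ∃ c, c ∈ M ∧ w 1 = ZFSet.pair c (w 0)) (by (repeat' (beta_reduce; (first | with_reducible (first | exact Fn.var _ | exact Fn.const ‹_› | exact On.const ‹_› | exact Df.prop _ | apply Df.and | apply Df.or | apply Df.not | apply Df.iff | apply Df.ex | apply Df.bex | apply Df.oex | apply Df.obex | apply Df.all | apply Df.ball | apply Df.oall | apply Df.oball | apply Df.imp | apply Df.mem | apply Df.eq | apply Df.oeq | apply Df.olt | apply Df.ole | apply Df.subset | apply Df.isOrdinal | apply Fn.pair | apply Fn.app | apply Fn.upair | apply Fn.single | apply Fn.insert | apply Fn.union | apply Fn.sUnion | apply Fn.prod | apply Fn.sep | apply Fn.img | apply Fn.ite | exact Fn.omega | exact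 Fn.empty | exact Fn.nat _ | apply On.fn | apply On.ro | apply On.succ | apply On.max | apply On.ite | apply On.mu | exact On.zero | exact On.one | exact On.omega | exact On.nat _) | exact On.ofNat _ | with_reducible (first | refine Fn.osub1 ‹_› ?_ | refine On.sub1 ‹_› ?_ | refine Df.osub1 ‹_› ?_ | refine On.zsub1 ‹_› ?_ | refine Fn.sub1 ‹_› ?_ | refine Df.sub1 ‹_› ?_ | refine Fn.sub2 ‹_› ?_ ?_ | refine Df.sub2 ‹_› ?_ ?_))))) fun w hw =>
      ⟨fun ⟨c, _, h⟩ => ⟨c, h⟩, fun ⟨c, h⟩ => ⟨c, fst_M ((show w 1 = _ from h) ▸ hw 1), h⟩⟩) ?_ ?_) hs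
  · rintro v hv y ⟨c, h⟩; exact snd_M (h ▸ hv 0)
  · rintro v _ y y' ⟨c, h⟩ ⟨c', h'⟩; exact (pair_inj.1 (h.symm.trans h')).2


/-- Burali-Forti -/
theorem bf {H : O → Z} (h : Fn M fun w => H (ro (w 0))) {X : Z} (hX : X ∈ M)
    (h1 : ∀ a : O, a.toZFSet ∈ M → H a ∈ X)
    (h2 : ∀ a b : O, a.toZFSet ∈ M → b < a → H b ≠ H a) : False := by
  obtain ⟨b, hb, h3⟩ := exists_bound' (M := M) (R := fun x c => H c = x) (by (repeat' (beta_reduce; (first | with_reducible (first | apply Fn.ran | apply Fn.zfst | apply Fn.zsnd | exact Fn.var _ | exact Fn.const ‹_› | exact On.const ‹_› | exact Df.prop _ | apply Df.and | apply Df.or | apply Df.not | apply Df.iff | apply Df.ex | apply Df.bex | apply Df.oex | apply Df.obex | apply Df.all | apply Df.ball | apply Df.oall | apply Df.oball | apply Df.imp | apply Df.mem | apply Df.eq | apply Df.oeq | apply Df.olt | apply Df.ole | apply Df.subset | apply Df.isOrdinal | apply Fn.pair | apply Fn.app | apply Fn.upair | apply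 Fn.single | apply Fn.insert | apply Fn.union | apply Fn.sUnion | apply Fn.prod | apply Fn.sep | apply Fn.img | apply Fn.ite | exact Fn.omega | exact Fn.empty | exact Fn.nat _ | apply On.fn | apply On.ro | apply On.succ | apply On.max | apply On.ite | apply On.mu | exact On.zero | exact On.one | exact On.omega | exact On.nat _) | exact On.ofNat _ | with_reducible (first | refine Fn.osub1 ‹_› ?_ | refine On.sub1 ‹_› ?_ | refine Df.osub1 ‹_› ?_ | refine On.zsub1 ‹_› ?_ | refine Fn.sub1 ‹_› ?_ | refine Df.sub1 ‹_› ?_ | refine Fn.sub2 ‹_› ?_ ?_ | refine Df.sub2 ‹_› ?_ ?_))))) hX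
  obtain ⟨c, hc, e⟩ := h3 _ (h1 b hb) ⟨b, hb, rfl⟩
  exact h2 b c hb hc e

def MinF (D : Z → Prop) (lt : Z → Z → Prop) (f x : Z) : Prop :=
  D x ∧ x ∉ ran f ∧ ∀ y, D y → lt y x → y ∈ ran f

/-- enumeration in increasing order -/
noncomputable def en (D : Z → Prop) (lt : Z → Z → Prop) : O → Z :=
  orec fun _ f => the (MinF D lt f)

omit hM in
theorem en_spec {D : Z → Prop} {lt : Z → Z → Prop} {a : O}
    (h : ∃ x, MinF D lt (gr (en D lt) a) x) : D (en D lt a) ∧ (∀ b < a, en D lt b ≠ en D lt a) ∧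
      ∀ y, D y → lt y (en D lt a) → ∃ b < a, en D lt b = y := by
  have h1 := the_spec h
  have h2 : en D lt a = the (MinF D lt (gr (en D lt) a)) := orec_eq _ a
  rw [← h2] at h1
  exact ⟨h1.1, fun b hb e => h1.2.1 (mem_ran_gr.2 ⟨b, hb, e⟩),
    fun y hy hl => mem_ran_gr.1 (h1.2.2 y hy hl)⟩

omit hM in
theorem en_mono {D : Z → Prop} {lt : Z → Z → Prop}
    (tri : ∀ x y, D x → D y → lt x y ∨ x = y ∨ lt y x) {a b : O}
    (ha : ∃ x, MinF D lt (gr (en D lt) a) x) (hb : ∃ x, MinF D lt (gr (en D lt) b) x)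
    (h : b < a) : lt (en D lt b) (en D lt a) := by
  rcases tri _ _ (en_spec hb).1 (en_spec ha).1 with h1 | h1 | h1
  · exact h1
  · exact absurd h1 ((en_spec ha).2.1 b h)
  · obtain ⟨c, hc, e⟩ := (en_spec hb).2.2 _ (en_spec ha).1 h1
    exact absurd e ((en_spec ha).2.1 c (hc.trans h))

theorem Fn.en {D : Z → Prop} {lt : Z → Z → Prop}
    (tri : ∀ x y, D x → D y → lt x y ∨ x = y ∨ lt y x)
    (h1 : Df M fun w => MinF D lt (w (1 + 1)) (w 0)) (h2 : ∀ f ∈ M, ∀ x, MinF D lt f x → x ∈ M) :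
    Fn M fun w => en D lt (ro (w 0)) := by
  refine Fn.orec0 (Φ := fun _ f => LA.the (MinF D lt f))
    (Fn.the (R := fun v => MinF D lt (v 1)) h1 (fun v hv => h2 _ (hv 1)) fun v _ x y hx hy => ?_)
  rcases tri _ _ hx.1 hy.1 with h | h | h
  · exact absurd (hy.2.2 _ hx.1 h) hx.2.1
  · exact h
  · exact absurd (hx.2.2 _ hy.1 h) hy.2.1

/-- an internally well-founded linear order is isomorphic to an ordinal -/
theorem enum {X : Z} (hX : X ∈ M) {lt : Z → Z → Prop} (hlt : Df M fun w => lt (w 0) (w 1))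
    (tri : ∀ x y, x ∈ X → y ∈ X → lt x y ∨ x = y ∨ lt y x)
    (asy : ∀ x y, x ∈ X → y ∈ X → lt x y → ¬ lt y x)
    (wf : ∀ Y ∈ M, Y ⊆ X → (∃ y, y ∈ Y) → ∃ x ∈ Y, ∀ y ∈ Y, ¬ lt y x) :
    ∃ (δ : O) (H : O → Z), δ.toZFSet ∈ M ∧ (Fn M fun w => H (ro (w 0))) ∧ (∀ a < δ, H a ∈ X) ∧
      (∀ x ∈ X, ∃ a < δ, H a = x) ∧ ∀ a < δ, ∀ b < δ, (lt (H a) (H b) ↔ a < b) := by
  have hH : Fn M fun w => en (· ∈ X) lt (ro (w 0)) :=
    Fn.en tri (by unfold MinF; (repeat' (beta_reduce; (first | with_reducible (first | apply Fn.ran | apply Fn.zfst | apply Fn.zsnd | exact Fn.var _ | exact Fn.const ‹_› | exact On.const ‹_› | exact Df.prop _ | apply Df.and | apply Df.or | apply Df.not | apply Df.iff | apply Df.ex | apply Df.bex | apply Df.oex | apply Df.obex | apply Df.all | apply Df.ball | apply Df.oall | apply Df.oball | apply Df.imp | apply Df.mem | apply Df.eq | apply Df.oeq | apply Df.olt | apply Df.ole | apply Df.subset | apply Df.isOrdinal | apply Fn.pair | apply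 Fn.app | apply Fn.upair | apply Fn.single | apply Fn.insert | apply Fn.union | apply Fn.sUnion | apply Fn.prod | apply Fn.sep | apply Fn.img | apply Fn.ite | exact Fn.omega | exact Fn.empty | exact Fn.nat _ | apply On.fn | apply On.ro | apply On.succ | apply On.max | apply On.ite | apply On.mu | exact On.zero | exact On.one | exact On.omega | exact On.nat _) | exact On.ofNat _ | with_reducible (first | refine Fn.osub1 ‹_› ?_ | refine On.sub1 ‹_› ?_ | refine Df.osub1 ‹_› ?_ | refine On.zsub1 ‹_› ?_ | refine Fn.sub1 ‹_› ?_ | refine Df.sub1 ‹_› ?_ | refine Fn.sub2 ‹_› ?_ ?_ | refine Df.sub2 ‹_› ?_ ?_))))) fun f _ x hx => tr hX hx.1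
  have ex : ∀ a : O, a.toZFSet ∈ M → ¬ (∀ x ∈ X, ∃ b < a, en (· ∈ X) lt b = x) →
      ∃ x, MinF (· ∈ X) lt (gr (en (· ∈ X) lt) a) x := by
    intro a ha h
    have h0 : gr (en (· ∈ X) lt) a ∈ M := (hH.gr (On.const ha)).val
    obtain ⟨x, hx, h1⟩ := wf (ZFSet.sep (fun x => x ∉ ran (gr (en (· ∈ X) lt) a)) X)
      (Fn.val (by (repeat' (beta_reduce; (first | with_reducible (first | apply Fn.ran | apply Fn.zfst | apply Fn.zsnd | exact Fn.var _ | exact Fn.const ‹_› | exact On.const ‹_› | exact Df.prop _ | apply Df.and | apply Df.or | apply Df.not | apply Df.iff | apply Df.ex | apply Df.bex | apply Df.oex | apply Df.obex | apply Df.all | apply Df.ball | apply Df.oall | apply Df.oball | apply Df.imp | apply Df.mem | apply Df.eq | apply Df.oeq | apply Df.olt | apply Df.ole | apply Df.subset | apply Df.isOrdinal | apply Fn.pair | apply Fn.app | apply Fn.upair | apply Fn.single | apply Fn.insert | apply Fn.union | apply Fn.sUnion | apply Fn.prod | apply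 Fn.sep | apply Fn.img | apply Fn.ite | exact Fn.omega | exact Fn.empty | exact Fn.nat _ | apply On.fn | apply On.ro | apply On.succ | apply On.max | apply On.ite | apply On.mu | exact On.zero | exact On.one | exact On.omega | exact On.nat _) | exact On.ofNat _ | with_reducible (first | refine Fn.osub1 ‹_› ?_ | refine On.sub1 ‹_› ?_ | refine Df.osub1 ‹_› ?_ | refine On.zsub1 ‹_› ?_ | refine Fn.sub1 ‹_› ?_ | refine Df.sub1 ‹_› ?_ | refine Fn.sub2 ‹_› ?_ ?_ | refine Df.sub2 ‹_› ?_ ?_)))))) (fun y hy => (mem_sep.1 hy).1) (by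
        by_contra hh
        refine h fun x hx => mem_ran_gr.1 (by_contra fun h2 => hh ⟨x, mem_sep.2 ⟨hx, h2⟩⟩))
    exact ⟨x, (mem_sep.1 hx).1, (mem_sep.1 hx).2, fun y hy hl =>
      by_contra fun h2 => h1 y (mem_sep.2 ⟨hy, h2⟩) hl⟩
  have st : ∃ a : O, a.toZFSet ∈ M ∧ ∀ x ∈ X, ∃ b < a, en (· ∈ X) lt b = x := by
    by_contra hh
    exact bf hH hX (fun a ha => (en_spec (ex a ha fun h => hh ⟨a, ha, h⟩)).1)
      fun a b ha hb => (en_spec (ex a ha fun h => hh ⟨a, ha, h⟩)).2.1 b hb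
  have h1 := mu_spec st
  have h2 : ∀ a < mu M fun a => ∀ x ∈ X, ∃ b < a, en (· ∈ X) lt b = x,
      ∃ x, MinF (· ∈ X) lt (gr (en (· ∈ X) lt) a) x := fun a ha =>
    ex a (le_M ha.le h1.1) fun h => absurd (mu_le (le_M ha.le h1.1) h) (not_le.2 ha)
  refine ⟨_, _, h1.1, hH, fun a ha => (en_spec (h2 a ha)).1, h1.2, fun a ha b hb =>
    ⟨fun h => ?_, en_mono tri (h2 b hb) (h2 a ha)⟩⟩
  have xa := (en_spec (h2 a ha)).1
  have xb := (en_spec (h2 b hb)).1
  rcases lt_trichotomy a b with h3 | rfl | h3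
  · exact h3
  · exact absurd h (asy _ _ xa xa h)
  · exact absurd (en_mono tri (h2 a ha) (h2 b hb) h3) (asy _ _ xa xb h)

/-! ### Gödel pairing -/

def GLt (b c b' c' : O) : Prop :=
  max b c < max b' c' ∨ (max b c = max b' c' ∧ (b < b' ∨ (b = b' ∧ c < c')))

omit hM in
theorem GLt.tri (b c b' c' : O) : GLt b c b' c' ∨ (b = b' ∧ c = c') ∨ GLt b' c' b c := by
  unfold GLt
  rcases lt_trichotomy (max b c) (max b' c') with h | h | h
  · tauto
  · rcases lt_trichotomy b b' with h1 | h1 | h1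
    · tauto
    · rcases lt_trichotomy c c' with h2 | h2 | h2
      · tauto
      · tauto
      · exact Or.inr (Or.inr (Or.inr ⟨h.symm, Or.inr ⟨h1.symm, h2⟩⟩))
    · exact Or.inr (Or.inr (Or.inr ⟨h.symm, Or.inl h1⟩))
  · tauto

omit hM in
theorem GLt.wf : WellFounded fun p q : O × O => GLt p.1 p.2 q.1 q.2 := by
  have h : WellFounded (Prod.Lex (· < ·) (Prod.Lex (· < ·) (· < ·)) : O × O × O → _ → Prop) :=
    WellFounded.prod_lex wellFounded_lt (WellFounded.prod_lex wellFounded_lt wellFounded_lt)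
  refine Subrelation.wf ?_ (InvImage.wf (fun p : O × O => (max p.1 p.2, p.1, p.2)) h)
  intro p q hpq
  simp only [InvImage, Prod.lex_def]
  exact hpq

omit hM in
theorem GLt.asymm {b c b' c' : O} (h : GLt b c b' c') : ¬ GLt b' c' b c :=
  GLt.wf.asymm.asymm (b, c) (b', c') h

omit hM in
theorem GLt.max_le {b c b' c' : O} (h : GLt b c b' c') : max b c ≤ max b' c' :=
  h.elim le_of_lt fun h => h.1.le

def DP (x : Z) : Prop := ∃ b c : O, x = pair b.toZFSet c.toZFSet
def LP (x y : Z) : Prop := GLt (ro (zfst x)) (ro (zsnd x)) (ro (zfst y)) (ro (zsnd y))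

omit hM in
theorem lp_tri (x y : Z) (hx : DP x) (hy : DP y) : LP x y ∨ x = y ∨ LP y x := by
  obtain ⟨b, c, rfl⟩ := hx
  obtain ⟨b', c', rfl⟩ := hy
  simpa [LP, toZ_inj] using GLt.tri b c b' c'

theorem exists_minP {f : Z} (hf : f ∈ M) : ∃ x ∈ M, MinF DP LP f x := by
  obtain ⟨μ, h1, h2⟩ := exists_bound (M := M) (X := ZFSet.sUnion (ZFSet.sUnion (ran f)))
    (Fn.val (by (repeat' (beta_reduce; (first | with_reducible (first | apply Fn.ran | apply Fn.zfst | apply Fn.zsnd | exact Fn.var _ | exact Fn.const ‹_› | exact On.const ‹_› | exact Df.prop _ | apply Df.and | apply Df.or | apply Df.not | apply Df.iff | apply Df.ex | apply Df.bex | apply Df.oex | apply Df.obex | apply Df.all | apply Df.ball | apply Df.oall | apply Df.oball | apply Df.imp | apply Df.mem | apply Df.eq | apply Df.oeq | apply Df.olt | apply Df.ole | apply Df.subset | apply Df.isOrdinal | apply Fn.pair | apply Fn.app | apply Fn.upair | apply Fn.single | apply Fn.insert | apply Fn.union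 | apply Fn.sUnion | apply Fn.prod | apply Fn.sep | apply Fn.img | apply Fn.ite | exact Fn.omega | exact Fn.empty | exact Fn.nat _ | apply On.fn | apply On.ro | apply On.succ | apply On.max | apply On.ite | apply On.mu | exact On.zero | exact On.one | exact On.omega | exact On.nat _) | exact On.ofNat _ | with_reducible (first | refine Fn.osub1 ‹_› ?_ | refine On.sub1 ‹_› ?_ | refine Df.osub1 ‹_› ?_ | refine On.zsub1 ‹_› ?_ | refine Fn.sub1 ‹_› ?_ | refine Df.sub1 ‹_› ?_ | refine Fn.sub2 ‹_› ?_ ?_ | refine Df.sub2 ‹_› ?_ ?_))))))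
  have h3 : (μ, μ) ∈ {p : O × O | pair p.1.toZFSet p.2.toZFSet ∉ ran f} := fun h =>
    lt_irrefl _ (h2 μ (mem_uu_left h))
  obtain ⟨⟨b, c⟩, h4, h5⟩ := GLt.wf.has_min _ ⟨_, h3⟩
  have h6 : max b c ≤ μ := by
    by_contra hh
    exact h5 _ h3 (Or.inl (by simpa using not_le.1 hh))
  refine ⟨_, pair_M (le_M ((le_max_left _ _).trans h6) h1) (le_M ((le_max_right _ _).trans h6) h1),
    ⟨b, c, rfl⟩, h4, ?_⟩
  rintro _ ⟨b', c', rfl⟩ hl
  by_contra hh
  exact h5 (b', c') hh (by simpa [LP] using hl)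

noncomputable def dec : O → Z := en DP LP
noncomputable def K1 (a : O) : O := ro (zfst (dec a))
noncomputable def K2 (a : O) : O := ro (zsnd (dec a))

omit hM in
theorem dec_ex (a : O) : ∃ x, MinF DP LP (gr (en DP LP) a) x :=
  (exists_minP (M := Set.univ) trivial).imp fun _ h => h.2

omit hM in
theorem dec_eq (a : O) : dec a = pair (K1 a).toZFSet (K2 a).toZFSet := by
  obtain ⟨b, c, h⟩ := (en_spec (dec_ex a)).1
  have h' : dec a = _ := h
  simp [K1, K2, h']

omit hM in
theorem K_mono {a b : O} (h : a < b) : GLt (K1 a) (K2 a) (K1 b) (K2 b) :=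
  en_mono lp_tri (dec_ex b) (dec_ex a) h

omit hM in
theorem K_down {a b c : O} (h : GLt b c (K1 a) (K2 a)) : ∃ a' < a, K1 a' = b ∧ K2 a' = c := by
  obtain ⟨a', h1, h2⟩ := (en_spec (dec_ex a)).2.2 _ ⟨b, c, rfl⟩ (by
    simp only [LP, zfst_pair, zsnd_pair, ro_toZ]; exact h)
  have h3 : dec a' = _ := h2
  exact ⟨a', h1, by simp [K1, h3], by simp [K2, h3]⟩

omit hM in
theorem K_inj {a b : O} (h1 : K1 a = K1 b) (h2 : K2 a = K2 b) : a = b := by
  rcases lt_trichotomy a b with h | h | h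
  · have := K_mono h
    rw [h1, h2] at this
    exact absurd this this.asymm
  · exact h
  · have := K_mono h
    rw [h1, h2] at this
    exact absurd this this.asymm

omit hM in
theorem K_le (a : O) : max (K1 a) (K2 a) ≤ a := by
  induction a using WellFoundedLT.induction with
  | _ a ih =>
  by_contra h
  obtain ⟨a', h1, h2, h3⟩ := K_down (a := a) (b := a) (c := a)
    (Or.inl (by simpa using not_le.1 h))
  have := ih a' h1
  rw [h2, h3, max_self] at this
  exact absurd h1 (not_lt.2 this)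

theorem Fn.dec0 : Fn M fun w => dec (ro (w 0)) := by
  refine Fn.en lp_tri (Df.congr (P := fun w => (∃ b : O, b.toZFSet ∈ M ∧ ∃ c : O, c.toZFSet ∈ M ∧
    w 0 = ZFSet.pair b.toZFSet c.toZFSet) ∧ w 0 ∉ LA.ran (w (1 + 1)) ∧ ∀ b : O, b.toZFSet ∈ M →
      ∀ c : O, c.toZFSet ∈ M → LP (ZFSet.pair b.toZFSet c.toZFSet) (w 0) →
        ZFSet.pair b.toZFSet c.toZFSet ∈ LA.ran (w (1 + 1))) (by unfold LP GLt; (repeat' (beta_reduce; (first | with_reducible (first | apply Fn.ran | apply Fn.zfst | apply Fn.zsnd | exact Fn.var _ | exact Fn.const ‹_› | exact On.const ‹_› | exact Df.prop _ | apply Df.and | apply Df.or | apply Df.not | apply Df.iff | apply Df.ex | apply Df.bex | apply Df.oex | apply Df.obex | apply Df.all | apply Df.ball | apply Df.oall | apply Df.oball | apply Df.imp | apply Df.mem | apply Df.eq | apply Df.oeq | apply Df.olt | apply Df.ole | apply Df.subset | apply Df.isOrdinal | apply Fn.pair | apply Fn.app | apply Fn.upair | apply Fn.single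 | apply Fn.insert | apply Fn.union | apply Fn.sUnion | apply Fn.prod | apply Fn.sep | apply Fn.img | apply Fn.ite | exact Fn.omega | exact Fn.empty | exact Fn.nat _ | apply On.fn | apply On.ro | apply On.succ | apply On.max | apply On.ite | apply On.mu | exact On.zero | exact On.one | exact On.omega | exact On.nat _) | exact On.ofNat _ | with_reducible (first | refine Fn.osub1 ‹_› ?_ | refine On.sub1 ‹_› ?_ | refine Df.osub1 ‹_› ?_ | refine On.zsub1 ‹_› ?_ | refine Fn.sub1 ‹_› ?_ | refine Df.sub1 ‹_› ?_ | refine Fn.sub2 ‹_› ?_ ?_ | refine Df.sub2 ‹_› ?_ ?_)))))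
    fun w hw => ?_) fun f hf x hx => ?_
  · constructor
    · rintro ⟨⟨b, hb, c, hc, e⟩, h1, h2⟩
      refine ⟨⟨b, c, e⟩, h1, ?_⟩
      rintro _ ⟨b', c', rfl⟩ hl
      have h3 : max b' c' ≤ max b c := by
        rw [e] at hl
        exact GLt.max_le (by simpa [LP] using hl)
      have h4 : (max b c).toZFSet ∈ M := ((On.const hb).max (On.const hc)).fn.val
      exact h2 b' (le_M ((le_max_left _ _).trans h3) h4) c'
        (le_M ((le_max_right _ _).trans h3) h4) hl
    · rintro ⟨⟨b, c, e⟩, h1, h2⟩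
      exact ⟨⟨b, fst_M (e ▸ hw 0), c, snd_M (e ▸ hw 0), e⟩, h1,
        fun b' _ c' _ hl => h2 _ ⟨b', c', rfl⟩ hl⟩
  · obtain ⟨y, hy, h⟩ := exists_minP hf
    rcases lp_tri _ _ hx.1 h.1 with h1 | h1 | h1
    · exact absurd (h.2.2 _ hx.1 h1) hx.2.1
    · exact h1 ▸ hy
    · exact absurd (hx.2.2 _ h.1 h1) h.2.1

theorem On.K1 {s : (ℕ → Z) → O} (hs : On M s) : On M fun v => K1 (s v) :=
  On.ro (Fn.zfst (Fn.osub1 Fn.dec0 hs))

theorem On.K2 {s : (ℕ → Z) → O} (hs : On M s) : On M fun v => K2 (s v) :=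
  On.ro (Fn.zsnd (Fn.osub1 Fn.dec0 hs))

theorem K_surj {b c : O} (hb : b.toZFSet ∈ M) (hc : c.toZFSet ∈ M) :
    ∃ a : O, a.toZFSet ∈ M ∧ K1 a = b ∧ K2 a = c := by
  by_contra hh
  have h1 : (max b c + 1).toZFSet ∈ M := ((On.const hb).max (On.const hc)).succ.fn.val
  refine bf (M := M) Fn.dec0 (X := ZFSet.prod (max b c + 1).toZFSet (max b c + 1).toZFSet)
    (Fn.val (by (repeat' (beta_reduce; (first | with_reducible (first | apply Fn.ran | apply Fn.zfst | apply Fn.zsnd | exact Fn.var _ | exact Fn.const ‹_› | exact On.const ‹_› | exact Df.prop _ | apply Df.and | apply Df.or | apply Df.not | apply Df.iff | apply Df.ex | apply Df.bex | apply Df.oex | apply Df.obex | apply Df.all | apply Df.ball | apply Df.oall | apply Df.oball | apply Df.imp | apply Df.mem | apply Df.eq | apply Df.oeq | apply Df.olt | apply Df.ole | apply Df.subset | apply Df.isOrdinal | apply Fn.pair | apply Fn.app | apply Fn.upair | apply Fn.single | apply Fn.insert | apply Fn.union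 | apply Fn.sUnion | apply Fn.prod | apply Fn.sep | apply Fn.img | apply Fn.ite | exact Fn.omega | exact Fn.empty | exact Fn.nat _ | apply On.fn | apply On.ro | apply On.succ | apply On.max | apply On.ite | apply On.mu | exact On.zero | exact On.one | exact On.omega | exact On.nat _) | exact On.ofNat _ | with_reducible (first | refine Fn.osub1 ‹_› ?_ | refine On.sub1 ‹_› ?_ | refine Df.osub1 ‹_› ?_ | refine On.zsub1 ‹_› ?_ | refine Fn.sub1 ‹_› ?_ | refine Df.sub1 ‹_› ?_ | refine Fn.sub2 ‹_› ?_ ?_ | refine Df.sub2 ‹_› ?_ ?_)))))) (fun a ha => ?_) fun a a' _ h => (en_spec (dec_ex a)).2.1 a' h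
  rcases GLt.tri b c (K1 a) (K2 a) with h | h | h
  · obtain ⟨a', h2, h3⟩ := K_down h
    exact absurd ⟨a', le_M h2.le ha, h3⟩ hh
  · exact absurd ⟨a, ha, h.1.symm, h.2.symm⟩ hh
  · rw [dec_eq, pair_mem_prod, toZFSet_mem_toZFSet_iff, toZFSet_mem_toZFSet_iff,
      Order.lt_add_one_iff, Order.lt_add_one_iff]
    exact max_le_iff.1 h.max_le

/-- Gödel pairing -/
noncomputable def Gam (b c : O) : O := mu Set.univ fun a => K1 a = b ∧ K2 a = c

omit hM in
@[simp] theorem K1_Gam (b c : O) : K1 (Gam b c) = b :=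
  (mu_spec (K_surj (M := Set.univ) trivial trivial)).2.1

omit hM in
@[simp] theorem K2_Gam (b c : O) : K2 (Gam b c) = c :=
  (mu_spec (K_surj (M := Set.univ) trivial trivial)).2.2

omit hM in
@[simp] theorem Gam_K (a : O) : Gam (K1 a) (K2 a) = a := K_inj (by simp) (by simp)

omit hM in
theorem Gam_inj {a b c d : O} : Gam a b = Gam c d ↔ a = c ∧ b = d :=
  ⟨fun h => ⟨by simpa using congrArg K1 h, by simpa using congrArg K2 h⟩,
    fun h => by rw [h.1, h.2]⟩

omit hM in
theorem K1_le (a : O) : K1 a ≤ a := (le_max_left _ _).trans (K_le a)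
omit hM in
theorem K2_le (a : O) : K2 a ≤ a := (le_max_right _ _).trans (K_le a)
omit hM in
theorem le_Gam_left (b c : O) : b ≤ Gam b c := by simpa using K1_le (Gam b c)
omit hM in
theorem le_Gam_right (b c : O) : c ≤ Gam b c := by simpa using K2_le (Gam b c)

theorem On.Gam {s t : (ℕ → Z) → O} (hs : On M s) (ht : On M t) :
    On M fun v => Gam (s v) (t v) := by
  refine (On.mu (R := fun v a => LA.K1 a = s v ∧ LA.K2 a = t v)
    ((Df.oeq (On.ro (Fn.var 0)).K1 hs.w).and (Df.oeq (On.ro (Fn.var 0)).K2 ht.w))).congr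
      fun v hv => ?_
  have := (mu_spec (K_surj (hs.1 v hv) (ht.1 v hv))).2
  exact K_inj (by simp [this.1]) (by simp [this.2])

theorem Gam_M {b c : O} (hb : b.toZFSet ∈ M) (hc : c.toZFSet ∈ M) : (Gam b c).toZFSet ∈ M :=
  ((On.const hb).Gam (On.const hc)).fn.val


omit hM in
/-- characterisation of the pairing function -/
theorem K_char {δ : O} {P1 P2 : O → O} (h0 : ∀ a < δ, P1 a < δ ∧ P2 a < δ)
    (h1 : ∀ a < δ, ∀ b < δ, a < b → GLt (P1 a) (P2 a) (P1 b) (P2 b))
    (h2 : ∀ a < δ, ∀ b < δ, ∀ c < δ, GLt b c (P1 a) (P2 a) → ∃ a' < δ, P1 a' = b ∧ P2 a' = c) :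
    ∀ a < δ, P1 a = K1 a ∧ P2 a = K2 a := by
  intro a
  induction a using WellFoundedLT.induction with
  | _ a ih =>
  intro ha
  rcases GLt.tri (P1 a) (P2 a) (K1 a) (K2 a) with h | h | h
  · obtain ⟨a', h3, h4, h5⟩ := K_down h
    have h6 := ih a' h3 (h3.trans ha)
    have h7 := h1 a' (h3.trans ha) a ha h3
    rw [h6.1, h6.2, h4, h5] at h7
    exact absurd h7 h7.asymm
  · exact h
  · obtain ⟨a', h3, h4, h5⟩ := h2 a ha _ ((K1_le a).trans_lt ha) _ ((K2_le a).trans_lt ha) h
    rcases lt_trichotomy a' a with h6 | rfl | h6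
    · have h7 := ih a' h6 h3
      exact absurd (K_inj (h7.1.symm.trans h4) (h7.2.symm.trans h5)) h6.ne
    · exact ⟨h4, h5⟩
    · have h7 := h1 a ha a' h3 h6
      rw [h4, h5] at h7
      exact absurd h7 h.asymm

end Pool.Agent.H30Z.LA
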