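import Pool.Agent.H30Z.LA.Amal

/-! Amalgamation fails in every uncountable cardinal of `L[A]`. -/

namespace Pool.Agent.H30Z.LA

open CohenE ZFSet Ordinal Forc AP

noncomputable def fi (M : Set Z) (A : Z) (a : O) : Z :=
  GF A (mu M fun c => IsInj (GF A c) a.toZFSet ZFSet.omega)

def Rel0 (M : Set Z) (A k i t : Z) (a b : O) : Prop :=
  (k = nat 0 ∧ (Gam (ro i) (ro t)).toZFSet ∈ GF A a) ∨ (k = nat 1 ∧ pair b.toZFSet i ∈ fi M A a) ∨
  (k = nat 2 ∧ GF A a = i) ∨ (k = nat 3 ∧ (i = nat 0 ∨ (i = nat 1 ∧ a < b) ∨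
    (i = nat 2 ∧ K1 a = b) ∨ (i = nat 3 ∧ K2 a = b) ∨ (i = nat 4 ∧ GF A a ∈ GF A b) ∨
    (i = nat 5 ∧ GF A a = GF A b)))

@[simp] theorem ro_nat (n : ℕ) : ro (nat n) = n := by rw [← toZ_nat, ro_toZ]

variable {M : Set Z} [hM : Fact (ZFM M)] {A : Z} {S : St} {l : O}

theorem soft_of (hL : IsL M A) (hl : OCard M l) (hω : ω < l)
    (hl' : ∀ a < l, Le M a.toZFSet ZFSet.omega) (h1 : l.toZFSet ⊆ S.A)
    (h2 : ∀ a b c x y, ¬ (a = 3 ∧ 6 ≤ b) → (S.r a b c x y ↔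
      x ∈ l.toZFSet ∧ y ∈ l.toZFSet ∧ Rel0 M A (nat a) (nat b) (nat c) (ro x) (ro y))) :
    S.Soft A := by
  have hA := hL.mem
  have ho : ∀ x, S.o x ↔ ∃ a < l, a.toZFSet = x := fun x => by
    rw [St.o, h2 _ _ _ _ _ (by norm_num), ← mem_toZFSet_iff]
    exact ⟨fun h => h.2.1, fun h => ⟨h1 h, h, h, by simp [Rel0]⟩⟩
  have oo : ∀ a < l, S.o a.toZFSet := fun a ha => (ho _).2 ⟨a, ha, rfl⟩
  have key : ∀ a b c, ¬ (a = 3 ∧ 6 ≤ b) → ∀ x < l, ∀ y < l, (S.r a b c x.toZFSet y.toZFSet ↔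
      Rel0 M A (nat a) (nat b) (nat c) x y) := fun a b c h x hx y hy => by
    simp [h2 _ _ _ _ _ h, hx, hy]
  have rL : ∀ x < l, ∀ y < l, (S.r 3 1 0 x.toZFSet y.toZFSet ↔ x < y) := fun x hx y hy => by
    simp [key 3 1 0 (by norm_num) x hx y hy, Rel0, nat_inj.eq_iff]
  have r1 : ∀ x < l, ∀ y < l, (S.r 3 2 0 x.toZFSet y.toZFSet ↔ K1 x = y) := fun x hx y hy => by
    simp [key 3 2 0 (by norm_num) x hx y hy, Rel0, nat_inj.eq_iff]
  have r2 : ∀ x < l, ∀ y < l, (S.r 3 3 0 x.toZFSet y.toZFSet ↔ K2 x = y) := fun x hx y hy => by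
    simp [key 3 3 0 (by norm_num) x hx y hy, Rel0, nat_inj.eq_iff]
  have rE : ∀ x < l, ∀ y < l, (S.r 3 4 0 x.toZFSet y.toZFSet ↔ GF A x ∈ GF A y) :=
    fun x hx y hy => by simp [key 3 4 0 (by norm_num) x hx y hy, Rel0, nat_inj.eq_iff]
  have rQ : ∀ x < l, ∀ y < l, (S.r 3 5 0 x.toZFSet y.toZFSet ↔ GF A x = GF A y) :=
    fun x hx y hy => by simp [key 3 5 0 (by norm_num) x hx y hy, Rel0, nat_inj.eq_iff]
  have rN : ∀ n, ∀ x < l, (S.r 2 n 0 x.toZFSet x.toZFSet ↔ GF A x = nat n) := fun n x hx => by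
    simp [key 2 n 0 (by norm_num) x hx x hx, Rel0, nat_inj.eq_iff]
  have rI : ∀ n, ∀ x < l, ∀ y < l, (S.r 1 n 0 x.toZFSet y.toZFSet ↔
      pair y.toZFSet (nat n) ∈ fi M A x) := fun n x hx y hy => by
    simp [key 1 n 0 (by norm_num) x hx y hy, Rel0, nat_inj.eq_iff]
  have rP : ∀ i t : ℕ, ∀ x < l, (S.r 0 i t x.toZFSet x.toZFSet ↔ (Gam i t).toZFSet ∈ GF A x) :=
    fun i t x hx => by simp [key 0 i t (by norm_num) x hx x hx, Rel0, nat_inj.eq_iff]
  have hfi : ∀ a < l, IsInj (fi M A a) a.toZFSet ZFSet.omega := fun a ha => by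
    obtain ⟨f, hf, h3⟩ := (hl' a ha).set (le_M ha.le hl.1)
    obtain ⟨o, h4, rfl⟩ := hL.all f hf
    exact (mu_spec (R := fun c => IsInj (GF A c) a.toZFSet ZFSet.omega) ⟨o, h4, h3⟩).2
  have low : ∀ a < l, ∀ z ∈ GF A a, ∃ c < a, GF A c = z := fun a _ z hz =>
    mem_GS.1 (mem_GF.1 hz).1
  refine ⟨?_, ?_, ?_, ?_, ?_, ?_, ?_, ?_, ?_, ?_, ?_, ?_, ?_, ?_, ?_, ?_, ?_⟩ <;>
    simp only [ho]
  · rintro _ ⟨a, ha, rfl⟩ _ ⟨b, hb, rfl⟩
    rw [rL a ha b hb, rL b hb a ha, toZ_inj]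
    exact lt_trichotomy a b
  · rintro _ ⟨a, ha, rfl⟩ _ ⟨b, hb, rfl⟩
    rw [rL a ha b hb, rL b hb a ha]
    exact lt_asymm
  · rintro _ ⟨a, ha, rfl⟩ _ ⟨b, hb, rfl⟩ _ ⟨c, hc, rfl⟩
    rw [rL a ha b hb, rL b hb c hc, rL a ha c hc]
    exact lt_trans
  · rintro _ ⟨a, ha, rfl⟩
    have h3 := (K1_le a).trans_lt ha
    have h4 := (K2_le a).trans_lt ha
    exact ⟨⟨_, ⟨_, h3, rfl⟩, (r1 a ha _ h3).2 rfl⟩, ⟨_, ⟨_, h4, rfl⟩, (r2 a ha _ h4).2 rfl⟩⟩
  · rintro _ ⟨a, ha, rfl⟩ _ ⟨b, hb, rfl⟩ _ ⟨c, hc, rfl⟩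
    rw [r1 a ha b hb, r1 a ha c hc, r2 a ha b hb, r2 a ha c hc]
    exact ⟨fun h h' => by rw [← h, h'], fun h h' => by rw [← h, h']⟩
  · rintro _ ⟨a, ha, rfl⟩ _ ⟨a', ha', rfl⟩ _ ⟨b, hb, rfl⟩ _ ⟨c, hc, rfl⟩ _ ⟨b', hb', rfl⟩
      _ ⟨c', hc', rfl⟩
    unfold GLx
    rw [rL a ha a' ha', r1 a ha b hb, r2 a ha c hc, r1 a' ha' b' hb', r2 a' ha' c' hc',
      rL b hb b' hb', rL b hb c' hc', rL c hc b' hb', rL c hc c' hc', rL b' hb' b hb,
      rL b' hb' c hc, rL c' hc' b hb, rL c' hc' c hc, toZ_inj]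
    rintro h rfl rfl rfl rfl
    exact GL_iff.2 (K_mono h)
  · rintro _ ⟨b, hb, rfl⟩ _ ⟨c, hc, rfl⟩
    have h3 := hl.Gam_lt hω.le hb hc
    exact ⟨_, ⟨_, h3, rfl⟩, (r1 _ h3 b hb).2 (by simp), (r2 _ h3 c hc).2 (by simp)⟩
  · rintro _ ⟨a, ha, rfl⟩ _ ⟨b, hb, rfl⟩
    rw [rQ a ha b hb]
    constructor
    · rintro h _ ⟨c, hc, rfl⟩
      rw [rE c hc a ha, rE c hc b hb, h]
    · intro h
      ext z
      constructor
      · intro hz
        obtain ⟨c, hc, rfl⟩ := low a ha z hz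
        exact (rE c (hc.trans ha) b hb).1 ((h _ ⟨c, hc.trans ha, rfl⟩).1
          ((rE c (hc.trans ha) a ha).2 hz))
      · intro hz
        obtain ⟨c, hc, rfl⟩ := low b hb z hz
        exact (rE c (hc.trans hb) a ha).1 ((h _ ⟨c, hc.trans hb, rfl⟩).2
          ((rE c (hc.trans hb) b hb).2 hz))
  · rintro _ ⟨a, ha, rfl⟩ _ ⟨c, hc, rfl⟩ h
    rw [rE c hc a ha] at h
    obtain ⟨d, hd, e⟩ := low a ha _ h
    have hd' := hd.trans ha
    exact ⟨_, ⟨d, hd', rfl⟩, (rL d hd' a ha).2 hd, (rQ c hc d hd').2 e.symm,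
      (rE d hd' a ha).2 (e ▸ h)⟩
  · rintro _ ⟨a, ha, rfl⟩ _ ⟨c, hc, rfl⟩ _ ⟨d, hd, rfl⟩
    rw [rQ c hc d hd, rE d hd a ha, rE c hc a ha]
    exact fun e h => e ▸ h
  · rintro _ ⟨a, ha, rfl⟩ _ ⟨c, hc, rfl⟩ _ ⟨u, hu, rfl⟩ _ ⟨u', hu', rfl⟩ _ ⟨x, hx, rfl⟩
      _ ⟨y, hy, rfl⟩ _ ⟨w, hw, rfl⟩
    rw [rL c hc a ha, r1 a ha u hu, r2 a ha u' hu', r1 u hu x hx, r2 u hu y hy, r1 u' hu' w hw,
      rE c hc a ha, rL x hx a ha, rL y hy a ha, rL w hw a ha, mem_GF]
    rintro h rfl rfl rfl rfl rfl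
    simp only [GF_mem_GS h, true_and]
    refine and_congr_right fun h3 => and_congr_right fun h4 => and_congr_right fun h5 => ?_
    have m : ∀ θ, SatX (S.r 3 4 0) (S.r 3 5 0)
        {c | (∃ a < l, a.toZFSet = c) ∧ S.r 3 1 0 c a.toZFSet}
        (env4 c.toZFSet (p1 a).toZFSet (p2 a).toZFSet (p3 a).toZFSet) θ ↔
        SatS {u | u ∈ GS A a} (env4 (GF A c) (GF A (p1 a)) (GF A (p2 a)) (GF A (p3 a))) θ := by
      intro θ
      rw [← map_env4 toZFSet, ← map_env4 (GF A)]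
      refine (satX_map (E := fun a b => GF A a ∈ GF A b) (Q := fun a b => GF A a = GF A b)
        toZFSet (T := Set.Iio l) (D := Set.Iio a) (fun b hb => lt_trans hb ha) (fun y => ?_)
        (fun b hb c hc => (rE b hb c hc).symm) (fun b hb c hc => (rQ b hb c hc).symm) θ _
        (env4_in hc hx hy hw)).symm.trans (satX_map (E := fun a b => GF A a ∈ GF A b)
          (Q := fun a b => GF A a = GF A b) (E' := fun a b : Z => a ∈ b) (Q' := (· = ·)) (GF A)
          (T := Set.univ) (D := Set.Iio a) (D' := {u | u ∈ GS A a}) (Set.subset_univ _)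
          (fun _ => mem_GS) (fun _ _ _ _ => Iff.rfl) (fun _ _ _ _ => Iff.rfl) θ _ fun _ => trivial)
      constructor
      · rintro ⟨⟨b, hb, rfl⟩, h6⟩
        exact ⟨b, (rL b hb a ha).1 h6, rfl⟩
      · rintro ⟨b, hb, rfl⟩
        exact ⟨⟨b, lt_trans hb ha, rfl⟩, (rL b (lt_trans hb ha) a ha).2 hb⟩
    refine (Op_iff (GF_mem_GS h) (GF_mem_GS h3) (GF_mem_GS h4) (GF_mem_GS h5)).trans
      (or_congr (m _).symm (and_congr (m _).symm ⟨fun h6 => ?_, fun ⟨n, h6, h7⟩ => ?_⟩))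
    · obtain ⟨n, hn⟩ := mem_omega.1 (hL.sub h6)
      exact ⟨n, hn ▸ h6, (rN n c hc).2 hn⟩
    · exact (rN n c hc).1 h7 ▸ h6
  · rintro _ ⟨c, hc, rfl⟩
    rw [rN 0 c hc, nat, eq_empty]
    constructor
    · rintro h ⟨_, ⟨d, hd, rfl⟩, h3⟩
      exact h _ ((rE d hd c hc).1 h3)
    · intro h z hz
      obtain ⟨d, hd, rfl⟩ := low c hc z hz
      exact h ⟨_, ⟨d, hd.trans hc, rfl⟩, (rE d (hd.trans hc) c hc).2 hz⟩
  · rintro n _ ⟨c, hc, rfl⟩
    rw [rN _ c hc, nat]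
    constructor
    · intro h
      obtain ⟨b, hb, e⟩ := low c hc _ (h ▸ mem_insert (nat n) (nat n))
      refine ⟨_, ⟨b, hb.trans hc, rfl⟩, (rN n b (hb.trans hc)).2 e, ?_⟩
      rintro _ ⟨d, hd, rfl⟩
      rw [rE d hd c hc, rE d hd b (hb.trans hc), rQ d hd b (hb.trans hc), h, e, mem_insert_iff,
        or_comm]
    · rintro ⟨_, ⟨b, hb, rfl⟩, h3, h4⟩
      rw [rN n b hb] at h3
      have h5 : ∀ d < l, (GF A d ∈ GF A c ↔ GF A d = nat n ∨ GF A d ∈ nat n) := fun d hd => by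
        rw [← rE d hd c hc, h4 _ ⟨d, hd, rfl⟩, rE d hd b hb, rQ d hd b hb, h3, or_comm]
      ext z
      rw [mem_insert_iff]
      constructor
      · intro hz
        obtain ⟨d, hd, rfl⟩ := low c hc z hz
        exact (h5 d (hd.trans hc)).1 hz
      · rintro (rfl | hz)
        · exact h3 ▸ (h5 b hb).2 (Or.inl h3)
        · obtain ⟨d, hd, rfl⟩ := low b hb z (h3 ▸ hz)
          exact (h5 d (hd.trans hb)).2 (Or.inr hz)
  · rintro _ ⟨a, ha, rfl⟩ _ ⟨b, hb, rfl⟩ h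
    have h3 := toZFSet_mem_toZFSet_iff.2 ((rL b hb a ha).1 h)
    obtain ⟨n, hn⟩ := mem_omega.1 (inj_maps (hfi a ha) _ h3)
    exact ⟨n, (rI n a ha b hb).2 ((inj_app (hfi a ha) _ _).2 ⟨h3, hn.symm⟩)⟩
  · rintro n _ ⟨a, ha, rfl⟩ _ ⟨b, hb, rfl⟩ _ ⟨c, hc, rfl⟩
    rw [rI n a ha b hb, rI n a ha c hc]
    exact (hfi a ha).2 _ _ _
  · rintro j _ ⟨a, ha, rfl⟩ _ ⟨x, hx, rfl⟩ ⟨_, ⟨b, hb, rfl⟩, h⟩
    obtain ⟨c, ⟨hc, h3⟩, h4⟩ := wellFounded_lt.has_min
      {c : O | c < l ∧ S.inn j a.toZFSet c.toZFSet x.toZFSet} ⟨b, hb, h⟩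
    refine ⟨_, ⟨c, hc, rfl⟩, h3, ?_⟩
    rintro _ ⟨d, hd, rfl⟩ h5
    rw [rL d hd c hc]
    exact h4 d ⟨hd, h5⟩
  · rintro i _ ⟨x, hx, rfl⟩
    have hxM := le_M hx.le hl.1
    obtain ⟨a, ha, e⟩ := hL.cond ocard_omega le_rfl (x := ZFSet.sep
      (fun t => (Gam i (ro t)).toZFSet ∈ GF A x) ZFSet.omega) (Fn.val (by (repeat' (beta_reduce; (first | with_reducible (first | refine On.idx ‹_› ?_ | refine Fn.GF ‹_› ?_ | refine Fn.GS ‹_› ?_ | apply Df.isInj | apply Df.isCard | apply On.K1 | apply On.K2 | apply On.Gam | apply Fn.ran | apply Fn.zfst | apply Fn.zsnd | exact Fn.var _ | exact Fn.const ‹_› | exact On.const ‹_› | exact Df.prop _ | apply Df.and | apply Df.or | apply Df.not | apply Df.iff | apply Df.ex | apply Df.bex | apply Df.oex | apply Df.obex | apply Df.all | apply Df.ball | apply Df.oall | apply Df.oball | apply Df.imp | apply Df.mem | apply Df.eq | apply Df.oeq | apply Df.olt | apply Df.ole | apply Df.subset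 | apply Df.isOrdinal | apply Fn.pair | apply Fn.app | apply Fn.upair | apply Fn.single | apply Fn.insert | apply Fn.union | apply Fn.sUnion | apply Fn.prod | apply Fn.sep | apply Fn.img | apply Fn.ite | exact Fn.omega | exact Fn.empty | exact Fn.nat _ | apply On.fn | apply On.ro | apply On.succ | apply On.max | apply On.ite | apply On.mu | exact On.zero | exact On.one | exact On.omega | exact On.nat _) | exact On.ofNat _ | with_reducible (first | refine Fn.osub1 ‹_› ?_ | refine On.sub1 ‹_› ?_ | refine Df.osub1 ‹_› ?_ | refine On.zsub1 ‹_› ?_ | refine Fn.sub1 ‹_› ?_ | refine Df.sub1 ‹_› ?_ | refine Fn.sub2 ‹_› ?_ ?_ | refine Df.sub2 ‹_› ?_ ?_))))))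
      (fun z hz => toZ_omega ▸ (mem_sep.1 hz).1) hl hω
    refine ⟨_, ⟨a, ha, rfl⟩, fun t => ?_⟩
    have h3 : (Gam i t).toZFSet ∈ GF A x ↔ nat t ∈ GF A a := by simp [e, nat_mem_omega]
    rw [rP i t x hx, h3]
    constructor
    · intro h
      obtain ⟨c, hc, e'⟩ := low a ha _ h
      exact ⟨_, ⟨c, hc.trans ha, rfl⟩, (rN t c (hc.trans ha)).2 e',
        (rE c (hc.trans ha) a ha).2 (e' ▸ h)⟩
    · rintro ⟨_, ⟨c, hc, rfl⟩, h4, h5⟩
      exact (rN t c hc).1 h4 ▸ (rE c hc a ha).1 h5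

theorem eqv_succ {k : O} (hk : OCard M k) (hω : ω ≤ k) :
    Eqv M (insert k.toZFSet k.toZFSet) k.toZFSet := by
  classical
  have hkM := hk.1
  refine hk.eqv (Fn.val (by (repeat' (beta_reduce; (first | with_reducible (first | refine On.idx ‹_› ?_ | refine Fn.GF ‹_› ?_ | refine Fn.GS ‹_› ?_ | apply Df.isInj | apply Df.isCard | apply On.K1 | apply On.K2 | apply On.Gam | apply Fn.ran | apply Fn.zfst | apply Fn.zsnd | exact Fn.var _ | exact Fn.const ‹_› | exact On.const ‹_› | exact Df.prop _ | apply Df.and | apply Df.or | apply Df.not | apply Df.iff | apply Df.ex | apply Df.bex | apply Df.oex | apply Df.obex | apply Df.all | apply Df.ball | apply Df.oall | apply Df.oball | apply Df.imp | apply Df.mem | apply Df.eq | apply Df.oeq | apply Df.olt | apply Df.ole | apply Df.subset | apply Df.isOrdinal | apply Fn.pair | apply Fn.app | apply Fn.upair | apply Fn.single | apply Fn.insert | apply Fn.union | apply Fn.sUnion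 | apply Fn.prod | apply Fn.sep | apply Fn.img | apply Fn.ite | exact Fn.omega | exact Fn.empty | exact Fn.nat _ | apply On.fn | apply On.ro | apply On.succ | apply On.max | apply On.ite | apply On.mu | exact On.zero | exact On.one | exact On.omega | exact On.nat _) | exact On.ofNat _ | with_reducible (first | refine Fn.osub1 ‹_› ?_ | refine On.sub1 ‹_› ?_ | refine Df.osub1 ‹_› ?_ | refine On.zsub1 ‹_› ?_ | refine Fn.sub1 ‹_› ?_ | refine Df.sub1 ‹_› ?_ | refine Fn.sub2 ‹_› ?_ ?_ | refine Df.sub2 ‹_› ?_ ?_)))))) ⟨fun x => (if x = k.toZFSet then Gam 1 0 else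
    Gam 0 (ro x)).toZFSet, by (repeat' (beta_reduce; (first | with_reducible (first | refine On.idx ‹_› ?_ | refine Fn.GF ‹_› ?_ | refine Fn.GS ‹_› ?_ | apply Df.isInj | apply Df.isCard | apply On.K1 | apply On.K2 | apply On.Gam | apply Fn.ran | apply Fn.zfst | apply Fn.zsnd | exact Fn.var _ | exact Fn.const ‹_› | exact On.const ‹_› | exact Df.prop _ | apply Df.and | apply Df.or | apply Df.not | apply Df.iff | apply Df.ex | apply Df.bex | apply Df.oex | apply Df.obex | apply Df.all | apply Df.ball | apply Df.oall | apply Df.oball | apply Df.imp | apply Df.mem | apply Df.eq | apply Df.oeq | apply Df.olt | apply Df.ole | apply Df.subset | apply Df.isOrdinal | apply Fn.pair | apply Fn.app | apply Fn.upair | apply Fn.single | apply Fn.insert | apply Fn.union | apply Fn.sUnion | apply Fn.prod | apply Fn.sep | apply Fn.img | apply Fn.ite | exact Fn.omega | exact Fn.empty | exact Fn.nat _ | apply On.fn | apply On.ro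 | apply On.succ | apply On.max | apply On.ite | apply On.mu | exact On.zero | exact On.one | exact On.omega | exact On.nat _) | exact On.ofNat _ | with_reducible (first | refine Fn.osub1 ‹_› ?_ | refine On.sub1 ‹_› ?_ | refine Df.osub1 ‹_› ?_ | refine On.zsub1 ‹_› ?_ | refine Fn.sub1 ‹_› ?_ | refine Df.sub1 ‹_› ?_ | refine Fn.sub2 ‹_› ?_ ?_ | refine Df.sub2 ‹_› ?_ ?_)))), fun x hx => ?_, fun x hx y hy e => ?_⟩
    (Le.of_subset fun x hx => mem_insert_of_mem _ hx)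
  · rw [toZFSet_mem_toZFSet_iff]
    split_ifs with h
    · exact hk.Gam_lt hω (one_lt_omega0.trans_le hω) (omega0_pos.trans_le hω)
    · obtain ⟨c, hc, rfl⟩ := mem_toZFSet_iff.1 ((mem_insert_iff.1 hx).resolve_left h)
      exact hk.Gam_lt hω (omega0_pos.trans_le hω) (by simpa using hc)
  · simp only [toZ_inj] at e
    split_ifs at e with h h' h'
    · rw [h, h']
    · simp [Gam_inj] at e
    · simp [Gam_inj] at e
    · obtain ⟨c, -, rfl⟩ := mem_toZFSet_iff.1 ((mem_insert_iff.1 hx).resolve_left h)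
      obtain ⟨d, -, rfl⟩ := mem_toZFSet_iff.1 ((mem_insert_iff.1 hy).resolve_left h')
      simpa [Gam_inj, toZ_inj] using e

theorem not_amalg (hL : IsL M A) {k : O} (hk : OCard M k) (hω : ω < k) :
    ¬ Amalg M (phi A) k.toZFSet := by
  have hA := hL.mem
  have hkM := hk.1
  obtain ⟨l, hl⟩ : ∃ l, l = mu M fun c => OCard M c ∧ ω < c := ⟨_, rfl⟩
  have l1 : OCard M l ∧ ω < l := hl ▸ (mu_spec (R := fun c => OCard M c ∧ ω < c) ⟨k, hkM, hk, hω⟩).2
  have l2 : l ≤ k := hl ▸ mu_le hkM ⟨hk, hω⟩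
  have hlM := l1.1.1
  have l3 : ∀ a < l, Le M a.toZFSet ZFSet.omega := by
    intro a ha
    obtain ⟨c, h1, h2, h3⟩ := exists_card (le_M ha.le hlM)
    refine (h3.symm h2.1).le.trans (Le.of_subset ?_)
    rw [← toZ_omega, toZFSet_subset_toZFSet_iff]
    exact not_lt.1 fun h4 => absurd (hl ▸ mu_le h2.1 ⟨h2, h4⟩) (not_le.2 (h1.trans_lt ha))
  have lk : l.toZFSet ⊆ k.toZFSet := toZFSet_subset_toZFSet_iff.2 l2
  obtain ⟨R, hR⟩ : ∃ R : Z, R = ZFSet.sep (fun q => Rel0 M A (zfst (zfst q)) (zfst (zsnd (zfst q)))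
    (zsnd (zsnd (zfst q))) (ro (zfst (zsnd q))) (ro (zsnd (zsnd q))))
    (ZFSet.prod Sy (ZFSet.prod l.toZFSet l.toZFSet)) := ⟨_, rfl⟩
  have hRM : R ∈ M := Fn.val (by rw [hR]; unfold Rel0 fi; (repeat' (beta_reduce; (first | with_reducible (first | refine On.idx ‹_› ?_ | refine Fn.GF ‹_› ?_ | refine Fn.GS ‹_› ?_ | apply Df.isInj | apply Df.isCard | apply On.K1 | apply On.K2 | apply On.Gam | apply Fn.ran | apply Fn.zfst | apply Fn.zsnd | exact Fn.var _ | exact Fn.const ‹_› | exact On.const ‹_› | exact Df.prop _ | apply Df.and | apply Df.or | apply Df.not | apply Df.iff | apply Df.ex | apply Df.bex | apply Df.oex | apply Df.obex | apply Df.all | apply Df.ball | apply Df.oall | apply Df.oball | apply Df.imp | apply Df.mem | apply Df.eq | apply Df.oeq | apply Df.olt | apply Df.ole | apply Df.subset | apply Df.isOrdinal | apply Fn.pair | apply Fn.app | apply Fn.upair | apply Fn.single | apply Fn.insert | apply Fn.union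 | apply Fn.sUnion | apply Fn.prod | apply Fn.sep | apply Fn.img | apply Fn.ite | exact Fn.omega | exact Fn.empty | exact Fn.nat _ | apply On.fn | apply On.ro | apply On.succ | apply On.max | apply On.ite | apply On.mu | exact On.zero | exact On.one | exact On.omega | exact On.nat _) | exact On.ofNat _ | with_reducible (first | refine Fn.osub1 ‹_› ?_ | refine On.sub1 ‹_› ?_ | refine Df.osub1 ‹_› ?_ | refine On.zsub1 ‹_› ?_ | refine Fn.sub1 ‹_› ?_ | refine Df.sub1 ‹_› ?_ | refine Fn.sub2 ‹_› ?_ ?_ | refine Df.sub2 ‹_› ?_ ?_)))))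
  have hRs : ∀ {B : Z}, l.toZFSet ⊆ B → R ⊆ ZFSet.prod Sy (ZFSet.prod B B) := by
    intro B hB q hq
    rw [hR] at hq
    obtain ⟨s, hs, p, hp, rfl⟩ := mem_prod.1 (mem_sep.1 hq).1
    obtain ⟨x, hx, y, hy, rfl⟩ := mem_prod.1 hp
    exact pair_mem_prod.2 ⟨hs, pair_mem_prod.2 ⟨hB hx, hB hy⟩⟩
  have hR' : ∀ a b c x y, pair (sym a b c) (pair x y) ∈ R ↔
      x ∈ l.toZFSet ∧ y ∈ l.toZFSet ∧ Rel0 M A (nat a) (nat b) (nat c) (ro x) (ro y) := by
    intro a b c x y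
    rw [hR, mem_sep, pair_mem_prod, pair_mem_prod]
    simp only [sym_mem, true_and]
    simp only [zfst_pair, zsnd_pair, sym, and_assoc]
  have no : ∀ b x, 6 ≤ b → pair (sym 3 b 0) (pair x x) ∉ R := by
    intro b x hb h
    have := ((hR' _ _ _ _ _).1 h).2.2
    simp only [Rel0, nat_inj.eq_iff] at this
    omega
  have m0 : Mod M (phi A) k.toZFSet ⟨k.toZFSet, R⟩ :=
    ⟨hkM, hRM, hRs lk, sat_phi.2 (Or.inr ⟨soft_of hL l1.1 l1.2 l3 lk fun a b c x y _ => hR' a b c x y,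
      fun ⟨⟨x, _, h⟩, _⟩ => no 6 x le_rfl h⟩), (Eqv.refl _).set hkM⟩
  have lk' : l.toZFSet ⊆ insert k.toZFSet k.toZFSet := fun x hx => mem_insert_of_mem _ (lk hx)
  have m1 : ∀ b, b = 6 ∨ b = 7 → Mod M (phi A) k.toZFSet ⟨insert k.toZFSet k.toZFSet,
      insert (pair (sym 3 b 0) (pair k.toZFSet k.toZFSet)) R⟩ := by
    intro b hb
    have h1 : insert k.toZFSet k.toZFSet ∈ M := Fn.val (by (repeat' (beta_reduce; (first | with_reducible (first | refine On.idx ‹_› ?_ | refine Fn.GF ‹_› ?_ | refine Fn.GS ‹_› ?_ | apply Df.isInj | apply Df.isCard | apply On.K1 | apply On.K2 | apply On.Gam | apply Fn.ran | apply Fn.zfst | apply Fn.zsnd | exact Fn.var _ | exact Fn.const ‹_› | exact On.const ‹_› | exact Df.prop _ | apply Df.and | apply Df.or | apply Df.not | apply Df.iff | apply Df.ex | apply Df.bex | apply Df.oex | apply Df.obex | apply Df.all | apply Df.ball | apply Df.oall | apply Df.oball | apply Df.imp | apply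 Df.mem | apply Df.eq | apply Df.oeq | apply Df.olt | apply Df.ole | apply Df.subset | apply Df.isOrdinal | apply Fn.pair | apply Fn.app | apply Fn.upair | apply Fn.single | apply Fn.insert | apply Fn.union | apply Fn.sUnion | apply Fn.prod | apply Fn.sep | apply Fn.img | apply Fn.ite | exact Fn.omega | exact Fn.empty | exact Fn.nat _ | apply On.fn | apply On.ro | apply On.succ | apply On.max | apply On.ite | apply On.mu | exact On.zero | exact On.one | exact On.omega | exact On.nat _) | exact On.ofNat _ | with_reducible (first | refine Fn.osub1 ‹_› ?_ | refine On.sub1 ‹_› ?_ | refine Df.osub1 ‹_› ?_ | refine On.zsub1 ‹_› ?_ | refine Fn.sub1 ‹_› ?_ | refine Df.sub1 ‹_› ?_ | refine Fn.sub2 ‹_› ?_ ?_ | refine Df.sub2 ‹_› ?_ ?_)))))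
    refine ⟨h1, Fn.val (by unfold sym; (repeat' (beta_reduce; (first | with_reducible (first | refine On.idx ‹_› ?_ | refine Fn.GF ‹_› ?_ | refine Fn.GS ‹_› ?_ | apply Df.isInj | apply Df.isCard | apply On.K1 | apply On.K2 | apply On.Gam | apply Fn.ran | apply Fn.zfst | apply Fn.zsnd | exact Fn.var _ | exact Fn.const ‹_› | exact On.const ‹_› | exact Df.prop _ | apply Df.and | apply Df.or | apply Df.not | apply Df.iff | apply Df.ex | apply Df.bex | apply Df.oex | apply Df.obex | apply Df.all | apply Df.ball | apply Df.oall | apply Df.oball | apply Df.imp | apply Df.mem | apply Df.eq | apply Df.oeq | apply Df.olt | apply Df.ole | apply Df.subset | apply Df.isOrdinal | apply Fn.pair | apply Fn.app | apply Fn.upair | apply Fn.single | apply Fn.insert | apply Fn.union | apply Fn.sUnion | apply Fn.prod | apply Fn.sep | apply Fn.img | apply Fn.ite | exact Fn.omega | exact Fn.empty | exact Fn.nat _ | apply On.fn |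 apply On.ro | apply On.succ | apply On.max | apply On.ite | apply On.mu | exact On.zero | exact On.one | exact On.omega | exact On.nat _) | exact On.ofNat _ | with_reducible (first | refine Fn.osub1 ‹_› ?_ | refine On.sub1 ‹_› ?_ | refine Df.osub1 ‹_› ?_ | refine On.zsub1 ‹_› ?_ | refine Fn.sub1 ‹_› ?_ | refine Df.sub1 ‹_› ?_ | refine Fn.sub2 ‹_› ?_ ?_ | refine Df.sub2 ‹_› ?_ ?_))))), fun q hq => ?_, sat_phi.2 (Or.inr
      ⟨soft_of hL l1.1 l1.2 l3 lk' fun a b' c x y h => ?_, ?_⟩), (eqv_succ hk hω.le).set h1⟩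
    · rcases mem_insert_iff.1 hq with rfl | hq
      · exact pair_mem_prod.2 ⟨sym_mem _ _ _, pair_mem_prod.2 ⟨mem_insert _ _, mem_insert _ _⟩⟩
      · exact hRs lk' hq
    · rw [← hR', St.r, mem_insert_iff]
      refine or_iff_right fun e => h ?_
      simp only [sym, pair_inj, nat_inj.eq_iff] at e
      omega
    · rintro ⟨⟨x, -, h2⟩, y, -, h3⟩
      have h4 := (mem_insert_iff.1 h2).resolve_right (no 6 x le_rfl)
      have h5 := (mem_insert_iff.1 h3).resolve_right (no 7 y (by norm_num))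
      simp only [sym, pair_inj, nat_inj.eq_iff] at h4 h5
      omega
  have e1 : ∀ b, Emb (grf id k.toZFSet) ⟨k.toZFSet, R⟩ ⟨insert k.toZFSet k.toZFSet,
      insert (pair (sym 3 b 0) (pair k.toZFSet k.toZFSet)) R⟩ := by
    refine fun b => ⟨grf_inj (fun x hx => mem_insert_of_mem _ hx) fun _ _ _ _ e => e,
      fun s x y x' y' h1 h2 => ?_⟩
    obtain ⟨hx, rfl⟩ := pair_mem_grf.1 h1
    obtain ⟨hy, rfl⟩ := pair_mem_grf.1 h2
    refine (mem_insert_iff.trans (or_iff_right fun e => ?_)).symm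
    simp only [pair_inj, id] at e
    exact mem_irrefl _ (e.2.1 ▸ hx)
  have hid : grf id k.toZFSet ∈ M := grf_M (Fn.var 0) hkM
  intro h
  obtain ⟨N, ⟨n1, n2, -, n3, -⟩, g1, -, g2, -, E1, E2, -⟩ :=
    h _ _ _ m0 (m1 6 (Or.inl rfl)) (m1 7 (Or.inr rfl)) _ hid _ hid (e1 6) (e1 7)
  have kk : k.toZFSet ∈ insert k.toZFSet k.toZFSet := mem_insert _ _
  rcases sat_phi.1 n3 with ⟨y, hy, h1⟩ | ⟨-, h1⟩
  · have hyM := tr n1 hy
    obtain ⟨a, ha, e⟩ := hL.cond ocard_omega le_rfl (x := ZFSet.sep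
      (fun n => pair (pair (nat 0) (pair (K1 (ro n)).toZFSet (K2 (ro n)).toZFSet)) (pair y y) ∈ N.R)
      ZFSet.omega) (Fn.val (by (repeat' (beta_reduce; (first | with_reducible (first | refine On.idx ‹_› ?_ | refine Fn.GF ‹_› ?_ | refine Fn.GS ‹_› ?_ | apply Df.isInj | apply Df.isCard | apply On.K1 | apply On.K2 | apply On.Gam | apply Fn.ran | apply Fn.zfst | apply Fn.zsnd | exact Fn.var _ | exact Fn.const ‹_› | exact On.const ‹_› | exact Df.prop _ | apply Df.and | apply Df.or | apply Df.not | apply Df.iff | apply Df.ex | apply Df.bex | apply Df.oex | apply Df.obex | apply Df.all | apply Df.ball | apply Df.oall | apply Df.oball | apply Df.imp | apply Df.mem | apply Df.eq | apply Df.oeq | apply Df.olt | apply Df.ole | apply Df.subset | apply Df.isOrdinal | apply Fn.pair | apply Fn.app | apply Fn.upair | apply Fn.single | apply Fn.insert | apply Fn.union | apply Fn.sUnion | apply Fn.prod | apply Fn.sep | apply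 Fn.img | apply Fn.ite | exact Fn.omega | exact Fn.empty | exact Fn.nat _ | apply On.fn | apply On.ro | apply On.succ | apply On.max | apply On.ite | apply On.mu | exact On.zero | exact On.one | exact On.omega | exact On.nat _) | exact On.ofNat _ | with_reducible (first | refine Fn.osub1 ‹_› ?_ | refine On.sub1 ‹_› ?_ | refine Df.osub1 ‹_› ?_ | refine On.zsub1 ‹_› ?_ | refine Fn.sub1 ‹_› ?_ | refine Df.sub1 ‹_› ?_ | refine Fn.sub2 ‹_› ?_ ?_ | refine Df.sub2 ‹_› ?_ ?_)))))) (fun z hz => toZ_omega ▸ (mem_sep.1 hz).1) l1.1 l1.2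
    have ha' := toZFSet_mem_toZFSet_iff.2 ha
    have tr' : ∀ i j t, N.r i j t (app g1 a.toZFSet) (app g1 a.toZFSet) ↔
        Rel0 M A (nat i) (nat j) (nat t) a a := by
      intro i j t
      refine (E1.iff _ (lk' ha') (lk' ha')).symm.trans (mem_insert_iff.trans ?_)
      rw [hR', or_iff_right]
      · simp [ha]
      · simp only [pair_inj, toZ_inj]
        exact fun e => absurd (e.2.1 ▸ l2) (not_le.2 ha)
    refine h1 (app g1 a.toZFSet) ⟨inj_maps E1.1 _ (lk' ha'), (tr' _ _ _).2 (by simp [Rel0])⟩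
      fun i => ⟨i, fun t => ?_⟩
    rw [tr']
    have h2 : (Gam i t).toZFSet ∈ ZFSet.omega := toZ_omega ▸ toZFSet_mem_toZFSet_iff.2
      (Gam_omega (natCast_lt_omega0 i) (natCast_lt_omega0 t))
    simp [Rel0, nat_inj.eq_iff, e, h2, toZ_nat, St.r, sym]
  · exact h1 ⟨⟨_, inj_maps E1.1 _ kk, (E1.iff _ kk kk).1 (mem_insert _ _)⟩,
      ⟨_, inj_maps E2.1 _ kk, (E2.iff _ kk kk).1 (mem_insert _ _)⟩⟩

end Pool.Agent.H30Z.LA
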