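import Pool.Agent.H30Z.LA.Card

/-! Gödel's enumeration of the sets constructible from a set `A`. -/

namespace Pool.Agent.H30Z.LA

open CohenE ZFSet Ordinal Forc

/-- satisfaction in an arbitrary structure -/
def SatX {X : Type*} (E Q : X → X → Prop) (D : Set X) : (ℕ → X) → Fml → Prop
  | v, .mem i j => E (v i) (v j)
  | v, .eq i j => Q (v i) (v j)
  | v, .neg φ => ¬ SatX E Q D v φ
  | v, .and φ ψ => SatX E Q D v φ ∧ SatX E Q D v ψ
  | v, .ex φ => ∃ a, a ∈ D ∧ SatX E Q D (scons a v) φ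

abbrev SatS (U : Set Z) := SatX (fun a b : Z => a ∈ b) (· = ·) U

theorem sat_iff {M : Set Z} (φ : Fml) : ∀ v : ℕ → M, Sat M v φ ↔ SatS M (fun i => v i) φ := by
  induction φ with
  | mem i j => exact fun _ => Iff.rfl
  | eq i j => exact fun _ => Subtype.ext_iff
  | neg φ ih => exact fun v => not_congr (ih v)
  | and φ ψ ih ih' => exact fun v => and_congr (ih v) (ih' v)
  | ex φ ih =>
    intro v
    simp only [Sat, SatX, ih, coe_scons]
    exact ⟨fun ⟨a, h⟩ => ⟨a, a.2, h⟩, fun ⟨a, h1, h2⟩ => ⟨⟨a, h1⟩, h2⟩⟩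

theorem scons_in {X : Type*} {T : Set X} {a : X} {v : ℕ → X} (ha : a ∈ T) (hv : ∀ i, v i ∈ T) :
    ∀ i, scons a v i ∈ T
  | 0 => ha
  | i + 1 => hv i

theorem map_scons {X Y : Type*} (π : X → Y) (a : X) (v : ℕ → X) :
    (fun i => π (scons a v i)) = scons (π a) fun i => π (v i) := by
  funext i
  cases i <;> rfl

theorem satX_map {X Y : Type*} {E Q : X → X → Prop} {E' Q' : Y → Y → Prop} (π : X → Y)
    {T D : Set X} {D' : Set Y} (hT : D ⊆ T) (hD : ∀ y, y ∈ D' ↔ ∃ x ∈ D, π x = y)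
    (hE : ∀ a ∈ T, ∀ b ∈ T, E a b ↔ E' (π a) (π b))
    (hQ : ∀ a ∈ T, ∀ b ∈ T, Q a b ↔ Q' (π a) (π b)) (φ : Fml) :
    ∀ v : ℕ → X, (∀ i, v i ∈ T) → (SatX E Q D v φ ↔ SatX E' Q' D' (fun i => π (v i)) φ) := by
  induction φ with
  | mem i j => exact fun v hv => hE _ (hv i) _ (hv j)
  | eq i j => exact fun v hv => hQ _ (hv i) _ (hv j)
  | neg φ ih => exact fun v hv => not_congr (ih v hv)
  | and φ ψ ih ih' => exact fun v hv => and_congr (ih v hv) (ih' v hv)
  | ex φ ih =>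
    intro v hv
    constructor
    · rintro ⟨a, ha, h⟩
      exact ⟨π a, (hD _).2 ⟨a, ha, rfl⟩, map_scons π a v ▸ (ih _ (scons_in (hT ha) hv)).1 h⟩
    · rintro ⟨y, hy, h⟩
      obtain ⟨a, ha, rfl⟩ := (hD y).1 hy
      exact ⟨a, ha, (ih _ (scons_in (hT ha) hv)).2 (map_scons π a v ▸ h)⟩

theorem satX_congr {X : Type*} {E Q : X → X → Prop} {D : Set X} (φ : Fml) :
    ∀ {v w : ℕ → X}, (∀ i < bd φ, v i = w i) → (SatX E Q D v φ ↔ SatX E Q D w φ) := by
  induction φ with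
  | mem i j =>
    intro v w h
    simp only [SatX, h i (by simp only [bd]; omega), h j (by simp only [bd]; omega)]
  | eq i j =>
    intro v w h
    simp only [SatX, h i (by simp only [bd]; omega), h j (by simp only [bd]; omega)]
  | neg φ ih => intro v w h; simp only [SatX, ih h]
  | and φ ψ ih ih' =>
    intro v w h
    simp only [SatX, ih (fun i hi => h i (by simp only [bd]; omega)),
      ih' (fun i hi => h i (by simp only [bd]; omega))]
  | ex φ ih =>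
    intro v w h
    simp only [SatX, fun τ => ih (scons_agree h τ)]

theorem Df.satS {M : Set Z} (φ : Fml) : ∀ {U : (ℕ → Z) → Set Z} {e : ℕ → (ℕ → Z) → Z},
    (Df M fun w => w 0 ∈ U fun i => w (i + 1)) → (∀ v, In M v → U v ⊆ M) → (∀ i, Fn M (e i)) →
    Df M fun v => SatS (U v) (fun i => e i v) φ := by
  induction φ with
  | mem i j => exact fun _ _ he => Df.mem (he i) (he j)
  | eq i j => exact fun _ _ he => Df.eq (he i) (he j)
  | neg φ ih => exact fun h1 h2 he => (ih h1 h2 he).not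
  | and φ ψ ih ih' => exact fun h1 h2 he => (ih h1 h2 he).and (ih' h1 h2 he)
  | ex φ ih =>
    intro U e h1 h2 he
    have h3 := ih (U := fun w => U fun i => w (i + 1))
      (e := scons (fun w => w 0) fun i w => e i fun j => w (j + 1))
      (Df.skip (R := fun v y => y ∈ U v) h1) (fun v hv => h2 _ fun i => hv _)
      (fn_scons (Fn.var 0) fun i => (he i).w)
    refine (Df.ex (R := fun v a => a ∈ U v ∧ SatS (U v) (scons a fun i => e i v) φ)
      (h1.and (h3.congr fun w _ => iff_of_eq ?_))).congr fun v hv =>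
        ⟨fun ⟨a, _, h⟩ => ⟨a, h⟩, fun ⟨a, h⟩ => ⟨a, h2 v hv h.1, h⟩⟩
    congr 1
    funext i
    cases i <;> rfl

theorem RD.satS {Q : Pred} (h : RD Q) : ∃ θ : Fml, ∀ U : Set Z, Tr U → ∀ v, In U v →
    (SatS U v θ ↔ Q U v) := by
  obtain ⟨φ, hφ⟩ := h
  exact ⟨φ, fun U hU v hv => (sat_iff φ fun i => ⟨v i, hv i⟩).symm.trans (hφ U hU _)⟩

/-- Zermelo numerals -/
noncomputable def zn : ℕ → Z
  | 0 => ∅
  | j + 1 => {zn j}

theorem zn_inj : ∀ {i j : ℕ}, zn i = zn j → i = j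
  | 0, 0, _ => rfl
  | 0, j + 1, h => absurd (show zn j ∈ zn 0 by rw [h]; simp [zn]) (notMem_empty _)
  | i + 1, 0, h => absurd (show zn i ∈ zn 0 by rw [← h]; simp [zn]) (notMem_empty _)
  | i + 1, j + 1, h => by rw [zn_inj (singleton_injective h)]

theorem rd_zn (j : ℕ) : ∀ k, RD fun _ v => v k = zn j := by
  induction j with
  | zero =>
    exact fun k => (RD.bex k (RD.eq 0 0)).not.congr fun _ _ v _ => by
      simp [zn, eq_empty]
  | succ j ih =>
    refine fun k => (RD.bex k ((RD.upair (k + 1) 0 0).and (ih 0))).congr fun _ _ v _ => ?_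
    simp only [scons, pair_eq_singleton, zn]
    constructor
    · rintro ⟨y, -, h, rfl⟩; exact h
    · intro h; exact ⟨_, by rw [h]; simp, h, rfl⟩

theorem rd_tri (k i j l : ℕ) : RD fun _ v => v k = pair (v i) (pair (v j) (v l)) :=
  (RD.ex ((RD.isPair 0 (j + 1) (l + 1)).and (RD.isPair (k + 1) (i + 1) 0))).congr
    fun _ hU v hv => ⟨fun ⟨_, _, h1, h2⟩ => h2.trans (congrArg _ h1),
      fun h => ⟨_, snd_tr hU (h ▸ hv k), rfl, h⟩⟩

theorem rd_tapp (i j l k : ℕ) : RD fun _ v => pair (v i) (pair (v j) (v l)) ∈ v k :=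
  (RD.bex k (rd_tri 0 (i + 1) (j + 1) (l + 1))).congr fun _ _ v _ =>
    ⟨fun ⟨_, h1, h2⟩ => by
      have h3 : _ = pair (v i) (pair (v j) (v l)) := h2
      rw [← h3]; exact h1, fun h => ⟨_, h, rfl⟩⟩

/-- the fundamental operations -/
def op : ℕ → Z → Z → Z → Prop
  | 0, z, x, y => z = x ∨ z = y
  | 1, z, _, _ => z = z
  | 2, z, x, y => z ∈ x ∧ z ∉ y
  | 3, z, x, _ => z ∈ x ∧ ∃ a b s, z = pair a (pair b s) ∧ a ∈ b
  | 4, z, x, y => z ∈ x ∧ ∃ a, pair a z ∈ y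
  | 5, z, x, y => z ∈ x ∧ ∃ a s, z = pair a s ∧ s ∈ y
  | 6, z, x, y => z ∈ x ∧ ∃ a b s, z = pair a (pair b s) ∧ pair b (pair a s) ∈ y
  | 7, z, x, _ => z ∈ x ∧ ∃ a s, z = pair a (pair a s)
  | _, z, x, y => z ∈ x ∧ ∃ s, pair z s ∈ y

theorem rd_op (j : ℕ) : RD fun _ v => op j (v 0) (v 1) (v 2) := by
  match j with
  | 0 => exact (RD.eq 0 1).or (RD.eq 0 2)
  | 1 => exact RD.eq 0 0
  | 2 => exact (RD.mem 0 1).and (RD.mem 0 2).not
  | 3 =>
    exact ((RD.mem 0 1).and ((rd_tri 3 2 1 0).and (RD.mem 2 1)).ex.ex.ex).congr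
      fun _ hU v hv => and_congr_right fun _ => ⟨fun ⟨a, _, b, _, s, _, h⟩ => ⟨a, b, s, h⟩,
        fun ⟨a, b, s, h⟩ => ⟨a, fst_tr hU (h.1 ▸ hv 0), b, fst_tr hU (snd_tr hU (h.1 ▸ hv 0)), s,
          snd_tr hU (snd_tr hU (h.1 ▸ hv 0)), h⟩⟩
  | 4 =>
    exact ((RD.mem 0 1).and (RD.app 0 1 3).ex).congr
      fun _ hU v hv => and_congr_right fun _ => ⟨fun ⟨a, _, h⟩ => ⟨a, h⟩,
        fun ⟨a, h⟩ => ⟨a, fst_tr hU (hU _ (hv 2) _ h), h⟩⟩
  | 5 =>
    exact ((RD.mem 0 1).and ((RD.isPair 2 1 0).and (RD.mem 0 4)).ex.ex).congr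
      fun _ hU v hv => and_congr_right fun _ => ⟨fun ⟨a, _, s, _, h⟩ => ⟨a, s, h⟩,
        fun ⟨a, s, h⟩ => ⟨a, fst_tr hU (h.1 ▸ hv 0), s, snd_tr hU (h.1 ▸ hv 0), h⟩⟩
  | 6 =>
    exact ((RD.mem 0 1).and ((rd_tri 3 2 1 0).and (rd_tapp 1 2 0 5)).ex.ex.ex).congr
      fun _ hU v hv => and_congr_right fun _ => ⟨fun ⟨a, _, b, _, s, _, h⟩ => ⟨a, b, s, h⟩,
        fun ⟨a, b, s, h⟩ => ⟨a, fst_tr hU (h.1 ▸ hv 0), b, fst_tr hU (snd_tr hU (h.1 ▸ hv 0)), s,
          snd_tr hU (snd_tr hU (h.1 ▸ hv 0)), h⟩⟩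
  | 7 =>
    exact ((RD.mem 0 1).and (rd_tri 2 1 1 0).ex.ex).congr
      fun _ hU v hv => and_congr_right fun _ => ⟨fun ⟨a, _, s, _, h⟩ => ⟨a, s, h⟩,
        fun ⟨a, s, h⟩ => ⟨a, fst_tr hU (h ▸ hv 0), s, snd_tr hU (snd_tr hU (h ▸ hv 0)), h⟩⟩
  | _ + 8 =>
    exact ((RD.mem 0 1).and (RD.app 1 0 3).ex).congr
      fun _ hU v hv => and_congr_right fun _ => ⟨fun ⟨a, _, h⟩ => ⟨a, h⟩,
        fun ⟨a, h⟩ => ⟨a, snd_tr hU (hU _ (hv 2) _ h), h⟩⟩

def Op0 (z x y w : Z) : Prop := ∃ j < 9, w = zn j ∧ op j z x y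

theorem rd_Op0 : RD fun _ v => Op0 (v 0) (v 1) (v 2) (v 3) := by
  suffices h : ∀ n : ℕ, RD fun _ v => ∃ j < n, v 3 = zn j ∧ op j (v 0) (v 1) (v 2) from h 9
  intro n
  induction n with
  | zero => exact (RD.eq 0 0).not.congr fun _ _ _ _ => by simp
  | succ n ih =>
    refine (ih.or ((rd_zn n 3).and (rd_op n))).congr fun _ _ _ _ => ?_
    constructor
    · rintro (⟨j, h1, h2⟩ | h)
      · exact ⟨j, by omega, h2⟩
      · exact ⟨n, by omega, h⟩
    · rintro ⟨j, h1, h2⟩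
      rcases Nat.lt_succ_iff_lt_or_eq.1 h1 with h | rfl
      · exact Or.inl ⟨j, h, h2⟩
      · exact Or.inr h2

noncomputable def th0 : Fml := (RD.satS rd_Op0).choose
noncomputable def th1 : Fml := (RD.satS (rd_zn 9 3)).choose

theorem th0_spec {U : Set Z} (hU : Tr U) {v : ℕ → Z} (hv : In U v) :
    SatS U v th0 ↔ Op0 (v 0) (v 1) (v 2) (v 3) := (RD.satS rd_Op0).choose_spec U hU v hv

theorem th1_spec {U : Set Z} (hU : Tr U) {v : ℕ → Z} (hv : In U v) :
    SatS U v th1 ↔ v 3 = zn 9 := (RD.satS (rd_zn 9 3)).choose_spec U hU v hv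

def Op (A z x y w : Z) : Prop := Op0 z x y w ∨ (w = zn 9 ∧ z ∈ A)

theorem Op_zn {A z x y : Z} {j : ℕ} (hj : j < 9) : Op A z x y (zn j) ↔ op j z x y := by
  constructor
  · rintro (⟨i, -, h1, h2⟩ | ⟨h1, -⟩)
    · rwa [zn_inj h1]
    · exact absurd (zn_inj h1) hj.ne
  · exact fun h => Or.inl ⟨j, hj, rfl, h⟩

theorem Op_nine {A z x y : Z} : Op A z x y (zn 9) ↔ z ∈ A := by
  constructor
  · rintro (⟨i, h0, h1, -⟩ | ⟨-, h⟩)
    · exact absurd (zn_inj h1) h0.ne'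
    · exact h
  · exact fun h => Or.inr ⟨rfl, h⟩

noncomputable def p1 (a : O) : O := K1 (K1 a)
noncomputable def p2 (a : O) : O := K2 (K1 a)
noncomputable def p3 (a : O) : O := K1 (K2 a)

/-- Gödel's function -/
noncomputable def GF (A : Z) : O → Z :=
  orec fun a f => ZFSet.sep (fun z => p1 a < a ∧ p2 a < a ∧ p3 a < a ∧
    Op A z (app f (p1 a).toZFSet) (app f (p2 a).toZFSet) (app f (p3 a).toZFSet)) (ran f)

/-- the values of `GF` below `a` -/
noncomputable def GS (A : Z) (a : O) : Z := ran (gr (GF A) a)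

variable {A : Z}

theorem mem_GS {a : O} {y : Z} : y ∈ GS A a ↔ ∃ b, b < a ∧ GF A b = y := mem_ran_gr

theorem mem_GF {a : O} {z : Z} : z ∈ GF A a ↔ z ∈ GS A a ∧ p1 a < a ∧ p2 a < a ∧ p3 a < a ∧
    Op A z (GF A (p1 a)) (GF A (p2 a)) (GF A (p3 a)) := by
  conv_lhs => rw [GF, orec_eq, mem_sep]
  refine and_congr_right fun _ => and_congr_right fun h1 => and_congr_right fun h2 =>
    and_congr_right fun h3 => ?_
  rw [app_gr h1, app_gr h2, app_gr h3]
  rfl

theorem GS_mono {a b : O} (h : a ≤ b) : GS A a ⊆ GS A b := fun _ hy => by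
  obtain ⟨c, hc, e⟩ := mem_GS.1 hy
  exact mem_GS.2 ⟨c, hc.trans_le h, e⟩

theorem GS_tr (a : O) : Tr {z | z ∈ GS A a} := by
  intro x hx y hy
  obtain ⟨b, hb, rfl⟩ := mem_GS.1 hx
  exact GS_mono hb.le (mem_GF.1 hy).1

theorem GF_mem_GS {a b : O} (h : b < a) : GF A b ∈ GS A a := mem_GS.2 ⟨b, h, rfl⟩

variable {M : Set Z} [hM : Fact (ZFM M)]

theorem zn_M (j : ℕ) : zn j ∈ M := by
  induction j with
  | zero => exact empty_M
  | succ j ih => exact (Fn.const ih).single.val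

theorem Fn.GF0 (hA : A ∈ M) : Fn M fun w => GF A (ro (w 0)) := by
  have h9 : zn 9 ∈ M := zn_M 9
  have h0 : ∀ {r s t u : (ℕ → Z) → Z}, Fn M r → Fn M s → Fn M t → Fn M u →
      Df M fun v => Op0 (r v) (s v) (t v) (u v) := fun {r s t u} hr hs ht hu =>
    (Df.rd rd_Op0).subst (scons r (scons s (scons t fun _ => u)))
      (fn_scons hr (fn_scons hs (fn_scons ht fun _ => hu)))
  refine Fn.orec0 ?_
  unfold Op p1 p2 p3
  repeat' (beta_reduce; first | (first | with_reducible (first | apply Df.isInj | apply Df.isCard | apply On.K1 | apply On.K2 | apply On.Gam | apply Fn.ran | apply Fn.zfst | apply Fn.zsnd | exact Fn.var _ | exact Fn.const ‹_› | exact On.const ‹_› | exact Df.prop _ | apply Df.and | apply Df.or | apply Df.not | apply Df.iff | apply Df.ex | apply Df.bex | apply Df.oex | apply Df.obex | apply Df.all | apply Df.ball | apply Df.oall | apply Df.oball | apply Df.imp | apply Df.mem | apply Df.eq | apply Df.oeq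 | apply Df.olt | apply Df.ole | apply Df.subset | apply Df.isOrdinal | apply Fn.pair | apply Fn.app | apply Fn.upair | apply Fn.single | apply Fn.insert | apply Fn.union | apply Fn.sUnion | apply Fn.prod | apply Fn.sep | apply Fn.img | apply Fn.ite | exact Fn.omega | exact Fn.empty | exact Fn.nat _ | apply On.fn | apply On.ro | apply On.succ | apply On.max | apply On.ite | apply On.mu | exact On.zero | exact On.one | exact On.omega | exact On.nat _) | exact On.ofNat _ | with_reducible (first | refine Fn.osub1 ‹_› ?_ | refine On.sub1 ‹_› ?_ | refine Df.osub1 ‹_› ?_ | refine On.zsub1 ‹_› ?_ | refine Fn.sub1 ‹_› ?_ | refine Df.sub1 ‹_› ?_ | refine Fn.sub2 ‹_› ?_ ?_ | refine Df.sub2 ‹_› ?_ ?_)) | with_reducible apply h0)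

theorem Fn.GF (hA : A ∈ M) {s : (ℕ → Z) → O} (hs : On M s) : Fn M fun v => GF A (s v) :=
  (Fn.GF0 hA).osub1 hs

theorem Fn.GS (hA : A ∈ M) {s : (ℕ → Z) → O} (hs : On M s) : Fn M fun v => GS A (s v) :=
  ((Fn.GF0 hA).gr hs).ran


/-- the constructible sets of `M` -/
def LL (M : Set Z) (A : Z) : Set Z := {x | ∃ o : O, o.toZFSet ∈ M ∧ GF A o = x}

theorem LL_sub (hA : A ∈ M) : LL M A ⊆ M := by
  rintro _ ⟨o, ho, rfl⟩
  exact (Fn.GF hA (On.const ho)).val

theorem LL_of_GS {a : O} (ha : a.toZFSet ∈ M) {x : Z} (hx : x ∈ GS A a) : x ∈ LL M A := by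
  obtain ⟨b, hb, e⟩ := mem_GS.1 hx
  exact ⟨b, le_M hb.le ha, e⟩

theorem LL_tr : Tr (LL M A) := by
  rintro _ ⟨o, ho, rfl⟩ y hy
  exact LL_of_GS ho (mem_GF.1 hy).1

theorem exists_op {x y w : Z} (hx : x ∈ LL M A) (hy : y ∈ LL M A) (hw : w ∈ LL M A) {b : O}
    (hb : b.toZFSet ∈ M) : ∃ a : O, a.toZFSet ∈ M ∧ b ≤ a ∧ x ∈ GS A a ∧ y ∈ GS A a ∧
      ∀ z, z ∈ GF A a ↔ z ∈ GS A a ∧ Op A z x y w := by
  obtain ⟨i, hi, rfl⟩ := hx
  obtain ⟨j, hj, rfl⟩ := hy
  obtain ⟨k, hk, rfl⟩ := hw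
  have h1 : ∀ c, c ≤ max (max i j) (max k b) →
      c < Gam (Gam i j) (Gam k (max (max i j) (max k b) + 1)) := fun c hc =>
    (Order.lt_add_one_iff.2 hc).trans_le ((le_Gam_right _ _).trans (le_Gam_right _ _))
  refine ⟨Gam (Gam i j) (Gam k (max (max i j) (max k b) + 1)), Fn.val (by (repeat' (beta_reduce; (first | with_reducible (first | refine Fn.GF ‹_› ?_ | refine Fn.GS ‹_› ?_ | apply Df.isInj | apply Df.isCard | apply On.K1 | apply On.K2 | apply On.Gam | apply Fn.ran | apply Fn.zfst | apply Fn.zsnd | exact Fn.var _ | exact Fn.const ‹_› | exact On.const ‹_› | exact Df.prop _ | apply Df.and | apply Df.or | apply Df.not | apply Df.iff | apply Df.ex | apply Df.bex | apply Df.oex | apply Df.obex | apply Df.all | apply Df.ball | apply Df.oall | apply Df.oball | apply Df.imp | apply Df.mem | apply Df.eq | apply Df.oeq | apply Df.olt | apply Df.ole | apply Df.subset | apply Df.isOrdinal | apply Fn.pair | apply Fn.app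 | apply Fn.upair | apply Fn.single | apply Fn.insert | apply Fn.union | apply Fn.sUnion | apply Fn.prod | apply Fn.sep | apply Fn.img | apply Fn.ite | exact Fn.omega | exact Fn.empty | exact Fn.nat _ | apply On.fn | apply On.ro | apply On.succ | apply On.max | apply On.ite | apply On.mu | exact On.zero | exact On.one | exact On.omega | exact On.nat _) | exact On.ofNat _ | with_reducible (first | refine Fn.osub1 ‹_› ?_ | refine On.sub1 ‹_› ?_ | refine Df.osub1 ‹_› ?_ | refine On.zsub1 ‹_› ?_ | refine Fn.sub1 ‹_› ?_ | refine Df.sub1 ‹_› ?_ | refine Fn.sub2 ‹_› ?_ ?_ | refine Df.sub2 ‹_› ?_ ?_))))),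
    (h1 b (by simp)).le, GF_mem_GS (h1 i (by simp)), GF_mem_GS (h1 j (by simp)), fun z => ?_⟩
  rw [mem_GF]
  simp only [p1, p2, p3, K1_Gam, K2_Gam, h1 i (by simp), h1 j (by simp), h1 k (by simp), true_and]

theorem empty_LL : (∅ : Z) ∈ LL M A :=
  ⟨0, zero_M, (eq_empty _).2 fun y hy => by simpa using mem_GS.1 (mem_GF.1 hy).1⟩

theorem upair_LL {x y : Z} (hx : x ∈ LL M A) (hy : y ∈ LL M A) : ({x, y} : Z) ∈ LL M A := by
  obtain ⟨a, h1, -, h2, h3, h4⟩ := exists_op hx hy (empty_LL (M := M)) zero_M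
  refine ⟨a, h1, ZFSet.ext fun z => ?_⟩
  rw [h4, mem_pair]
  refine (and_congr_right fun _ => Op_zn (j := 0) (by norm_num)).trans
    ⟨fun h => h.2, fun h => ⟨?_, h⟩⟩
  rcases h with rfl | rfl <;> assumption

theorem single_LL {x : Z} (hx : x ∈ LL M A) : ({x} : Z) ∈ LL M A :=
  pair_eq_singleton x ▸ upair_LL hx hx

theorem pair_LL {x y : Z} (hx : x ∈ LL M A) (hy : y ∈ LL M A) : pair x y ∈ LL M A :=
  upair_LL (single_LL hx) (upair_LL hx hy)

theorem zn_LL (j : ℕ) : zn j ∈ LL M A := by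
  induction j with
  | zero => exact empty_LL
  | succ j ih => exact single_LL ih

/-- closure under the operations that cut down `x` -/
theorem op_LL {x y : Z} (hx : x ∈ LL M A) (hy : y ∈ LL M A) {j : ℕ} (hj : j < 9) {C : Z → Prop}
    (h : ∀ z, op j z x y ↔ z ∈ x ∧ C z) : ZFSet.sep C x ∈ LL M A := by
  obtain ⟨a, h1, -, h2, -, h4⟩ := exists_op hx hy (zn_LL (M := M) j) zero_M
  refine ⟨a, h1, ZFSet.ext fun z => ?_⟩
  rw [h4, mem_sep, Op_zn hj, h]
  exact ⟨fun h => h.2, fun h => ⟨GS_tr a _ h2 _ h.1, h⟩⟩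

theorem GS_LL {b : O} (hb : b.toZFSet ∈ M) : ∃ a : O, a.toZFSet ∈ M ∧ b ≤ a ∧ GS A a ∈ LL M A := by
  obtain ⟨a, h1, h2, -, -, h4⟩ := exists_op (A := A) empty_LL empty_LL (zn_LL (M := M) 1) hb
  refine ⟨a, h1, h2, a, h1, ZFSet.ext fun z => ?_⟩
  rw [h4, Op_zn (by norm_num)]
  exact ⟨fun h => h.1, fun h => ⟨h, rfl⟩⟩

theorem Df.LL (hA : A ∈ M) {s : (ℕ → Z) → Z} (hs : Fn M s) : Df M fun v => s v ∈ LL M A :=
  Df.sub1 (R := fun x => ∃ o : O, o.toZFSet ∈ M ∧ GF A o = x) (by (repeat' (beta_reduce; (first | with_reducible (first | refine Fn.GF ‹_› ?_ | refine Fn.GS ‹_› ?_ | apply Df.isInj | apply Df.isCard | apply On.K1 | apply On.K2 | apply On.Gam | apply Fn.ran | apply Fn.zfst | apply Fn.zsnd | exact Fn.var _ | exact Fn.const ‹_› | exact On.const ‹_› | exact Df.prop _ | apply Df.and | apply Df.or | apply Df.not | apply Df.iff | apply Df.ex | apply Df.bex | apply Df.oex | apply Df.obex | apply Df.all | apply Df.ball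 | apply Df.oall | apply Df.oball | apply Df.imp | apply Df.mem | apply Df.eq | apply Df.oeq | apply Df.olt | apply Df.ole | apply Df.subset | apply Df.isOrdinal | apply Fn.pair | apply Fn.app | apply Fn.upair | apply Fn.single | apply Fn.insert | apply Fn.union | apply Fn.sUnion | apply Fn.prod | apply Fn.sep | apply Fn.img | apply Fn.ite | exact Fn.omega | exact Fn.empty | exact Fn.nat _ | apply On.fn | apply On.ro | apply On.succ | apply On.max | apply On.ite | apply On.mu | exact On.zero | exact On.one | exact On.omega | exact On.nat _) | exact On.ofNat _ | with_reducible (first | refine Fn.osub1 ‹_› ?_ | refine On.sub1 ‹_› ?_ | refine Df.osub1 ‹_› ?_ | refine On.zsub1 ‹_› ?_ | refine Fn.sub1 ‹_› ?_ | refine Df.sub1 ‹_› ?_ | refine Fn.sub2 ‹_› ?_ ?_ | refine Df.sub2 ‹_› ?_ ?_))))) hs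

/-- collection -/
theorem collect (hA : A ∈ M) {R : Z → Z → Prop} (h : Df M fun w => R (w 0) (w 1)) {X : Z}
    (hX : X ∈ M) : ∃ a : O, a.toZFSet ∈ M ∧ GS A a ∈ LL M A ∧
      ∀ x ∈ X, (∃ u ∈ LL M A, R x u) → ∃ u ∈ GS A a, R x u := by
  obtain ⟨b, hb, h1⟩ := exists_bound' (M := M) (R := fun x c => R x (GF A c)) (by (repeat' (beta_reduce; (first | with_reducible (first | refine Fn.GF ‹_› ?_ | refine Fn.GS ‹_› ?_ | apply Df.isInj | apply Df.isCard | apply On.K1 | apply On.K2 | apply On.Gam | apply Fn.ran | apply Fn.zfst | apply Fn.zsnd | exact Fn.var _ | exact Fn.const ‹_› | exact On.const ‹_› | exact Df.prop _ | apply Df.and | apply Df.or | apply Df.not | apply Df.iff | apply Df.ex | apply Df.bex | apply Df.oex | apply Df.obex | apply Df.all | apply Df.ball | apply Df.oall | apply Df.oball | apply Df.imp | apply Df.mem | apply Df.eq | apply Df.oeq | apply Df.olt | apply Df.ole | apply Df.subset | apply Df.isOrdinal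 | apply Fn.pair | apply Fn.app | apply Fn.upair | apply Fn.single | apply Fn.insert | apply Fn.union | apply Fn.sUnion | apply Fn.prod | apply Fn.sep | apply Fn.img | apply Fn.ite | exact Fn.omega | exact Fn.empty | exact Fn.nat _ | apply On.fn | apply On.ro | apply On.succ | apply On.max | apply On.ite | apply On.mu | exact On.zero | exact On.one | exact On.omega | exact On.nat _) | exact On.ofNat _ | with_reducible (first | refine Fn.osub1 ‹_› ?_ | refine On.sub1 ‹_› ?_ | refine Df.osub1 ‹_› ?_ | refine On.zsub1 ‹_› ?_ | refine Fn.sub1 ‹_› ?_ | refine Df.sub1 ‹_› ?_ | refine Fn.sub2 ‹_› ?_ ?_ | refine Df.sub2 ‹_› ?_ ?_))))) hX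
  obtain ⟨a, h2, h3, h4⟩ := GS_LL (A := A) hb
  refine ⟨a, h2, h4, ?_⟩
  rintro x hx ⟨_, ⟨o, ho, rfl⟩, h5⟩
  obtain ⟨c, hc, h6⟩ := h1 x hx ⟨o, ho, h5⟩
  exact ⟨_, GF_mem_GS (hc.trans_le h3), h6⟩

end Pool.Agent.H30Z.LA
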