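import Pool.Agent.H30Z.LA.Fail

/-! The main theorem. -/

namespace Pool.Agent.H30Z.LA

open CohenE ZFSet Ordinal Forc AP

def csing (n : ℕ) : Coh ℕ :=
  ⟨{(n, true)}, Set.finite_singleton _, fun _ _ _ h1 h2 =>
    (Prod.mk.inj h1).2.trans (Prod.mk.inj h2).2.symm⟩

def cN : Nm (Coh ℕ) := .mk ℕ natN csing

def reqF : Req (Coh ℕ) := fun l q _ => ∃ n, (nat n ∈ toZF (fg (lv l 0)) ∧ (n, false) ∈ q.1) ∨
  (nat n ∉ toZF (fg (lv l 0)) ∧ (n, true) ∈ q.1)

theorem reqF_dense : reqF.Dense := by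
  intro l p
  obtain ⟨n, hn⟩ : ∃ n, n ∉ (fun a : ℕ × Bool => a.1) '' p.1 := (p.2.1.image _).exists_notMem
  have key : ∀ b : Bool, ∃ q : Coh ℕ, q ≤ p ∧ (n, b) ∈ q.1 := by
    intro b
    refine ⟨⟨insert (n, b) p.1, p.2.1.insert _, ?_⟩, fun a ha => Or.inr ha, Or.inl rfl⟩
    rintro y c c' (e1 | e1) (e2 | e2)
    · rw [(Prod.mk.inj e1).2, (Prod.mk.inj e2).2]
    · exact absurd ⟨_, e2, (Prod.mk.inj e1).1⟩ hn
    · exact absurd ⟨_, e1, (Prod.mk.inj e2).1⟩ hn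
    · exact p.2.2 y c c' e1 e2
  by_cases h : nat n ∈ toZF (fg (lv l 0))
  · obtain ⟨q, a, b⟩ := key false
    exact ⟨q, a, emptyN, n, Or.inl ⟨h, b⟩⟩
  · obtain ⟨q, a, b⟩ := key true
    exact ⟨q, a, emptyN, n, Or.inr ⟨h, b⟩⟩

/-- two models with the same ordinals containing a given real, and a new real -/
theorem exists_cohen {A : Z} (hA : A ⊆ ZFSet.omega) : ∃ M M' : Set Z, CTM M ∧ CTM M' ∧ M ⊆ M' ∧
    (∀ x : Z, x.IsOrdinal → (x ∈ M ↔ x ∈ M')) ∧ A ∈ M ∧ ∃ c ∈ M', c ⊆ ZFSet.omega ∧ c ∉ M := by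
  obtain ⟨N, G, h, h'⟩ := exists_pair (P := Coh ℕ)
    {clos fun _ => io _ (chk A), clos fun _ => cN, reqF} (Set.toFinite _).countable (by
      rintro R (rfl | rfl | rfl)
      · exact clos_dense _
      · exact clos_dense _
      · exact reqF_dense)
  have h1 : chk A ∈ Gr N := (h' _ (Or.inl rfl)).clos [] (by simp)
  have h2 : cN ∈ N := (h' _ (Or.inr (Or.inl rfl))).clos [] (by simp)
  have h3 : ∀ σ ∈ Gr N, ∀ n, nat n ∈ Forc.pi N σ ↔ nat n ∈ toZF σ := fun σ hσ n => by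
    have := h.pi_mem_iff (h.ground.natm n) hσ
    rwa [show Forc.pi N (natN n) = nat n from h.ground.val_nat n,
      show toZF (natN n) = nat n from core_univ.val_nat n] at this
  have h4 : Forc.pi N (chk A) = A := by
    have h5 : Forc.pi N (chk A) ⊆ ZFSet.omega := by
      have := (h.transfer_list (RD.subset 0 1) (l := [chk A, omegaN]) (by
        simp [h1, h.ground.omegam])).2 (by
          change toZF (chk A) ⊆ Forc.val _ _ omegaN
          rw [core_univ.val_omega, toZF_chk]; exact hA)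
      change Forc.pi N (chk A) ⊆ Forc.val _ _ omegaN at this
      rwa [h.ground.val_omega] at this
    ext z
    constructor
    · intro hz
      obtain ⟨n, rfl⟩ := Forc.mem_omega.1 (h5 hz)
      rwa [h3 _ h1, toZF_chk] at hz
    · intro hz
      obtain ⟨n, rfl⟩ := Forc.mem_omega.1 (hA hz)
      rwa [h3 _ h1, toZF_chk]
  have a1 : ∀ z, z ∈ Forc.val N G cN ↔ ∃ n, csing n ∈ G ∧ z = nat n := by
    intro z
    rw [Forc.mem_val]
    constructor
    · rintro ⟨n, -, b1, b2⟩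
      exact ⟨n, b1, b2.trans (h.core.val_nat n)⟩
    · rintro ⟨n, b1, b2⟩
      exact ⟨n, h.core.natm n, b1, b2.trans (h.core.val_nat n).symm⟩
  refine ⟨_, _, h.ctm_gnd, h.ctm_ext, h.subset, h.same_ord, ⟨_, h1, h4⟩, _, ⟨_, h2, rfl⟩,
    fun z hz => ?_, ?_⟩
  · obtain ⟨n, -, rfl⟩ := (a1 z).1 hz
    exact nat_mem_omega n
  · rintro ⟨σ, hσ, e⟩
    obtain ⟨q, hq, _, -, n, h6⟩ := h' reqF (Or.inr (Or.inr rfl)) [io _ σ] (by
      intro x hx
      rw [List.mem_singleton.1 hx]; exact hσ)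
    have h7 : toZF (fg (lv [io (Coh ℕ) σ] 0)) = toZF σ := congrArg toZF (fg_io σ)
    have h8 : Forc.pi N σ = Forc.val N G cN := e
    rw [h7, ← h3 σ hσ, h8] at h6
    rcases h6 with ⟨b1, b2⟩ | ⟨b1, b2⟩
    · obtain ⟨m, c1, c2⟩ := (a1 _).1 b1
      obtain rfl := nat_inj c2
      obtain ⟨r, -, d1, d2⟩ := h.core.filt.dir q hq _ c1
      exact absurd (r.2.2 _ _ _ (d1 b2) (d2 rfl)) (by simp)
    · exact b1 ((a1 _).2 ⟨n, h.core.filt.up q hq _ (by rintro _ rfl; exact b2), rfl⟩)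

/-- a real coding a countable ordinal -/
theorem exists_code {α : O} {f : Z} (hf : IsInj f α.toZFSet ZFSet.omega) :
    ∃ A : Z, A ⊆ ZFSet.omega ∧ ∀ M : Set Z, ZFM M → A ∈ M →
      α.toZFSet ∈ M ∧ CtbleIn M α.toZFSet := by
  let e : O → O := fun a => ro (app f a.toZFSet)
  have e1 : ∀ a < α, e a < ω ∧ (e a).toZFSet = app f a.toZFSet := fun a ha => by
    obtain ⟨d, hd, h⟩ := mem_toZFSet_iff.1 (toZ_omega ▸ inj_maps hf _ (toZFSet_mem_toZFSet_iff.2 ha))
    simp only [e, ← h, ro_toZ, hd, and_self]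
  have e2 : ∀ a < α, ∀ b < α, e a = e b → a = b := fun a ha b hb h =>
    toZ_inj.1 (inj_inj hf _ (toZFSet_mem_toZFSet_iff.2 ha) _ (toZFSet_mem_toZFSet_iff.2 hb)
      (by rw [← (e1 a ha).2, ← (e1 b hb).2, h]))
  obtain ⟨A, hA⟩ : ∃ A : Z, A = ZFSet.sep
    (fun n => ∃ a < α, ∃ b < α, a ≤ b ∧ ro n = Gam (e a) (e b)) ZFSet.omega := ⟨_, rfl⟩
  have hA' : ∀ x y : O, (Gam x y).toZFSet ∈ A ↔ ∃ a < α, ∃ b < α, a ≤ b ∧ x = e a ∧ y = e b := by
    intro x y
    simp only [hA, mem_sep, ro_toZ, Gam_inj]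
    refine and_iff_right_of_imp ?_
    rintro ⟨a, ha, b, hb, -, rfl, rfl⟩
    exact toZ_omega ▸ toZFSet_mem_toZFSet_iff.2 (Gam_omega (e1 a ha).1 (e1 b hb).1)
  refine ⟨A, fun z hz => (mem_sep.1 (hA ▸ hz)).1, fun M hM hAM => ?_⟩
  have : Fact (ZFM M) := ⟨hM⟩
  have hX : ∀ x, x ∈ ZFSet.sep (fun n => (Gam (ro n) (ro n)).toZFSet ∈ A) ZFSet.omega ↔
      ∃ a < α, x = (e a).toZFSet := by
    intro x
    rw [mem_sep, hA']
    constructor
    · rintro ⟨h1, a, ha, -, -, -, h2, -⟩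
      obtain ⟨c, -, rfl⟩ := mem_toZFSet_iff.1 (toZ_omega ▸ h1)
      exact ⟨a, ha, by rw [← h2, ro_toZ]⟩
    · rintro ⟨a, ha, rfl⟩
      exact ⟨toZ_omega ▸ toZFSet_mem_toZFSet_iff.2 (e1 a ha).1, a, ha, a, ha, le_rfl, by simp,
        by simp⟩
  have hl : ∀ a < α, ∀ b < α, ((Gam (ro (e a).toZFSet) (ro (e b).toZFSet)).toZFSet ∈ A ∧
      ¬ (e a).toZFSet = (e b).toZFSet ↔ a < b) := by
    intro a ha b hb
    simp only [ro_toZ, hA', toZ_inj]
    constructor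
    · rintro ⟨⟨a', ha', b', hb', h1, h2, h3⟩, h4⟩
      rw [← e2 a ha a' ha' h2, ← e2 b hb b' hb' h3] at h1
      exact lt_of_le_of_ne h1 fun h => h4 (by rw [h])
    · exact fun h => ⟨⟨a, ha, b, hb, h.le, rfl, rfl⟩, fun h' => h.ne (e2 a ha b hb h')⟩
  obtain ⟨δ, H, a1, a2, a3, a4, a5⟩ := enum (M := M)
    (X := ZFSet.sep (fun n => (Gam (ro n) (ro n)).toZFSet ∈ A) ZFSet.omega) (Fn.val (by (repeat' (beta_reduce; (first | with_reducible (first | refine On.idx ‹_› ?_ | refine Fn.GF ‹_› ?_ | refine Fn.GS ‹_› ?_ | apply Df.isInj | apply Df.isCard | apply On.K1 | apply On.K2 | apply On.Gam | apply Fn.ran | apply Fn.zfst | apply Fn.zsnd | exact Fn.var _ | exact Fn.const ‹_› | exact On.const ‹_› | exact Df.prop _ | apply Df.and | apply Df.or | apply Df.not | apply Df.iff | apply Df.ex | apply Df.bex | apply Df.oex | apply Df.obex | apply Df.all | apply Df.ball | apply Df.oall | apply Df.oball | apply Df.imp | apply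 Df.mem | apply Df.eq | apply Df.oeq | apply Df.olt | apply Df.ole | apply Df.subset | apply Df.isOrdinal | apply Fn.pair | apply Fn.app | apply Fn.upair | apply Fn.single | apply Fn.insert | apply Fn.union | apply Fn.sUnion | apply Fn.prod | apply Fn.sep | apply Fn.img | apply Fn.ite | exact Fn.omega | exact Fn.empty | exact Fn.nat _ | apply On.fn | apply On.ro | apply On.succ | apply On.max | apply On.ite | apply On.mu | exact On.zero | exact On.one | exact On.omega | exact On.nat _) | exact On.ofNat _ | with_reducible (first | refine Fn.osub1 ‹_› ?_ | refine On.sub1 ‹_› ?_ | refine Df.osub1 ‹_› ?_ | refine On.zsub1 ‹_› ?_ | refine Fn.sub1 ‹_› ?_ | refine Df.sub1 ‹_› ?_ | refine Fn.sub2 ‹_› ?_ ?_ | refine Df.sub2 ‹_› ?_ ?_))))))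
    (lt := fun x y => (Gam (ro x) (ro y)).toZFSet ∈ A ∧ ¬ x = y) (by (repeat' (beta_reduce; (first | with_reducible (first | refine On.idx ‹_› ?_ | refine Fn.GF ‹_› ?_ | refine Fn.GS ‹_› ?_ | apply Df.isInj | apply Df.isCard | apply On.K1 | apply On.K2 | apply On.Gam | apply Fn.ran | apply Fn.zfst | apply Fn.zsnd | exact Fn.var _ | exact Fn.const ‹_› | exact On.const ‹_› | exact Df.prop _ | apply Df.and | apply Df.or | apply Df.not | apply Df.iff | apply Df.ex | apply Df.bex | apply Df.oex | apply Df.obex | apply Df.all | apply Df.ball | apply Df.oall | apply Df.oball | apply Df.imp | apply Df.mem | apply Df.eq | apply Df.oeq | apply Df.olt | apply Df.ole | apply Df.subset | apply Df.isOrdinal | apply Fn.pair | apply Fn.app | apply Fn.upair | apply Fn.single | apply Fn.insert | apply Fn.union | apply Fn.sUnion | apply Fn.prod | apply Fn.sep | apply Fn.img | apply Fn.ite | exact Fn.omega | exact Fn.empty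 | exact Fn.nat _ | apply On.fn | apply On.ro | apply On.succ | apply On.max | apply On.ite | apply On.mu | exact On.zero | exact On.one | exact On.omega | exact On.nat _) | exact On.ofNat _ | with_reducible (first | refine Fn.osub1 ‹_› ?_ | refine On.sub1 ‹_› ?_ | refine Df.osub1 ‹_› ?_ | refine On.zsub1 ‹_› ?_ | refine Fn.sub1 ‹_› ?_ | refine Df.sub1 ‹_› ?_ | refine Fn.sub2 ‹_› ?_ ?_ | refine Df.sub2 ‹_› ?_ ?_))))) (fun x y hx hy => by
      obtain ⟨a, ha, rfl⟩ := (hX x).1 hx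
      obtain ⟨b, hb, rfl⟩ := (hX y).1 hy
      rw [hl a ha b hb, hl b hb a ha]
      exact (lt_trichotomy a b).imp_right (Or.imp_left fun h => by rw [h])) (fun x y hx hy => by
      obtain ⟨a, ha, rfl⟩ := (hX x).1 hx
      obtain ⟨b, hb, rfl⟩ := (hX y).1 hy
      rw [hl a ha b hb, hl b hb a ha]
      exact lt_asymm) (fun Y _ hY ⟨y, hy⟩ => by
      obtain ⟨a, ha, rfl⟩ := (hX y).1 (hY hy)
      obtain ⟨c, ⟨hc, h3⟩, h4⟩ := wellFounded_lt.has_min
        {c : O | c < α ∧ (e c).toZFSet ∈ Y} ⟨a, ha, hy⟩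
      refine ⟨_, h3, fun y hy => ?_⟩
      obtain ⟨b, hb, rfl⟩ := (hX y).1 (hY hy)
      rw [hl b hb c hc]
      exact h4 b ⟨hb, hy⟩)
  choose! t t1 t2 using fun a (ha : a < δ) => (hX _).1 (a3 a ha)
  have t3 : ∀ a < δ, ∀ b < δ, (t a < t b ↔ a < b) := fun a ha b hb => by
    rw [← a5 a ha b hb, t2 a ha, t2 b hb, hl _ (t1 a ha) _ (t1 b hb)]
  have t4 : ∀ c < α, ∃ a < δ, t a = c := fun c hc => by
    obtain ⟨a, ha, h⟩ := a4 _ ((hX _).2 ⟨c, hc, rfl⟩)
    exact ⟨a, ha, e2 _ (t1 a ha) _ hc (toZ_inj.1 ((t2 a ha).symm.trans h))⟩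
  have t5 : ∀ a, a < δ → t a = a := by
    intro a
    induction a using WellFoundedLT.induction with
    | _ a ih =>
    intro ha
    rcases lt_trichotomy (t a) a with h | h | h
    · have h1 := (t3 _ (h.trans ha) a ha).2 h
      rw [ih _ h (h.trans ha)] at h1
      exact absurd h1 (lt_irrefl _)
    · exact h
    · obtain ⟨b, hb, e⟩ := t4 a (h.trans (t1 a ha))
      have h1 := (t3 b hb a ha).1 (e ▸ h)
      rw [ih b h1 hb] at e
      exact absurd e h1.ne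
  have t6 : α ≤ δ := le_of_forall_lt fun c hc => by
    obtain ⟨a, ha, e⟩ := t4 c hc
    rwa [← e, t5 a ha]
  have hαM := le_M t6 a1
  refine ⟨hαM, Le.set ⟨fun x => H (ro x), a2, fun x hx => ?_, fun x hx y hy h => ?_⟩ hαM⟩
  · obtain ⟨c, hc, rfl⟩ := mem_toZFSet_iff.1 hx
    simpa using (mem_sep.1 (a3 c (hc.trans_le t6))).1
  · obtain ⟨c, hc, rfl⟩ := mem_toZFSet_iff.1 hx
    obtain ⟨d, hd, rfl⟩ := mem_toZFSet_iff.1 hy
    have hc' := hc.trans_le t6
    have hd' := hd.trans_le t6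
    simp only [ro_toZ, t2 c hc', t2 d hd', t5 c hc', t5 d hd', toZ_inj] at h ⊢
    exact e2 c hc d hd h

theorem main (α : Z) (hα : α.IsOrdinal) (h0 : α ≠ ∅) (hc : ∃ f, IsInj f α ZFSet.omega) :
    ∃ V W : Set Z, CTM V ∧ CTM W ∧ GCH V ∧ GCH W ∧ V ⊆ W ∧
      (∀ x : Z, x.IsOrdinal → (x ∈ V ↔ x ∈ W)) ∧ α ∈ V ∧ CtbleIn V α ∧ CtbleIn W α ∧
      (∃ κ, IsAleph V α κ) ∧ (∃ κ, IsAleph W α κ) ∧
      ∃ φ : LF, Clo 0 φ ∧ cod φ ∈ V ∧ (∀ κ, IsAleph V α κ → ¬ Amalg V φ κ) ∧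
        ∀ κ, IsAleph W α κ → Amalg W φ κ := by
  classical
  obtain ⟨a, rfl⟩ : ∃ a : O, α = a.toZFSet := ⟨_, (toZ_ro hα).symm⟩
  obtain ⟨f, hf⟩ := hc
  obtain ⟨A, hA, hA'⟩ := exists_code hf
  obtain ⟨M, M', h1, h2, h3, h4, h5, c, h6, h7, h8⟩ := exists_cohen hA
  have i1 : Fact (ZFM M) := ⟨ZFM.of_ctm h1⟩
  have i2 : Fact (ZFM M') := ⟨ZFM.of_ctm h2⟩
  have h5' := h3 h5
  obtain ⟨B, hB⟩ : ∃ B : Z, B = ZFSet.sep (fun n => (K2 (ro n)).toZFSet ∈
    (if K1 (ro n) = 0 then A else c)) ZFSet.omega := ⟨_, rfl⟩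
  have b1 : B ⊆ ZFSet.omega := fun z hz => (mem_sep.1 (hB ▸ hz)).1
  have b2 : B ∈ M' := Fn.val (by rw [hB]; (repeat' (beta_reduce; (first | with_reducible (first | refine On.idx ‹_› ?_ | refine Fn.GF ‹_› ?_ | refine Fn.GS ‹_› ?_ | apply Df.isInj | apply Df.isCard | apply On.K1 | apply On.K2 | apply On.Gam | apply Fn.ran | apply Fn.zfst | apply Fn.zsnd | exact Fn.var _ | exact Fn.const ‹_› | exact On.const ‹_› | exact Df.prop _ | apply Df.and | apply Df.or | apply Df.not | apply Df.iff | apply Df.ex | apply Df.bex | apply Df.oex | apply Df.obex | apply Df.all | apply Df.ball | apply Df.oall | apply Df.oball | apply Df.imp | apply Df.mem | apply Df.eq | apply Df.oeq | apply Df.olt | apply Df.ole | apply Df.subset | apply Df.isOrdinal | apply Fn.pair | apply Fn.app | apply Fn.upair | apply Fn.single | apply Fn.insert | apply Fn.union | apply Fn.sUnion | apply Fn.prod | apply Fn.sep | apply Fn.img | apply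 Fn.ite | exact Fn.omega | exact Fn.empty | exact Fn.nat _ | apply On.fn | apply On.ro | apply On.succ | apply On.max | apply On.ite | apply On.mu | exact On.zero | exact On.one | exact On.omega | exact On.nat _) | exact On.ofNat _ | with_reducible (first | refine Fn.osub1 ‹_› ?_ | refine On.sub1 ‹_› ?_ | refine Df.osub1 ‹_› ?_ | refine On.zsub1 ‹_› ?_ | refine Fn.sub1 ‹_› ?_ | refine Df.sub1 ‹_› ?_ | refine Fn.sub2 ‹_› ?_ ?_ | refine Df.sub2 ‹_› ?_ ?_)))))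
  have i3 : Fact (ZFM (LL M A)) := ⟨zfm_LL h5⟩
  have i4 : Fact (ZFM (LL M' B)) := ⟨zfm_LL b2⟩
  have l1 := isL_LL (M := M) hA h5
  have l2 := isL_LL (M := M') b1 b2
  have b3 := l2.mem
  have dec : ∀ (ε : O) (X : Z), ε < ω → X ⊆ ZFSet.omega → X = (if ε = 0 then A else c) →
      X ∈ LL M' B := by
    intro ε X hε hX e
    have hε' : ε.toZFSet ∈ LL M' B := le_M hε.le oomega_M
    have h9 : ZFSet.sep (fun n => (Gam ε (ro n)).toZFSet ∈ B) ZFSet.omega ∈ LL M' B :=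
      Fn.val (by (repeat' (beta_reduce; (first | with_reducible (first | refine On.idx ‹_› ?_ | refine Fn.GF ‹_› ?_ | refine Fn.GS ‹_› ?_ | apply Df.isInj | apply Df.isCard | apply On.K1 | apply On.K2 | apply On.Gam | apply Fn.ran | apply Fn.zfst | apply Fn.zsnd | exact Fn.var _ | exact Fn.const ‹_› | exact On.const ‹_› | exact Df.prop _ | apply Df.and | apply Df.or | apply Df.not | apply Df.iff | apply Df.ex | apply Df.bex | apply Df.oex | apply Df.obex | apply Df.all | apply Df.ball | apply Df.oall | apply Df.oball | apply Df.imp | apply Df.mem | apply Df.eq | apply Df.oeq | apply Df.olt | apply Df.ole | apply Df.subset | apply Df.isOrdinal | apply Fn.pair | apply Fn.app | apply Fn.upair | apply Fn.single | apply Fn.insert | apply Fn.union | apply Fn.sUnion | apply Fn.prod | apply Fn.sep | apply Fn.img | apply Fn.ite | exact Fn.omega | exact Fn.empty | exact Fn.nat _ | apply On.fn | apply On.ro | apply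 On.succ | apply On.max | apply On.ite | apply On.mu | exact On.zero | exact On.one | exact On.omega | exact On.nat _) | exact On.ofNat _ | with_reducible (first | refine Fn.osub1 ‹_› ?_ | refine On.sub1 ‹_› ?_ | refine Df.osub1 ‹_› ?_ | refine On.zsub1 ‹_› ?_ | refine Fn.sub1 ‹_› ?_ | refine Df.sub1 ‹_› ?_ | refine Fn.sub2 ‹_› ?_ ?_ | refine Df.sub2 ‹_› ?_ ?_)))))
    convert h9 using 1
    ext z
    rw [mem_sep]
    have h10 : ∀ d < ω, ((Gam ε d).toZFSet ∈ B ↔ d.toZFSet ∈ X) := fun d hd => by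
      rw [hB, mem_sep, ro_toZ, K1_Gam, K2_Gam, ← e]
      exact and_iff_right (toZ_omega ▸ toZFSet_mem_toZFSet_iff.2 (Gam_omega hε hd))
    constructor
    · intro hz
      obtain ⟨d, hd, rfl⟩ := mem_toZFSet_iff.1 (toZ_omega ▸ hX hz)
      exact ⟨hX hz, by rw [ro_toZ]; exact (h10 d hd).2 hz⟩
    · rintro ⟨h11, h12⟩
      obtain ⟨d, hd, rfl⟩ := mem_toZFSet_iff.1 (toZ_omega ▸ h11)
      rw [ro_toZ] at h12
      exact (h10 d hd).1 h12
  have hAW : A ∈ LL M' B := dec 0 A omega0_pos hA (if_pos rfl).symm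
  have hcW : c ∈ LL M' B := dec 1 c one_lt_omega0 h7 (if_neg one_ne_zero).symm
  have sub : LL M A ⊆ LL M' B := by
    rintro _ ⟨o, ho, rfl⟩
    exact LL_sub hAW ⟨o, ord_LL b2 o (h3 ho), rfl⟩
  have hV := hA' _ i3.out l1.mem
  have hW := hA' _ i4.out hAW
  refine ⟨LL M A, LL M' B, l1.ctm (h1.countable.mono (LL_sub h5)),
    l2.ctm (h2.countable.mono (LL_sub b2)), l1.gch, l2.gch, sub, fun x hx => ⟨fun h => sub h,
      fun h => ?_⟩, hV.1, hV.2, hW.2, (l1.wo.aleph hV.1).elim fun _ h => ⟨_, h.1⟩,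
    (l2.wo.aleph hW.1).elim fun _ h => ⟨_, h.1⟩, phi A, clo_phi A, cod_phi l1.mem,
    fun κ hκ => ?_, fun κ hκ => ?_⟩
  · rw [← toZ_ro hx] at h ⊢
    exact ord_LL h5 _ ((h4 _ (isOrdinal_toZFSet _)).2 (LL_sub b2 h))
  · obtain ⟨k, rfl⟩ := hκ.1.1.exists
    obtain ⟨g, g1, -⟩ := hκ.2
    obtain ⟨β, hβ⟩ := (eq_empty_or_nonempty _).resolve_left h0
    obtain ⟨m, hm⟩ := (g1 β hβ).1.1.exists
    have g2 := g1 β hβ
    rw [hm] at g2
    exact not_amalg l1 (infCard_iff.1 hκ.1).1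
      ((infCard_iff.1 g2.1).2.trans_lt (toZFSet_mem_toZFSet_iff.1 g2.2))
  · obtain ⟨k, rfl⟩ := hκ.1.1.exists
    refine amalg_of hA hAW hcW h7 ?_ (infCard_iff.1 hκ.1).1 (infCard_iff.1 hκ.1).2
    rintro ⟨o, ho, e⟩
    exact h8 (LL_sub h5 ⟨o, (h4 _ (isOrdinal_toZFSet _)).2 (LL_sub b2 ho), e⟩)

end Pool.Agent.H30Z.LA
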