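import Pool.Agent.H30Z.LA.Df

/-! Ordinal valued definable functions, and recursion on ordinals. -/

namespace Pool.Agent.H30Z.LA

open CohenE ZFSet Ordinal

abbrev O := Ordinal.{0}

open Classical in
/-- the ordinal represented by a set -/
noncomputable def ro (x : Z) : O := if x.IsOrdinal then x.rank else 0

@[simp] theorem ro_toZ (a : O) : ro a.toZFSet = a := by
  rw [ro, if_pos (isOrdinal_toZFSet a), rank_toZFSet]

theorem toZ_ro {x : Z} (h : x.IsOrdinal) : (ro x).toZFSet = x := by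
  rw [ro, if_pos h, h.toZFSet_rank_eq]

theorem toZ_nat (n : ℕ) : (n : O).toZFSet = nat n := by
  induction n with
  | zero => simp [nat]
  | succ n ih => rw [Nat.cast_succ, toZFSet_add_one, ih]; rfl

theorem toZ_omega : (ω : O).toZFSet = ZFSet.omega := by
  ext z
  rw [mem_toZFSet_iff, Forc.mem_omega]
  constructor
  · rintro ⟨a, ha, rfl⟩
    obtain ⟨n, rfl⟩ := lt_omega0.1 ha
    exact ⟨n, toZ_nat n⟩
  · rintro ⟨n, rfl⟩
    exact ⟨n, natCast_lt_omega0 n, toZ_nat n⟩

theorem toZ_inj {a b : O} : a.toZFSet = b.toZFSet ↔ a = b := toZFSet_injective.eq_iff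

def On (M : Set Z) (s : (ℕ → Z) → O) : Prop := Fn M fun v => (s v).toZFSet

variable {M : Set Z} [hM : Fact (ZFM M)] {P Q : (ℕ → Z) → Prop} {s t : (ℕ → Z) → O}

theorem le_M {a b : O} (h : a ≤ b) (hb : b.toZFSet ∈ M) : a.toZFSet ∈ M := by
  rcases h.eq_or_lt with rfl | h
  · exact hb
  · exact tr hb (toZFSet_mem_toZFSet_iff.2 h)

theorem zero_M : (0 : O).toZFSet ∈ M := by rw [toZFSet_zero]; exact empty_M
theorem onat_M (n : ℕ) : (n : O).toZFSet ∈ M := by rw [toZ_nat]; exact nat_M n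
theorem oomega_M : (ω : O).toZFSet ∈ M := by rw [toZ_omega]; exact omega_M

omit hM in
theorem On.fn (h : On M s) : Fn M fun v => (s v).toZFSet := h

omit hM in
theorem On.const {c : O} (h : c.toZFSet ∈ M) : On M fun _ => c := Fn.const h

omit hM in
theorem On.w (h : On M s) : On M fun w => s fun i => w (i + 1) := Fn.w h

omit hM in
theorem On.congr (h : On M s) (h' : ∀ v, In M v → s v = t v) : On M t :=
  Fn.congr h fun v hv => by rw [h' v hv]

theorem On.ro {t : (ℕ → Z) → Z} (h : Fn M t) : On M fun v => ro (t v) := by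
  classical
  refine (Fn.ite (_i := fun _ => inferInstance) (Df.isOrdinal h) h Fn.empty).congr fun v _ => ?_
  split_ifs with h1
  · exact (toZ_ro h1).symm
  · simp only [LA.ro, if_neg h1, toZFSet_zero]

theorem ro_M {x : Z} (hx : x ∈ M) : (ro x).toZFSet ∈ M := (On.ro (Fn.const hx)).fn.val

theorem On.zero : On M fun _ => 0 := On.const zero_M
theorem On.nat (n : ℕ) : On M fun _ => (n : O) := On.const (onat_M n)
theorem On.one : On M fun _ => 1 := (On.nat 1).congr fun _ _ => Nat.cast_one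
theorem On.ofNat (n : ℕ) [n.AtLeastTwo] : On M fun _ => (OfNat.ofNat n : O) :=
  (On.nat (OfNat.ofNat n)).congr fun _ _ => Nat.cast_ofNat
theorem On.omega : On M fun _ => ω := On.const oomega_M

theorem On.succ (h : On M s) : On M fun v => s v + 1 :=
  (Fn.insert h h).congr fun _ _ => (toZFSet_add_one _).symm

theorem succ_M {a : O} (h : a.toZFSet ∈ M) : (a + 1).toZFSet ∈ M := (On.const h).succ.fn.val

omit hM in
theorem Df.olt (hs : On M s) (ht : On M t) : Df M fun v => s v < t v :=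
  (Df.mem hs ht).congr fun _ _ => toZFSet_mem_toZFSet_iff

omit hM in
theorem Df.oeq (hs : On M s) (ht : On M t) : Df M fun v => s v = t v :=
  (Df.eq hs ht).congr fun _ _ => toZ_inj

omit hM in
theorem Df.ole (hs : On M s) (ht : On M t) : Df M fun v => s v ≤ t v :=
  (Df.olt ht hs).not.congr fun _ _ => not_lt

omit hM in
theorem On.ite {_i : ∀ v, Decidable (P v)} (h : Df M P) (hs : On M s) (ht : On M t) :
    On M fun v => if P v then s v else t v :=
  (Fn.ite (_i := _i) h hs ht).congr fun v _ => by beta_reduce; split_ifs <;> rfl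

omit hM in
theorem On.max (hs : On M s) (ht : On M t) : On M fun v => max (s v) (t v) := by
  classical
  exact (On.ite (_i := fun _ => inferInstance) (Df.ole hs ht) ht hs).congr fun v _ => by rw [max_def]

theorem Df.oex {R : (ℕ → Z) → O → Prop} (h : Df M fun w => R (fun i => w (i + 1)) (ro (w 0))) :
    Df M fun v => ∃ c : O, c.toZFSet ∈ M ∧ R v c :=
  (Df.ex (R := fun v y => R v (ro y)) h).congr fun _ _ =>
    ⟨fun ⟨_, h1, h2⟩ => ⟨_, ro_M h1, h2⟩, fun ⟨c, h1, h2⟩ => ⟨_, h1, by rwa [ro_toZ]⟩⟩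

theorem Df.oall {R : (ℕ → Z) → O → Prop} (h : Df M fun w => R (fun i => w (i + 1)) (ro (w 0))) :
    Df M fun v => ∀ c : O, c.toZFSet ∈ M → R v c :=
  (Df.oex (R := fun v y => ¬ R v y) h.not).not.congr fun _ _ => by simp

theorem Df.obex {R : (ℕ → Z) → O → Prop} (hs : On M s)
    (h : Df M fun w => R (fun i => w (i + 1)) (ro (w 0))) :
    Df M fun v => ∃ c : O, c < s v ∧ R v c :=
  (Df.oex (R := fun v c => c < s v ∧ R v c) ((Df.olt (On.ro (Fn.var 0)) hs.w).and h)).congr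
    fun v hv => ⟨fun ⟨c, _, h⟩ => ⟨c, h⟩, fun ⟨c, h⟩ => ⟨c, le_M h.1.le (hs.1 v hv), h⟩⟩

theorem Df.oball {R : (ℕ → Z) → O → Prop} (hs : On M s)
    (h : Df M fun w => R (fun i => w (i + 1)) (ro (w 0))) :
    Df M fun v => ∀ c : O, c < s v → R v c :=
  (Df.obex (R := fun v y => ¬ R v y) hs h.not).not.congr fun _ _ => by simp

/-- least ordinal of `M` with a property -/
noncomputable def mu (M : Set Z) (R : O → Prop) : O := sInf {c | c.toZFSet ∈ M ∧ R c}

omit hM in
theorem mu_spec {R : O → Prop} (h : ∃ c : O, c.toZFSet ∈ M ∧ R c) :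
    (mu M R).toZFSet ∈ M ∧ R (mu M R) := csInf_mem (s := {c : O | c.toZFSet ∈ M ∧ R c}) h

omit hM in
theorem mu_le {R : O → Prop} {c : O} (h : c.toZFSet ∈ M) (h' : R c) : mu M R ≤ c :=
  csInf_le' (s := {c : O | c.toZFSet ∈ M ∧ R c}) ⟨h, h'⟩

theorem mu_M (R : O → Prop) : (mu M R).toZFSet ∈ M := by
  by_cases h : ∃ c : O, c.toZFSet ∈ M ∧ R c
  · exact (mu_spec h).1
  · have : {c : O | c.toZFSet ∈ M ∧ R c} = ∅ := Set.eq_empty_of_forall_notMem fun c hc => h ⟨c, hc⟩
    rw [mu, this, Ordinal.sInf_empty]; exact zero_M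

theorem On.mu {R : (ℕ → Z) → O → Prop} (h : Df M fun w => R (fun i => w (i + 1)) (LA.ro (w 0))) :
    On M fun v => mu M (R v) := by
  have h1 : Df M fun w => R (fun i => w (i + 1 + 1)) (LA.ro (w 0)) :=
    Df.skip (R := fun v y => R v (LA.ro y)) h
  refine Fn.of_mem (fun _ _ => mu_M _) (R := fun v z => z.IsOrdinal ∧
    (∃ d : O, d.toZFSet ∈ M ∧ R v d) ∧ ∀ d : O, d.toZFSet ∈ M → R v d → z ∈ d.toZFSet)
    ((Df.isOrdinal (Fn.var 0)).and ((Df.oex (R := fun w d => R (fun i => w (i + 1)) d) h1).and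
      (Df.oall (R := fun w d => R (fun i => w (i + 1)) d → w 0 ∈ d.toZFSet)
        (h1.imp (Df.mem (Fn.var 1) (On.ro (Fn.var 0))))))) fun v _ z => ?_
  constructor
  · intro hz
    obtain ⟨c, hc, rfl⟩ := mem_toZFSet_iff.1 hz
    refine ⟨isOrdinal_toZFSet c, ?_, fun d h2 h3 =>
      toZFSet_mem_toZFSet_iff.2 (hc.trans_le (mu_le h2 h3))⟩
    by_contra hh
    have : {c : O | c.toZFSet ∈ M ∧ R v c} = ∅ :=
      Set.eq_empty_of_forall_notMem fun c hc => hh ⟨c, hc⟩
    simp only [LA.mu, this, Ordinal.sInf_empty] at hc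
    exact absurd hc (by simp)
  · rintro ⟨-, h2, h3⟩
    exact h3 _ (mu_spec h2).1 (mu_spec h2).2

omit hM in
theorem On.sub1 {g : O → O} (h : On M fun w => g (LA.ro (w 0))) (hs : On M s) :
    On M fun v => g (s v) :=
  (Fn.sub1 (g := fun x => (g (LA.ro x)).toZFSet) h hs).congr fun _ _ => by simp

omit hM in
theorem Fn.osub1 {g : O → Z} (h : Fn M fun w => g (LA.ro (w 0))) (hs : On M s) :
    Fn M fun v => g (s v) :=
  (Fn.sub1 (g := fun x => g (LA.ro x)) h hs).congr fun _ _ => by simp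

omit hM in
theorem On.zsub1 {g : Z → O} {t : (ℕ → Z) → Z} (h : On M fun w => g (w 0)) (ht : Fn M t) :
    On M fun v => g (t v) :=
  Fn.sub1 (g := fun x => (g x).toZFSet) h ht

omit hM in
theorem Df.osub1 {R : O → Prop} (h : Df M fun w => R (LA.ro (w 0))) (hs : On M s) :
    Df M fun v => R (s v) :=
  (Df.sub1 (R := fun x => R (LA.ro x)) h hs).congr fun _ _ => by simp





/-! ### Recursion -/

/-- the graph of `H` below `a` -/
noncomputable def gr (H : O → Z) (a : O) : Z := img (fun x => pair x (H (ro x))) a.toZFSet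

omit hM in
theorem mem_gr {H : O → Z} {a : O} {z : Z} :
    z ∈ gr H a ↔ ∃ b, b < a ∧ z = pair b.toZFSet (H b) := by
  rw [gr, mem_img]
  constructor
  · rintro ⟨x, hx, rfl⟩
    obtain ⟨b, hb, rfl⟩ := mem_toZFSet_iff.1 hx
    exact ⟨b, hb, by rw [ro_toZ]⟩
  · rintro ⟨b, hb, rfl⟩
    exact ⟨_, toZFSet_mem_toZFSet_iff.2 hb, by rw [ro_toZ]⟩

omit hM in
theorem app_gr {H : O → Z} {a b : O} (h : b < a) : app (gr H a) b.toZFSet = H b := by
  refine app_eq (mem_gr.2 ⟨b, h, rfl⟩) fun y hy => ?_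
  obtain ⟨c, -, e⟩ := mem_gr.1 hy
  rw [pair_inj, toZ_inj] at e
  rw [e.2, e.1]

/-- recursion on ordinals -/
noncomputable def orec (Φ : O → Z → Z) : O → Z :=
  (wellFounded_lt (α := O)).fix fun a ih =>
    Φ a (ZFSet.range fun b : Set.Iio a => pair b.1.toZFSet (ih b.1 b.2))

omit hM in
theorem orec_eq (Φ : O → Z → Z) (a : O) : orec Φ a = Φ a (gr (orec Φ) a) := by
  rw [orec, WellFounded.fix_eq]
  congr 1
  ext z
  rw [mem_gr, mem_range]
  exact ⟨fun ⟨b, h⟩ => ⟨b.1, b.2, h.symm⟩, fun ⟨b, h1, h2⟩ => ⟨⟨b, h1⟩, h2.symm⟩⟩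

/-- approximations -/
def Apx (Φ : O → Z → Z) (f : Z) (a : O) : Prop :=
  f = img (fun x => pair x (Φ (ro x) (ZFSet.sep (fun p => ∃ y, y ∈ x ∧ p = pair y (app f y)) f)))
    a.toZFSet

omit hM in
theorem apx_iff (Φ : O → Z → Z) (f : Z) (a : O) : Apx Φ f a ↔ f = gr (orec Φ) a := by
  have key : ∀ f : Z, ∀ b ≤ a, (∀ c < b, pair c.toZFSet (orec Φ c) ∈ f ∧ app f c.toZFSet = orec Φ c) →
      ZFSet.sep (fun p => ∃ y, y ∈ b.toZFSet ∧ p = pair y (app f y)) f = gr (orec Φ) b := by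
    intro f b _ h
    ext p
    rw [mem_sep, mem_gr]
    constructor
    · rintro ⟨-, y, hy, rfl⟩
      obtain ⟨c, hc, rfl⟩ := mem_toZFSet_iff.1 hy
      exact ⟨c, hc, by rw [(h c hc).2]⟩
    · rintro ⟨c, hc, rfl⟩
      exact ⟨(h c hc).1, _, toZFSet_mem_toZFSet_iff.2 hc, by rw [(h c hc).2]⟩
  have fin : ∀ f : Z, (∀ c < a, pair c.toZFSet (orec Φ c) ∈ f ∧ app f c.toZFSet = orec Φ c) →
      img (fun x => pair x (Φ (ro x)
        (ZFSet.sep (fun p => ∃ y, y ∈ x ∧ p = pair y (app f y)) f))) a.toZFSet =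
        gr (orec Φ) a := by
    intro f h
    ext z
    rw [mem_img, mem_gr]
    constructor
    · rintro ⟨x, hx, rfl⟩
      obtain ⟨b, hb, rfl⟩ := mem_toZFSet_iff.1 hx
      refine ⟨b, hb, ?_⟩
      rw [key f b hb.le fun c hc => h c (hc.trans hb), ro_toZ, ← orec_eq Φ]
    · rintro ⟨b, hb, rfl⟩
      refine ⟨_, toZFSet_mem_toZFSet_iff.2 hb, ?_⟩
      rw [key f b hb.le fun c hc => h c (hc.trans hb), ro_toZ, ← orec_eq Φ]
  constructor
  · intro hf
    have h : ∀ c < a, pair c.toZFSet (orec Φ c) ∈ f ∧ app f c.toZFSet = orec Φ c := by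
      intro c
      induction c using WellFoundedLT.induction with
      | _ c ih =>
      intro hc
      have h1 := key f c hc.le fun d hd => ih d hd (hd.trans hc)
      have h2 : ∀ y, pair c.toZFSet y ∈ f ↔ y = orec Φ c := by
        intro y
        conv_lhs => rw [hf]
        rw [mem_img]
        constructor
        · rintro ⟨x, -, e⟩
          rw [pair_inj] at e
          obtain ⟨rfl, e⟩ := e
          rw [e, h1, ro_toZ, ← orec_eq Φ]
        · rintro rfl
          exact ⟨_, toZFSet_mem_toZFSet_iff.2 hc, by rw [h1, ro_toZ, ← orec_eq Φ]⟩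
      exact ⟨(h2 _).2 rfl, app_eq ((h2 _).2 rfl) fun y hy => (h2 y).1 hy⟩
    exact hf.trans (fin f h)
  · rintro rfl
    exact (fin _ fun c hc => ⟨mem_gr.2 ⟨c, hc, rfl⟩, app_gr hc⟩).symm

theorem Fn.orec0 {Φ : O → Z → Z} (h : Fn M fun w => Φ (ro (w 0)) (w 1)) :
    Fn M fun w => orec Φ (ro (w 0)) := by
  have h' : ∀ {s t : (ℕ → Z) → Z}, Fn M s → Fn M t → Fn M fun v => Φ (ro (s v)) (t v) :=
    fun hs ht => Fn.sub2 (g := fun x y => Φ (ro x) y) h hs ht
  have hA : Df M fun w => Apx Φ (w 0) (ro (w 1)) := by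
    unfold Apx
    refine Df.eq (Fn.var 0) (Fn.img (Fn.pair (Fn.var 0) (h' (Fn.var 0) ?_)) ?_) <;> (repeat' (beta_reduce; (first | with_reducible (first | exact Fn.var _ | exact Fn.const ‹_› | exact On.const ‹_› | exact Df.prop _ | apply Df.and | apply Df.or | apply Df.not | apply Df.iff | apply Df.ex | apply Df.bex | apply Df.oex | apply Df.obex | apply Df.all | apply Df.ball | apply Df.oall | apply Df.oball | apply Df.imp | apply Df.mem | apply Df.eq | apply Df.oeq | apply Df.olt | apply Df.ole | apply Df.subset | apply Df.isOrdinal | apply Fn.pair | apply Fn.app | apply Fn.upair | apply Fn.single | apply Fn.insert | apply Fn.union | apply Fn.sUnion | apply Fn.prod | apply Fn.sep | apply Fn.img | apply Fn.ite | exact Fn.omega | exact Fn.empty | exact Fn.nat _ | apply On.fn | apply On.ro | apply On.succ | apply On.max | apply On.ite | apply On.mu | exact On.zero | exact On.one | exact On.omega | exact On.nat _) | exact On.ofNat _ |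 with_reducible (first | refine Fn.osub1 ‹_› ?_ | refine On.sub1 ‹_› ?_ | refine Df.osub1 ‹_› ?_ | refine On.zsub1 ‹_› ?_ | refine Fn.sub1 ‹_› ?_ | refine Df.sub1 ‹_› ?_ | refine Fn.sub2 ‹_› ?_ ?_ | refine Df.sub2 ‹_› ?_ ?_))))
  have hR : Df M fun w => ∃ f, f ∈ M ∧ Apx Φ f (ro (w 0)) ∧ w 1 = Φ (ro (w 0)) f :=
    Df.ex ((Df.sub2 (R := fun f x => Apx Φ f (ro x)) hA (Fn.var 0) (Fn.var 1)).and
      (Df.eq (Fn.var 2) (h' (Fn.var 1) (Fn.var 0))))
  have h1 : ∀ a : O, a.toZFSet ∈ M → gr (orec Φ) a ∈ M → orec Φ a ∈ M := by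
    intro a ha hg
    have := h.1 (scons a.toZFSet fun _ => gr (orec Φ) a) (by rintro (_ | i); exacts [ha, hg])
    simp only [scons, ro_toZ] at this
    rwa [orec_eq]
  have h2 : ∀ a : O, a.toZFSet ∈ M → gr (orec Φ) a ∈ M := by
    intro a
    induction a using WellFoundedLT.induction with
    | _ a ih =>
    intro ha
    refine img_mem' (R := fun x z => ∃ y, y ∈ M ∧ z = ZFSet.pair x y ∧
      ∃ f, f ∈ M ∧ Apx Φ f (ro x) ∧ y = Φ (ro x) f) (Df.ex ((Df.eq (Fn.var 2)
        ((Fn.var 1).pair (Fn.var 0))).and (Df.sub2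
          (R := fun x y => ∃ f, f ∈ M ∧ Apx Φ f (ro x) ∧ y = Φ (ro x) f) hR (Fn.var 1)
          (Fn.var 0)))) ha fun x hx => ?_
    obtain ⟨b, hb, rfl⟩ := mem_toZFSet_iff.1 hx
    have h3 := ih b hb (tr ha hx)
    have h4 := h1 b (tr ha hx) h3
    simp only [ro_toZ, apx_iff]
    refine ⟨pair_M (tr ha hx) h4, fun y _ => ⟨?_, ?_⟩⟩
    · rintro ⟨_, -, rfl, _, -, rfl, rfl⟩
      rw [← orec_eq Φ]
    · rintro rfl
      exact ⟨_, h4, rfl, _, h3, rfl, orec_eq _ _⟩
  refine ⟨fun v hv => h1 _ (ro_M (hv 0)) (h2 _ (ro_M (hv 0))), ?_⟩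
  refine (Df.sub2 (R := fun x y => ∃ f, f ∈ M ∧ Apx Φ f (ro x) ∧ y = Φ (ro x) f) hR (Fn.var 1)
    (Fn.var 0)).congr fun w hw => ?_
  simp only [apx_iff]
  constructor
  · rintro ⟨_, -, rfl, e⟩
    rw [e, ← orec_eq Φ]
  · intro e
    exact ⟨_, h2 _ (ro_M (hw 1)), rfl, e.trans (orec_eq _ _)⟩

theorem Fn.gr {H : O → Z} (h : Fn M fun w => H (ro (w 0))) (hs : On M s) :
    Fn M fun v => gr H (s v) := by
  unfold LA.gr
  refine Fn.img ?_ hs
  (repeat' (beta_reduce; (first | with_reducible (first | exact Fn.var _ | exact Fn.const ‹_› | exact On.const ‹_› | exact Df.prop _ | apply Df.and | apply Df.or | apply Df.not | apply Df.iff | apply Df.ex | apply Df.bex | apply Df.oex | apply Df.obex | apply Df.all | apply Df.ball | apply Df.oall | apply Df.oball | apply Df.imp | apply Df.mem | apply Df.eq | apply Df.oeq | apply Df.olt | apply Df.ole | apply Df.subset | apply Df.isOrdinal | apply Fn.pair | apply Fn.app | apply Fn.upair | apply Fn.single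 | apply Fn.insert | apply Fn.union | apply Fn.sUnion | apply Fn.prod | apply Fn.sep | apply Fn.img | apply Fn.ite | exact Fn.omega | exact Fn.empty | exact Fn.nat _ | apply On.fn | apply On.ro | apply On.succ | apply On.max | apply On.ite | apply On.mu | exact On.zero | exact On.one | exact On.omega | exact On.nat _) | exact On.ofNat _ | with_reducible (first | refine Fn.osub1 ‹_› ?_ | refine On.sub1 ‹_› ?_ | refine Df.osub1 ‹_› ?_ | refine On.zsub1 ‹_› ?_ | refine Fn.sub1 ‹_› ?_ | refine Df.sub1 ‹_› ?_ | refine Fn.sub2 ‹_› ?_ ?_ | refine Df.sub2 ‹_› ?_ ?_))))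

/-- a set of ordinals in `M` is bounded in `M` -/
theorem exists_bound {X : Z} (hX : X ∈ M) : ∃ b : O, b.toZFSet ∈ M ∧ ∀ c : O, c.toZFSet ∈ X → c < b := by
  have h1 : ZFSet.sUnion (ZFSet.sep IsOrdinal X) ∈ M := Fn.val (by (repeat' (beta_reduce; (first | with_reducible (first | exact Fn.var _ | exact Fn.const ‹_› | exact On.const ‹_› | exact Df.prop _ | apply Df.and | apply Df.or | apply Df.not | apply Df.iff | apply Df.ex | apply Df.bex | apply Df.oex | apply Df.obex | apply Df.all | apply Df.ball | apply Df.oall | apply Df.oball | apply Df.imp | apply Df.mem | apply Df.eq | apply Df.oeq | apply Df.olt | apply Df.ole | apply Df.subset | apply Df.isOrdinal | apply Fn.pair | apply Fn.app | apply Fn.upair | apply Fn.single | apply Fn.insert | apply Fn.union | apply Fn.sUnion | apply Fn.prod | apply Fn.sep | apply Fn.img | apply Fn.ite | exact Fn.omega | exact Fn.empty | exact Fn.nat _ | apply On.fn | apply On.ro | apply On.succ | apply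 On.max | apply On.ite | apply On.mu | exact On.zero | exact On.one | exact On.omega | exact On.nat _) | exact On.ofNat _ | with_reducible (first | refine Fn.osub1 ‹_› ?_ | refine On.sub1 ‹_› ?_ | refine Df.osub1 ‹_› ?_ | refine On.zsub1 ‹_› ?_ | refine Fn.sub1 ‹_› ?_ | refine Df.sub1 ‹_› ?_ | refine Fn.sub2 ‹_› ?_ ?_ | refine Df.sub2 ‹_› ?_ ?_)))))
  have h2 : (ZFSet.sUnion (ZFSet.sep IsOrdinal X)).IsOrdinal := by
    rw [isOrdinal_iff_forall_mem_isOrdinal]
    refine ⟨IsTransitive.sUnion' fun y hy => (mem_sep.1 hy).2.isTransitive, fun y hy => ?_⟩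
    obtain ⟨x, hx, hy⟩ := mem_sUnion.1 hy
    exact (mem_sep.1 hx).2.mem hy
  refine ⟨ro _ + 1, succ_M (ro_M h1), fun c hc => ?_⟩
  rw [Order.lt_add_one_iff, ← toZFSet_subset_toZFSet_iff, toZ_ro h2]
  exact fun z hz => mem_sUnion.2 ⟨_, mem_sep.2 ⟨hc, isOrdinal_toZFSet c⟩, hz⟩

/-- collection for ordinal witnesses -/
theorem exists_bound' {R : Z → O → Prop} (h : Df M fun w => R (w 1) (ro (w 0))) {X : Z}
    (hX : X ∈ M) : ∃ b : O, b.toZFSet ∈ M ∧
      ∀ x ∈ X, (∃ c : O, c.toZFSet ∈ M ∧ R x c) → ∃ c < b, R x c := by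
  have h1 : On M fun w => mu M (R (w 0)) := On.mu (R := fun w c => R (w 0) c) h
  obtain ⟨b, hb, h2⟩ := exists_bound (img_mem (g := fun x => (mu M (R x)).toZFSet) h1 hX)
  exact ⟨b, hb, fun x hx hc => ⟨_, h2 _ (mem_img.2 ⟨x, hx, rfl⟩), (mu_spec hc).2⟩⟩

end Pool.Agent.H30Z.LA
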