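import Pool.Agent.H30Z.LA.Cond

/-! The sentence. -/

namespace Pool.Agent.H30Z.LA

open CohenE ZFSet Ordinal Forc AP

def LF.or (φ ψ : LF) : LF := .neg (.and (.neg φ) (.neg ψ))
def LF.imp (φ ψ : LF) : LF := .neg (.and φ (.neg ψ))
def LF.iff (φ ψ : LF) : LF := .and (φ.imp ψ) (ψ.imp φ)
def LF.disj (f : ℕ → LF) : LF := .neg (.conj fun n => .neg (f n))
def LF.exO (φ : LF) : LF := .ex (.and (.rel 3 0 0 0 0) φ)
def LF.allO (φ : LF) : LF := .neg (LF.exO (.neg φ))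

def St.r (S : St) (a b c : ℕ) (x y : Z) : Prop := pair (sym a b c) (pair x y) ∈ S.R
def St.o (S : St) (x : Z) : Prop := x ∈ S.A ∧ S.r 3 0 0 x x

section
variable {S : St} {v : ℕ → Z} {φ ψ : LF} {f : ℕ → LF}

theorem sat_eq {i j : ℕ} : LSat S v (.eq i j) ↔ v i = v j := Iff.rfl
theorem sat_rel {a b c i j : ℕ} : LSat S v (.rel a b c i j) ↔ S.r a b c (v i) (v j) := Iff.rfl
theorem sat_neg : LSat S v (.neg φ) ↔ ¬ LSat S v φ := Iff.rfl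
theorem sat_and : LSat S v (.and φ ψ) ↔ LSat S v φ ∧ LSat S v ψ := Iff.rfl
theorem sat_conj : LSat S v (.conj f) ↔ ∀ n, LSat S v (f n) := Iff.rfl
theorem sat_ex : LSat S v (.ex φ) ↔ ∃ a, a ∈ S.A ∧ LSat S (scons a v) φ := Iff.rfl
theorem sat_or : LSat S v (φ.or ψ) ↔ LSat S v φ ∨ LSat S v ψ := by
  simp only [LF.or, LSat]; tauto
theorem sat_imp : LSat S v (φ.imp ψ) ↔ (LSat S v φ → LSat S v ψ) := by
  simp only [LF.imp, LSat]; tauto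
theorem sat_iff' : LSat S v (φ.iff ψ) ↔ (LSat S v φ ↔ LSat S v ψ) := by
  simp only [LF.iff, LSat, sat_imp]; tauto
theorem sat_disj : LSat S v (.disj f) ↔ ∃ n, LSat S v (f n) := by
  simp [LF.disj, LSat]
theorem sat_exO : LSat S v φ.exO ↔ ∃ a, S.o a ∧ LSat S (scons a v) φ := by
  simp only [LF.exO, LSat, St.o, and_assoc]; rfl
theorem sat_allO : LSat S v φ.allO ↔ ∀ a, S.o a → LSat S (scons a v) φ := by
  simp [LF.allO, LSat, sat_exO]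
end

/-- translation of a formula of set theory, with quantifiers bounded by the variable `k` -/
def trl : (ℕ → ℕ) → ℕ → Fml → LF
  | ρ, _, .mem i j => .rel 3 4 0 (ρ i) (ρ j)
  | ρ, _, .eq i j => .rel 3 5 0 (ρ i) (ρ j)
  | ρ, k, .neg φ => .neg (trl ρ k φ)
  | ρ, k, .and φ ψ => .and (trl ρ k φ) (trl ρ k ψ)
  | ρ, k, .ex φ => LF.exO (.and (.rel 3 1 0 0 (k + 1)) (trl (CohenE.lift ρ) (k + 1) φ))

theorem sat_trl {S : St} (φ : Fml) : ∀ ρ k v, LSat S v (trl ρ k φ) ↔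
    SatX (S.r 3 4 0) (S.r 3 5 0) {c | S.o c ∧ S.r 3 1 0 c (v k)} (fun i => v (ρ i)) φ := by
  induction φ with
  | mem i j => exact fun _ _ _ => Iff.rfl
  | eq i j => exact fun _ _ _ => Iff.rfl
  | neg φ ih => exact fun ρ k v => not_congr (ih ρ k v)
  | and φ ψ ih ih' => exact fun ρ k v => and_congr (ih ρ k v) (ih' ρ k v)
  | ex φ ih =>
    intro ρ k v
    simp only [trl, sat_exO, sat_and, ih, scons_lift, SatX, ← and_assoc]
    rfl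

theorem clo_trl (φ : Fml) : ∀ ρ k n, (∀ i, ρ i < n) → k < n → Clo n (trl ρ k φ) := by
  induction φ with
  | mem i j => exact fun _ _ _ h _ => ⟨h i, h j⟩
  | eq i j => exact fun _ _ _ h _ => ⟨h i, h j⟩
  | neg φ ih => exact ih
  | and φ ψ ih ih' => exact fun ρ k n h h' => ⟨ih ρ k n h h', ih' ρ k n h h'⟩
  | ex φ ih =>
    refine fun ρ k n h h' => ⟨⟨by omega, by omega⟩, ⟨by omega, by omega⟩,
      ih _ _ _ (fun i => ?_) (by omega)⟩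
    cases i with
    | zero => exact Nat.succ_pos _
    | succ i => exact Nat.succ_lt_succ (h i)

def GLx {X : Type*} (lt : X → X → Prop) (b c b' c' : X) : Prop :=
  ((lt b b' ∨ lt b c') ∧ (lt c b' ∨ lt c c')) ∨
    (¬ ((lt b' b ∨ lt b' c) ∧ (lt c' b ∨ lt c' c)) ∧ (lt b b' ∨ (b = b' ∧ lt c c')))

theorem GL_iff {b c b' c' : O} : GLx (· < ·) b c b' c' ↔ GLt b c b' c' := by
  have h : ∀ b c b' c' : O, ((b < b' ∨ b < c') ∧ (c < b' ∨ c < c')) ↔ max b c < max b' c' := by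
    intro b c b' c'
    rw [max_lt_iff, lt_max_iff, lt_max_iff]
  unfold GLx GLt
  rw [h, h]
  rcases lt_trichotomy (max b c) (max b' c') with h1 | h1 | h1
  · simp only [h1, true_or]
  · simp only [h1, lt_irrefl, not_false_iff]
  · simp only [h1, h1.not_gt, h1.ne', not_true, false_and]

def lt (i j : ℕ) : LF := .rel 3 1 0 i j
def glF (b c b' c' : ℕ) : LF :=
  LF.or (.and ((lt b b').or (lt b c')) ((lt c b').or (lt c c')))
    (.and (.neg (.and ((lt b' b).or (lt b' c)) ((lt c' b).or (lt c' c))))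
      ((lt b b').or (.and (.eq b b') (lt c c'))))

open Classical in
noncomputable def apF (A : Z) (c : ℕ) : LF :=
  .disj fun n => if nat n ∈ A then .rel 2 n 0 c c else .neg (.eq c c)

/-- `b < a` and the code of `b` below `a` is in the column `j` of `x` -/
def inF (j a b x : ℕ) : LF := .and (lt b a) (.disj fun n => .and (.rel 1 n 0 a b) (.rel 0 j n x x))

def relF : LF := .ex (LF.allO (.neg (.conj fun i => .disj fun j => .conj fun t =>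
  LF.iff (.rel 0 i t 1 1) (.rel 0 j t 0 0))))

def ax1 : LF := LF.allO (LF.allO ((lt 1 0).or ((LF.eq 1 0).or (lt 0 1))))
def ax2 : LF := LF.allO (LF.allO ((lt 1 0).imp (.neg (lt 0 1))))
def ax3 : LF := LF.allO (LF.allO (LF.allO ((lt 2 1).imp ((lt 1 0).imp (lt 2 0)))))
def ax4 : LF := LF.allO (.and (LF.exO (.rel 3 2 0 1 0)) (LF.exO (.rel 3 3 0 1 0)))
def ax5 : LF := LF.allO (LF.allO (LF.allO (.and
  ((LF.rel 3 2 0 2 1).imp ((LF.rel 3 2 0 2 0).imp (.eq 1 0)))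
  ((LF.rel 3 3 0 2 1).imp ((LF.rel 3 3 0 2 0).imp (.eq 1 0))))))
def ax6 : LF := LF.allO (LF.allO (LF.allO (LF.allO (LF.allO (LF.allO ((lt 5 4).imp
  ((LF.rel 3 2 0 5 3).imp ((LF.rel 3 3 0 5 2).imp ((LF.rel 3 2 0 4 1).imp
    ((LF.rel 3 3 0 4 0).imp (glF 3 2 1 0)))))))))))
def ax7 : LF := LF.allO (LF.allO (LF.exO (.and (.rel 3 2 0 0 2) (.rel 3 3 0 0 1))))
def ax8 : LF := LF.allO (LF.allO ((LF.rel 3 5 0 1 0).iff
  (LF.allO ((LF.rel 3 4 0 0 2).iff (.rel 3 4 0 0 1)))))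
def ax9 : LF := LF.allO (LF.allO ((LF.rel 3 4 0 0 1).imp
  (LF.exO (.and (lt 0 2) (.and (.rel 3 5 0 1 0) (.rel 3 4 0 0 2))))))
def ax10 : LF := LF.allO (LF.allO (LF.allO ((LF.rel 3 5 0 1 0).imp
  ((LF.rel 3 4 0 0 2).imp (.rel 3 4 0 1 2)))))
noncomputable def ax11 (A : Z) : LF :=
  LF.allO (LF.allO (LF.allO (LF.allO (LF.allO (LF.allO (LF.allO ((lt 5 6).imp
  ((LF.rel 3 2 0 6 4).imp ((LF.rel 3 3 0 6 3).imp ((LF.rel 3 2 0 4 2).imp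
    ((LF.rel 3 3 0 4 1).imp ((LF.rel 3 2 0 3 0).imp ((LF.rel 3 4 0 5 6).iff
      (.and (lt 2 6) (.and (lt 1 6) (.and (lt 0 6) ((trl (env4 5 2 1 0) 6 th0).or
        (.and (trl (env4 5 2 1 0) 6 th1) (apF A 5)))))))))))))))))))
def ax12 : LF := LF.allO ((LF.rel 2 0 0 0 0).iff (.neg (LF.exO (.rel 3 4 0 0 1))))
def ax13 : LF := .conj fun n => LF.allO ((LF.rel 2 (n + 1) 0 0 0).iff (LF.exO
  (.and (.rel 2 n 0 0 0) (LF.allO ((LF.rel 3 4 0 0 2).iff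
    ((LF.rel 3 4 0 0 1).or (.rel 3 5 0 0 1)))))))
def ax14 : LF := LF.allO (LF.allO ((lt 0 1).imp (.disj fun n => .rel 1 n 0 1 0)))
def ax15 : LF := .conj fun n => LF.allO (LF.allO (LF.allO
  ((LF.rel 1 n 0 2 1).imp ((LF.rel 1 n 0 2 0).imp (.eq 1 0)))))
def ax16 : LF := .conj fun j => LF.allO (LF.allO ((LF.exO (inF j 2 0 1)).imp
  (LF.exO (.and (inF j 2 0 1) (LF.allO ((inF j 3 0 2).imp (.neg (lt 0 1))))))))
def ax17 : LF := .conj fun i => LF.allO (LF.exO (.conj fun t => (LF.rel 0 i t 1 1).iff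
  (LF.exO (.and (.rel 2 t 0 0 0) (.rel 3 4 0 0 1)))))
def rbF : LF := .neg (.and (.ex (.rel 3 6 0 0 0)) (.ex (.rel 3 7 0 0 0)))

noncomputable def softF (A : Z) : LF :=
  .and ax1 (.and ax2 (.and ax3 (.and ax4 (.and ax5 (.and ax6 (.and ax7 (.and ax8 (.and ax9
    (.and ax10 (.and (ax11 A) (.and ax12 (.and ax13 (.and ax14 (.and ax15 (.and ax16 ax17)))))))))))))))

/-- the sentence -/
noncomputable def phi (A : Z) : LF := relF.or (.and (softF A) rbF)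

theorem clo_phi (A : Z) : Clo 0 (phi A) := by
  classical
  have h : ∀ i, env4 5 2 1 0 i < 7 := by
    rintro (_ | _ | _ | i) <;> simp [env4, scons]
  have h1 : ∀ n, Clo 7 (if nat n ∈ A then LF.rel 2 n 0 5 5 else .neg (.eq 5 5)) := by
    intro n; split_ifs <;> simp [Clo]
  simp [phi, relF, softF, rbF, ax1, ax2, ax3, ax4, ax5, ax6, ax7, ax8, ax9, ax10, ax11, ax12, ax13,
    ax14, ax15, ax16, ax17, LF.or, LF.imp, LF.iff, LF.disj, LF.exO, LF.allO, lt, glF, inF, apF, Clo,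
    clo_trl _ _ 6 7 h, h1]

def St.Rel (S : St) : Prop :=
  ∃ y ∈ S.A, ∀ x, S.o x → ¬ ∀ i, ∃ j, ∀ t, (S.r 0 i t y y ↔ S.r 0 j t x x)

def St.inn (S : St) (j : ℕ) (a b x : Z) : Prop :=
  S.r 3 1 0 b a ∧ ∃ n, S.r 1 n 0 a b ∧ S.r 0 j n x x

structure St.Soft (S : St) (A : Z) : Prop where
  a1 : ∀ a, S.o a → ∀ b, S.o b → S.r 3 1 0 a b ∨ a = b ∨ S.r 3 1 0 b a
  a2 : ∀ a, S.o a → ∀ b, S.o b → S.r 3 1 0 a b → ¬ S.r 3 1 0 b a
  a3 : ∀ a, S.o a → ∀ b, S.o b → ∀ c, S.o c → S.r 3 1 0 a b → S.r 3 1 0 b c → S.r 3 1 0 a c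
  a4 : ∀ a, S.o a → (∃ b, S.o b ∧ S.r 3 2 0 a b) ∧ ∃ b, S.o b ∧ S.r 3 3 0 a b
  a5 : ∀ a, S.o a → ∀ b, S.o b → ∀ c, S.o c → (S.r 3 2 0 a b → S.r 3 2 0 a c → b = c) ∧
    (S.r 3 3 0 a b → S.r 3 3 0 a c → b = c)
  a6 : ∀ a, S.o a → ∀ a', S.o a' → ∀ b, S.o b → ∀ c, S.o c → ∀ b', S.o b' → ∀ c', S.o c' →
    S.r 3 1 0 a a' → S.r 3 2 0 a b → S.r 3 3 0 a c → S.r 3 2 0 a' b' → S.r 3 3 0 a' c' →
      GLx (S.r 3 1 0) b c b' c'
  a7 : ∀ b, S.o b → ∀ c, S.o c → ∃ a, S.o a ∧ S.r 3 2 0 a b ∧ S.r 3 3 0 a c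
  a8 : ∀ a, S.o a → ∀ b, S.o b → (S.r 3 5 0 a b ↔ ∀ c, S.o c → (S.r 3 4 0 c a ↔ S.r 3 4 0 c b))
  a9 : ∀ a, S.o a → ∀ c, S.o c → S.r 3 4 0 c a →
    ∃ c', S.o c' ∧ S.r 3 1 0 c' a ∧ S.r 3 5 0 c c' ∧ S.r 3 4 0 c' a
  a10 : ∀ a, S.o a → ∀ c, S.o c → ∀ c', S.o c' → S.r 3 5 0 c c' → S.r 3 4 0 c' a → S.r 3 4 0 c a
  a11 : ∀ a, S.o a → ∀ c, S.o c → ∀ u, S.o u → ∀ u', S.o u' → ∀ x, S.o x → ∀ y, S.o y →
    ∀ w, S.o w → S.r 3 1 0 c a → S.r 3 2 0 a u → S.r 3 3 0 a u' → S.r 3 2 0 u x → S.r 3 3 0 u y →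
      S.r 3 2 0 u' w → (S.r 3 4 0 c a ↔ S.r 3 1 0 x a ∧ S.r 3 1 0 y a ∧ S.r 3 1 0 w a ∧
        (SatX (S.r 3 4 0) (S.r 3 5 0) {c | S.o c ∧ S.r 3 1 0 c a} (env4 c x y w) th0 ∨
          (SatX (S.r 3 4 0) (S.r 3 5 0) {c | S.o c ∧ S.r 3 1 0 c a} (env4 c x y w) th1 ∧
            ∃ n, nat n ∈ A ∧ S.r 2 n 0 c c)))
  a12 : ∀ c, S.o c → (S.r 2 0 0 c c ↔ ¬ ∃ d, S.o d ∧ S.r 3 4 0 d c)
  a13 : ∀ n c, S.o c → (S.r 2 (n + 1) 0 c c ↔ ∃ b, S.o b ∧ S.r 2 n 0 b b ∧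
    ∀ d, S.o d → (S.r 3 4 0 d c ↔ S.r 3 4 0 d b ∨ S.r 3 5 0 d b))
  a14 : ∀ a, S.o a → ∀ b, S.o b → S.r 3 1 0 b a → ∃ n, S.r 1 n 0 a b
  a15 : ∀ n a, S.o a → ∀ b, S.o b → ∀ c, S.o c → S.r 1 n 0 a b → S.r 1 n 0 a c → b = c
  a16 : ∀ j a, S.o a → ∀ x, S.o x → (∃ b, S.o b ∧ S.inn j a b x) →
    ∃ b, S.o b ∧ S.inn j a b x ∧ ∀ b', S.o b' → S.inn j a b' x → ¬ S.r 3 1 0 b' b
  a17 : ∀ i x, S.o x → ∃ a, S.o a ∧ ∀ t, (S.r 0 i t x x ↔ ∃ c, S.o c ∧ S.r 2 t 0 c c ∧ S.r 3 4 0 c a)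

theorem sat_apF {S : St} {v : ℕ → Z} {A : Z} {c : ℕ} :
    LSat S v (apF A c) ↔ ∃ n, nat n ∈ A ∧ S.r 2 n 0 (v c) (v c) := by
  rw [apF, sat_disj]
  refine exists_congr fun n => ?_
  split_ifs with h <;> simp [h, sat_rel, sat_neg, sat_eq]

theorem sat_trl4 {S : St} {φ : Fml} {i j k l m : ℕ} {v : ℕ → Z} :
    LSat S v (trl (env4 i j k l) m φ) ↔ SatX (S.r 3 4 0) (S.r 3 5 0)
      {c | S.o c ∧ S.r 3 1 0 c (v m)} (env4 (v i) (v j) (v k) (v l)) φ := by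
  rw [sat_trl, map_env4]

theorem sat_softF {S : St} {v : ℕ → Z} {A : Z} : LSat S v (softF A) ↔ S.Soft A := by
  simp only [softF, ax1, ax2, ax3, ax4, ax5, ax6, ax7, ax8, ax9, ax10, ax11, ax12, ax13,
    ax14, ax15, ax16, ax17, lt, glF, inF, sat_eq, sat_rel, sat_neg, sat_and, sat_conj, sat_or,
    sat_imp, sat_iff', sat_disj, sat_exO, sat_allO, sat_apF, sat_trl4, scons]
  exact ⟨fun ⟨h1, h2, h3, h4, h5, h6, h7, h8, h9, h10, h11, h12, h13, h14, h15, h16, h17⟩ =>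
    ⟨h1, h2, h3, h4, h5, h6, h7, h8, h9, h10, h11, h12, h13, h14, h15, h16, h17⟩,
    fun ⟨h1, h2, h3, h4, h5, h6, h7, h8, h9, h10, h11, h12, h13, h14, h15, h16, h17⟩ =>
    ⟨h1, h2, h3, h4, h5, h6, h7, h8, h9, h10, h11, h12, h13, h14, h15, h16, h17⟩⟩

theorem sat_phi {S : St} {v : ℕ → Z} {A : Z} : LSat S v (phi A) ↔ S.Rel ∨ (S.Soft A ∧
    ¬ ((∃ x, x ∈ S.A ∧ S.r 3 6 0 x x) ∧ ∃ x, x ∈ S.A ∧ S.r 3 7 0 x x)) := by
  simp only [phi, relF, rbF, sat_softF, sat_rel, sat_neg, sat_and, sat_conj, sat_or, sat_ex,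
    sat_iff', sat_disj, sat_allO, scons]
  rfl

/-! ### The code of the sentence -/

def NF (M : Set Z) (a : (ℕ → ℕ) → ℕ) : Prop :=
  ∃ t, Fn M t ∧ ∀ n : ℕ → ℕ, t (fun i => nat (n i)) = nat (a n)

def CF (M : Set Z) (φ : (ℕ → ℕ) → LF) : Prop :=
  ∃ t, Fn M t ∧ ∀ n : ℕ → ℕ, t (fun i => nat (n i)) = cod (φ n)

variable {M : Set Z} [hM : Fact (ZFM M)] {φ ψ : (ℕ → ℕ) → LF}

theorem NF.const (k : ℕ) : NF M fun _ => k := ⟨_, Fn.nat k, fun _ => rfl⟩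
omit hM in
theorem NF.var (i : ℕ) : NF M fun n => n i := ⟨_, Fn.var i, fun _ => rfl⟩
theorem NF.succ {a : (ℕ → ℕ) → ℕ} (h : NF M a) : NF M fun n => a n + 1 := by
  obtain ⟨t, h1, h2⟩ := h
  exact ⟨_, h1.insert h1, fun n => by simp only [h2]; rfl⟩

theorem CF.eq (i j : ℕ) : CF M fun _ => .eq i j :=
  ⟨_, (Fn.nat 0).pair ((Fn.nat i).pair (Fn.nat j)), fun _ => rfl⟩

theorem CF.rel (a : ℕ) {b c : (ℕ → ℕ) → ℕ} (hb : NF M b) (hc : NF M c) (i j : ℕ) :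
    CF M fun n => .rel a (b n) (c n) i j := by
  obtain ⟨s, h1, h2⟩ := hb
  obtain ⟨t, h3, h4⟩ := hc
  exact ⟨_, (Fn.nat 1).pair (((Fn.nat a).pair (h1.pair h3)).pair ((Fn.nat i).pair (Fn.nat j))),
    fun n => by simp only [h2, h4]; rfl⟩

theorem CF.neg (h : CF M φ) : CF M fun n => .neg (φ n) := by
  obtain ⟨t, h1, h2⟩ := h
  exact ⟨_, (Fn.nat 2).pair h1, fun n => by simp only [h2]; rfl⟩

theorem CF.ex (h : CF M φ) : CF M fun n => .ex (φ n) := by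
  obtain ⟨t, h1, h2⟩ := h
  exact ⟨_, (Fn.nat 5).pair h1, fun n => by simp only [h2]; rfl⟩

theorem CF.and (h : CF M φ) (h' : CF M ψ) : CF M fun n => .and (φ n) (ψ n) := by
  obtain ⟨t, h1, h2⟩ := h
  obtain ⟨s, h3, h4⟩ := h'
  exact ⟨_, (Fn.nat 3).pair (h1.pair h3), fun n => by simp only [h2, h4]; rfl⟩

theorem CF.conj {f : (ℕ → ℕ) → ℕ → LF} (h : CF M fun w => f (fun i => w (i + 1)) (w 0)) :
    CF M fun n => .conj (f n) := by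
  obtain ⟨t, h1, h2⟩ := h
  refine ⟨_, (Fn.nat 4).pair (Fn.img (g := fun v x => pair x (t (scons x v)))
    ((Fn.var 0).pair (h1.congr fun w _ => congrArg t (funext fun i => by cases i <;> rfl)))
    Fn.omega), fun n => ?_⟩
  simp only [cod, pair_inj, true_and]
  have e : ∀ k, t (scons (nat k) fun i => nat (n i)) = cod (f n k) := fun k => by
    rw [← map_scons nat k n, h2]; rfl
  ext z
  rw [mem_img, mem_range]
  constructor
  · rintro ⟨x, hx, rfl⟩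
    obtain ⟨k, rfl⟩ := mem_omega.1 hx
    exact ⟨k, by rw [e]⟩
  · rintro ⟨k, rfl⟩
    exact ⟨_, nat_mem_omega k, by rw [e]⟩

omit hM in
theorem CF.ite {A : Z} (hA : A ∈ M) {a : (ℕ → ℕ) → ℕ} {_i : ∀ n, Decidable (nat (a n) ∈ A)}
    (ha : NF M a) (h : CF M φ) (h' : CF M ψ) :
    CF M fun n => if nat (a n) ∈ A then φ n else ψ n := by
  classical
  obtain ⟨r, h0, h0'⟩ := ha
  obtain ⟨t, h1, h2⟩ := h
  obtain ⟨s, h3, h4⟩ := h'
  refine ⟨_, Fn.ite (_i := fun _ => inferInstance) (Df.mem h0 (Fn.const hA)) h1 h3, fun n => ?_⟩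
  simp only [h0', h2, h4]
  split_ifs <;> rfl

theorem CF.trl (θ : Fml) : ∀ ρ k, CF M fun _ => trl ρ k θ := by
  induction θ with
  | mem i j => exact fun _ _ => CF.rel 3 (NF.const 4) (NF.const 0) _ _
  | eq i j => exact fun _ _ => CF.rel 3 (NF.const 5) (NF.const 0) _ _
  | neg φ ih => exact fun ρ k => (ih ρ k).neg
  | and φ ψ ih ih' => exact fun ρ k => (ih ρ k).and (ih' ρ k)
  | ex φ ih =>
    exact fun ρ k => ((CF.rel 3 (NF.const 0) (NF.const 0) _ _).and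
      ((CF.rel 3 (NF.const 1) (NF.const 0) _ _).and (ih _ _))).ex

theorem cod_phi {A : Z} (hA : A ∈ M) : cod (phi A) ∈ M := by
  have h : CF M fun _ => phi A := by
    simp only [phi, relF, softF, rbF, ax1, ax2, ax3, ax4, ax5, ax6, ax7, ax8, ax9, ax10, ax11, ax12,
      ax13, ax14, ax15, ax16, ax17, LF.or, LF.imp, LF.iff, LF.disj, LF.exO, LF.allO, lt, glF, inF,
      apF]
    repeat' (beta_reduce; first
      | with_reducible exact NF.var _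
      | with_reducible exact NF.const _
      | with_reducible apply NF.succ
      | with_reducible apply CF.neg
      | with_reducible apply CF.and
      | with_reducible apply CF.ex
      | with_reducible apply CF.conj
      | with_reducible apply CF.rel
      | with_reducible exact CF.eq _ _
      | with_reducible exact CF.trl _ _ _
      | with_reducible apply CF.ite hA)
  obtain ⟨t, h1, h2⟩ := h
  rw [← h2 fun _ => 0]
  exact h1.1 _ fun _ => nat_M 0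

end Pool.Agent.H30Z.LA
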