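import Pool.Agent.H30Z.LA.Phi

/-! If some real is not constructible from `A`, every model of the sentence omits a real. -/

namespace Pool.Agent.H30Z.LA

open CohenE ZFSet Ordinal Forc AP

variable {M : Set Z} [hM : Fact (ZFM M)] {A : Z} {S : St}

theorem soft_wf (hA : A ⊆ ZFSet.omega) (h : S.Soft A) {δ : O} {H : O → Z}
    (h1 : ∀ a < δ, S.o (H a)) (h2 : ∀ x, S.o x → ∃ a < δ, H a = x)
    (h3 : ∀ a < δ, ∀ b < δ, (S.r 3 1 0 (H a) (H b) ↔ a < b)) (j : ℕ) {x : Z} (hx : S.o x) :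
    ∃ a < δ, ∀ t, (S.r 0 j t x x ↔ nat t ∈ GF A a) := by
  have inj : ∀ a < δ, ∀ b < δ, H a = H b → a = b := by
    intro a ha b hb e
    rcases lt_trichotomy a b with h4 | h4 | h4
    · have := (h3 a ha b hb).2 h4
      rw [e] at this
      exact absurd ((h3 b hb b hb).1 this) (lt_irrefl _)
    · exact h4
    · have := (h3 b hb a ha).2 h4
      rw [e] at this
      exact absurd ((h3 b hb b hb).1 this) (lt_irrefl _)
  have ex1 : ∀ a < δ, ∃ b < δ, S.r 3 2 0 (H a) (H b) := fun a ha => by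
    obtain ⟨b, hb, h4⟩ := (h.a4 _ (h1 a ha)).1
    obtain ⟨c, hc, rfl⟩ := h2 b hb
    exact ⟨c, hc, h4⟩
  have ex2 : ∀ a < δ, ∃ b < δ, S.r 3 3 0 (H a) (H b) := fun a ha => by
    obtain ⟨b, hb, h4⟩ := (h.a4 _ (h1 a ha)).2
    obtain ⟨c, hc, rfl⟩ := h2 b hb
    exact ⟨c, hc, h4⟩
  choose! P1 l1 k1 using ex1
  choose! P2 l2 k2 using ex2
  have gl : ∀ b < δ, ∀ c < δ, ∀ b' < δ, ∀ c' < δ,
      GLx (S.r 3 1 0) (H b) (H c) (H b') (H c') → GLt b c b' c' := by
    intro b hb c hc b' hb' c' hc' h4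
    rw [← GL_iff]
    unfold GLx at h4 ⊢
    rw [h3 b hb b' hb', h3 b hb c' hc', h3 c hc b' hb', h3 c hc c' hc', h3 b' hb' b hb,
      h3 b' hb' c hc, h3 c' hc' b hb, h3 c' hc' c hc] at h4
    exact h4.imp_right fun h5 => ⟨h5.1, h5.2.imp_right fun h6 => ⟨inj b hb b' hb' h6.1, h6.2⟩⟩
  have hC : Code δ (fun a b => S.r 3 4 0 (H a) (H b)) (fun a b => S.r 3 5 0 (H a) (H b)) P1 P2
      (fun c => ∃ n, nat n ∈ A ∧ S.r 2 n 0 (H c) (H c)) := by
    refine ⟨fun a ha => ⟨l1 a ha, l2 a ha⟩, fun a ha b hb hab => ?_, fun a _ b hb c hc _ => ?_,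
      fun a ha b hb => ?_, fun a ha c hc h4 => ?_,
      fun a ha c hc c' hc' => h.a10 _ (h1 a ha) _ (h1 c hc) _ (h1 c' hc'), fun a ha c hc => ?_⟩
    · exact gl _ (l1 a ha) _ (l2 a ha) _ (l1 b hb) _ (l2 b hb) (h.a6 _ (h1 a ha) _ (h1 b hb)
        _ (h1 _ (l1 a ha)) _ (h1 _ (l2 a ha)) _ (h1 _ (l1 b hb)) _ (h1 _ (l2 b hb))
        ((h3 a ha b hb).2 hab) (k1 a ha) (k2 a ha) (k1 b hb) (k2 b hb))
    · obtain ⟨y, hy, h4, h5⟩ := h.a7 _ (h1 b hb) _ (h1 c hc)
      obtain ⟨a', ha', rfl⟩ := h2 y hy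
      exact ⟨a', ha', inj _ (l1 a' ha') _ hb ((h.a5 _ hy _ (h1 _ (l1 a' ha')) _ (h1 b hb)).1
        (k1 a' ha') h4), inj _ (l2 a' ha') _ hc ((h.a5 _ hy _ (h1 _ (l2 a' ha')) _ (h1 c hc)).2
        (k2 a' ha') h5)⟩
    · rw [h.a8 _ (h1 a ha) _ (h1 b hb)]
      refine ⟨fun h4 c hc => h4 _ (h1 c hc), fun h4 y hy => ?_⟩
      obtain ⟨c, hc, rfl⟩ := h2 y hy
      exact h4 c hc
    · obtain ⟨y, hy, h5, h6⟩ := h.a9 _ (h1 a ha) _ (h1 c hc) h4
      obtain ⟨c', hc', rfl⟩ := h2 y hy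
      exact ⟨c', (h3 c' hc' a ha).1 h5, h6⟩
    · have m := fun θ => satX_map (E := fun a b => S.r 3 4 0 (H a) (H b))
        (Q := fun a b => S.r 3 5 0 (H a) (H b)) (E' := S.r 3 4 0) (Q' := S.r 3 5 0) H
        (T := Set.univ) (D := Set.Iio a) (D' := {c | S.o c ∧ S.r 3 1 0 c (H a)})
        (Set.subset_univ _) (fun y => ⟨fun hy => by
          obtain ⟨b, hb, rfl⟩ := h2 y hy.1
          exact ⟨b, (h3 b hb a ha).1 hy.2, rfl⟩, by
          rintro ⟨b, hb, rfl⟩
          exact ⟨h1 b (hb.trans ha), (h3 b (hb.trans ha) a ha).2 hb⟩⟩)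
        (fun _ _ _ _ => Iff.rfl) (fun _ _ _ _ => Iff.rfl) θ
        (env4 c (P1 (P1 a)) (P2 (P1 a)) (P1 (P2 a))) fun _ => trivial
      rw [m, m, map_env4, ← h3 _ (l1 _ (l1 a ha)) a ha, ← h3 _ (l2 _ (l1 a ha)) a ha,
        ← h3 _ (l1 _ (l2 a ha)) a ha]
      exact h.a11 _ (h1 a ha) _ (h1 c (hc.trans ha)) _ (h1 _ (l1 a ha)) _ (h1 _ (l2 a ha))
        _ (h1 _ (l1 _ (l1 a ha))) _ (h1 _ (l2 _ (l1 a ha))) _ (h1 _ (l1 _ (l2 a ha)))
        ((h3 c (hc.trans ha) a ha).2 hc) (k1 a ha) (k2 a ha) (k1 _ (l1 a ha)) (k2 _ (l1 a ha))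
        (k1 _ (l2 a ha))
  have hN : ∀ n, ∀ c < δ, (S.r 2 n 0 (H c) (H c) ↔
      cpi (fun a b => S.r 3 4 0 (H a) (H b)) c = nat n) := by
    intro n
    induction n with
    | zero =>
      intro c hc
      rw [h.a12 _ (h1 c hc), nat, eq_empty]
      constructor
      · intro h4 y hy
        obtain ⟨d, hd, h5, -⟩ := mem_cpi.1 hy
        exact h4 ⟨_, h1 d (hd.trans hc), h5⟩
      · rintro h4 ⟨y, hy, h5⟩
        obtain ⟨d, hd, rfl⟩ := h2 y hy
        exact h4 _ ((hC.pi_mem hd hc).1 h5)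
    | succ n ih =>
      intro c hc
      rw [h.a13 n _ (h1 c hc), nat]
      constructor
      · rintro ⟨y, hy, h4, h5⟩
        obtain ⟨b, hb, rfl⟩ := h2 y hy
        have h6 := (ih b hb).1 h4
        ext z
        rw [mem_insert_iff, ← h6]
        constructor
        · intro hz
          obtain ⟨d, hd, h7, rfl⟩ := mem_cpi.1 hz
          exact (((h5 _ (h1 d (hd.trans hc))).1 h7).imp (hC.pi_mem (hd.trans hc) hb).1
            (hC.pi_eq d (hd.trans hc) b hb).1).symm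
        · rintro (rfl | hz)
          · exact (hC.pi_mem hb hc).1 ((h5 _ hy).2 (Or.inr ((hC.pi_eq b hb b hb).2 rfl)))
          · obtain ⟨d, hd, h7, rfl⟩ := mem_cpi.1 hz
            exact (hC.pi_mem (hd.trans hb) hc).1 ((h5 _ (h1 d (hd.trans hb))).2 (Or.inl h7))
      · intro h4
        obtain ⟨b, hb, -, h5⟩ := mem_cpi.1 (h4 ▸ mem_insert (nat n) (nat n))
        refine ⟨_, h1 b (hb.trans hc), (ih b (hb.trans hc)).2 h5.symm, fun y hy => ?_⟩
        obtain ⟨d, hd, rfl⟩ := h2 y hy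
        refine (hC.pi_mem hd hc).trans (Iff.trans ?_ (or_congr (hC.pi_mem hd (hb.trans hc))
          (hC.pi_eq d hd b (hb.trans hc))).symm)
        rw [h4, mem_insert_iff, ← h5, or_comm]
  have hm := hC.main (A := A) fun c hc => ⟨fun ⟨n, h4, h5⟩ => (hN n c hc).1 h5 ▸ h4, fun h4 => by
    obtain ⟨n, hn⟩ := mem_omega.1 (hA h4)
    exact ⟨n, hn ▸ h4, (hN n c hc).2 hn⟩⟩
  obtain ⟨y, hy, h4⟩ := h.a17 j x hx
  obtain ⟨a, ha, rfl⟩ := h2 y hy
  refine ⟨a, ha, fun t => (h4 t).trans ?_⟩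
  rw [← hm a ha]
  constructor
  · rintro ⟨y, hy, h5, h6⟩
    obtain ⟨c, hc, rfl⟩ := h2 y hy
    exact (hN t c hc).1 h5 ▸ (hC.pi_mem hc ha).1 h6
  · intro h5
    obtain ⟨c, hc, h6, h7⟩ := mem_cpi.1 h5
    exact ⟨_, h1 c (hc.trans ha), (hN t c (hc.trans ha)).2 h7.symm, h6⟩

theorem soft_omits (hA : A ⊆ ZFSet.omega) (hA' : A ∈ M) {c : Z} (hc : c ∈ M)
    (hc1 : c ⊆ ZFSet.omega) (hc2 : c ∉ LL M A) (h1 : S.A ∈ M) (h2 : S.R ∈ M) (h : S.Soft A) :
    ∃ r ∈ M, ∀ x, S.o x → ∀ j, ¬ ∀ t, (nat t ∈ r ↔ S.r 0 j t x x) := by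
  have hO : ZFSet.sep (fun x => S.r 3 0 0 x x) S.A ∈ M := Fn.val (by unfold St.r sym; (repeat' (beta_reduce; (first | with_reducible (first | refine On.idx ‹_› ?_ | refine Fn.GF ‹_› ?_ | refine Fn.GS ‹_› ?_ | apply Df.isInj | apply Df.isCard | apply On.K1 | apply On.K2 | apply On.Gam | apply Fn.ran | apply Fn.zfst | apply Fn.zsnd | exact Fn.var _ | exact Fn.const ‹_› | exact On.const ‹_› | exact Df.prop _ | apply Df.and | apply Df.or | apply Df.not | apply Df.iff | apply Df.ex | apply Df.bex | apply Df.oex | apply Df.obex | apply Df.all | apply Df.ball | apply Df.oall | apply Df.oball | apply Df.imp | apply Df.mem | apply Df.eq | apply Df.oeq | apply Df.olt | apply Df.ole | apply Df.subset | apply Df.isOrdinal | apply Fn.pair | apply Fn.app | apply Fn.upair | apply Fn.single | apply Fn.insert | apply Fn.union | apply Fn.sUnion | apply Fn.prod | apply Fn.sep | apply Fn.img | apply Fn.ite | exact Fn.omega | exact Fn.empty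 | exact Fn.nat _ | apply On.fn | apply On.ro | apply On.succ | apply On.max | apply On.ite | apply On.mu | exact On.zero | exact On.one | exact On.omega | exact On.nat _) | exact On.ofNat _ | with_reducible (first | refine Fn.osub1 ‹_› ?_ | refine On.sub1 ‹_› ?_ | refine Df.osub1 ‹_› ?_ | refine On.zsub1 ‹_› ?_ | refine Fn.sub1 ‹_› ?_ | refine Df.sub1 ‹_› ?_ | refine Fn.sub2 ‹_› ?_ ?_ | refine Df.sub2 ‹_› ?_ ?_)))))
  have hO' : ∀ x, x ∈ ZFSet.sep (fun x => S.r 3 0 0 x x) S.A ↔ S.o x := fun x => mem_sep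
  by_cases wf : ∀ Y ∈ M, Y ⊆ ZFSet.sep (fun x => S.r 3 0 0 x x) S.A → (∃ y, y ∈ Y) →
      ∃ x ∈ Y, ∀ y ∈ Y, ¬ S.r 3 1 0 y x
  · obtain ⟨δ, H, a1, -, a3, a4, a5⟩ := enum hO (lt := S.r 3 1 0) (by unfold St.r sym; (repeat' (beta_reduce; (first | with_reducible (first | refine On.idx ‹_› ?_ | refine Fn.GF ‹_› ?_ | refine Fn.GS ‹_› ?_ | apply Df.isInj | apply Df.isCard | apply On.K1 | apply On.K2 | apply On.Gam | apply Fn.ran | apply Fn.zfst | apply Fn.zsnd | exact Fn.var _ | exact Fn.const ‹_› | exact On.const ‹_› | exact Df.prop _ | apply Df.and | apply Df.or | apply Df.not | apply Df.iff | apply Df.ex | apply Df.bex | apply Df.oex | apply Df.obex | apply Df.all | apply Df.ball | apply Df.oall | apply Df.oball | apply Df.imp | apply Df.mem | apply Df.eq | apply Df.oeq | apply Df.olt | apply Df.ole | apply Df.subset | apply Df.isOrdinal | apply Fn.pair | apply Fn.app | apply Fn.upair | apply Fn.single | apply Fn.insert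 | apply Fn.union | apply Fn.sUnion | apply Fn.prod | apply Fn.sep | apply Fn.img | apply Fn.ite | exact Fn.omega | exact Fn.empty | exact Fn.nat _ | apply On.fn | apply On.ro | apply On.succ | apply On.max | apply On.ite | apply On.mu | exact On.zero | exact On.one | exact On.omega | exact On.nat _) | exact On.ofNat _ | with_reducible (first | refine Fn.osub1 ‹_› ?_ | refine On.sub1 ‹_› ?_ | refine Df.osub1 ‹_› ?_ | refine On.zsub1 ‹_› ?_ | refine Fn.sub1 ‹_› ?_ | refine Df.sub1 ‹_› ?_ | refine Fn.sub2 ‹_› ?_ ?_ | refine Df.sub2 ‹_› ?_ ?_)))))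
      (fun x y hx hy => h.a1 x ((hO' x).1 hx) y ((hO' y).1 hy))
      (fun x y hx hy => h.a2 x ((hO' x).1 hx) y ((hO' y).1 hy)) wf
    refine ⟨c, hc, fun x hx j h3 => hc2 ?_⟩
    obtain ⟨a, ha, h4⟩ := soft_wf hA h (fun a ha => (hO' _).1 (a3 a ha))
      (fun x hx => a4 x ((hO' x).2 hx)) a5 j hx
    have : Fact (ZFM (LL M A)) := ⟨zfm_LL hA'⟩
    have h5 : GF A a ∈ LL M A := ⟨a, le_M ha.le a1, rfl⟩
    have h6 : ZFSet.sep (fun z => z ∈ ZFSet.omega) (GF A a) ∈ LL M A := Fn.val (by (repeat' (beta_reduce; (first | with_reducible (first | refine On.idx ‹_› ?_ | refine Fn.GF ‹_› ?_ | refine Fn.GS ‹_› ?_ | apply Df.isInj | apply Df.isCard | apply On.K1 | apply On.K2 | apply On.Gam | apply Fn.ran | apply Fn.zfst | apply Fn.zsnd | exact Fn.var _ | exact Fn.const ‹_› | exact On.const ‹_› | exact Df.prop _ | apply Df.and | apply Df.or | apply Df.not | apply Df.iff | apply Df.ex | apply Df.bex | apply Df.oex | apply Df.obex | apply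 Df.all | apply Df.ball | apply Df.oall | apply Df.oball | apply Df.imp | apply Df.mem | apply Df.eq | apply Df.oeq | apply Df.olt | apply Df.ole | apply Df.subset | apply Df.isOrdinal | apply Fn.pair | apply Fn.app | apply Fn.upair | apply Fn.single | apply Fn.insert | apply Fn.union | apply Fn.sUnion | apply Fn.prod | apply Fn.sep | apply Fn.img | apply Fn.ite | exact Fn.omega | exact Fn.empty | exact Fn.nat _ | apply On.fn | apply On.ro | apply On.succ | apply On.max | apply On.ite | apply On.mu | exact On.zero | exact On.one | exact On.omega | exact On.nat _) | exact On.ofNat _ | with_reducible (first | refine Fn.osub1 ‹_› ?_ | refine On.sub1 ‹_› ?_ | refine Df.osub1 ‹_› ?_ | refine On.zsub1 ‹_› ?_ | refine Fn.sub1 ‹_› ?_ | refine Df.sub1 ‹_› ?_ | refine Fn.sub2 ‹_› ?_ ?_ | refine Df.sub2 ‹_› ?_ ?_)))))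
    convert h6 using 1
    ext z
    rw [mem_sep]
    constructor
    · intro hz
      obtain ⟨t, rfl⟩ := mem_omega.1 (hc1 hz)
      exact ⟨(h4 t).1 ((h3 t).1 hz), hc1 hz⟩
    · rintro ⟨h7, h8⟩
      obtain ⟨t, rfl⟩ := mem_omega.1 h8
      exact (h3 t).2 ((h4 t).2 h7)
  · simp only [not_forall, not_exists, not_and, not_not, exists_prop] at wf
    obtain ⟨Y, y1, y2, ⟨a, ha⟩, y3⟩ := wf
    have yo : ∀ y ∈ Y, S.o y := fun y hy => (hO' y).1 (y2 hy)
    have haM := tr y1 ha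
    refine ⟨ZFSet.sep (fun n => ∃ b, b ∈ Y ∧ S.r 3 1 0 b a ∧
      pair (pair (nat 1) (pair n (nat 0))) (pair a b) ∈ S.R) ZFSet.omega,
      Fn.val (by unfold St.r sym; (repeat' (beta_reduce; (first | with_reducible (first | refine On.idx ‹_› ?_ | refine Fn.GF ‹_› ?_ | refine Fn.GS ‹_› ?_ | apply Df.isInj | apply Df.isCard | apply On.K1 | apply On.K2 | apply On.Gam | apply Fn.ran | apply Fn.zfst | apply Fn.zsnd | exact Fn.var _ | exact Fn.const ‹_› | exact On.const ‹_› | exact Df.prop _ | apply Df.and | apply Df.or | apply Df.not | apply Df.iff | apply Df.ex | apply Df.bex | apply Df.oex | apply Df.obex | apply Df.all | apply Df.ball | apply Df.oall | apply Df.oball | apply Df.imp | apply Df.mem | apply Df.eq | apply Df.oeq | apply Df.olt | apply Df.ole | apply Df.subset | apply Df.isOrdinal | apply Fn.pair | apply Fn.app | apply Fn.upair | apply Fn.single | apply Fn.insert | apply Fn.union | apply Fn.sUnion | apply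 Fn.prod | apply Fn.sep | apply Fn.img | apply Fn.ite | exact Fn.omega | exact Fn.empty | exact Fn.nat _ | apply On.fn | apply On.ro | apply On.succ | apply On.max | apply On.ite | apply On.mu | exact On.zero | exact On.one | exact On.omega | exact On.nat _) | exact On.ofNat _ | with_reducible (first | refine Fn.osub1 ‹_› ?_ | refine On.sub1 ‹_› ?_ | refine Df.osub1 ‹_› ?_ | refine On.zsub1 ‹_› ?_ | refine Fn.sub1 ‹_› ?_ | refine Df.sub1 ‹_› ?_ | refine Fn.sub2 ‹_› ?_ ?_ | refine Df.sub2 ‹_› ?_ ?_))))), fun x hx j h3 => ?_⟩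
    have key : ∀ b, S.o b → (S.inn j a b x ↔ b ∈ Y ∧ S.r 3 1 0 b a) := by
      intro b hb
      constructor
      · rintro ⟨h4, n, h5, h6⟩
        obtain ⟨b', h7, -, h8⟩ := (mem_sep.1 ((h3 n).2 h6)).2
        exact ⟨h.a15 n a (yo a ha) b hb b' (yo b' h7) h5 h8 ▸ h7, h4⟩
      · rintro ⟨h4, h5⟩
        obtain ⟨n, h6⟩ := h.a14 a (yo a ha) b hb h5
        exact ⟨h5, n, h6, (h3 n).1 (mem_sep.2 ⟨nat_mem_omega n, b, h4, h5, h6⟩)⟩
    obtain ⟨b, h4, h5⟩ := y3 a ha
    obtain ⟨b', h6, h7, h8⟩ := h.a16 j a (yo a ha) x hx ⟨b, yo b h4, (key b (yo b h4)).2 ⟨h4, h5⟩⟩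
    obtain ⟨h9, h10⟩ := (key b' h6).1 h7
    obtain ⟨y, h11, h12⟩ := y3 b' h9
    exact h8 y (yo y h11) ((key y (yo y h11)).2
      ⟨h11, h.a3 y (yo y h11) b' h6 a (yo a ha) h12 h10⟩) h12

theorem small_of_sat (hA : A ⊆ ZFSet.omega) (hA' : A ∈ M) {c : Z} (hc : c ∈ M)
    (hc1 : c ⊆ ZFSet.omega) (hc2 : c ∉ LL M A) (h1 : S.A ∈ M) (h2 : S.R ∈ M)
    (h : LSat S (fun _ => ∅) (phi A)) : ∃ T ∈ M, ∀ x, S.o x → ∃ i, ∀ j,
      ¬ ∀ t, (pair (nat i) (nat t) ∈ T ↔ S.r 0 j t x x) := by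
  rcases sat_phi.1 h with ⟨y, hy, h3⟩ | ⟨h3, -⟩
  · have hyM := tr h1 hy
    refine ⟨ZFSet.sep (fun p => pair (pair (nat 0) p) (pair y y) ∈ S.R)
      (ZFSet.prod ZFSet.omega ZFSet.omega), Fn.val (by (repeat' (beta_reduce; (first | with_reducible (first | refine On.idx ‹_› ?_ | refine Fn.GF ‹_› ?_ | refine Fn.GS ‹_› ?_ | apply Df.isInj | apply Df.isCard | apply On.K1 | apply On.K2 | apply On.Gam | apply Fn.ran | apply Fn.zfst | apply Fn.zsnd | exact Fn.var _ | exact Fn.const ‹_› | exact On.const ‹_› | exact Df.prop _ | apply Df.and | apply Df.or | apply Df.not | apply Df.iff | apply Df.ex | apply Df.bex | apply Df.oex | apply Df.obex | apply Df.all | apply Df.ball | apply Df.oall | apply Df.oball | apply Df.imp | apply Df.mem | apply Df.eq | apply Df.oeq | apply Df.olt | apply Df.ole | apply Df.subset | apply Df.isOrdinal | apply Fn.pair | apply Fn.app | apply Fn.upair | apply Fn.single | apply Fn.insert | apply Fn.union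 | apply Fn.sUnion | apply Fn.prod | apply Fn.sep | apply Fn.img | apply Fn.ite | exact Fn.omega | exact Fn.empty | exact Fn.nat _ | apply On.fn | apply On.ro | apply On.succ | apply On.max | apply On.ite | apply On.mu | exact On.zero | exact On.one | exact On.omega | exact On.nat _) | exact On.ofNat _ | with_reducible (first | refine Fn.osub1 ‹_› ?_ | refine On.sub1 ‹_› ?_ | refine Df.osub1 ‹_› ?_ | refine On.zsub1 ‹_› ?_ | refine Fn.sub1 ‹_› ?_ | refine Df.sub1 ‹_› ?_ | refine Fn.sub2 ‹_› ?_ ?_ | refine Df.sub2 ‹_› ?_ ?_))))), fun x hx => ?_⟩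
    have h4 := h3 x hx
    simp only [not_forall, not_exists] at h4
    obtain ⟨i, hi⟩ := h4
    refine ⟨i, fun j h5 => ?_⟩
    obtain ⟨t, ht⟩ := hi j
    refine ht (Iff.trans ?_ (h5 t))
    rw [mem_sep, pair_mem_prod]
    exact ⟨fun h6 => ⟨⟨nat_mem_omega i, nat_mem_omega t⟩, h6⟩, fun h6 => h6.2⟩
  · obtain ⟨r, hr, h4⟩ := soft_omits hA hA' hc hc1 hc2 h1 h2 h3
    refine ⟨ZFSet.prod ZFSet.omega r, Fn.val (by (repeat' (beta_reduce; (first | with_reducible (first | refine On.idx ‹_› ?_ | refine Fn.GF ‹_› ?_ | refine Fn.GS ‹_› ?_ | apply Df.isInj | apply Df.isCard | apply On.K1 | apply On.K2 | apply On.Gam | apply Fn.ran | apply Fn.zfst | apply Fn.zsnd | exact Fn.var _ | exact Fn.const ‹_› | exact On.const ‹_› | exact Df.prop _ | apply Df.and | apply Df.or | apply Df.not | apply Df.iff | apply Df.ex | apply Df.bex | apply Df.oex | apply Df.obex | apply Df.all | apply Df.ball | apply Df.oall | apply Df.oball | apply Df.imp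 | apply Df.mem | apply Df.eq | apply Df.oeq | apply Df.olt | apply Df.ole | apply Df.subset | apply Df.isOrdinal | apply Fn.pair | apply Fn.app | apply Fn.upair | apply Fn.single | apply Fn.insert | apply Fn.union | apply Fn.sUnion | apply Fn.prod | apply Fn.sep | apply Fn.img | apply Fn.ite | exact Fn.omega | exact Fn.empty | exact Fn.nat _ | apply On.fn | apply On.ro | apply On.succ | apply On.max | apply On.ite | apply On.mu | exact On.zero | exact On.one | exact On.omega | exact On.nat _) | exact On.ofNat _ | with_reducible (first | refine Fn.osub1 ‹_› ?_ | refine On.sub1 ‹_› ?_ | refine Df.osub1 ‹_› ?_ | refine On.zsub1 ‹_› ?_ | refine Fn.sub1 ‹_› ?_ | refine Df.sub1 ‹_› ?_ | refine Fn.sub2 ‹_› ?_ ?_ | refine Df.sub2 ‹_› ?_ ?_))))), fun x hx => ⟨0, fun j h5 => h4 x hx j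
      fun t => Iff.trans ?_ (h5 t)⟩⟩
    rw [pair_mem_prod]
    exact ⟨fun h6 => ⟨nat_mem_omega 0, h6⟩, fun h6 => h6.2⟩

end Pool.Agent.H30Z.LA
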