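import Pool.Agent.H30Z.LA.Godel

/-! The constructible sets form a model of ZFC. -/

namespace Pool.Agent.H30Z.LA

open CohenE ZFSet Ordinal Forc

/-- amenable definable classes -/
def Am (M : Set Z) (A : Z) (C : Z → Prop) : Prop :=
  (Df M fun w => C (w 0)) ∧ ∀ x ∈ LL M A, ZFSet.sep C x ∈ LL M A

variable {M : Set Z} [hM : Fact (ZFM M)] {A : Z} {C C' : Z → Prop}

theorem bound_LL (hA : A ∈ M) {X : Z} (hX : X ∈ M) (h : ∀ x ∈ X, x ∈ LL M A) :
    ∃ a : O, a.toZFSet ∈ M ∧ GS A a ∈ LL M A ∧ X ⊆ GS A a := by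
  obtain ⟨a, h1, h2, h3⟩ := collect hA (R := fun x u => u = x) (by (repeat' (beta_reduce; (first | with_reducible (first | refine Fn.GF ‹_› ?_ | refine Fn.GS ‹_› ?_ | apply Df.isInj | apply Df.isCard | apply On.K1 | apply On.K2 | apply On.Gam | apply Fn.ran | apply Fn.zfst | apply Fn.zsnd | exact Fn.var _ | exact Fn.const ‹_› | exact On.const ‹_› | exact Df.prop _ | apply Df.and | apply Df.or | apply Df.not | apply Df.iff | apply Df.ex | apply Df.bex | apply Df.oex | apply Df.obex | apply Df.all | apply Df.ball | apply Df.oall | apply Df.oball | apply Df.imp | apply Df.mem | apply Df.eq | apply Df.oeq | apply Df.olt | apply Df.ole | apply Df.subset | apply Df.isOrdinal | apply Fn.pair | apply Fn.app | apply Fn.upair | apply Fn.single | apply Fn.insert | apply Fn.union | apply Fn.sUnion | apply Fn.prod | apply Fn.sep | apply Fn.img | apply Fn.ite | exact Fn.omega | exact Fn.empty | exact Fn.nat _ | apply On.fn | apply On.ro | apply On.succ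 | apply On.max | apply On.ite | apply On.mu | exact On.zero | exact On.one | exact On.omega | exact On.nat _) | exact On.ofNat _ | with_reducible (first | refine Fn.osub1 ‹_› ?_ | refine On.sub1 ‹_› ?_ | refine Df.osub1 ‹_› ?_ | refine On.zsub1 ‹_› ?_ | refine Fn.sub1 ‹_› ?_ | refine Df.sub1 ‹_› ?_ | refine Fn.sub2 ‹_› ?_ ?_ | refine Df.sub2 ‹_› ?_ ?_))))) hX
  refine ⟨a, h1, h2, fun x hx => ?_⟩
  obtain ⟨u, hu, rfl⟩ := h3 x hx ⟨x, h x hx, rfl⟩
  exact hu

theorem mem_bound_LL {x : Z} (hx : x ∈ LL M A) :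
    ∃ a : O, a.toZFSet ∈ M ∧ GS A a ∈ LL M A ∧ x ∈ GS A a := by
  obtain ⟨o, ho, rfl⟩ := hx
  obtain ⟨a, h1, h2, h3⟩ := GS_LL (A := A) (succ_M ho)
  exact ⟨a, h1, h3, GF_mem_GS ((Order.lt_add_one_iff.2 le_rfl).trans_le h2)⟩

theorem Am.not (h : Am M A C) : Am M A fun z => ¬ C z :=
  ⟨h.1.not, fun x hx => op_LL hx (h.2 x hx) (j := 2) (by norm_num) fun z => by
    simp only [op, mem_sep]; tauto⟩

omit hM in
theorem Am.and (h : Am M A C) (h' : Am M A C') : Am M A fun z => C z ∧ C' z :=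
  ⟨h.1.and h'.1, fun x hx => by
    have := h'.2 _ (h.2 x hx)
    convert this using 1
    ext z
    simp only [mem_sep, and_assoc]⟩

theorem Am.cyl (h : Am M A C) : Am M A fun z => ∃ a s, z = pair a s ∧ C s := by
  have h1 := h.1
  refine ⟨Df.congr (P := fun w => ∃ a, a ∈ M ∧ ∃ s, s ∈ M ∧ w 0 = pair a s ∧ C s) (by (repeat' (beta_reduce; (first | with_reducible (first | refine Fn.GF ‹_› ?_ | refine Fn.GS ‹_› ?_ | apply Df.isInj | apply Df.isCard | apply On.K1 | apply On.K2 | apply On.Gam | apply Fn.ran | apply Fn.zfst | apply Fn.zsnd | exact Fn.var _ | exact Fn.const ‹_› | exact On.const ‹_› | exact Df.prop _ | apply Df.and | apply Df.or | apply Df.not | apply Df.iff | apply Df.ex | apply Df.bex | apply Df.oex | apply Df.obex | apply Df.all | apply Df.ball | apply Df.oall | apply Df.oball | apply Df.imp | apply Df.mem | apply Df.eq | apply Df.oeq | apply Df.olt | apply Df.ole | apply Df.subset | apply Df.isOrdinal | apply Fn.pair | apply Fn.app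 | apply Fn.upair | apply Fn.single | apply Fn.insert | apply Fn.union | apply Fn.sUnion | apply Fn.prod | apply Fn.sep | apply Fn.img | apply Fn.ite | exact Fn.omega | exact Fn.empty | exact Fn.nat _ | apply On.fn | apply On.ro | apply On.succ | apply On.max | apply On.ite | apply On.mu | exact On.zero | exact On.one | exact On.omega | exact On.nat _) | exact On.ofNat _ | with_reducible (first | refine Fn.osub1 ‹_› ?_ | refine On.sub1 ‹_› ?_ | refine Df.osub1 ‹_› ?_ | refine On.zsub1 ‹_› ?_ | refine Fn.sub1 ‹_› ?_ | refine Df.sub1 ‹_› ?_ | refine Fn.sub2 ‹_› ?_ ?_ | refine Df.sub2 ‹_› ?_ ?_)))))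
    fun w hw => ⟨fun ⟨a, _, s, _, h⟩ => ⟨a, s, h⟩,
      fun ⟨a, s, h⟩ => ⟨a, fst_M (h.1 ▸ hw 0), s, snd_M (h.1 ▸ hw 0), h⟩⟩, fun x hx => ?_⟩
  obtain ⟨a, -, h3, h4⟩ := mem_bound_LL hx
  refine op_LL hx (h.2 _ h3) (j := 5) (by norm_num) fun z => and_congr_right fun hz => ?_
  simp only [mem_sep]
  exact ⟨fun ⟨a, s, h5, _, h6⟩ => ⟨a, s, h5, h6⟩, fun ⟨b, s, h5, h6⟩ =>
    ⟨b, s, h5, snd_tr (GS_tr a) (h5 ▸ GS_tr a _ h4 _ hz), h6⟩⟩

theorem Am.swap (hA : A ∈ M) (h : Am M A C) :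
    Am M A fun z => ∃ a b s, z = pair a (pair b s) ∧ C (pair b (pair a s)) := by
  have h1 := h.1
  refine ⟨Df.congr (P := fun w => ∃ a, a ∈ M ∧ ∃ b, b ∈ M ∧ ∃ s, s ∈ M ∧
    w 0 = pair a (pair b s) ∧ C (pair b (pair a s))) (by (repeat' (beta_reduce; (first | with_reducible (first | refine Fn.GF ‹_› ?_ | refine Fn.GS ‹_› ?_ | apply Df.isInj | apply Df.isCard | apply On.K1 | apply On.K2 | apply On.Gam | apply Fn.ran | apply Fn.zfst | apply Fn.zsnd | exact Fn.var _ | exact Fn.const ‹_› | exact On.const ‹_› | exact Df.prop _ | apply Df.and | apply Df.or | apply Df.not | apply Df.iff | apply Df.ex | apply Df.bex | apply Df.oex | apply Df.obex | apply Df.all | apply Df.ball | apply Df.oall | apply Df.oball | apply Df.imp | apply Df.mem | apply Df.eq | apply Df.oeq | apply Df.olt | apply Df.ole | apply Df.subset | apply Df.isOrdinal | apply Fn.pair | apply Fn.app | apply Fn.upair | apply Fn.single | apply Fn.insert | apply Fn.union | apply Fn.sUnion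 | apply Fn.prod | apply Fn.sep | apply Fn.img | apply Fn.ite | exact Fn.omega | exact Fn.empty | exact Fn.nat _ | apply On.fn | apply On.ro | apply On.succ | apply On.max | apply On.ite | apply On.mu | exact On.zero | exact On.one | exact On.omega | exact On.nat _) | exact On.ofNat _ | with_reducible (first | refine Fn.osub1 ‹_› ?_ | refine On.sub1 ‹_› ?_ | refine Df.osub1 ‹_› ?_ | refine On.zsub1 ‹_› ?_ | refine Fn.sub1 ‹_› ?_ | refine Df.sub1 ‹_› ?_ | refine Fn.sub2 ‹_› ?_ ?_ | refine Df.sub2 ‹_› ?_ ?_)))))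
    fun w hw => ⟨fun ⟨a, _, b, _, s, _, h⟩ => ⟨a, b, s, h⟩, fun ⟨a, b, s, h⟩ =>
      ⟨a, fst_M (h.1 ▸ hw 0), b, fst_M (snd_M (h.1 ▸ hw 0)), s, snd_M (snd_M (h.1 ▸ hw 0)), h⟩⟩,
    fun x hx => ?_⟩
  obtain ⟨c, -, h3, h4⟩ := collect hA
    (R := fun z u => u = pair (zfst (zsnd z)) (pair (zfst z) (zsnd (zsnd z)))) (by (repeat' (beta_reduce; (first | with_reducible (first | refine Fn.GF ‹_› ?_ | refine Fn.GS ‹_› ?_ | apply Df.isInj | apply Df.isCard | apply On.K1 | apply On.K2 | apply On.Gam | apply Fn.ran | apply Fn.zfst | apply Fn.zsnd | exact Fn.var _ | exact Fn.const ‹_› | exact On.const ‹_› | exact Df.prop _ | apply Df.and | apply Df.or | apply Df.not | apply Df.iff | apply Df.ex | apply Df.bex | apply Df.oex | apply Df.obex | apply Df.all | apply Df.ball | apply Df.oall | apply Df.oball | apply Df.imp | apply Df.mem | apply Df.eq | apply Df.oeq | apply Df.olt | apply Df.ole | apply Df.subset | apply Df.isOrdinal | apply Fn.pair | apply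 Fn.app | apply Fn.upair | apply Fn.single | apply Fn.insert | apply Fn.union | apply Fn.sUnion | apply Fn.prod | apply Fn.sep | apply Fn.img | apply Fn.ite | exact Fn.omega | exact Fn.empty | exact Fn.nat _ | apply On.fn | apply On.ro | apply On.succ | apply On.max | apply On.ite | apply On.mu | exact On.zero | exact On.one | exact On.omega | exact On.nat _) | exact On.ofNat _ | with_reducible (first | refine Fn.osub1 ‹_› ?_ | refine On.sub1 ‹_› ?_ | refine Df.osub1 ‹_› ?_ | refine On.zsub1 ‹_› ?_ | refine Fn.sub1 ‹_› ?_ | refine Df.sub1 ‹_› ?_ | refine Fn.sub2 ‹_› ?_ ?_ | refine Df.sub2 ‹_› ?_ ?_)))))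
    (LL_sub hA hx)
  refine op_LL hx (h.2 _ h3) (j := 6) (by norm_num) fun z => and_congr_right fun hz => ?_
  simp only [mem_sep]
  refine ⟨fun ⟨a, b, s, h5, _, h6⟩ => ⟨a, b, s, h5, h6⟩, fun ⟨a, b, s, h5, h6⟩ =>
    ⟨a, b, s, h5, ?_, h6⟩⟩
  have h7 : pair a (pair b s) ∈ LL M A := h5 ▸ LL_tr _ hx _ hz
  obtain ⟨u, hu, e⟩ := h4 z hz ⟨_, pair_LL (fst_tr LL_tr (snd_tr LL_tr h7))
    (pair_LL (fst_tr LL_tr h7) (snd_tr LL_tr (snd_tr LL_tr h7))), by simp [h5]⟩
  simpa [e, h5] using hu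

theorem Am.ran (hA : A ∈ M) (h : Am M A C) :
    Am M A fun s => ∃ a, a ∈ LL M A ∧ C (pair a s) := by
  have h1 := h.1
  have h2 : Df M fun w => w 0 ∈ LL M A := Df.LL hA (Fn.var 0)
  refine ⟨Df.congr (P := fun w => ∃ a, a ∈ M ∧ a ∈ LL M A ∧ C (pair a (w 0)))
    (Df.ex (h2.and (by (repeat' (beta_reduce; (first | with_reducible (first | refine Fn.GF ‹_› ?_ | refine Fn.GS ‹_› ?_ | apply Df.isInj | apply Df.isCard | apply On.K1 | apply On.K2 | apply On.Gam | apply Fn.ran | apply Fn.zfst | apply Fn.zsnd | exact Fn.var _ | exact Fn.const ‹_› | exact On.const ‹_› | exact Df.prop _ | apply Df.and | apply Df.or | apply Df.not | apply Df.iff | apply Df.ex | apply Df.bex | apply Df.oex | apply Df.obex | apply Df.all | apply Df.ball | apply Df.oall | apply Df.oball | apply Df.imp | apply Df.mem | apply Df.eq | apply Df.oeq | apply Df.olt | apply Df.ole | apply Df.subset | apply Df.isOrdinal | apply Fn.pair | apply Fn.app | apply Fn.upair | apply Fn.single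 | apply Fn.insert | apply Fn.union | apply Fn.sUnion | apply Fn.prod | apply Fn.sep | apply Fn.img | apply Fn.ite | exact Fn.omega | exact Fn.empty | exact Fn.nat _ | apply On.fn | apply On.ro | apply On.succ | apply On.max | apply On.ite | apply On.mu | exact On.zero | exact On.one | exact On.omega | exact On.nat _) | exact On.ofNat _ | with_reducible (first | refine Fn.osub1 ‹_› ?_ | refine On.sub1 ‹_› ?_ | refine Df.osub1 ‹_› ?_ | refine On.zsub1 ‹_› ?_ | refine Fn.sub1 ‹_› ?_ | refine Df.sub1 ‹_› ?_ | refine Fn.sub2 ‹_› ?_ ?_ | refine Df.sub2 ‹_› ?_ ?_)))))))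
    fun w _ => ⟨fun ⟨a, _, h⟩ => ⟨a, h⟩, fun ⟨a, h⟩ => ⟨a, LL_sub hA h.1, h⟩⟩, fun x hx => ?_⟩
  obtain ⟨c, -, h3, h4⟩ := collect hA (R := fun z u => u = pair (zfst u) z ∧ C u) (by (repeat' (beta_reduce; (first | with_reducible (first | refine Fn.GF ‹_› ?_ | refine Fn.GS ‹_› ?_ | apply Df.isInj | apply Df.isCard | apply On.K1 | apply On.K2 | apply On.Gam | apply Fn.ran | apply Fn.zfst | apply Fn.zsnd | exact Fn.var _ | exact Fn.const ‹_› | exact On.const ‹_› | exact Df.prop _ | apply Df.and | apply Df.or | apply Df.not | apply Df.iff | apply Df.ex | apply Df.bex | apply Df.oex | apply Df.obex | apply Df.all | apply Df.ball | apply Df.oall | apply Df.oball | apply Df.imp | apply Df.mem | apply Df.eq | apply Df.oeq | apply Df.olt | apply Df.ole | apply Df.subset | apply Df.isOrdinal | apply Fn.pair | apply Fn.app | apply Fn.upair | apply Fn.single | apply Fn.insert | apply Fn.union | apply Fn.sUnion | apply Fn.prod | apply Fn.sep | apply Fn.img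 | apply Fn.ite | exact Fn.omega | exact Fn.empty | exact Fn.nat _ | apply On.fn | apply On.ro | apply On.succ | apply On.max | apply On.ite | apply On.mu | exact On.zero | exact On.one | exact On.omega | exact On.nat _) | exact On.ofNat _ | with_reducible (first | refine Fn.osub1 ‹_› ?_ | refine On.sub1 ‹_› ?_ | refine Df.osub1 ‹_› ?_ | refine On.zsub1 ‹_› ?_ | refine Fn.sub1 ‹_› ?_ | refine Df.sub1 ‹_› ?_ | refine Fn.sub2 ‹_› ?_ ?_ | refine Df.sub2 ‹_› ?_ ?_)))))
    (LL_sub hA hx)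
  refine op_LL hx (h.2 _ h3) (j := 4) (by norm_num) fun z => and_congr_right fun hz => ?_
  simp only [mem_sep]
  refine ⟨fun ⟨a, h5, h6⟩ => ⟨a, fst_tr LL_tr (LL_tr _ h3 _ h5), h6⟩, fun ⟨a, h5, h6⟩ => ?_⟩
  obtain ⟨u, hu, e, h7⟩ := h4 z hz ⟨_, pair_LL h5 (LL_tr _ hx _ hz), by simp, h6⟩
  exact ⟨zfst u, e ▸ hu, e ▸ h7⟩

theorem am_mem : Am M A fun z => ∃ a b s, z = pair a (pair b s) ∧ a ∈ b :=
  ⟨Df.congr (P := fun w => ∃ a, a ∈ M ∧ ∃ b, b ∈ M ∧ ∃ s, s ∈ M ∧
    w 0 = pair a (pair b s) ∧ a ∈ b) (by (repeat' (beta_reduce; (first | with_reducible (first | refine Fn.GF ‹_› ?_ | refine Fn.GS ‹_› ?_ | apply Df.isInj | apply Df.isCard | apply On.K1 | apply On.K2 | apply On.Gam | apply Fn.ran | apply Fn.zfst | apply Fn.zsnd | exact Fn.var _ | exact Fn.const ‹_› | exact On.const ‹_› | exact Df.prop _ | apply Df.and | apply Df.or | apply Df.not | apply Df.iff | apply Df.ex | apply Df.bex | apply Df.oex | apply Df.obex | apply Df.all | apply Df.ball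 | apply Df.oall | apply Df.oball | apply Df.imp | apply Df.mem | apply Df.eq | apply Df.oeq | apply Df.olt | apply Df.ole | apply Df.subset | apply Df.isOrdinal | apply Fn.pair | apply Fn.app | apply Fn.upair | apply Fn.single | apply Fn.insert | apply Fn.union | apply Fn.sUnion | apply Fn.prod | apply Fn.sep | apply Fn.img | apply Fn.ite | exact Fn.omega | exact Fn.empty | exact Fn.nat _ | apply On.fn | apply On.ro | apply On.succ | apply On.max | apply On.ite | apply On.mu | exact On.zero | exact On.one | exact On.omega | exact On.nat _) | exact On.ofNat _ | with_reducible (first | refine Fn.osub1 ‹_› ?_ | refine On.sub1 ‹_› ?_ | refine Df.osub1 ‹_› ?_ | refine On.zsub1 ‹_› ?_ | refine Fn.sub1 ‹_› ?_ | refine Df.sub1 ‹_› ?_ | refine Fn.sub2 ‹_› ?_ ?_ | refine Df.sub2 ‹_› ?_ ?_)))))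
    fun w hw => ⟨fun ⟨a, _, b, _, s, _, h⟩ => ⟨a, b, s, h⟩, fun ⟨a, b, s, h⟩ =>
      ⟨a, fst_M (h.1 ▸ hw 0), b, fst_M (snd_M (h.1 ▸ hw 0)), s, snd_M (snd_M (h.1 ▸ hw 0)), h⟩⟩,
    fun _ hx => op_LL hx hx (j := 3) (by norm_num) fun _ => Iff.rfl⟩

theorem am_eq : Am M A fun z => ∃ a s, z = pair a (pair a s) :=
  ⟨Df.congr (P := fun w => ∃ a, a ∈ M ∧ ∃ s, s ∈ M ∧ w 0 = pair a (pair a s)) (by (repeat' (beta_reduce; (first | with_reducible (first | refine Fn.GF ‹_› ?_ | refine Fn.GS ‹_› ?_ | apply Df.isInj | apply Df.isCard | apply On.K1 | apply On.K2 | apply On.Gam | apply Fn.ran | apply Fn.zfst | apply Fn.zsnd | exact Fn.var _ | exact Fn.const ‹_› | exact On.const ‹_› | exact Df.prop _ | apply Df.and | apply Df.or | apply Df.not | apply Df.iff | apply Df.ex | apply Df.bex | apply Df.oex | apply Df.obex | apply Df.all | apply Df.ball | apply Df.oall | apply Df.oball | apply Df.imp | apply Df.mem | apply Df.eq | apply Df.oeq | apply Df.olt | apply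 Df.ole | apply Df.subset | apply Df.isOrdinal | apply Fn.pair | apply Fn.app | apply Fn.upair | apply Fn.single | apply Fn.insert | apply Fn.union | apply Fn.sUnion | apply Fn.prod | apply Fn.sep | apply Fn.img | apply Fn.ite | exact Fn.omega | exact Fn.empty | exact Fn.nat _ | apply On.fn | apply On.ro | apply On.succ | apply On.max | apply On.ite | apply On.mu | exact On.zero | exact On.one | exact On.omega | exact On.nat _) | exact On.ofNat _ | with_reducible (first | refine Fn.osub1 ‹_› ?_ | refine On.sub1 ‹_› ?_ | refine Df.osub1 ‹_› ?_ | refine On.zsub1 ‹_› ?_ | refine Fn.sub1 ‹_› ?_ | refine Df.sub1 ‹_› ?_ | refine Fn.sub2 ‹_› ?_ ?_ | refine Df.sub2 ‹_› ?_ ?_)))))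
    fun w hw => ⟨fun ⟨a, _, s, _, h⟩ => ⟨a, s, h⟩, fun ⟨a, s, h⟩ =>
      ⟨a, fst_M (h ▸ hw 0), s, snd_M (snd_M (h ▸ hw 0)), h⟩⟩,
    fun _ hx => op_LL hx hx (j := 7) (by norm_num) fun _ => Iff.rfl⟩

/-- tuples -/
noncomputable def enc : ℕ → (ℕ → Z) → Z
  | 0, _ => ∅
  | n + 1, v => pair (v 0) (enc n fun i => v (i + 1))

theorem enc_LL (n : ℕ) : ∀ v, In (LL M A) v → enc n v ∈ LL M A := by
  induction n with
  | zero => exact fun _ _ => empty_LL
  | succ n ih => exact fun v hv => pair_LL (hv 0) (ih _ fun i => hv _)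

theorem am_proj (hA : A ∈ M) (j : ℕ) : ∃ C, Am M A C ∧
    ∀ n v y, j < n → (C (pair y (enc n v)) ↔ y = v j) := by
  induction j with
  | zero =>
    refine ⟨_, am_eq, fun n v y hn => ?_⟩
    obtain ⟨n, rfl⟩ := Nat.exists_eq_add_one_of_ne_zero hn.ne'
    simp only [enc, pair_inj]
    exact ⟨fun ⟨a, s, h1, h2, _⟩ => h1.trans h2.symm, fun h => ⟨y, _, rfl, h.symm, rfl⟩⟩
  | succ j ih =>
    obtain ⟨C, h1, h2⟩ := ih
    refine ⟨_, h1.cyl.swap hA, fun n v y hn => ?_⟩
    obtain ⟨n, rfl⟩ := Nat.exists_eq_add_one_of_ne_zero (by omega : n ≠ 0)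
    simp only [enc, pair_inj]
    constructor
    · rintro ⟨_, _, _, ⟨rfl, rfl, rfl⟩, _, _, ⟨-, rfl⟩, h⟩
      exact (h2 n _ _ (by omega)).1 h
    · intro h
      exact ⟨_, _, _, ⟨rfl, rfl, rfl⟩, _, _, ⟨rfl, rfl⟩, (h2 n _ _ (by omega)).2 h⟩

theorem am_sat (hA : A ∈ M) (φ : Fml) : ∀ n, bd φ ≤ n → ∃ C, Am M A C ∧
    ∀ v, In (LL M A) v → (C (enc n v) ↔ SatS (LL M A) v φ) := by
  induction φ with
  | mem i j =>
    intro n hn
    simp only [bd] at hn
    obtain ⟨C, h1, h2⟩ := am_proj hA i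
    obtain ⟨C', h3, h4⟩ := am_proj hA j
    refine ⟨_, ((am_mem.and (h3.cyl.and (h1.cyl.swap hA))).ran hA).ran hA, fun v hv => ?_⟩
    simp only [pair_inj, SatX]
    constructor
    · rintro ⟨b, -, a, -, ⟨_, _, _, ⟨rfl, rfl, -⟩, h5⟩, ⟨_, _, ⟨-, rfl⟩, h6⟩,
        _, _, _, ⟨rfl, rfl, rfl⟩, _, _, ⟨-, rfl⟩, h7⟩
      rw [← (h2 n v _ (by omega)).1 h7, ← (h4 n v _ (by omega)).1 h6]
      exact h5
    · intro h
      exact ⟨v j, hv j, v i, hv i, ⟨_, _, _, ⟨rfl, rfl, rfl⟩, h⟩,
        ⟨_, _, ⟨rfl, rfl⟩, (h4 n v _ (by omega)).2 rfl⟩,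
        _, _, _, ⟨rfl, rfl, rfl⟩, _, _, ⟨rfl, rfl⟩, (h2 n v _ (by omega)).2 rfl⟩
  | eq i j =>
    intro n hn
    simp only [bd] at hn
    obtain ⟨C, h1, h2⟩ := am_proj hA i
    obtain ⟨C', h3, h4⟩ := am_proj hA j
    refine ⟨_, (h1.and h3).ran hA, fun v hv => ?_⟩
    simp only [SatX, h2 n v _ (by omega), h4 n v _ (by omega)]
    exact ⟨fun ⟨_, _, h5, h6⟩ => h5.symm.trans h6, fun h => ⟨_, hv i, rfl, h⟩⟩
  | neg φ ih =>
    intro n hn
    obtain ⟨C, h1, h2⟩ := ih n hn
    exact ⟨_, h1.not, fun v hv => not_congr (h2 v hv)⟩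
  | and φ ψ ih ih' =>
    intro n hn
    obtain ⟨C, h1, h2⟩ := ih n (le_of_max_le_left hn)
    obtain ⟨C', h3, h4⟩ := ih' n (le_of_max_le_right hn)
    exact ⟨_, h1.and h3, fun v hv => and_congr (h2 v hv) (h4 v hv)⟩
  | ex φ ih =>
    intro n hn
    obtain ⟨C, h1, h2⟩ := ih (n + 1) (le_trans hn (Nat.le_succ n))
    exact ⟨_, h1.ran hA, fun v hv => exists_congr fun a => and_congr_right fun ha =>
      h2 (scons a v) (scons_in ha hv)⟩

theorem sep_LL (hA : A ∈ M) (φ : Fml) {v : ℕ → Z} (hv : In (LL M A) v) {a : Z}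
    (ha : a ∈ LL M A) : ZFSet.sep (fun z => SatS (LL M A) (scons z v) φ) a ∈ LL M A := by
  obtain ⟨C, h1, h2⟩ := am_sat hA φ (bd φ + 1) (Nat.le_succ _)
  have hp := enc_LL (bd φ) v hv
  have hp' := LL_sub hA hp
  obtain ⟨c, -, h3, h4⟩ := collect hA (R := fun z u => u = pair z (enc (bd φ) v)) (by (repeat' (beta_reduce; (first | with_reducible (first | refine Fn.GF ‹_› ?_ | refine Fn.GS ‹_› ?_ | apply Df.isInj | apply Df.isCard | apply On.K1 | apply On.K2 | apply On.Gam | apply Fn.ran | apply Fn.zfst | apply Fn.zsnd | exact Fn.var _ | exact Fn.const ‹_› | exact On.const ‹_› | exact Df.prop _ | apply Df.and | apply Df.or | apply Df.not | apply Df.iff | apply Df.ex | apply Df.bex | apply Df.oex | apply Df.obex | apply Df.all | apply Df.ball | apply Df.oall | apply Df.oball | apply Df.imp | apply Df.mem | apply Df.eq | apply Df.oeq | apply Df.olt | apply Df.ole | apply Df.subset | apply Df.isOrdinal | apply Fn.pair | apply Fn.app | apply Fn.upair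 | apply Fn.single | apply Fn.insert | apply Fn.union | apply Fn.sUnion | apply Fn.prod | apply Fn.sep | apply Fn.img | apply Fn.ite | exact Fn.omega | exact Fn.empty | exact Fn.nat _ | apply On.fn | apply On.ro | apply On.succ | apply On.max | apply On.ite | apply On.mu | exact On.zero | exact On.one | exact On.omega | exact On.nat _) | exact On.ofNat _ | with_reducible (first | refine Fn.osub1 ‹_› ?_ | refine On.sub1 ‹_› ?_ | refine Df.osub1 ‹_› ?_ | refine On.zsub1 ‹_› ?_ | refine Fn.sub1 ‹_› ?_ | refine Df.sub1 ‹_› ?_ | refine Fn.sub2 ‹_› ?_ ?_ | refine Df.sub2 ‹_› ?_ ?_)))))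
    (LL_sub hA ha)
  have h5 := op_LL (h1.2 _ h3) (single_LL hp) (j := 5) (by norm_num) fun _ => Iff.rfl
  refine op_LL ha h5 (j := 8) (by norm_num) fun z => and_congr_right fun hz => ?_
  have hz' := LL_tr _ ha _ hz
  rw [← h2 _ (scons_in hz' hv)]
  simp only [mem_sep, mem_singleton, pair_inj]
  constructor
  · rintro ⟨s, ⟨-, h6⟩, _, _, ⟨-, rfl⟩, rfl⟩
    exact h6
  · intro h6
    obtain ⟨u, hu, rfl⟩ := h4 z hz ⟨_, pair_LL hz' hp, rfl⟩
    exact ⟨_, ⟨hu, h6⟩, _, _, ⟨rfl, rfl⟩, rfl⟩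

theorem sepRD_LL (hA : A ∈ M) {Q : Pred} (h : RD Q) {v : ℕ → Z} (hv : In (LL M A) v) {a : Z}
    (ha : a ∈ LL M A) : ZFSet.sep (fun z => Q (LL M A) (scons z v)) a ∈ LL M A := by
  obtain ⟨θ, hθ⟩ := RD.satS h
  convert sep_LL hA θ hv ha using 1
  ext z
  simp only [mem_sep]
  exact and_congr_right fun hz => (hθ _ LL_tr _ (scons_in (LL_tr _ ha _ hz) hv)).symm

theorem ord_LL (hA : A ∈ M) (o : O) : o.toZFSet ∈ M → o.toZFSet ∈ LL M A := by
  induction o using WellFoundedLT.induction with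
  | _ o ih =>
  intro ho
  obtain ⟨a, -, h2, h3⟩ := bound_LL hA ho fun x hx => by
    obtain ⟨b, hb, rfl⟩ := mem_toZFSet_iff.1 hx
    exact ih b hb (tr ho hx)
  have h4 : ZFSet.sep IsOrdinal (GS A a) ∈ LL M A :=
    sepRD_LL hA RD.isOrdinal (v := fun _ => ∅) (fun _ => empty_LL) h2
  have h5 : (ZFSet.sep IsOrdinal (GS A a)).IsOrdinal := by
    rw [isOrdinal_iff_forall_mem_isOrdinal]
    exact ⟨fun x hx y hy => mem_sep.2 ⟨GS_tr a _ (mem_sep.1 hx).1 _ hy, (mem_sep.1 hx).2.mem hy⟩,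
      fun x hx => (mem_sep.1 hx).2⟩
  rcases ((isOrdinal_toZFSet o).subset_iff_eq_or_mem h5).1
    (fun x hx => mem_sep.2 ⟨h3 hx, (isOrdinal_toZFSet o).mem hx⟩) with h | h
  · rwa [h]
  · exact LL_tr _ h4 _ h

theorem zfm_LL (hA : A ∈ M) : ZFM (LL M A) where
  trans := LL_tr
  pairing := fun _ hx _ hy => upair_LL hx hy
  union := fun x hx => by
    obtain ⟨a, -, h2, h3⟩ := mem_bound_LL hx
    convert sepRD_LL hA (RD.bex 1 (RD.mem 1 0)) (v := fun _ => x) (fun _ => hx) h2 using 1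
    ext z
    rw [mem_sep, mem_sUnion]
    exact ⟨fun ⟨y, h4, h5⟩ => ⟨GS_tr a _ (GS_tr a _ h3 _ h4) _ h5, y, h4, h5⟩, fun h => h.2⟩
  power := fun x hx => by
    obtain ⟨p, hp, h1⟩ := hM.out.power x (LL_sub hA hx)
    obtain ⟨a, -, h2, h3⟩ := collect hA (R := fun x u => u = x) (by (repeat' (beta_reduce; (first | with_reducible (first | refine Fn.GF ‹_› ?_ | refine Fn.GS ‹_› ?_ | apply Df.isInj | apply Df.isCard | apply On.K1 | apply On.K2 | apply On.Gam | apply Fn.ran | apply Fn.zfst | apply Fn.zsnd | exact Fn.var _ | exact Fn.const ‹_› | exact On.const ‹_› | exact Df.prop _ | apply Df.and | apply Df.or | apply Df.not | apply Df.iff | apply Df.ex | apply Df.bex | apply Df.oex | apply Df.obex | apply Df.all | apply Df.ball | apply Df.oall | apply Df.oball | apply Df.imp | apply Df.mem | apply Df.eq | apply Df.oeq | apply Df.olt | apply Df.ole | apply Df.subset | apply Df.isOrdinal | apply Fn.pair | apply Fn.app | apply Fn.upair | apply Fn.single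 | apply Fn.insert | apply Fn.union | apply Fn.sUnion | apply Fn.prod | apply Fn.sep | apply Fn.img | apply Fn.ite | exact Fn.omega | exact Fn.empty | exact Fn.nat _ | apply On.fn | apply On.ro | apply On.succ | apply On.max | apply On.ite | apply On.mu | exact On.zero | exact On.one | exact On.omega | exact On.nat _) | exact On.ofNat _ | with_reducible (first | refine Fn.osub1 ‹_› ?_ | refine On.sub1 ‹_› ?_ | refine Df.osub1 ‹_› ?_ | refine On.zsub1 ‹_› ?_ | refine Fn.sub1 ‹_› ?_ | refine Df.sub1 ‹_› ?_ | refine Fn.sub2 ‹_› ?_ ?_ | refine Df.sub2 ‹_› ?_ ?_))))) hp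
    refine ⟨_, sepRD_LL hA (RD.subset 0 1) (v := fun _ => x) (fun _ => hx) h2, fun y hy => ?_⟩
    rw [mem_sep]
    refine ⟨fun h => h.2, fun h => ⟨?_, h⟩⟩
    obtain ⟨u, hu, rfl⟩ := h3 y ((h1 y (LL_sub hA hy)).2 h) ⟨y, hy, rfl⟩
    exact hu
  omega := toZ_omega ▸ ord_LL hA _ oomega_M
  separation := fun φ v a => ⟨⟨_, sep_LL hA φ (v := fun i => v i) (fun i => (v i).2) a.2⟩,
    fun z => by rw [sat_iff, coe_scons]; dsimp only; exact mem_sep⟩
  replacement := fun φ v a h => by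
    simp only [sat_iff, coe_scons] at h ⊢
    obtain ⟨c, -, h2, h3⟩ := collect hA
      (R := fun z u => SatS (LL M A) (scons z (scons u fun i => v i)) φ)
      ((Df.satS φ (U := fun _ => LL M A)
        (e := scons (fun w => w 0) (scons (fun w => w 1) fun i _ => v i))
        (Df.LL hA (Fn.var 0)) (fun _ _ => LL_sub hA) (fn_scons (Fn.var 0) (fn_scons (Fn.var 1)
          fun i => Fn.const (LL_sub hA (v i).2)))).congr fun w _ => iff_of_eq (by
            congr 1
            funext i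
            rcases i with _ | _ | i <;> rfl)) (LL_sub hA a.2)
    let ρ : ℕ → ℕ := fun i => match i with
      | 0 => 0
      | 1 => 1
      | n + 2 => n + 3
    have hφ : RD fun U w => SatS U w φ := ⟨φ, fun _ _ w => sat_iff φ w⟩
    refine ⟨⟨_, sepRD_LL hA (RD.bex 1 (hφ.ren ρ)) (v := scons a fun i => v i)
      (scons_in a.2 fun i => (v i).2) h2⟩, fun w => ?_⟩
    have e : ∀ z : Z, (fun i => scons z (scons (w : Z) (scons (a : Z) fun i => (v i : Z))) (ρ i)) =
        scons z (scons (w : Z) fun i => (v i : Z)) := by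
      intro z
      funext i
      rcases i with _ | _ | i <;> rfl
    simp only [mem_sep, e]
    constructor
    · rintro ⟨-, z, hz, h4⟩
      exact ⟨⟨z, LL_tr _ a.2 _ hz⟩, hz, h4⟩
    · rintro ⟨z, hz, h4⟩
      refine ⟨?_, z, hz, h4⟩
      obtain ⟨u, hu, h5⟩ := h3 z hz ⟨w, w.2, h4⟩
      rw [(h z hz).unique h4 (y₂ := ⟨u, LL_tr _ h2 _ hu⟩) h5]
      exact hu

theorem A_LL (hA : A ⊆ ZFSet.omega) (hA' : A ∈ M) : A ∈ LL M A := by
  obtain ⟨b, h0, -, h1⟩ := mem_bound_LL (zfm_LL hA').omega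
  obtain ⟨a, h2, h3, -, -, h4⟩ := exists_op (A := A) empty_LL empty_LL (zn_LL (M := M) 9) h0
  refine ⟨a, h2, ZFSet.ext fun z => ?_⟩
  rw [h4, Op_nine]
  exact ⟨fun h => h.2, fun h => ⟨GS_mono h3 (GS_tr b _ h1 _ (hA h)), h⟩⟩

/-- `V = L[A]` -/
structure IsL (V : Set Z) (A : Z) : Prop where
  sub : A ⊆ ZFSet.omega
  mem : A ∈ V
  all : ∀ x ∈ V, ∃ o : O, o.toZFSet ∈ V ∧ GF A o = x

theorem isL_LL (hA : A ⊆ ZFSet.omega) (hA' : A ∈ M) : IsL (LL M A) A :=
  ⟨hA, A_LL hA hA', fun _ ⟨o, h1, h2⟩ => ⟨o, ord_LL hA' o h1, h2⟩⟩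

/-- the least index of a set -/
noncomputable def idx (M : Set Z) (A x : Z) : O := mu M fun c => GF A c = x

theorem On.idx (hA : A ∈ M) {s : (ℕ → Z) → Z} (hs : Fn M s) : On M fun v => idx M A (s v) :=
  On.zsub1 (g := LA.idx M A) (by unfold LA.idx; (repeat' (beta_reduce; (first | with_reducible (first | refine Fn.GF ‹_› ?_ | refine Fn.GS ‹_› ?_ | apply Df.isInj | apply Df.isCard | apply On.K1 | apply On.K2 | apply On.Gam | apply Fn.ran | apply Fn.zfst | apply Fn.zsnd | exact Fn.var _ | exact Fn.const ‹_› | exact On.const ‹_› | exact Df.prop _ | apply Df.and | apply Df.or | apply Df.not | apply Df.iff | apply Df.ex | apply Df.bex | apply Df.oex | apply Df.obex | apply Df.all | apply Df.ball | apply Df.oall | apply Df.oball | apply Df.imp | apply Df.mem | apply Df.eq | apply Df.oeq | apply Df.olt | apply Df.ole | apply Df.subset | apply Df.isOrdinal | apply Fn.pair | apply Fn.app | apply Fn.upair | apply Fn.single | apply Fn.insert | apply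 Fn.union | apply Fn.sUnion | apply Fn.prod | apply Fn.sep | apply Fn.img | apply Fn.ite | exact Fn.omega | exact Fn.empty | exact Fn.nat _ | apply On.fn | apply On.ro | apply On.succ | apply On.max | apply On.ite | apply On.mu | exact On.zero | exact On.one | exact On.omega | exact On.nat _) | exact On.ofNat _ | with_reducible (first | refine Fn.osub1 ‹_› ?_ | refine On.sub1 ‹_› ?_ | refine Df.osub1 ‹_› ?_ | refine On.zsub1 ‹_› ?_ | refine Fn.sub1 ‹_› ?_ | refine Df.sub1 ‹_› ?_ | refine Fn.sub2 ‹_› ?_ ?_ | refine Df.sub2 ‹_› ?_ ?_))))) hs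


omit hM in
theorem IsL.idx (h : IsL M A) {x : Z} (hx : x ∈ M) : GF A (idx M A x) = x :=
  (mu_spec (h.all x hx)).2

theorem IsL.wo (h : IsL M A) : WO M := by
  intro a ha
  obtain ⟨o, ho, rfl⟩ := h.all a ha
  exact ⟨o, Le.of_surj (Fn.GF0 h.mem) ho fun y hy => mem_GS.1 (mem_GF.1 hy).1⟩

theorem IsL.ctm (h : IsL M A) (hc : M.Countable) : CTM M where
  countable := hc
  trans := hM.out.trans
  pairing := hM.out.pairing
  union := hM.out.union
  power := hM.out.power
  infinity := ⟨_, omega_M, omega_zero, fun _ => omega_succ⟩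
  separation := hM.out.separation
  replacement := hM.out.replacement
  choice := fun a ha hne => by
    have hA := h.mem
    refine ⟨grf (fun b => GF A (mu M fun c => GF A c ∈ b)) a, grf_M (by (repeat' (beta_reduce; (first | with_reducible (first | refine On.idx ‹_› ?_ | refine Fn.GF ‹_› ?_ | refine Fn.GS ‹_› ?_ | apply Df.isInj | apply Df.isCard | apply On.K1 | apply On.K2 | apply On.Gam | apply Fn.ran | apply Fn.zfst | apply Fn.zsnd | exact Fn.var _ | exact Fn.const ‹_› | exact On.const ‹_› | exact Df.prop _ | apply Df.and | apply Df.or | apply Df.not | apply Df.iff | apply Df.ex | apply Df.bex | apply Df.oex | apply Df.obex | apply Df.all | apply Df.ball | apply Df.oall | apply Df.oball | apply Df.imp | apply Df.mem | apply Df.eq | apply Df.oeq | apply Df.olt | apply Df.ole | apply Df.subset | apply Df.isOrdinal | apply Fn.pair | apply Fn.app | apply Fn.upair | apply Fn.single | apply Fn.insert | apply Fn.union | apply Fn.sUnion | apply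 Fn.prod | apply Fn.sep | apply Fn.img | apply Fn.ite | exact Fn.omega | exact Fn.empty | exact Fn.nat _ | apply On.fn | apply On.ro | apply On.succ | apply On.max | apply On.ite | apply On.mu | exact On.zero | exact On.one | exact On.omega | exact On.nat _) | exact On.ofNat _ | with_reducible (first | refine Fn.osub1 ‹_› ?_ | refine On.sub1 ‹_› ?_ | refine Df.osub1 ‹_› ?_ | refine On.zsub1 ‹_› ?_ | refine Fn.sub1 ‹_› ?_ | refine Df.sub1 ‹_› ?_ | refine Fn.sub2 ‹_› ?_ ?_ | refine Df.sub2 ‹_› ?_ ?_))))) ha, fun b hb => ?_⟩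
    obtain ⟨c, hc⟩ := (eq_empty_or_nonempty b).resolve_left (hne b hb)
    obtain ⟨o, ho, rfl⟩ := h.all c (tr (tr ha hb) hc)
    exact ⟨_, ⟨(mu_spec (R := fun c => GF A c ∈ b) ⟨o, ho, hc⟩).2, pair_mem_grf.2 ⟨hb, rfl⟩⟩,
      fun y hy => (pair_mem_grf.1 hy.2).2⟩

end Pool.Agent.H30Z.LA
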